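import Mathlib

/-!
Abstract functional analysis: lower eigenspaces of a compact form.
-/

set_option autoImplicit false

open Module End InnerProductSpace Filter Topology
open scoped InnerProductSpace

namespace Pool.Agent.Helper89.Stek

universe u

/-- A positive semidefinite form on a vector space is the pull back of the inner product of a Hilbert
space under a linear map with dense range. -/
lemma exists_hilbert {X : Type u} [AddCommGroup X] [Module ℝ X] (B : X →ₗ[ℝ] X →ₗ[ℝ] ℝ)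
    (hs : ∀ x y, B x y = B y x) (hp : ∀ x, 0 ≤ B x x) :
    ∃ (H : Type u) (_ : NormedAddCommGroup H) (_ : InnerProductSpace ℝ H) (_ : CompleteSpace H)
      (j : X →ₗ[ℝ] H), DenseRange j ∧ ∀ x y, ⟪j x, j y⟫_ℝ = B x y := by
  let c : PreInnerProductSpace.Core ℝ X :=
    { inner := fun x y => B x y
      conj_inner_symm := fun x y => by simp [hs y x]
      re_inner_nonneg := fun x => by simpa using hp x
      add_left := fun x y z => by simp
      smul_left := fun x y r => by simp }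
  let _i : SeminormedAddCommGroup X := @InnerProductSpace.Core.toSeminormedAddCommGroup ℝ X _ _ _ c
  let _i2 : InnerProductSpace ℝ X := InnerProductSpace.ofCore c
  refine ⟨UniformSpace.Completion X, inferInstance, inferInstance, inferInstance,
    (UniformSpace.Completion.toComplₗᵢ : X →ₗᵢ[ℝ] UniformSpace.Completion X).toLinearMap, ?_, ?_⟩
  · exact UniformSpace.Completion.denseRange_coe
  · intro x y
    exact UniformSpace.Completion.inner_coe x y

section Spectral

variable {H : Type*} [NormedAddCommGroup H] [InnerProductSpace ℝ H] [CompleteSpace H]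

/-- the span of the eigenspaces for the eigenvalues above `κ` -/
noncomputable def upper (K : H →L[ℝ] H) (κ : ℝ) : Submodule ℝ H :=
  ⨆ μ : Set.Ioi κ, eigenspace (K : End ℝ H) (μ : ℝ)

lemma upper_invariant (K : H →L[ℝ] H) (κ : ℝ) {x : H} (hx : x ∈ upper K κ) : K x ∈ upper K κ := by
  unfold upper at *
  induction hx using Submodule.iSup_induction' with
  | mem μ x hx =>
    have h1 : K x = (μ : ℝ) • x := by
      rw [mem_eigenspace_iff] at hx
      exact hx
    rw [h1]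
    exact Submodule.smul_mem _ _ (Submodule.mem_iSup_of_mem μ hx)
  | zero => simp
  | add x y _ _ hx hy => rw [map_add]; exact Submodule.add_mem _ hx hy

lemma upper_orth_invariant (K : H →L[ℝ] H) (hsym : (K : H →ₗ[ℝ] H).IsSymmetric) (κ : ℝ) {x : H}
    (hx : x ∈ (upper K κ)ᗮ) : K x ∈ (upper K κ)ᗮ := by
  rw [Submodule.mem_orthogonal] at *
  intro u hu
  have := hx (K u) (upper_invariant K κ hu)
  rw [← this]
  exact (hsym u x).symm

lemma upper_subset_range (K : H →L[ℝ] H) {κ : ℝ} (hκ : 0 ≤ κ) {x : H} (hx : x ∈ upper K κ) :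
    ∃ y, K y = x := by
  unfold upper at *
  induction hx using Submodule.iSup_induction' with
  | mem μ x hx =>
    have h1 : K x = (μ : ℝ) • x := by
      rw [mem_eigenspace_iff] at hx
      exact hx
    have h2 : (μ : ℝ) ≠ 0 := (lt_of_le_of_lt hκ μ.2).ne'
    refine ⟨(μ : ℝ)⁻¹ • x, ?_⟩
    rw [map_smul, h1, smul_smul, inv_mul_cancel₀ h2, one_smul]
  | zero => exact ⟨0, map_zero _⟩
  | add x y _ _ hx hy =>
    obtain ⟨a, ha⟩ := hx
    obtain ⟨b, hb⟩ := hy
    exact ⟨a + b, by rw [map_add, ha, hb]⟩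

/-- a compact symmetric operator has norm at most `κ` when all its eigenvalues are at most `κ` in absolute
value -/
lemma norm_le_of_eigenvalues {V : Type*} [NormedAddCommGroup V] [InnerProductSpace ℝ V] [CompleteSpace V]
    (S : V →L[ℝ] V) (hc : IsCompactOperator S) (hsym : (S : V →ₗ[ℝ] V).IsSymmetric) {κ : ℝ} (hκ : 0 ≤ κ)
    (hev : ∀ μ : ℝ, HasEigenvalue (S : End ℝ V) μ → |μ| ≤ κ) : ‖S‖ ≤ κ := by
  by_contra hcon
  push Not at hcon
  have hpos1 : 0 < ‖S‖ := lt_of_le_of_lt hκ hcon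
  have hrad := S.spectralRadius_eq_nnnorm hsym.isSelfAdjoint
  have hne : (spectrum ℝ S).Nonempty := by
    by_contra hemp
    rw [Set.not_nonempty_iff_eq_empty] at hemp
    have : spectralRadius ℝ S = 0 := by
      unfold spectralRadius
      simp [hemp]
    rw [this] at hrad
    have h0 : ‖S‖₊ = 0 := by
      exact_mod_cast hrad.symm
    have : ‖S‖ = 0 := by
      have := congrArg NNReal.toReal h0
      simpa using this
    linarith
  obtain ⟨μ, hμ, hμn⟩ := spectrum.exists_nnnorm_eq_spectralRadius_of_nonempty hne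
  rw [hrad] at hμn
  have hμn' : ‖μ‖ = ‖S‖ := by
    have h : ‖μ‖₊ = ‖S‖₊ := by exact_mod_cast hμn
    have := congrArg NNReal.toReal h
    simpa using this
  have hμ0 : μ ≠ 0 := by
    intro h
    rw [h, norm_zero] at hμn'
    linarith
  have h1 := hev μ ((hc.hasEigenvalue_iff_mem_spectrum hμ0).mpr hμ)
  rw [Real.norm_eq_abs] at hμn'
  linarith

/-- on the orthogonal complement of the upper eigenspaces the form is at most `κ` -/
lemma upper_orth_le (K : H →L[ℝ] H) (hc : IsCompactOperator K)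
    (hsym : (K : H →ₗ[ℝ] H).IsSymmetric) (hpos : ∀ x, 0 ≤ ⟪K x, x⟫_ℝ) {κ : ℝ} (hκ : 0 ≤ κ)
    {w : H} (hw : w ∈ (upper K κ)ᗮ) : ⟪K w, w⟫_ℝ ≤ κ * ‖w‖ ^ 2 := by
  have hinv : ∀ x ∈ (upper K κ)ᗮ, (K : H →ₗ[ℝ] H) x ∈ (upper K κ)ᗮ :=
    fun x hx => upper_orth_invariant K hsym κ hx
  let S : (upper K κ)ᗮ →L[ℝ] (upper K κ)ᗮ := K.restrict hinv
  have hScomp : IsCompactOperator S := hc.restrict' hinv
  have hSsym : (S : (upper K κ)ᗮ →ₗ[ℝ] (upper K κ)ᗮ).IsSymmetric := hsym.restrict_invariant hinv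
  have hSnorm : ‖S‖ ≤ κ := by
    refine norm_le_of_eigenvalues S hScomp hSsym hκ fun μ hev => ?_
    obtain ⟨v, hv⟩ := hev.exists_hasEigenvector
    have hv0 : (v : H) ≠ 0 := by
      intro h
      exact hv.2 (Subtype.ext h)
    have hKv : K (v : H) = μ • (v : H) := by
      have h1 := hv.apply_eq_smul
      have h2 := congrArg Subtype.val h1
      exact h2
    have hμpos : 0 ≤ μ := by
      have h1 := hpos (v : H)
      rw [hKv, real_inner_smul_left, real_inner_self_eq_norm_sq] at h1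
      have h2 : 0 < ‖(v : H)‖ ^ 2 := by positivity
      by_contra hneg
      push Not at hneg
      nlinarith
    rw [abs_of_nonneg hμpos]
    by_contra hμκ
    push Not at hμκ
    have hmem : (v : H) ∈ upper K κ := by
      unfold upper
      refine Submodule.mem_iSup_of_mem ⟨μ, hμκ⟩ ?_
      rw [mem_eigenspace_iff]
      exact hKv
    have h3 := (Submodule.mem_orthogonal _ _).mp v.2 (v : H) hmem
    rw [real_inner_self_eq_norm_sq] at h3
    have h4 : ‖(v : H)‖ = 0 := by simpa using h3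
    exact hv0 (norm_eq_zero.mp h4)
  have h1 : ⟪K w, w⟫_ℝ ≤ ‖K w‖ * ‖w‖ := real_inner_le_norm _ _
  have h2 : ‖K w‖ ≤ κ * ‖w‖ := by
    have h3 := S.le_opNorm ⟨w, hw⟩
    have h4 : ‖S ⟨w, hw⟩‖ = ‖K w‖ := rfl
    have h5 : ‖(⟨w, hw⟩ : (upper K κ)ᗮ)‖ = ‖w‖ := rfl
    rw [h4, h5] at h3
    exact h3.trans (mul_le_mul_of_nonneg_right hSnorm (norm_nonneg _))
  calc ⟪K w, w⟫_ℝ ≤ ‖K w‖ * ‖w‖ := h1
    _ ≤ κ * ‖w‖ * ‖w‖ := mul_le_mul_of_nonneg_right h2 (norm_nonneg _)
    _ = κ * ‖w‖ ^ 2 := by ring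

/-- a lower bound of the form on finite sums of upper eigenspaces -/
lemma upper_finset (K : H →L[ℝ] H) (hsym : (K : H →ₗ[ℝ] H).IsSymmetric) {κ : ℝ}
    (s : Finset (Set.Ioi κ)) : ∃ κ' > κ, ∀ x ∈ ⨆ μ ∈ s, eigenspace (K : End ℝ H) (μ : ℝ),
      κ' * ‖x‖ ^ 2 ≤ ⟪K x, x⟫_ℝ := by
  obtain ⟨κ', hκ', hmin⟩ : ∃ κ' > κ, ∀ μ ∈ s, κ' ≤ (μ : ℝ) := by
    rcases s.eq_empty_or_nonempty with h | h
    · exact ⟨κ + 1, by linarith, by simp [h]⟩
    · obtain ⟨μ, hμ, hm⟩ := s.exists_min_image (fun μ => (μ : ℝ)) h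
      exact ⟨μ, μ.2, hm⟩
  refine ⟨κ', hκ', fun x hx => ?_⟩
  rw [Submodule.mem_iSup_finset_iff_exists_sum] at hx
  obtain ⟨l, hl⟩ := hx
  have horth := hsym.orthogonalFamily_eigenspaces
  have horth2 := horth.comp (Subtype.val_injective (p := fun μ : ℝ => μ ∈ Set.Ioi κ))
  have h1 : ‖x‖ ^ 2 = ∑ μ ∈ s, ‖l μ‖ ^ 2 := by
    rw [← hl]
    exact horth2.norm_sum l s
  have h2 : K x = ∑ μ ∈ s, (((μ : ℝ) • l μ : eigenspace (K : End ℝ H) (μ : ℝ)) : H) := by
    rw [← hl, map_sum]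
    refine Finset.sum_congr rfl fun μ _ => ?_
    have := (l μ).2
    rw [mem_eigenspace_iff] at this
    exact this
  have h3 : ⟪K x, x⟫_ℝ = ∑ μ ∈ s, (μ : ℝ) * ‖l μ‖ ^ 2 := by
    rw [h2, ← hl]
    have := horth2.inner_sum (fun μ => ((μ : ℝ) • l μ : eigenspace (K : End ℝ H) (μ : ℝ))) l s
    refine this.trans (Finset.sum_congr rfl fun μ _ => ?_)
    rw [real_inner_smul_left, real_inner_self_eq_norm_sq]
  rw [h3, h1, Finset.mul_sum]
  exact Finset.sum_le_sum fun μ hμ => mul_le_mul_of_nonneg_right (hmin μ hμ) (by positivity)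

/-- if the upper eigenspaces have dimension above `k`, there is a subspace of dimension `k + 1` with a
uniform bound -/
lemma exists_big (K : H →L[ℝ] H) (hsym : (K : H →ₗ[ℝ] H).IsSymmetric) {κ : ℝ} {n : ℕ}
    (h : (n : Cardinal) ≤ Module.rank ℝ (upper K κ)) :
    ∃ (v : Fin n → H), LinearIndependent ℝ v ∧ ∃ κ' > κ, ∀ x ∈ Submodule.span ℝ (Set.range v),
      κ' * ‖x‖ ^ 2 ≤ ⟪K x, x⟫_ℝ := by
  classical
  obtain ⟨v, hv⟩ := exists_linearIndependent_of_le_rank h
  have hv' : LinearIndependent ℝ (fun i => (v i : H)) :=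
    hv.map' (upper K κ).subtype (Submodule.ker_subtype _)
  have hfin : ∀ i, ∃ s : Finset (Set.Ioi κ), (v i : H) ∈ ⨆ μ ∈ s, eigenspace (K : End ℝ H) (μ : ℝ) := by
    intro i
    exact (Submodule.mem_iSup_iff_exists_finset).mp (v i).2
  choose s hs using hfin
  obtain ⟨κ', hκ', hb⟩ := upper_finset K hsym (Finset.univ.biUnion s)
  refine ⟨fun i => (v i : H), hv', κ', hκ', fun x hx => hb x ?_⟩
  refine (Submodule.span_le.mpr ?_ : Submodule.span ℝ (Set.range fun i => (v i : H)) ≤ _) hx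
  rintro _ ⟨i, rfl⟩
  have hle : (⨆ μ ∈ s i, eigenspace (K : End ℝ H) (μ : ℝ)) ≤
      ⨆ μ ∈ Finset.univ.biUnion s, eigenspace (K : End ℝ H) (μ : ℝ) := by
    refine iSup₂_le fun μ hμ => ?_
    refine le_iSup₂_of_le μ ?_ le_rfl
    simp only [Finset.mem_biUnion, Finset.mem_univ, true_and]
    exact ⟨i, hμ⟩
  exact hle (hs i)

end Spectral

end Pool.Agent.Helper89.Stek
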