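import Pool.Agent.Helper89.Stek.Abs

/-!
Abstract functional analysis: the main theorem on lower eigenspaces.
-/

set_option autoImplicit false

open Module End InnerProductSpace Filter Topology
open scoped InnerProductSpace

namespace Pool.Agent.Helper89.Stek

universe u

section

variable {H : Type*} [NormedAddCommGroup H] [InnerProductSpace ℝ H] [CompleteSpace H]
variable {G : Type*} [NormedAddCommGroup G] [InnerProductSpace ℝ G] [CompleteSpace G]

lemma compact_of_approx (ι : H →L[ℝ] G)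
    (h : ∀ ε > 0, ∃ (n : ℕ) (C : ℝ) (a : Fin n → H), ∀ x, ‖ι x‖ ^ 2 ≤ ε * ‖x‖ ^ 2 + C * ∑ i, ⟪a i, x⟫_ℝ ^ 2) :
    IsCompactOperator ι := by
  refine (isClosed_setOfPred_isCompactOperator (𝕜₁ := ℝ) (𝕜₂ := ℝ) (σ₁₂ := RingHom.id ℝ) (M₁ := H)
    (M₂ := G)).closure_subset ?_
  rw [Metric.mem_closure_iff]
  intro δ hδ
  obtain ⟨n, C, a, ha⟩ := h ((δ / 2) ^ 2) (by positivity)
  let W : Submodule ℝ H := Submodule.span ℝ (Set.range a)
  have : FiniteDimensional ℝ W := FiniteDimensional.span_of_finite ℝ (Set.finite_range a)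
  refine ⟨ι.comp W.starProjection, ?_, ?_⟩
  · have := FiniteDimensional.proper ℝ W
    have h1 : IsCompactOperator (ι.comp W.subtypeL) :=
      isCompactOperator_of_locallyCompactSpace_rng (ι.comp W.subtypeL)
    have h2 := h1.comp_clm W.orthogonalProjectionOnto
    exact h2
  · rw [dist_eq_norm]
    refine lt_of_le_of_lt ?_ (half_lt_self hδ)
    refine ContinuousLinearMap.opNorm_le_bound _ (by positivity) fun x => ?_
    have h1 : (ι - ι.comp W.starProjection) x = ι (x - W.starProjection x) := by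
      rw [map_sub]; rfl
    rw [h1]
    set y := x - W.starProjection x with hy
    have hyW : y ∈ Wᗮ := W.sub_starProjection_mem_orthogonal x
    have h2 : ∀ i, ⟪a i, y⟫_ℝ = 0 := fun i =>
      (Submodule.mem_orthogonal _ _).mp hyW (a i) (Submodule.subset_span ⟨i, rfl⟩)
    have h3 := ha y
    simp only [h2] at h3
    have h4 : ‖ι y‖ ^ 2 ≤ (δ / 2 * ‖y‖) ^ 2 := by
      refine h3.trans (le_of_eq ?_)
      simp
      ring
    have h5 : ‖ι y‖ ≤ δ / 2 * ‖y‖ := by
      exact abs_le_of_sq_le_sq' h4 (by positivity) |>.2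
    have h6 : ‖y‖ ≤ ‖x‖ := by
      have h7 : y = Wᗮ.starProjection x := by
        rw [hy, Submodule.starProjection_orthogonal_val]
      rw [h7]
      exact Submodule.norm_starProjection_apply_le _ _
    exact h5.trans (mul_le_mul_of_nonneg_left h6 (by positivity))

/-- Cauchy-Schwarz for a positive semidefinite form on a submodule -/
lemma psd_cauchy {V : Type*} [AddCommGroup V] [Module ℝ V] (B : V →ₗ[ℝ] V →ₗ[ℝ] ℝ)
    (hs : ∀ x y, B x y = B y x) (hp : ∀ x, 0 ≤ B x x) (x y : V) : B x y ^ 2 ≤ B x x * B y y := by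
  have h : ∀ t : ℝ, 0 ≤ B y y * (t * t) + (2 * B x y) * t + B x x := by
    intro t
    have := hp (x + t • y)
    simp only [map_add, map_smul, LinearMap.add_apply, LinearMap.smul_apply, smul_eq_mul] at this
    rw [hs y x] at this
    linarith
  have h2 := discrim_le_zero h
  unfold discrim at h2
  nlinarith

end

theorem exists_functionals {X : Type u} [AddCommGroup X] [Module ℝ X] (D m : X →ₗ[ℝ] X →ₗ[ℝ] ℝ)
    (hDs : ∀ x y, D x y = D y x) (hms : ∀ x y, m x y = m y x)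
    (hDp : ∀ x, 0 ≤ D x x) (hmp : ∀ x, 0 ≤ m x x) (k : ℕ) {lam : ℝ} (hlam : 0 < lam)
    (hcomp : ∀ ε > 0, ∃ (n : ℕ) (C : ℝ) (a : Fin n → X →ₗ[ℝ] ℝ),
      (∀ i u, (a i u) ^ 2 ≤ C * (D u u + m u u)) ∧
      ∀ u, m u u ≤ ε * (D u u + m u u) + C * ∑ i, (a i u) ^ 2)
    (hmin : ∀ E : Submodule ℝ X, Module.finrank ℝ E = k + 1 → (∀ u ∈ E, m u u = 0 → u = 0) →
      ∀ Λ : ℝ, (∀ u ∈ E, D u u ≤ Λ * m u u) → lam ≤ Λ) :
    (∃ n ≤ k, ∃ (l : Fin n → X →ₗ[ℝ] ℝ) (C : ℝ), (∀ i u, (l i u) ^ 2 ≤ C * m u u) ∧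
      ∀ v, (∀ i, l i v = 0) → 0 ≤ D v v - lam * m v v ∧
        ∀ w, (D v w - lam * m v w) ^ 2 ≤ (D v v - lam * m v v) * (D w w + m w w)) ∧
    (∀ u : ℕ → X, (∀ j, D (u j) (u j) + m (u j) (u j) ≤ 1) → ∃ φ : ℕ → ℕ, StrictMono φ ∧
      ∀ ε > 0, ∃ N, ∀ i ≥ N, ∀ j ≥ N, m (u (φ i) - u (φ j)) (u (φ i) - u (φ j)) ≤ ε) := by
  obtain ⟨H, _, _, _, j, hjd, hj⟩ := exists_hilbert (D + m) (fun x y => by simp [hDs x y, hms x y])
    (fun x => by simpa using add_nonneg (hDp x) (hmp x))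
  obtain ⟨G, _, _, _, jm, _, hjm⟩ := exists_hilbert m hms hmp
  have hjn : ∀ x, ‖j x‖ ^ 2 = D x x + m x x := fun x => by
    rw [← real_inner_self_eq_norm_sq, hj]; rfl
  have hjmn : ∀ x, ‖jm x‖ ^ 2 = m x x := fun x => by
    rw [← real_inner_self_eq_norm_sq, hjm]
  have hle : ∀ x, ‖jm x‖ ≤ 1 * ‖j x‖ := fun x => by
    rw [one_mul]
    refine abs_le_of_sq_le_sq' ?_ (norm_nonneg _) |>.2
    rw [hjn, hjmn]
    linarith [hDp x]
  obtain ⟨ι, hι⟩ : ∃ ι : H →L[ℝ] G, ∀ x, ι (j x) = jm x :=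
    ⟨jm.extendOfNorm j, fun x => LinearMap.extendOfNorm_eq hjd ⟨1, hle⟩ x⟩
  have hιle : ∀ x, ‖ι x‖ ≤ ‖x‖ := by
    intro x
    refine hjd.induction_on (p := fun x => ‖ι x‖ ≤ ‖x‖) x
      (isClosed_le (by fun_prop) (by fun_prop)) fun a => ?_
    rw [hι]
    simpa using hle a
  -- compactness
  have hιc : IsCompactOperator ι := by
    refine compact_of_approx ι fun ε hε => ?_
    obtain ⟨n, C, a, ha1, ha2⟩ := hcomp ε hε
    have hα : ∀ i, ∃ α : H →L[ℝ] ℝ, ∀ x, α (j x) = a i x := by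
      intro i
      refine ⟨(a i).extendOfNorm j, fun x => LinearMap.extendOfNorm_eq hjd ⟨Real.sqrt |C|, fun x => ?_⟩ x⟩
      have h1 := ha1 i x
      rw [← hjn] at h1
      have h2 : (a i x) ^ 2 ≤ (Real.sqrt |C| * ‖j x‖) ^ 2 := by
        rw [mul_pow, Real.sq_sqrt (abs_nonneg _)]
        exact h1.trans (mul_le_mul_of_nonneg_right (le_abs_self _) (by positivity))
      rw [Real.norm_eq_abs]
      exact abs_le_of_sq_le_sq h2 (by positivity)
    choose α hα using hα
    refine ⟨n, C, fun i => (InnerProductSpace.toDual ℝ H).symm (α i), fun x => ?_⟩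
    refine hjd.induction_on (p := fun x => ‖ι x‖ ^ 2 ≤ ε * ‖x‖ ^ 2 +
      C * ∑ i, ⟪(InnerProductSpace.toDual ℝ H).symm (α i), x⟫_ℝ ^ 2) x
      (isClosed_le (by fun_prop) (by fun_prop)) fun u => ?_
    have h1 := ha2 u
    rw [hι, hjmn, hjn]
    refine h1.trans (le_of_eq ?_)
    congr 2
    refine Finset.sum_congr rfl fun i _ => ?_
    rw [InnerProductSpace.toDual_symm_apply, hα]
  obtain ⟨K, hK⟩ : ∃ K : H →L[ℝ] H, K = ι.adjoint.comp ι := ⟨_, rfl⟩
  have hKin : ∀ x y, ⟪K x, y⟫_ℝ = ⟪ι x, ι y⟫_ℝ := fun x y => by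
    rw [hK]
    exact ContinuousLinearMap.adjoint_inner_left ι y (ι x)
  have hKc : IsCompactOperator K := by
    rw [hK]
    exact hιc.clm_comp ι.adjoint
  have hKs : (K : H →ₗ[ℝ] H).IsSymmetric := by
    intro x y
    have h1 := hKin x y
    have h2 := hKin y x
    calc ⟪K x, y⟫_ℝ = ⟪ι x, ι y⟫_ℝ := h1
      _ = ⟪ι y, ι x⟫_ℝ := real_inner_comm _ _
      _ = ⟪K y, x⟫_ℝ := h2.symm
      _ = ⟪x, K y⟫_ℝ := real_inner_comm _ _
  have hKp : ∀ x, 0 ≤ ⟪K x, x⟫_ℝ := fun x => by
    rw [hKin]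
    exact real_inner_self_nonneg
  obtain ⟨κ, hκ⟩ : ∃ κ : ℝ, κ = 1 / (1 + lam) := ⟨_, rfl⟩
  have hκ0 : 0 < κ := by rw [hκ]; positivity
  have hκ1 : (1 + lam) * κ = 1 := by rw [hκ]; field_simp
  -- the upper eigenspaces have dimension at most `k`
  have hrank : ¬ (((k + 1 : ℕ) : Cardinal) ≤ Module.rank ℝ (upper K κ)) := by
    intro hr
    obtain ⟨v, hv, κ', hκ', hb⟩ := exists_big K hKs hr
    obtain ⟨S, hS⟩ : ∃ S : Submodule ℝ H, S = Submodule.span ℝ (Set.range v) := ⟨_, rfl⟩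
    rw [← hS] at hb
    have hSfd : FiniteDimensional ℝ S := by
      rw [hS]
      exact FiniteDimensional.span_of_finite ℝ (Set.finite_range v)
    have hSrank : Module.finrank ℝ S = k + 1 := by
      rw [hS, finrank_span_eq_card hv, Fintype.card_fin]
    have hκ'0 : 0 < κ' := hκ0.trans hκ'
    -- choose a small parameter
    obtain ⟨η, hη0, hη1, hη2, hη3⟩ : ∃ η : ℝ, 0 < η ∧ η < 1 ∧ 0 < Real.sqrt κ' - η ∧
        κ < ((Real.sqrt κ' - η) / (1 + η)) ^ 2 := by
      have hcont : ContinuousAt (fun η : ℝ => ((Real.sqrt κ' - η) / (1 + η)) ^ 2) 0 := by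
        apply ContinuousAt.pow
        apply ContinuousAt.div
        · fun_prop
        · fun_prop
        · norm_num
      have h1 : ∀ᶠ η in 𝓝 (0 : ℝ), κ < ((Real.sqrt κ' - η) / (1 + η)) ^ 2 := by
        refine hcont.eventually_const_lt ?_
        simp only [sub_zero, add_zero, div_one]
        rw [Real.sq_sqrt hκ'0.le]
        exact hκ'
      have h2 : ∀ᶠ η in 𝓝 (0 : ℝ), η < 1 := eventually_lt_nhds one_pos
      have h3 : ∀ᶠ η in 𝓝 (0 : ℝ), η < Real.sqrt κ' := eventually_lt_nhds (Real.sqrt_pos.mpr hκ'0)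
      obtain ⟨r, hr, hr2⟩ := Metric.eventually_nhds_iff.mp (h1.and (h2.and h3))
      obtain ⟨h4, h5, h6⟩ := hr2 (y := r / 2) (by
        rw [Real.dist_eq, sub_zero, abs_of_pos (by positivity)]; linarith)
      exact ⟨r / 2, by positivity, h5, by linarith, h4⟩
    obtain ⟨b, hbdef⟩ : ∃ b : OrthonormalBasis (Fin (k + 1)) ℝ S, True :=
      ⟨(stdOrthonormalBasis ℝ S).reindex (finCongr hSrank), trivial⟩
    have hx : ∀ i, ∃ x : X, ‖j x - (b i : H)‖ < η / (k + 1) := by
      intro i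
      obtain ⟨x, hx⟩ := Metric.denseRange_iff.mp hjd (b i : H) (η / (k + 1)) (by positivity)
      refine ⟨x, ?_⟩
      rw [dist_eq_norm, ← norm_neg, neg_sub] at hx
      exact hx
    choose x hx using hx
    obtain ⟨L, hL⟩ : ∃ L : S →ₗ[ℝ] X, ∀ i, L (b i) = x i :=
      ⟨b.toBasis.constr ℝ x, fun i => by
        have := b.toBasis.constr_basis ℝ x i
        simpa using this⟩
    have hLs : ∀ s : S, ‖j (L s) - (s : H)‖ ≤ η * ‖s‖ := by
      intro s
      have h1 : s = ∑ i, ⟪b i, s⟫_ℝ • b i := (b.sum_repr' s).symm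
      have h2 : j (L s) - (s : H) = ∑ i, ⟪b i, s⟫_ℝ • (j (x i) - (b i : H)) := by
        conv_lhs => rw [h1]
        rw [map_sum, map_sum]
        simp only [map_smul, hL]
        rw [Submodule.coe_sum]
        simp only [Submodule.coe_smul, smul_sub, Finset.sum_sub_distrib]
      rw [h2]
      refine (norm_sum_le _ _).trans ?_
      have h3 : ∀ i ∈ (Finset.univ : Finset (Fin (k + 1))), ‖⟪b i, s⟫_ℝ • (j (x i) - (b i : H))‖ ≤
          ‖s‖ * (η / (k + 1)) := by
        intro i _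
        rw [norm_smul]
        have h4 : ‖⟪b i, s⟫_ℝ‖ ≤ ‖s‖ := by
          refine (norm_inner_le_norm _ _).trans ?_
          rw [b.norm_eq_one, one_mul]
        exact mul_le_mul h4 (hx i).le (norm_nonneg _) (norm_nonneg _)
      refine (Finset.sum_le_sum h3).trans (le_of_eq ?_)
      rw [Finset.sum_const, Finset.card_univ, Fintype.card_fin, nsmul_eq_mul]
      push_cast
      field_simp
    have hlow : ∀ s : S, (Real.sqrt κ' - η) * ‖s‖ ≤ ‖jm (L s)‖ := by
      intro s
      have h1 : Real.sqrt κ' * ‖s‖ ≤ ‖ι (s : H)‖ := by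
        refine abs_le_of_sq_le_sq' ?_ (norm_nonneg _) |>.2
        rw [mul_pow, Real.sq_sqrt hκ'0.le, ← real_inner_self_eq_norm_sq (ι (s : H)), ← hKin]
        exact hb s s.2
      have h2 : ‖ι (s : H)‖ ≤ ‖jm (L s)‖ + ‖ι (j (L s) - (s : H))‖ := by
        have h3 : ι (s : H) = jm (L s) - ι (j (L s) - (s : H)) := by
          rw [map_sub, hι]; abel
        conv_lhs => rw [h3]
        exact norm_sub_le _ _
      have h3 := (hιle (j (L s) - (s : H))).trans (hLs s)
      linarith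
    have hup : ∀ s : S, ‖j (L s)‖ ≤ (1 + η) * ‖s‖ := by
      intro s
      have h1 : j (L s) = (s : H) + (j (L s) - (s : H)) := by abel
      rw [h1]
      refine (norm_add_le _ _).trans ?_
      have := hLs s
      have h2 : ‖(s : H)‖ = ‖s‖ := rfl
      rw [h2]
      linarith
    have hinj : Function.Injective L := by
      rw [← LinearMap.ker_eq_bot, LinearMap.ker_eq_bot']
      intro s hs
      have h1 := hLs s
      rw [hs, map_zero, zero_sub, norm_neg] at h1
      have h2 : ‖(s : H)‖ = ‖s‖ := rfl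
      rw [h2] at h1
      have h3 : ‖s‖ ≤ 0 := by nlinarith [norm_nonneg s]
      exact norm_le_zero_iff.mp h3
    obtain ⟨κ'', hκ''⟩ : ∃ κ'' : ℝ, κ'' = ((Real.sqrt κ' - η) / (1 + η)) ^ 2 := ⟨_, rfl⟩
    have hκ''0 : 0 < κ'' := by rw [hκ'']; exact hκ0.trans hη3
    have hfin := hmin (LinearMap.range L) (by rw [LinearMap.finrank_range_of_inj hinj, hSrank]) ?_
      (1 / κ'' - 1) ?_
    · have h1 : 1 / κ'' < 1 / κ := one_div_lt_one_div_of_lt hκ0 (by rw [hκ'']; exact hη3)
      have h2 : 1 / κ = 1 + lam := by rw [hκ]; field_simp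
      linarith
    · rintro _ ⟨s, rfl⟩ h0
      have h1 := hlow s
      rw [← hjmn] at h0
      have h2 : ‖jm (L s)‖ = 0 := by simpa using h0
      rw [h2] at h1
      have h3 : ‖s‖ ≤ 0 := by nlinarith [norm_nonneg s]
      rw [norm_le_zero_iff.mp h3, map_zero]
    · rintro _ ⟨s, rfl⟩
      have h1 : κ'' * ‖j (L s)‖ ^ 2 ≤ ‖jm (L s)‖ ^ 2 := by
        have h2 : ‖j (L s)‖ ^ 2 ≤ ((1 + η) * ‖s‖) ^ 2 := pow_le_pow_left₀ (norm_nonneg _) (hup s) 2
        have h3 : ((Real.sqrt κ' - η) * ‖s‖) ^ 2 ≤ ‖jm (L s)‖ ^ 2 :=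
          pow_le_pow_left₀ (by positivity) (hlow s) 2
        refine le_trans ?_ h3
        refine (mul_le_mul_of_nonneg_left h2 hκ''0.le).trans (le_of_eq ?_)
        rw [hκ'']
        field_simp
      rw [hjn, hjmn] at h1
      have h2 : (D (L s) (L s) + m (L s) (L s)) ≤ 1 / κ'' * m (L s) (L s) := by
        rw [div_mul_eq_mul_div, le_div_iff₀ hκ''0]
        linarith
      linarith
  have hlt : Module.rank ℝ (upper K κ) < ((k + 1 : ℕ) : Cardinal) := not_le.mp hrank
  have hfd : FiniteDimensional ℝ (upper K κ) :=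
    Module.rank_lt_aleph0_iff.mp (hlt.trans (Cardinal.natCast_lt_aleph0))
  have hfr : Module.finrank ℝ (upper K κ) ≤ k := by
    have h1 : ((Module.finrank ℝ (upper K κ) : ℕ) : Cardinal) < ((k + 1 : ℕ) : Cardinal) := by
      rw [Module.finrank_eq_rank]
      exact hlt
    have h2 : Module.finrank ℝ (upper K κ) < k + 1 := by exact_mod_cast h1
    omega
  refine ⟨⟨Module.finrank ℝ (upper K κ), hfr, ?_⟩, ?_⟩
  · obtain ⟨b, _⟩ : ∃ b : Basis (Fin (Module.finrank ℝ (upper K κ))) ℝ (upper K κ), True :=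
      ⟨Module.finBasis ℝ _, trivial⟩
    have hg : ∀ i, ∃ y, K y = (b i : H) := fun i => upper_subset_range K hκ0.le (b i).2
    choose y hy using hg
    refine ⟨fun i => (innerSL ℝ (b i : H)).toLinearMap ∘ₗ j, ∑ i, ‖ι (y i)‖ ^ 2, ?_, ?_⟩
    · intro i u
      have h1 : ((innerSL ℝ (b i : H)).toLinearMap ∘ₗ j) u = ⟪ι (y i), jm u⟫_ℝ := by
        rw [← hι, ← hKin, hy]
        rfl
      rw [h1]
      have h2 : ⟪ι (y i), jm u⟫_ℝ ^ 2 ≤ (‖ι (y i)‖ * ‖jm u‖) ^ 2 := by
        refine sq_le_sq' ?_ (real_inner_le_norm _ _)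
        have := neg_le_of_abs_le (abs_real_inner_le_norm (ι (y i)) (jm u))
        exact this
      refine h2.trans ?_
      rw [mul_pow, hjmn]
      refine mul_le_mul_of_nonneg_right ?_ (hmp u)
      exact Finset.single_le_sum (f := fun i => ‖ι (y i)‖ ^ 2) (fun i _ => by positivity)
        (Finset.mem_univ i)
    · intro v hv
      obtain ⟨F, hF⟩ : ∃ F : Submodule ℝ H, F = upper K κ := ⟨_, rfl⟩
      have hvF : j v ∈ (upper K κ)ᗮ := by
        rw [Submodule.mem_orthogonal]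
        intro f hf
        have h1 : ((innerSL ℝ (j v)).toLinearMap ∘ₗ (upper K κ).subtype) = 0 := by
          refine b.ext fun i => ?_
          have h2 := hv i
          have h3 : ⟪(b i : H), j v⟫_ℝ = 0 := h2
          rw [LinearMap.zero_apply]
          have h4 : ⟪j v, (b i : H)⟫_ℝ = 0 := by rw [real_inner_comm]; exact h3
          exact h4
        have h2 := LinearMap.congr_fun h1 ⟨f, hf⟩
        rw [LinearMap.zero_apply] at h2
        have h3 : ⟪j v, f⟫_ℝ = 0 := h2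
        rw [real_inner_comm]
        exact h3
      have hTform : ∀ x y : X, ⟪j x - (1 + lam) • K (j x), j y⟫_ℝ = D x y - lam * m x y := by
        intro x y
        rw [inner_sub_left, real_inner_smul_left, hKin, hι, hι, hjm, hj]
        simp only [LinearMap.add_apply]
        ring
      have hTp : ∀ w ∈ (upper K κ)ᗮ, 0 ≤ ⟪w - (1 + lam) • K w, w⟫_ℝ := by
        intro w hw
        have h1 := upper_orth_le K hKc hKs hKp hκ0.le hw
        rw [inner_sub_left, real_inner_smul_left, real_inner_self_eq_norm_sq]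
        nlinarith [sq_nonneg ‖w‖]
      have hTinv : ∀ w ∈ (upper K κ)ᗮ, w - (1 + lam) • K w ∈ (upper K κ)ᗮ := fun w hw =>
        Submodule.sub_mem _ hw (Submodule.smul_mem _ _ (upper_orth_invariant K hKs κ hw))
      have hQ : 0 ≤ D v v - lam * m v v := by
        rw [← hTform]
        exact hTp _ hvF
      refine ⟨hQ, fun w => ?_⟩
      obtain ⟨B, hB⟩ : ∃ B : (upper K κ)ᗮ →ₗ[ℝ] (upper K κ)ᗮ →ₗ[ℝ] ℝ,
          ∀ x y, B x y = ⟪(x : H) - (1 + lam) • K (x : H), (y : H)⟫_ℝ := by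
        refine ⟨LinearMap.mk₂ ℝ (fun x y : (upper K κ)ᗮ => ⟪(x : H) - (1 + lam) • K (x : H), (y : H)⟫_ℝ)
          ?_ ?_ ?_ ?_, fun x y => rfl⟩
        · intro x x' y
          simp only [Submodule.coe_add, map_add, smul_add, inner_sub_left, inner_add_left]
          ring
        · intro c x y
          simp only [Submodule.coe_smul, map_smul, inner_sub_left, real_inner_smul_left, smul_eq_mul]
          ring
        · intro x y y'
          simp only [Submodule.coe_add, inner_add_right]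
        · intro c x y
          simp only [Submodule.coe_smul, real_inner_smul_right, smul_eq_mul]
      have hBs : ∀ x y, B x y = B y x := by
        intro x y
        rw [hB, hB, inner_sub_left, inner_sub_left, real_inner_smul_left, real_inner_smul_left,
          hKin, hKin, real_inner_comm (x : H) (y : H), real_inner_comm (ι (x : H)) (ι (y : H))]
      obtain ⟨w', hw'⟩ : ∃ w' : (upper K κ)ᗮ, (w' : H) = (upper K κ)ᗮ.starProjection (j w) :=
        ⟨⟨_, Submodule.starProjection_apply_mem _ _⟩, rfl⟩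
      have h1 := psd_cauchy B hBs (fun x => by rw [hB]; exact hTp _ x.2) ⟨j v, hvF⟩ w'
      rw [hB, hB, hB] at h1
      have h2 : ⟪j v - (1 + lam) • K (j v), (w' : H)⟫_ℝ = D v w - lam * m v w := by
        rw [← hTform, hw']
        have h3 : ⟪j v - (1 + lam) • K (j v), j w - (upper K κ)ᗮ.starProjection (j w)⟫_ℝ = 0 := by
          rw [real_inner_comm]
          exact Submodule.starProjection_inner_eq_zero _ _ (hTinv _ hvF)
        rw [inner_sub_right] at h3
        linarith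
      have h4 : ⟪(w' : H) - (1 + lam) • K (w' : H), (w' : H)⟫_ℝ ≤ D w w + m w w := by
        rw [inner_sub_left, real_inner_smul_left, real_inner_self_eq_norm_sq, ← hjn]
        have h5 := hKp (w' : H)
        have h6 : ‖(w' : H)‖ ≤ ‖j w‖ := by
          rw [hw']
          exact Submodule.norm_starProjection_apply_le _ _
        have h7 : ‖(w' : H)‖ ^ 2 ≤ ‖j w‖ ^ 2 := pow_le_pow_left₀ (norm_nonneg _) h6 2
        nlinarith
      simp only at h1
      rw [h2, hTform] at h1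
      exact h1.trans (mul_le_mul_of_nonneg_left h4 hQ)
  · intro u hu
    have h1 : ∀ n, ι (j (u n)) ∈ closure (ι '' Metric.closedBall 0 1) := by
      intro n
      refine subset_closure ⟨j (u n), ?_, rfl⟩
      rw [mem_closedBall_zero_iff]
      have h2 := hu n
      rw [← hjn] at h2
      exact (sq_le_one_iff₀ (norm_nonneg _)).mp h2
    have h2 : IsCompact (closure (ι '' Metric.closedBall 0 1)) :=
      hιc.isCompact_closure_image_closedBall 1
    obtain ⟨a, _, φ, hφ, hlim⟩ := h2.tendsto_subseq h1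
    refine ⟨φ, hφ, fun ε hε => ?_⟩
    obtain ⟨N, hN⟩ := Metric.cauchySeq_iff.mp hlim.cauchySeq (Real.sqrt ε) (Real.sqrt_pos.mpr hε)
    refine ⟨N, fun i hi l hl => ?_⟩
    have h3 := hN i hi l hl
    simp only [Function.comp] at h3
    rw [dist_eq_norm, ← map_sub, ← map_sub, hι] at h3
    rw [← hjmn]
    have h4 : ‖jm (u (φ i) - u (φ l))‖ ^ 2 ≤ Real.sqrt ε ^ 2 :=
      pow_le_pow_left₀ (norm_nonneg _) h3.le 2
    rw [Real.sq_sqrt hε.le] at h4
    exact h4

end Pool.Agent.Helper89.Stek
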