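import Pool.Agent.Helper89.Stek.Contra

/-!
The abstract comparison theorem.
-/

set_option autoImplicit false

open MeasureTheory Filter Topology
open scoped ContDiff

namespace Pool.Agent.Helper89.Stek

namespace Calc

variable {M : Type*} [MeasurableSpace M] (C : Calc M) {μ ν : Measure M} [IsFiniteMeasure μ]
  [IsFiniteMeasure ν]

theorem final_contra {f : C.S} (hsupp : ν {x | f.1 x ≠ 0} = 0) {h : ℝ → C.S}
    (hh0 : ∀ ε > 0, ∀ x, 0 ≤ (h ε).1 x)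
    (hhlow : ∀ s₀ > 0, ∃ c₀ > 0, ∃ ε₂ > 0, ∀ ε, 0 < ε → ε ≤ ε₂ → ∀ x, s₀ ≤ |f.1 x| → c₀ ≤ (h ε).1 x)
    {c1 : ℝ} (hc1 : 0 ≤ c1)
    (hpoin : ∀ u : C.S, C.m μ u u ≤ c1 * (C.D μ u u + C.m ν u u))
    {cth : ℝ} (hcth : 0 ≤ cth)
    (hthin : ∀ ε, 0 < ε → ε ≤ 1 → ∀ u : C.S,
      ∫ x, (C.cp (om ε) (contDiff_om ε) f * (u * u)).1 x ∂μ ≤ cth * ε * (C.D μ u u + C.m μ u u))
    {lam : ℝ} (hlam : 0 < lam) {n' : ℕ} (l : Fin n' → C.S →ₗ[ℝ] ℝ)
    (hlQ : ∀ v, (∀ i, l i v = 0) → 0 ≤ C.D μ v v - lam * C.m ν v v ∧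
        ∀ w, (C.D μ v w - lam * C.m ν v w) ^ 2 ≤
          (C.D μ v v - lam * C.m ν v v) * (C.D μ w w + C.m ν w w))
    (hseq : ∀ u : ℕ → C.S, (∀ j, C.D μ (u j) (u j) + C.m ν (u j) (u j) ≤ 1) → ∃ φ : ℕ → ℕ, StrictMono φ ∧
      ∀ ε > 0, ∃ N, ∀ i ≥ N, ∀ j ≥ N, C.m ν (u (φ i) - u (φ j)) (u (φ i) - u (φ j)) ≤ ε)
    {K : ℝ} (hK : 0 ≤ K)
    (hstep : ∀ t, 0 < t → t < 1 → ∃ ε, 0 < ε ∧ ε < t ∧ ∃ u : C.S, (∀ i, l i u = 0) ∧
      C.D μ u u + C.m ν u u = 1 ∧ C.D μ u u - lam * C.m ν u u ≤ K * t ∧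
      ∫ x, (h ε * C.Γ u u).1 x ∂μ ≤ K * t) : False := by
  have ht : ∀ j : ℕ, (0 : ℝ) < 1 / (j + 2) ∧ (1 : ℝ) / (j + 2) < 1 := fun j => by
    constructor
    · positivity
    · rw [div_lt_one (by positivity)]
      have : (0 : ℝ) ≤ j := Nat.cast_nonneg j
      linarith
  choose e he0 het u hlu hN hQu hGu using fun j : ℕ => hstep (1 / (j + 2)) (ht j).1 (ht j).2
  obtain ⟨φ, hφ, hcau⟩ := hseq u (fun j => (hN j).le)
  obtain ⟨η, hη⟩ : ∃ η : ℝ, η = lam / (16 * (1 + lam)) := ⟨_, rfl⟩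
  have hη0 : 0 < η := by rw [hη]; positivity
  have htφ : ∀ j : ℕ, (1 : ℝ) / (φ j + 2) ≤ 1 / (j + 2) := fun j => by
    have : (j : ℝ) ≤ φ j := by exact_mod_cast hφ.id_le j
    gcongr
  -- the quadratic form `Q`
  have hQ0 : ∀ v, (∀ i, l i v = 0) → 0 ≤ C.D μ v v - lam * C.m ν v v := fun v hv => (hlQ v hv).1
  -- small parameters
  have hsmall : ∀ T : ℝ, 0 < T → ∃ J : ℕ, ∀ j ≥ J, (1 : ℝ) / (j + 2) ≤ T := by
    intro T hT
    obtain ⟨J, hJ⟩ := exists_nat_gt (1 / T)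
    refine ⟨J, fun j hj => ?_⟩
    rw [div_le_iff₀ (by positivity)]
    have h1 : (J : ℝ) ≤ j := by exact_mod_cast hj
    have h2 : 1 / T < j + 2 := by linarith
    rw [div_lt_iff₀ hT] at h2
    linarith
  obtain ⟨N0, hN0⟩ := hcau (η / (2 * lam)) (by positivity)
  obtain ⟨J1, hJ1⟩ := hsmall (η / (8 * (K + 1))) (by positivity)
  have hQsmall : ∀ j ≥ J1, C.D μ (u (φ j)) (u (φ j)) - lam * C.m ν (u (φ j)) (u (φ j)) ≤ η / 8 := by
    intro j hj
    refine (hQu (φ j)).trans ?_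
    have h1 : (1 : ℝ) / (φ j + 2) ≤ η / (8 * (K + 1)) := (htφ j).trans (hJ1 j hj)
    calc K * (1 / (φ j + 2)) ≤ K * (η / (8 * (K + 1))) := mul_le_mul_of_nonneg_left h1 hK
      _ = η / 8 * (K / (K + 1)) := by field_simp
      _ ≤ η / 8 * 1 := by
          refine mul_le_mul_of_nonneg_left ?_ (by positivity)
          rw [div_le_one (by positivity)]
          linarith
      _ = η / 8 := mul_one _
  have hDcau : ∀ i ≥ max N0 J1, ∀ j ≥ max N0 J1,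
      C.D μ (u (φ i) - u (φ j)) (u (φ i) - u (φ j)) ≤ η := by
    intro i hi j hj
    have h1 := hN0 i ((le_max_left _ _).trans hi) j ((le_max_left _ _).trans hj)
    have h2 := hQsmall i ((le_max_right _ _).trans hi)
    have h3 := hQsmall j ((le_max_right _ _).trans hj)
    have h4 := hQ0 (u (φ i) + u (φ j)) (fun a => by rw [map_add, hlu, hlu, add_zero])
    have h5 : lam * C.m ν (u (φ i) - u (φ j)) (u (φ i) - u (φ j)) ≤ η / 2 := by
      have := mul_le_mul_of_nonneg_left h1 hlam.le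
      have h6 : lam * (η / (2 * lam)) = η / 2 := by field_simp
      linarith
    simp only [map_add, map_sub, LinearMap.add_apply, LinearMap.sub_apply] at h4 h5 ⊢
    linarith
  obtain ⟨l0, hl0⟩ : ∃ l0 : ℕ, l0 = max N0 J1 := ⟨_, rfl⟩
  obtain ⟨v, hv⟩ : ∃ v : C.S, v = u (φ l0) := ⟨_, rfl⟩
  obtain ⟨Bv, hBv⟩ := C.bdd (C.Γ v v)
  obtain ⟨V, hV⟩ : ∃ V : ℝ, V = C.m μ 1 1 := ⟨_, rfl⟩
  have hV0 : 0 ≤ V := by rw [hV]; exact C.m_nonneg μ 1
  obtain ⟨s, hs⟩ : ∃ s : ℝ, s = min 1 (η / (2 * |Bv| * cth * V + 1)) := ⟨_, rfl⟩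
  have hs0 : 0 < s := by rw [hs]; positivity
  have hs1 : s ≤ 1 := by rw [hs]; exact min_le_left _ _
  obtain ⟨g, hg⟩ : ∃ g : C.S, g = C.cp (cut s) (contDiff_cut s) f := ⟨_, rfl⟩
  have hgx : ∀ x, g.1 x = cut s (f.1 x) := fun x => by rw [hg, C.cp_apply]
  have hgv : ∫ x, (g * C.Γ v v).1 x ∂μ ≤ η := by
    have h1 : ∫ x, (g * C.Γ v v).1 x ∂μ ≤
        ∫ x, ((2 * |Bv|) • (C.cp (om s) (contDiff_om s) f * (1 * 1))).1 x ∂μ := by
      refine C.int_mono μ fun x => ?_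
      simp only [C.mul_apply, C.smul_apply, C.cp_apply, C.one_apply, hgx]
      have h2 : cut s (f.1 x) ≤ 2 * om s (f.1 x) := by
        rcases le_total |f.1 x| s with h3 | h3
        · have := half_le_om hs0 h3
          have := cut_le_one s (f.1 x)
          linarith
        · rw [cut_eq_zero hs0 h3]
          have := om_pos s (f.1 x)
          linarith
      have h3 : (C.Γ v v).1 x ≤ |Bv| := (le_abs_self _).trans ((hBv x).trans (le_abs_self _))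
      have h4 := cut_nonneg s (f.1 x)
      have h5 := om_pos s (f.1 x)
      calc cut s (f.1 x) * (C.Γ v v).1 x ≤ 2 * om s (f.1 x) * |Bv| :=
            mul_le_mul h2 h3 (C.nonneg v x) (by positivity)
        _ = 2 * |Bv| * (om s (f.1 x) * (1 * 1)) := by ring
    rw [C.int_smul] at h1
    have h2 := hthin s hs0 hs1 1
    have h3 : C.D μ 1 1 = 0 := by rw [C.D_apply, C.Γ_one]; simp [C.zero_apply]
    rw [h3, ← hV, zero_add] at h2
    have h4 : 2 * |Bv| * ∫ x, (C.cp (om s) (contDiff_om s) f * (1 * 1)).1 x ∂μ ≤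
        2 * |Bv| * (cth * s * V) := mul_le_mul_of_nonneg_left h2 (by positivity)
    have h5 : s * (2 * |Bv| * cth * V + 1) ≤ η := by
      have : s ≤ η / (2 * |Bv| * cth * V + 1) := by rw [hs]; exact min_le_right _ _
      rwa [le_div_iff₀ (by positivity)] at this
    have h6 : 2 * |Bv| * (cth * s * V) ≤ η := by
      have h7 : 2 * |Bv| * (cth * s * V) = s * (2 * |Bv| * cth * V) := by ring
      rw [h7]
      linarith
    linarith
  obtain ⟨c₀, hc₀, ε₂, hε₂, hlowj⟩ := hhlow (s / 2) (by positivity)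
  obtain ⟨K', hK'0, hcut⟩ := C.cut_estimate (μ := μ) hsupp hpoin hc1 hs0 hη0 hc₀
  -- choose the index
  obtain ⟨T, hT⟩ : ∃ T : ℝ, T = min ε₂ (min (η / (K' * K + 1)) (min (η ^ 2 / (K * K' + 1))
    (1 / (2 * (K + 1))))) := ⟨_, rfl⟩
  have hT0 : 0 < T := by rw [hT]; positivity
  obtain ⟨J2, hJ2⟩ := hsmall T hT0
  obtain ⟨j, hj⟩ : ∃ j : ℕ, j = max l0 J2 := ⟨_, rfl⟩
  obtain ⟨tj, htj⟩ : ∃ tj : ℝ, tj = 1 / ((φ j : ℝ) + 2) := ⟨_, rfl⟩
  have htj0 : 0 < tj := by rw [htj]; positivity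
  have htjT : tj ≤ T := by
    rw [htj]
    exact (htφ j).trans (hJ2 j (by rw [hj]; exact le_max_right _ _))
  have hT1 : tj ≤ ε₂ := htjT.trans (by rw [hT]; exact min_le_left _ _)
  have hT2 : tj ≤ η / (K' * K + 1) := htjT.trans (by
    rw [hT]; exact (min_le_right _ _).trans (min_le_left _ _))
  have hT3 : tj ≤ η ^ 2 / (K * K' + 1) := htjT.trans (by
    rw [hT]; exact (min_le_right _ _).trans ((min_le_right _ _).trans (min_le_left _ _)))
  have hT4 : tj ≤ 1 / (2 * (K + 1)) := htjT.trans (by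
    rw [hT]; exact (min_le_right _ _).trans ((min_le_right _ _).trans (min_le_right _ _)))
  obtain ⟨w, hw⟩ : ∃ w : C.S, w = u (φ j) := ⟨_, rfl⟩
  have hlw : ∀ i, l i w = 0 := by rw [hw]; exact hlu (φ j)
  have hNw : C.D μ w w + C.m ν w w = 1 := by rw [hw]; exact hN (φ j)
  have hQw : C.D μ w w - lam * C.m ν w w ≤ K * tj := by rw [hw, htj]; exact hQu (φ j)
  have hGw : ∫ x, (h (e (φ j)) * C.Γ w w).1 x ∂μ ≤ K * tj := by rw [hw, htj]; exact hGu (φ j)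
  have hew : e (φ j) ≤ ε₂ := (het (φ j)).le.trans (by rw [← htj]; exact hT1)
  have hmain := hcut (h (e (φ j))) w (hh0 _ (he0 _)) (hlowj _ (he0 _) hew) lam (hlQ w hlw).2 (hQ0 w hlw) hNw
  rw [← hg] at hmain
  have h1 : ∫ x, (g * C.Γ w w).1 x ∂μ ≤ 4 * η := by
    have h2 : ∫ x, (g * C.Γ w w).1 x ∂μ ≤
        ∫ x, ((2 : ℝ) • C.Γ (w - v) (w - v) + (2 : ℝ) • (g * C.Γ v v)).1 x ∂μ := by
      refine C.int_mono μ fun x => ?_
      have h3 := C.nonneg (w - v) x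
      have h4 := C.nonneg (w - (2 : ℝ) • v) x
      have h5 := C.nonneg v x
      have hg0 := cut_nonneg s (f.1 x)
      have hg1 := cut_le_one s (f.1 x)
      have h6 : (C.Γ w w).1 x ≤ 2 * (C.Γ (w - v) (w - v)).1 x + 2 * (C.Γ v v).1 x := by
        have e1 : (C.Γ (w - (2 : ℝ) • v) (w - (2 : ℝ) • v)).1 x =
            (C.Γ w w).1 x - 4 * (C.Γ w v).1 x + 4 * (C.Γ v v).1 x := by
          simp only [map_sub, map_smul, LinearMap.sub_apply, LinearMap.smul_apply, C.sub_apply,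
            C.smul_apply]
          rw [C.symm v w]
          ring
        have e2 : (C.Γ (w - v) (w - v)).1 x =
            (C.Γ w w).1 x - 2 * (C.Γ w v).1 x + (C.Γ v v).1 x := by
          simp only [map_sub, LinearMap.sub_apply, C.sub_apply]
          rw [C.symm v w]
          ring
        rw [e1] at h4
        rw [e2]
        linarith
      simp only [C.mul_apply, C.add_apply, C.smul_apply, hgx]
      have h7 : cut s (f.1 x) * (C.Γ w w).1 x ≤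
          cut s (f.1 x) * (2 * (C.Γ (w - v) (w - v)).1 x + 2 * (C.Γ v v).1 x) :=
        mul_le_mul_of_nonneg_left h6 hg0
      have h8 : cut s (f.1 x) * (2 * (C.Γ (w - v) (w - v)).1 x) ≤ 2 * (C.Γ (w - v) (w - v)).1 x :=
        mul_le_of_le_one_left (by positivity) hg1
      linarith
    rw [C.int_add, C.int_smul, C.int_smul] at h2
    have h3 : ∫ x, (C.Γ (w - v) (w - v)).1 x ∂μ ≤ η := by
      have := hDcau j (by rw [hj, hl0]; exact le_max_left _ _) l0 (le_of_eq hl0.symm)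
      rw [hw, hv]
      exact this
    linarith
  have h2 : K' * ∫ x, (h (e (φ j)) * C.Γ w w).1 x ∂μ ≤ η := by
    have h3 : K' * ∫ x, (h (e (φ j)) * C.Γ w w).1 x ∂μ ≤ K' * (K * tj) := mul_le_mul_of_nonneg_left hGw hK'0
    have h4 : tj * (K' * K + 1) ≤ η := by rwa [le_div_iff₀ (by positivity)] at hT2
    have h5 : K' * (K * tj) = tj * (K' * K) := by ring
    rw [h5] at h3
    linarith
  have h3 : Real.sqrt ((C.D μ w w - lam * C.m ν w w) * K') ≤ η := by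
    apply Real.sqrt_le_iff.mpr
    refine ⟨hη0.le, ?_⟩
    have h4 : (C.D μ w w - lam * C.m ν w w) * K' ≤ K * tj * K' := mul_le_mul_of_nonneg_right hQw hK'0
    have h5 : tj * (K * K' + 1) ≤ η ^ 2 := by rwa [le_div_iff₀ (by positivity)] at hT3
    have h6 : K * tj * K' = tj * (K * K') := by ring
    rw [h6] at h4
    linarith
  have h4 : K * tj ≤ 1 / 2 := by
    have h5 : tj * (2 * (K + 1)) ≤ 1 := by rwa [le_div_iff₀ (by positivity)] at hT4
    linarith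
  have h5 : 8 * η ≤ lam * C.m ν w w := by
    have h6 : C.m ν w w * (1 + lam) ≥ 1 / 2 := by linarith
    have h7 : 8 * η = lam * (1 / (2 * (1 + lam))) := by
      rw [hη]; field_simp; ring
    rw [h7]
    refine mul_le_mul_of_nonneg_left ?_ hlam.le
    rw [div_le_iff₀ (by positivity)]
    linarith
  linarith

theorem abstract_main {f Lf : C.S} (hg : C.Green μ f Lf) (hco : C.Coarea μ ν f)
    (hsupp : ν {x | f.1 x ≠ 0} = 0)
    {r : ℝ} (hr : 0 < r) (hlow : ∀ x, |f.1 x| ≤ 2 * r → 1 / 2 ≤ (C.Γ f f).1 x)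
    (hlen : 0 < C.m ν 1 1)
    (hpoin0 : ∃ c, 0 ≤ c ∧ ∀ u : C.S, ∃ a : ℝ,
      C.m μ (u - a • (1 : C.S)) (u - a • (1 : C.S)) ≤ c * C.D μ u u)
    (hrell : ∀ ε > 0, ∃ (n : ℕ) (K : ℝ) (a : Fin n → C.S →ₗ[ℝ] ℝ), (∀ i u, (a i u) ^ 2 ≤ K * C.m μ u u) ∧
      ∀ u, C.m μ u u ≤ ε * C.D μ u u + K * ∑ i, (a i u) ^ 2)
    (hdef : ∀ u : C.S, C.m μ u u = 0 → u = 0)
    {k : ℕ} (hk : 1 ≤ k) {σ : ℝ}
    (hσ : ∀ E : Submodule ℝ C.S, Module.finrank ℝ E = k + 1 → (∀ u ∈ E, C.m ν u u = 0 → u = 0) →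
      ∀ Λ : ℝ, (∀ u ∈ E, C.D μ u u ≤ Λ * C.m ν u u) → σ ≤ Λ) :
    ∃ ρ : C.S, (∀ x, 0 < ρ.1 x) ∧ ∃ P : ℝ, σ * C.m ν 1 1 < P * ∫ x, ρ.1 x ∂μ ∧
      ∀ E : Submodule ℝ C.S, Module.finrank ℝ E = k + 1 → ∀ Λ : ℝ,
        (∀ u ∈ E, C.D μ u u ≤ Λ * ∫ x, (u * u * ρ).1 x ∂μ) → P ≤ Λ := by
  obtain ⟨B, hB0, h, c, n, hpt, hid, hrate, hhlow, htrace⟩ := C.exists_family hg hco hsupp hr hlow
  obtain ⟨cth, hcth, hthin⟩ := C.thin hg hr hlow
  obtain ⟨K1, hK10, hK1⟩ := htrace 1 one_pos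
  obtain ⟨cp, hcp0, hcp⟩ := hpoin0
  -- functions shifted by constants
  have hDshift : ∀ (u : C.S) (a : ℝ), C.D μ (u - a • (1 : C.S)) (u - a • (1 : C.S)) = C.D μ u u := by
    intro u a
    have h1 : C.D μ 1 = 0 := by
      ext v
      rw [C.D_apply, C.Γ_one]
      simp [C.zero_apply]
    have h2 : ∀ v, C.D μ v 1 = 0 := fun v => by rw [C.D_symm, h1]; rfl
    simp only [map_sub, map_smul, LinearMap.sub_apply, LinearMap.smul_apply, h1, h2, LinearMap.zero_apply,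
      smul_zero, sub_zero]
  obtain ⟨c2, hc2⟩ : ∃ c2 : ℝ, c2 = 1 + K1 * cp := ⟨_, rfl⟩
  have hc20 : 0 < c2 := by rw [hc2]; positivity
  have hνshift : ∀ u : C.S, ∃ a : ℝ, C.m μ (u - a • (1 : C.S)) (u - a • (1 : C.S)) ≤ cp * C.D μ u u ∧
      C.m ν (u - a • (1 : C.S)) (u - a • (1 : C.S)) ≤ c2 * C.D μ u u := by
    intro u
    obtain ⟨a, ha⟩ := hcp u
    refine ⟨a, ha, ?_⟩
    have h1 := hK1 (u - a • (1 : C.S))
    rw [hDshift] at h1
    have h2 := mul_le_mul_of_nonneg_left ha hK10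
    rw [hc2]
    linarith
  have hexp : ∀ (u : C.S) (a : ℝ), C.m ν (u - a • (1 : C.S)) (u - a • (1 : C.S)) =
      C.m ν u u - 2 * a * C.m ν u 1 + a ^ 2 * C.m ν 1 1 := by
    intro u a
    have h1 := C.m_symm ν 1 u
    simp only [map_sub, map_smul, LinearMap.sub_apply, LinearMap.smul_apply, smul_eq_mul]
    rw [h1]
    ring
  obtain ⟨L, hL⟩ : ∃ L : ℝ, L = C.m ν 1 1 := ⟨_, rfl⟩
  obtain ⟨V, hV⟩ : ∃ V : ℝ, V = C.m μ 1 1 := ⟨_, rfl⟩
  have hV0 : 0 ≤ V := by rw [hV]; exact C.m_nonneg μ 1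
  have hL0 : 0 < L := by rw [hL]; exact hlen
  have hP2 : ∀ u : C.S, C.m ν u 1 = 0 → C.m ν u u ≤ c2 * C.D μ u u := by
    intro u hu
    obtain ⟨a, _, ha⟩ := hνshift u
    rw [hexp, hu] at ha
    have : 0 ≤ a ^ 2 * C.m ν 1 1 := by positivity
    linarith
  obtain ⟨c1, hc1⟩ : ∃ c1 : ℝ, c1 = 2 * cp + 2 * V * (2 + 2 * c2) / L := ⟨_, rfl⟩
  have hc10 : 0 ≤ c1 := by rw [hc1]; positivity
  have hpoin : ∀ u : C.S, C.m μ u u ≤ c1 * (C.D μ u u + C.m ν u u) := by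
    intro u
    obtain ⟨a, ha1, ha2⟩ := hνshift u
    have hD0 := C.D_nonneg μ u
    have hm0 := C.m_nonneg ν u
    have h1 : a ^ 2 * L ≤ 2 * C.m ν u u + 2 * C.m ν (u - a • (1 : C.S)) (u - a • (1 : C.S)) := by
      have h2 := C.m_nonneg ν ((2 : ℝ) • u - a • (1 : C.S))
      have h3 : C.m ν ((2 : ℝ) • u - a • (1 : C.S)) ((2 : ℝ) • u - a • (1 : C.S)) =
          4 * C.m ν u u - 4 * a * C.m ν u 1 + a ^ 2 * L := by
        have h1 := C.m_symm ν 1 u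
        rw [hL]
        simp only [map_sub, map_smul, LinearMap.sub_apply, LinearMap.smul_apply, smul_eq_mul]
        rw [h1]
        ring
      rw [h3] at h2
      rw [hexp, ← hL]
      linarith
    have h2 : C.m μ u u ≤ 2 * C.m μ (u - a • (1 : C.S)) (u - a • (1 : C.S)) + 2 * (a ^ 2 * V) := by
      have h2 := C.m_nonneg μ (u - (2 * a) • (1 : C.S))
      have h1 := C.m_symm μ 1 u
      rw [hV]
      simp only [map_sub, map_smul, LinearMap.sub_apply, LinearMap.smul_apply, smul_eq_mul] at h2 ⊢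
      rw [h1] at h2 ⊢
      linarith
    have h3 : a ^ 2 ≤ (2 + 2 * c2) * (C.D μ u u + C.m ν u u) / L := by
      rw [le_div_iff₀ hL0]
      have h4 : 0 ≤ c2 * C.m ν u u := by positivity
      have h5 : (2 + 2 * c2) * (C.D μ u u + C.m ν u u) = 2 * C.D μ u u + 2 * C.m ν u u +
        2 * (c2 * C.D μ u u) + 2 * (c2 * C.m ν u u) := by ring
      rw [h5]
      linarith
    have h4 : a ^ 2 * V ≤ (2 + 2 * c2) * (C.D μ u u + C.m ν u u) / L * V :=
      mul_le_mul_of_nonneg_right h3 hV0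
    have h5 : cp * C.D μ u u ≤ cp * (C.D μ u u + C.m ν u u) :=
      mul_le_mul_of_nonneg_left (by linarith) hcp0
    have h6 : c1 * (C.D μ u u + C.m ν u u) = 2 * (cp * (C.D μ u u + C.m ν u u)) +
        2 * ((2 + 2 * c2) * (C.D μ u u + C.m ν u u) / L * V) := by
      rw [hc1]; ring
    rw [h6]
    linarith
  -- the positive number `lam`
  obtain ⟨lam, hlam⟩ : ∃ lam : ℝ, lam = max σ (1 / c2) := ⟨_, rfl⟩
  have hlam0 : 0 < lam := by
    rw [hlam]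
    exact lt_max_of_lt_right (by positivity)
  have hσlam : σ ≤ lam := by rw [hlam]; exact le_max_left _ _
  have hmin : ∀ E : Submodule ℝ C.S, Module.finrank ℝ E = k + 1 → (∀ u ∈ E, C.m ν u u = 0 → u = 0) →
      ∀ Λ : ℝ, (∀ u ∈ E, C.D μ u u ≤ Λ * C.m ν u u) → lam ≤ Λ := by
    intro E hE hnd Λ hΛ
    rw [hlam]
    refine max_le (hσ E hE hnd Λ hΛ) ?_
    obtain ⟨u, huE, hu0, hlu⟩ := exists_ne_zero_of_finrank (n := 1) (k := k + 1) (by omega) E hE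
      (fun _ => (C.m ν).flip 1)
    have h1 : C.m ν u 1 = 0 := hlu 0
    have h2 := hP2 u h1
    have h3 := hΛ u huE
    have h4 : 0 < C.m ν u u := by
      rcases (C.m_nonneg ν u).lt_or_eq with h5 | h5
      · exact h5
      · exact absurd (hnd u huE h5.symm) hu0
    rw [div_le_iff₀ hc20]
    have h5 : C.m ν u u ≤ c2 * (Λ * C.m ν u u) := h2.trans (mul_le_mul_of_nonneg_left h3 hc20.le)
    by_contra hcon
    push Not at hcon
    nlinarith
  have hcomp : ∀ ε > 0, ∃ (n : ℕ) (K : ℝ) (a : Fin n → C.S →ₗ[ℝ] ℝ),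
      (∀ i u, (a i u) ^ 2 ≤ K * (C.D μ u u + C.m ν u u)) ∧
      ∀ u, C.m ν u u ≤ ε * (C.D μ u u + C.m ν u u) + K * ∑ i, (a i u) ^ 2 := by
    intro ε hε
    obtain ⟨Kτ, hKτ0, hKτ⟩ := htrace (ε / 2) (by positivity)
    obtain ⟨n1, K2, a, ha1, ha2⟩ := hrell (ε / (2 * (Kτ + 1))) (by positivity)
    refine ⟨n1, Kτ * |K2| + |K2| * c1, a, fun i u => ?_, fun u => ?_⟩
    · have hD0 := C.D_nonneg μ u
      have hm0 := C.m_nonneg ν u
      have h1 := ha1 i u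
      have h2 : K2 * C.m μ u u ≤ |K2| * (c1 * (C.D μ u u + C.m ν u u)) :=
        (mul_le_mul_of_nonneg_right (le_abs_self _) (C.m_nonneg μ u)).trans
          (mul_le_mul_of_nonneg_left (hpoin u) (abs_nonneg _))
      have h3 : 0 ≤ Kτ * |K2| * (C.D μ u u + C.m ν u u) := by positivity
      have h4 : (Kτ * |K2| + |K2| * c1) * (C.D μ u u + C.m ν u u) =
        Kτ * |K2| * (C.D μ u u + C.m ν u u) + |K2| * (c1 * (C.D μ u u + C.m ν u u)) := by ring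
      rw [h4]
      linarith
    · have hD0 := C.D_nonneg μ u
      have hm0 := C.m_nonneg ν u
      have h1 := hKτ u
      have h2 := ha2 u
      have hs : 0 ≤ ∑ i, (a i u) ^ 2 := Finset.sum_nonneg fun i _ => sq_nonneg _
      have h3 : Kτ * C.m μ u u ≤ Kτ * (ε / (2 * (Kτ + 1)) * C.D μ u u + K2 * ∑ i, (a i u) ^ 2) :=
        mul_le_mul_of_nonneg_left h2 hKτ0
      have h4 : Kτ * (ε / (2 * (Kτ + 1))) ≤ ε / 2 := by
        have h5 : Kτ * (ε / (2 * (Kτ + 1))) = ε / 2 * (Kτ / (Kτ + 1)) := by field_simp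
        rw [h5]
        refine mul_le_of_le_one_right (by positivity) ?_
        rw [div_le_one (by positivity)]
        linarith
      have h5 := mul_le_mul_of_nonneg_right h4 hD0
      have h6 : Kτ * (K2 * ∑ i, (a i u) ^ 2) ≤ Kτ * (|K2| * ∑ i, (a i u) ^ 2) :=
        mul_le_mul_of_nonneg_left (mul_le_mul_of_nonneg_right (le_abs_self _) hs) hKτ0
      have h7 : 0 ≤ |K2| * c1 * ∑ i, (a i u) ^ 2 := by positivity
      have h8 : (Kτ * |K2| + |K2| * c1) * ∑ i, (a i u) ^ 2 =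
        Kτ * (|K2| * ∑ i, (a i u) ^ 2) + |K2| * c1 * ∑ i, (a i u) ^ 2 := by ring
      have h9 : 0 ≤ ε * C.m ν u u := by positivity
      have h10 : Kτ * (ε / (2 * (Kτ + 1)) * C.D μ u u + K2 * ∑ i, (a i u) ^ 2) =
        Kτ * (ε / (2 * (Kτ + 1))) * C.D μ u u + Kτ * (K2 * ∑ i, (a i u) ^ 2) := by ring
      rw [h8]
      rw [h10] at h3
      linarith
  obtain ⟨⟨n', hn', l, Cl, hl, hlQ⟩, hseq⟩ := exists_functionals (C.D μ) (C.m ν) (C.D_symm μ) (C.m_symm ν)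
    (C.D_nonneg μ) (C.m_nonneg ν) k hlam0 hcomp hmin
  by_contra hcon
  push Not at hcon
  have hneg : ∀ ρ : C.S, (∀ x, 0 < ρ.1 x) → ∀ P, lam * C.m ν 1 1 < P * ∫ x, ρ.1 x ∂μ →
      ∃ E : Submodule ℝ C.S, Module.finrank ℝ E = k + 1 ∧ ∀ u ∈ E,
        C.D μ u u ≤ P * ∫ x, (u * u * ρ).1 x ∂μ := by
    intro ρ hρ P hP
    have h1 : σ * C.m ν 1 1 < P * ∫ x, ρ.1 x ∂μ :=
      lt_of_le_of_lt (mul_le_mul_of_nonneg_right hσlam hlen.le) hP
    obtain ⟨E, hE, Λ, hΛ, hlt⟩ := hcon ρ hρ P h1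
    refine ⟨E, hE, fun u hu => (hΛ u hu).trans ?_⟩
    refine mul_le_mul_of_nonneg_right hlt.le ?_
    exact integral_nonneg fun x => mul_nonneg (mul_self_nonneg _) (hρ x).le
  obtain ⟨K, hK, hstep⟩ := C.one_step (μ := μ) (ν := ν) hsupp hB0 hpt hid hrate hlen hc10 hpoin hdef hlam0
    hn' l hl (fun v hv => (hlQ v hv).1) hneg
  exact C.final_contra hsupp (fun ε hε x => (hpt ε hε x).1) hhlow hc10 hpoin hcth hthin hlam0 l hlQ hseq
    hK hstep

end Calc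

end Pool.Agent.Helper89.Stek
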