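import Pool.Agent.Helper89.Stek.Surf

/-!
The area measure in charts.
-/

set_option autoImplicit false

open scoped Manifold ContDiff ENNReal Topology
open MeasureTheory Bundle Set Filter

namespace Pool.Agent.Helper89.Stek

variable {M : Type*} [TopologicalSpace M] [ChartedSpace (ℝ × ℝ) M] [IsManifold 𝓘(ℝ, ℝ × ℝ) ∞ M]

/-- the density of the area measure in the chart `φ` -/
noncomputable def dens (g : Metric M) (φ : OpenPartialHomeomorph M (ℝ × ℝ)) (y : (ℝ × ℝ)) : ℝ :=
  Real.sqrt (gram g φ y).det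

section chart

variable {φ : OpenPartialHomeomorph M (ℝ × ℝ)} (hφ : φ ∈ IsManifold.maximalAtlas 𝓘(ℝ, ℝ × ℝ) ∞ M) (g : Metric M)

include hφ

lemma dens_pos {y : (ℝ × ℝ)} (hy : y ∈ φ.target) : 0 < dens g φ y := Real.sqrt_pos.2 (gram_det_pos hφ g hy)

lemma dens_sq {y : (ℝ × ℝ)} (hy : y ∈ φ.target) : dens g φ y * dens g φ y = (gram g φ y).det :=
  Real.mul_self_sqrt (gram_det_pos hφ g hy).le

lemma dens_contDiffOn : ContDiffOn ℝ ∞ (dens g φ) φ.target := by
  intro y hy
  exact ((det_contDiffOn hφ g) y hy).sqrt (gram_det_pos hφ g hy).ne'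

lemma dens_continuousOn : ContinuousOn (dens g φ) φ.target := (dens_contDiffOn hφ g).continuousOn

variable [MeasurableSpace M] [BorelSpace M]

omit hφ in
lemma symm_aemeasurable : AEMeasurable φ.symm (volume.restrict φ.target) :=
  φ.continuousOn_symm.aemeasurable φ.open_target.measurableSet

lemma dens_aemeasurable :
    AEMeasurable (fun y => ENNReal.ofReal (dens g φ y)) (volume.restrict φ.target) :=
  ((dens_continuousOn hφ g).aemeasurable φ.open_target.measurableSet).ennreal_ofReal

variable {g} {μ : Measure M} (hμ : IsAreaMeasure g μ)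

include hμ

lemma restrict_source_eq : μ.restrict φ.source =
    Measure.map φ.symm ((volume.restrict φ.target).withDensity fun y => ENNReal.ofReal (dens g φ y)) := by
  ext s hs
  have h1 : AEMeasurable φ.symm
      ((volume.restrict φ.target).withDensity fun y => ENNReal.ofReal (dens g φ y)) :=
    symm_aemeasurable.mono_ac (withDensity_absolutelyContinuous _ _)
  rw [Measure.map_apply_of_aemeasurable h1 hs, Measure.restrict_apply hs, withDensity_apply',
    Measure.restrict_restrict₀' φ.open_target.measurableSet.nullMeasurableSet,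
    hμ φ hφ _ inter_subset_right (hs.inter φ.open_source.measurableSet), inter_comm s,
    φ.image_source_inter_eq', inter_comm]
  rfl

lemma setIntegral_source (F : M → ℝ) (hF : AEStronglyMeasurable F (μ.restrict φ.source)) :
    ∫ x in φ.source, F x ∂μ = ∫ y in φ.target, dens g φ y * F (φ.symm y) := by
  have h1 : AEMeasurable φ.symm
      ((volume.restrict φ.target).withDensity fun y => ENNReal.ofReal (dens g φ y)) :=
    symm_aemeasurable.mono_ac (withDensity_absolutelyContinuous _ _)
  rw [restrict_source_eq hφ hμ] at hF ⊢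
  rw [integral_map h1 hF, integral_withDensity_eq_integral_toReal_smul₀ (dens_aemeasurable hφ g)
    (Eventually.of_forall fun y => ENNReal.ofReal_lt_top)]
  refine setIntegral_congr_fun φ.open_target.measurableSet fun y hy => ?_
  beta_reduce
  rw [ENNReal.toReal_ofReal (dens_pos hφ g hy).le, smul_eq_mul]

lemma integral_chart (F : M → ℝ) (hF : Continuous F) (hs : ∀ x, x ∉ φ.source → F x = 0) :
    ∫ x, F x ∂μ = ∫ y in φ.target, dens g φ y * F (φ.symm y) := by
  rw [← setIntegral_source hφ hμ F hF.aestronglyMeasurable]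
  exact (setIntegral_eq_integral_of_forall_compl_eq_zero hs).symm

lemma area_pos_of_chart {U : Set M} (hU : IsOpen U) (hUs : U ⊆ φ.source) (hne : U.Nonempty) : 0 < μ U := by
  rw [hμ φ hφ U hUs hU.measurableSet]
  have h1 : IsOpen (φ '' U) := φ.isOpen_image_of_subset_source hU hUs
  have h2 : φ '' U ⊆ φ.target := by
    rintro _ ⟨x, hx, rfl⟩
    exact φ.map_source (hUs hx)
  rw [pos_iff_ne_zero]
  intro h3
  change ∫⁻ y in φ '' U, ENNReal.ofReal (dens g φ y) = 0 at h3
  rw [lintegral_eq_zero_iff' ((dens_aemeasurable hφ g).mono_set h2)] at h3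
  have h4 : ∀ᵐ y ∂volume.restrict (φ '' U), False := by
    filter_upwards [h3, ae_restrict_mem h1.measurableSet] with y hy hyU
    have h5 := dens_pos hφ g (h2 hyU)
    simp only [Pi.zero_apply, ENNReal.ofReal_eq_zero] at hy
    linarith
  have h5 : volume (φ '' U) = 0 := by
    have h6 := eventually_false_iff_eq_bot.1 h4
    rw [ae_eq_bot, Measure.restrict_eq_zero] at h6
    exact h6
  exact (h1.measure_pos volume (hne.image _)).ne' h5

lemma area_lt_top_of_chart [T2Space M] {K : Set (ℝ × ℝ)} (hK : IsCompact K) (hKt : K ⊆ φ.target) :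
    μ (φ.symm '' K) < ⊤ := by
  have h1 : φ.symm '' K ⊆ φ.source := by
    rintro _ ⟨x, hx, rfl⟩
    exact φ.map_target (hKt hx)
  have h2 : IsCompact (φ.symm '' K) := hK.image_of_continuousOn (φ.continuousOn_symm.mono hKt)
  have h3 : MeasurableSet (φ.symm '' K) := h2.isClosed.measurableSet
  rw [hμ φ hφ _ h1 h3]
  have h4 : φ '' (φ.symm '' K) = K := by
    rw [image_image]
    refine (image_congr fun y hy => φ.right_inv (hKt hy)).trans (by simp)
  rw [h4]
  obtain ⟨C, hC⟩ := hK.exists_bound_of_continuousOn ((dens_continuousOn hφ g).mono hKt)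
  refine lt_of_le_of_lt (setLIntegral_mono' hK.measurableSet (g := fun _ => ENNReal.ofReal C) fun y hy => ?_) ?_
  · exact ENNReal.ofReal_le_ofReal ((le_abs_self _).trans (hC y hy))
  · rw [setLIntegral_const]
    exact ENNReal.mul_lt_top ENNReal.ofReal_lt_top hK.measure_lt_top

end chart

variable [MeasurableSpace M] [BorelSpace M] {g : Metric M} {μ : Measure M} (hμ : IsAreaMeasure g μ)

include hμ

lemma area_pos {U : Set M} (hU : IsOpen U) (hne : U.Nonempty) : 0 < μ U := by
  obtain ⟨x, hx⟩ := hne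
  have hφ : chartAt (ℝ × ℝ) x ∈ IsManifold.maximalAtlas 𝓘(ℝ, ℝ × ℝ) ∞ M := IsManifold.chart_mem_maximalAtlas x
  refine lt_of_lt_of_le (area_pos_of_chart hφ hμ (hU.inter (chartAt (ℝ × ℝ) x).open_source) inter_subset_right
    ⟨x, hx, mem_chart_source (ℝ × ℝ) x⟩) (measure_mono inter_subset_left)

lemma area_finite [T2Space M] [CompactSpace M] : IsFiniteMeasure μ := by
  have h : IsLocallyFiniteMeasure μ := by
    refine ⟨fun x => ?_⟩
    have hφ : chartAt (ℝ × ℝ) x ∈ IsManifold.maximalAtlas 𝓘(ℝ, ℝ × ℝ) ∞ M := IsManifold.chart_mem_maximalAtlas x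
    have hx := mem_chart_source (ℝ × ℝ) x
    obtain ⟨r, hr, hball⟩ := Metric.nhds_basis_closedBall.mem_iff.1
      ((chartAt (ℝ × ℝ) x).open_target.mem_nhds ((chartAt (ℝ × ℝ) x).map_source hx))
    refine ⟨(chartAt (ℝ × ℝ) x).symm '' Metric.closedBall (chartAt (ℝ × ℝ) x x) r, ?_,
      area_lt_top_of_chart hφ hμ (isCompact_closedBall _ _) hball⟩
    have h1 : IsOpen ((chartAt (ℝ × ℝ) x).symm '' Metric.ball (chartAt (ℝ × ℝ) x x) r) :=
      (chartAt (ℝ × ℝ) x).symm.isOpen_image_of_subset_source Metric.isOpen_ball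
        (Metric.ball_subset_closedBall.trans hball)
    refine mem_of_superset (h1.mem_nhds ⟨chartAt (ℝ × ℝ) x x, Metric.mem_ball_self hr,
      (chartAt (ℝ × ℝ) x).left_inv hx⟩) (image_mono Metric.ball_subset_closedBall)
  exact CompactSpace.isFiniteMeasure

end Pool.Agent.Helper89.Stek
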