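import Mathlib

/-!
The Poincare inequality on squares.
-/

set_option autoImplicit false

open scoped ContDiff Topology
open MeasureTheory Set Filter

namespace Pool.Agent.Helper89.Stek

/-- Cauchy-Schwarz for one function -/
lemma sq_int_le {a l : ℝ} (hl : 0 < l) {u : ℝ → ℝ} (hu : Continuous u) :
    (∫ s in a..a + l, u s) ^ 2 ≤ l * ∫ s in a..a + l, u s ^ 2 := by
  obtain ⟨I, hI⟩ : ∃ I, I = ∫ s in a..a + l, u s := ⟨_, rfl⟩
  have h1 : 0 ≤ ∫ s in a..a + l, (u s - I / l) ^ 2 :=
    intervalIntegral.integral_nonneg (by linarith) fun s _ => sq_nonneg _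
  have h2 : ∫ s in a..a + l, (u s - I / l) ^ 2 =
      (∫ s in a..a + l, u s ^ 2) - 2 * (I / l) * I + l * (I / l) ^ 2 := by
    have e1 : (fun s => (u s - I / l) ^ 2) = fun s => u s ^ 2 - 2 * (I / l) * u s + (I / l) ^ 2 := by
      ext s; ring
    rw [e1, intervalIntegral.integral_add, intervalIntegral.integral_sub, intervalIntegral.integral_const_mul, intervalIntegral.integral_const, ← hI]
    · simp
    · exact (hu.pow 2).intervalIntegrable _ _
    · exact (continuous_const.mul hu).intervalIntegrable _ _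
    · exact ((hu.pow 2).sub (continuous_const.mul hu)).intervalIntegrable _ _
    · exact continuous_const.intervalIntegrable _ _
  rw [h2] at h1
  rw [← hI]
  have h3 : 2 * (I / l) * I = 2 * I ^ 2 / l := by ring
  have h4 : l * (I / l) ^ 2 = I ^ 2 / l := by field_simp
  rw [h3, h4] at h1
  have h5 : I ^ 2 / l ≤ ∫ s in a..a + l, u s ^ 2 := by
    have : 2 * I ^ 2 / l = I ^ 2 / l + I ^ 2 / l := by ring
    linarith
  rwa [div_le_iff₀ hl, mul_comm] at h5

/-- variance bound from oscillation bound -/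
lemma osc_ineq {a l : ℝ} (hl : 0 < l) {u : ℝ → ℝ} (hu : Continuous u) {D : ℝ} (hD : 0 ≤ D)
    (h : ∀ s ∈ Icc a (a + l), ∀ t ∈ Icc a (a + l), (u s - u t) ^ 2 ≤ D) :
    ∫ s in a..a + l, u s ^ 2 ≤ l⁻¹ * (∫ s in a..a + l, u s) ^ 2 + l * D := by
  obtain ⟨I, hI⟩ : ∃ I, I = ∫ s in a..a + l, u s := ⟨_, rfl⟩
  have h0 : ∀ s ∈ Icc a (a + l), (u s - I / l) ^ 2 ≤ D := by
    intro s hs
    have h1 : u s - I / l = l⁻¹ * ∫ t in a..a + l, (u s - u t) := by
      rw [intervalIntegral.integral_sub (continuous_const.intervalIntegrable _ _) (hu.intervalIntegrable _ _), intervalIntegral.integral_const,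
        ← hI]
      simp only [add_sub_cancel_left, smul_eq_mul]
      field_simp
    have h2 : |∫ t in a..a + l, (u s - u t)| ≤ Real.sqrt D * |a + l - a| := by
      rw [← Real.norm_eq_abs]
      refine intervalIntegral.norm_integral_le_of_norm_le_const (f := fun t => u s - u t)
        (C := Real.sqrt D) fun t ht => ?_
      rw [uIoc_of_le (by linarith)] at ht
      exact Real.abs_le_sqrt (h s hs t ⟨ht.1.le, ht.2⟩)
    rw [add_sub_cancel_left, abs_of_pos hl] at h2
    rw [h1]
    have h3 : |l⁻¹ * ∫ t in a..a + l, (u s - u t)| ≤ Real.sqrt D := by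
      rw [abs_mul, abs_of_pos (inv_pos.2 hl), inv_mul_le_iff₀ hl, mul_comm]
      exact h2
    have h4 := sq_le_sq' (neg_le_of_abs_le h3) (le_of_abs_le h3)
    rwa [Real.sq_sqrt hD] at h4
  have h1 : ∫ s in a..a + l, (u s - I / l) ^ 2 ≤ l * D := by
    have h2 : ∫ s in a..a + l, (u s - I / l) ^ 2 ≤ ∫ _s in a..a + l, D :=
      intervalIntegral.integral_mono_on (by linarith) (((hu.sub continuous_const).pow 2).intervalIntegrable _ _)
        (continuous_const.intervalIntegrable _ _) h0
    rw [intervalIntegral.integral_const] at h2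
    simpa using h2
  have h2 : ∫ s in a..a + l, (u s - I / l) ^ 2 =
      (∫ s in a..a + l, u s ^ 2) - 2 * (I / l) * I + l * (I / l) ^ 2 := by
    have e1 : (fun s => (u s - I / l) ^ 2) = fun s => u s ^ 2 - 2 * (I / l) * u s + (I / l) ^ 2 := by
      ext s; ring
    rw [e1, intervalIntegral.integral_add, intervalIntegral.integral_sub, intervalIntegral.integral_const_mul, intervalIntegral.integral_const, ← hI]
    · simp
    · exact (hu.pow 2).intervalIntegrable _ _
    · exact (continuous_const.mul hu).intervalIntegrable _ _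
    · exact ((hu.pow 2).sub (continuous_const.mul hu)).intervalIntegrable _ _
    · exact continuous_const.intervalIntegrable _ _
  rw [h2] at h1
  rw [← hI]
  have h3 : 2 * (I / l) * I = 2 * (l⁻¹ * I ^ 2) := by field_simp
  have h4 : l * (I / l) ^ 2 = l⁻¹ * I ^ 2 := by field_simp
  rw [h3, h4] at h1
  linarith

/-- oscillation bound from the derivative -/
lemma osc_deriv {a l : ℝ} (hl : 0 < l) {u u' : ℝ → ℝ} (hu' : Continuous u')
    (hd : ∀ s, HasDerivAt u (u' s) s) {s t : ℝ} (hs : s ∈ Icc a (a + l)) (ht : t ∈ Icc a (a + l)) :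
    (u s - u t) ^ 2 ≤ l * ∫ s in a..a + l, u' s ^ 2 := by
  wlog hst : t ≤ s generalizing s t
  · have := this ht hs (le_of_not_ge hst)
    rwa [← neg_sub, neg_sq]
  rcases hst.eq_or_lt with rfl | hlt
  · rw [sub_self]
    have : 0 ≤ ∫ s in a..a + l, u' s ^ 2 := intervalIntegral.integral_nonneg (by linarith) fun s _ => sq_nonneg _
    have := mul_nonneg hl.le this
    simpa using this
  · have h1 : u s - u t = ∫ r in t..s, u' r :=
      (intervalIntegral.integral_eq_sub_of_hasDerivAt (fun r _ => hd r) (hu'.intervalIntegrable _ _)).symm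
    have h2 := sq_int_le (a := t) (l := s - t) (by linarith) hu'
    rw [add_sub_cancel] at h2
    rw [h1]
    refine h2.trans ?_
    have h3 : ∫ r in t..s, u' r ^ 2 ≤ ∫ r in a..a + l, u' r ^ 2 :=
      intervalIntegral.integral_mono_interval ht.1 hst hs.2 (Eventually.of_forall fun r => sq_nonneg _)
        ((hu'.pow 2).intervalIntegrable _ _)
    have h4 : 0 ≤ ∫ r in t..s, u' r ^ 2 := intervalIntegral.integral_nonneg hst fun s _ => sq_nonneg _
    have h5 : s - t ≤ l := by linarith [hs.2, ht.1]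
    exact mul_le_mul h5 h3 h4 hl.le

/-- the inequality on a square -/
theorem box_ineq {a b l : ℝ} (hl : 0 < l) {w wx wy : ℝ → ℝ → ℝ}
    (hw : Continuous (Function.uncurry w)) (hwx : Continuous (Function.uncurry wx))
    (hwy : Continuous (Function.uncurry wy))
    (dx : ∀ s t, HasDerivAt (fun s => w s t) (wx s t) s) (dy : ∀ s t, HasDerivAt (w s) (wy s t) t) :
    ∫ s in a..a + l, ∫ t in b..b + l, w s t ^ 2 ≤
      (l ^ 2)⁻¹ * (∫ s in a..a + l, ∫ t in b..b + l, w s t) ^ 2 +
      l ^ 2 * ∫ s in a..a + l, ∫ t in b..b + l, (wx s t ^ 2 + wy s t ^ 2) := by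
  have c1 : ∀ s, Continuous (w s) := fun s => hw.comp (Continuous.prodMk_right s)
  have c1x : ∀ s, Continuous (wx s) := fun s => hwx.comp (Continuous.prodMk_right s)
  have c1y : ∀ s, Continuous (wy s) := fun s => hwy.comp (Continuous.prodMk_right s)
  have c2x : ∀ t, Continuous (fun s => wx s t) := fun t => hwx.comp (Continuous.prodMk_left t)
  have cw2 : Continuous (Function.uncurry fun s t => w s t ^ 2) := hw.pow 2
  have cwx2 : Continuous (Function.uncurry fun s t => wx s t ^ 2) := hwx.pow 2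
  have cwy2 : Continuous (Function.uncurry fun s t => wy s t ^ 2) := hwy.pow 2
  obtain ⟨Mf, hMf⟩ : ∃ Mf : ℝ → ℝ, Mf = fun s => ∫ t in b..b + l, w s t := ⟨_, rfl⟩
  have cM : Continuous Mf := by
    rw [hMf]
    exact intervalIntegral.continuous_parametric_intervalIntegral_of_continuous' hw _ _
  have cJ : Continuous fun s => ∫ t in b..b + l, w s t ^ 2 :=
    intervalIntegral.continuous_parametric_intervalIntegral_of_continuous' cw2 _ _
  have cJy : Continuous fun s => ∫ t in b..b + l, wy s t ^ 2 :=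
    intervalIntegral.continuous_parametric_intervalIntegral_of_continuous' cwy2 _ _
  have cJx : Continuous fun s => ∫ t in b..b + l, wx s t ^ 2 :=
    intervalIntegral.continuous_parametric_intervalIntegral_of_continuous' cwx2 _ _
  -- inner inequality
  have h1 : ∀ s, ∫ t in b..b + l, w s t ^ 2 ≤ l⁻¹ * Mf s ^ 2 + l ^ 2 * ∫ t in b..b + l, wy s t ^ 2 := by
    intro s
    have hD : 0 ≤ l * ∫ t in b..b + l, wy s t ^ 2 :=
      mul_nonneg hl.le (intervalIntegral.integral_nonneg (by linarith) fun t _ => sq_nonneg _)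
    have h2 := osc_ineq (a := b) hl (c1 s) hD (fun t ht t' ht' => osc_deriv hl (c1y s) (dy s) ht ht')
    have h3 : l * (l * ∫ t in b..b + l, wy s t ^ 2) = l ^ 2 * ∫ t in b..b + l, wy s t ^ 2 := by ring
    rw [h3] at h2
    rw [hMf]
    exact h2
  have h2 : ∫ s in a..a + l, ∫ t in b..b + l, w s t ^ 2 ≤
      l⁻¹ * (∫ s in a..a + l, Mf s ^ 2) + l ^ 2 * ∫ s in a..a + l, ∫ t in b..b + l, wy s t ^ 2 := by
    have h3 := intervalIntegral.integral_mono_on (by linarith : a ≤ a + l) (cJ.intervalIntegrable (μ := volume) _ _)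
      (((continuous_const (y := l⁻¹)).mul (cM.pow 2)).add ((continuous_const (y := l ^ 2)).mul cJy)
        |>.intervalIntegrable _ _) (fun s _ => h1 s)
    refine h3.trans (le_of_eq ?_)
    simp only [Pi.add_apply, Pi.mul_apply]
    rw [intervalIntegral.integral_add, intervalIntegral.integral_const_mul, intervalIntegral.integral_const_mul]
    · rfl
    · exact ((continuous_const (y := l⁻¹)).mul (cM.pow 2)).intervalIntegrable _ _
    · exact ((continuous_const (y := l ^ 2)).mul cJy).intervalIntegrable _ _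
  -- oscillation of the marginal
  obtain ⟨X, hX⟩ : ∃ X, X = ∫ s in a..a + l, ∫ t in b..b + l, wx s t ^ 2 := ⟨_, rfl⟩
  have hX0 : 0 ≤ X := by
    rw [hX]
    exact intervalIntegral.integral_nonneg (by linarith) fun s _ => intervalIntegral.integral_nonneg (by linarith) fun t _ => sq_nonneg _
  have h3 : ∀ s ∈ Icc a (a + l), ∀ t ∈ Icc a (a + l), (Mf s - Mf t) ^ 2 ≤ l ^ 2 * X := by
    intro s hs s' hs'
    have h4 : Mf s - Mf s' = ∫ t in b..b + l, (w s t - w s' t) := by
      rw [hMf, intervalIntegral.integral_sub ((c1 s).intervalIntegrable _ _) ((c1 s').intervalIntegrable _ _)]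
    rw [h4]
    have h5 := sq_int_le (a := b) (l := l) hl ((c1 s).sub (c1 s'))
    refine h5.trans ?_
    have h6 : ∫ t in b..b + l, (w s - w s') t ^ 2 ≤ ∫ t in b..b + l, l * ∫ r in a..a + l, wx r t ^ 2 := by
      refine intervalIntegral.integral_mono_on (by linarith) ((((c1 s).sub (c1 s')).pow 2).intervalIntegrable _ _) ?_ ?_
      · refine Continuous.intervalIntegrable (continuous_const.mul ?_) _ _
        exact intervalIntegral.continuous_parametric_intervalIntegral_of_continuous'
          (f := fun t r => wx r t ^ 2) (cwx2.comp continuous_swap) _ _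
      · intro t _
        exact osc_deriv hl (c2x t) (fun r => dx r t) hs hs'
    have h7 : ∫ t in b..b + l, l * ∫ r in a..a + l, wx r t ^ 2 = l * X := by
      rw [intervalIntegral.integral_const_mul, hX]
      congr 1
      refine (intervalIntegral_intervalIntegral_swap (F := fun r t => wx r t ^ 2) ?_).symm
      exact (cwx2.continuousOn.integrableOn_compact (isCompact_uIcc.prod isCompact_uIcc)).mono_set
        (prod_mono uIoc_subset_uIcc uIoc_subset_uIcc)
    calc l * ∫ t in b..b + l, (w s - w s') t ^ 2 ≤ l * (l * X) :=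
          mul_le_mul_of_nonneg_left (h6.trans h7.le) hl.le
      _ = l ^ 2 * X := by ring
  have h4 := osc_ineq hl cM (by positivity) h3
  have h5 : ∫ s in a..a + l, ∫ t in b..b + l, (wx s t ^ 2 + wy s t ^ 2) =
      X + ∫ s in a..a + l, ∫ t in b..b + l, wy s t ^ 2 := by
    rw [hX, ← intervalIntegral.integral_add (cJx.intervalIntegrable _ _) (cJy.intervalIntegrable _ _)]
    refine intervalIntegral.integral_congr fun s _ => ?_
    exact intervalIntegral.integral_add (((c1x s).pow 2).intervalIntegrable _ _)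
      (((c1y s).pow 2).intervalIntegrable _ _)
  have h6 : l⁻¹ * (∫ s in a..a + l, Mf s ^ 2) ≤ l⁻¹ * (l⁻¹ * (∫ s in a..a + l, Mf s) ^ 2 + l * (l ^ 2 * X)) :=
    mul_le_mul_of_nonneg_left h4 (inv_nonneg.2 hl.le)
  have h7 : l⁻¹ * (l⁻¹ * (∫ s in a..a + l, Mf s) ^ 2 + l * (l ^ 2 * X)) =
      (l ^ 2)⁻¹ * (∫ s in a..a + l, Mf s) ^ 2 + l ^ 2 * X := by
    field_simp
  rw [h7] at h6
  rw [h5]
  have h8 : ∫ s in a..a + l, Mf s = ∫ s in a..a + l, ∫ t in b..b + l, w s t := by rw [hMf]
  rw [h8] at h6
  linarith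

end Pool.Agent.Helper89.Stek
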