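import Pool.Agent.Helper89.Stek.Area

/-!
Integration by parts in the plane.
-/

set_option autoImplicit false

open scoped ContDiff Topology
open MeasureTheory Set Filter

namespace Pool.Agent.Helper89.Stek

lemma integral_pd_eq_zero {W : (ℝ × ℝ) → ℝ} (hW : ContDiff ℝ ∞ W) (hc : HasCompactSupport W) (i : Fin 2) :
    ∫ y, pd i W y = 0 := by
  have hd : Differentiable ℝ W := hW.differentiable (by simp)
  have h1 : ∀ x, HasLineDerivAt ℝ W (pd i W x) x (bas i) := fun x =>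
    (hd x).hasFDerivAt.hasLineDerivAt _
  have hcont : Continuous (pd i W) := (hW.continuous_fderiv (by simp)).clm_apply continuous_const
  have hcs : HasCompactSupport (pd i W) := hc.fderiv_apply ℝ _
  have h2 := integral_bilinear_hasLineDerivAt_right_eq_neg_left_of_integrable (μ := volume)
    (f := fun _ : (ℝ × ℝ) => (1 : ℝ)) (f' := fun _ : (ℝ × ℝ) => (0 : ℝ)) (g := W) (g' := pd i W)
    (v := bas i) (B := ContinuousLinearMap.mul ℝ ℝ)
    (by simp) (by simpa using hcont.integrable_of_hasCompactSupport hcs)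
    (by simpa using hW.continuous.integrable_of_hasCompactSupport hc)
    (fun x _ => by simpa using (hasFDerivAt_const (1 : ℝ) x).hasLineDerivAt (bas i))
    (fun x _ => h1 x)
  simpa using h2

/-- smooth extension by zero -/
lemma contDiff_indicator {U K : Set (ℝ × ℝ)} (hU : IsOpen U) (hK : IsCompact K) (hKU : K ⊆ U) {w : (ℝ × ℝ) → ℝ}
    (hw : ContDiffOn ℝ ∞ w U) (h0 : ∀ y ∈ U, y ∉ K → w y = 0) :
    ContDiff ℝ ∞ (U.indicator w) ∧ HasCompactSupport (U.indicator w) := by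
  have h1 : ∀ y, y ∉ K → U.indicator w y = 0 := by
    intro y hy
    by_cases hyU : y ∈ U
    · rw [indicator_of_mem hyU, h0 y hyU hy]
    · exact indicator_of_notMem hyU _
  refine ⟨?_, HasCompactSupport.intro hK h1⟩
  rw [contDiff_iff_contDiffAt]
  intro y
  by_cases hyU : y ∈ U
  · refine (hw.contDiffAt (hU.mem_nhds hyU)).congr_of_eventuallyEq ?_
    filter_upwards [hU.mem_nhds hyU] with z hz
    exact indicator_of_mem hz _
  · have h2 : y ∈ Kᶜ := fun h => hyU (hKU h)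
    refine (contDiffAt_const (c := (0 : ℝ))).congr_of_eventuallyEq ?_
    filter_upwards [hK.isClosed.isOpen_compl.mem_nhds h2] with z hz
    exact h1 z hz

lemma parts {U K : Set (ℝ × ℝ)} (hU : IsOpen U) (hK : IsCompact K) (hKU : K ⊆ U) {w V : (ℝ × ℝ) → ℝ}
    (hw : ContDiffOn ℝ ∞ w U) (h0 : ∀ y ∈ U, y ∉ K → w y = 0) (hV : ContDiffOn ℝ ∞ V U) (i : Fin 2) :
    ∫ y in U, (V y * pd i w y + w y * pd i V y) = 0 := by
  obtain ⟨h1, h2⟩ := contDiff_indicator hU hK hKU (hw.mul hV) (fun y hy hyK => by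
    rw [h0 y hy hyK, zero_mul])
  have h3 := integral_pd_eq_zero h1 h2 i
  have h4 : ∀ y ∈ U, pd i (U.indicator (w * V)) y = V y * pd i w y + w y * pd i V y := by
    intro y hy
    have h5 : U.indicator (w * V) =ᶠ[𝓝 y] w * V := by
      filter_upwards [hU.mem_nhds hy] with z hz
      exact indicator_of_mem hz _
    unfold pd
    rw [h5.fderiv_eq, fderiv_mul ((hw.contDiffAt (hU.mem_nhds hy)).differentiableAt (by simp))
      ((hV.contDiffAt (hU.mem_nhds hy)).differentiableAt (by simp))]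
    simp only [add_apply, smul_apply, smul_eq_mul]
    ring
  have h6 : ∀ y, y ∉ U → pd i (U.indicator (w * V)) y = 0 := by
    intro y hy
    have h7 : y ∈ Kᶜ := fun h => hy (hKU h)
    have h5 : U.indicator (w * V) =ᶠ[𝓝 y] fun _ => 0 := by
      filter_upwards [hK.isClosed.isOpen_compl.mem_nhds h7] with z hz
      by_cases hzU : z ∈ U
      · rw [indicator_of_mem hzU, Pi.mul_apply, h0 z hzU hz, zero_mul]
      · exact indicator_of_notMem hzU _
    unfold pd
    rw [h5.fderiv_eq]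
    simp
  rw [← setIntegral_congr_fun hU.measurableSet h4, setIntegral_eq_integral_of_forall_compl_eq_zero h6]
  exact h3

lemma integrableOn_of_zero {U K : Set (ℝ × ℝ)} (hU : IsOpen U) (hK : IsCompact K) (hKU : K ⊆ U) {F : (ℝ × ℝ) → ℝ}
    (hF : ContinuousOn F U) (h0 : ∀ y ∈ U, y ∉ K → F y = 0) : IntegrableOn F U volume :=
  ((hF.mono hKU).integrableOn_compact hK).of_forall_diff_eq_zero hU.measurableSet
    (fun y hy => h0 y hy.1 hy.2)

lemma pd_zero_off {U K : Set (ℝ × ℝ)} (hU : IsOpen U) (hK : IsCompact K) {w : (ℝ × ℝ) → ℝ}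
    (h0 : ∀ y ∈ U, y ∉ K → w y = 0) (i : Fin 2) : ∀ y ∈ U, y ∉ K → pd i w y = 0 := by
  intro y hy hyK
  have h5 : w =ᶠ[𝓝 y] fun _ => 0 := by
    filter_upwards [hU.mem_nhds hy, hK.isClosed.isOpen_compl.mem_nhds hyK] with z hz hzK
    exact h0 z hz hzK
  unfold pd
  rw [h5.fderiv_eq]
  simp

lemma contDiffOn_pd {U : Set (ℝ × ℝ)} (hU : IsOpen U) {w : (ℝ × ℝ) → ℝ} (hw : ContDiffOn ℝ ∞ w U) (i : Fin 2) :
    ContDiffOn ℝ ∞ (pd i w) U :=
  (hw.fderiv_of_isOpen hU (m := ∞) (by simp)).clm_apply contDiffOn_const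

lemma parts_sum {U K : Set (ℝ × ℝ)} (hU : IsOpen U) (hK : IsCompact K) (hKU : K ⊆ U) {w V0 V1 : (ℝ × ℝ) → ℝ}
    (hw : ContDiffOn ℝ ∞ w U) (h0 : ∀ y ∈ U, y ∉ K → w y = 0) (hV0 : ContDiffOn ℝ ∞ V0 U)
    (hV1 : ContDiffOn ℝ ∞ V1 U) :
    ∫ y in U, (V0 y * pd 0 w y + V1 y * pd 1 w y) = - ∫ y in U, w y * (pd 0 V0 y + pd 1 V1 y) := by
  have h1 := parts hU hK hKU hw h0 hV0 0
  have h2 := parts hU hK hKU hw h0 hV1 1
  have i1 : IntegrableOn (fun y => V0 y * pd 0 w y + w y * pd 0 V0 y) U :=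
    integrableOn_of_zero hU hK hKU ((hV0.continuousOn.mul (contDiffOn_pd hU hw 0).continuousOn).add
      (hw.continuousOn.mul (contDiffOn_pd hU hV0 0).continuousOn)) (fun y hy hyK => by
      rw [h0 y hy hyK, pd_zero_off hU hK h0 0 y hy hyK]; ring)
  have i2 : IntegrableOn (fun y => V1 y * pd 1 w y + w y * pd 1 V1 y) U :=
    integrableOn_of_zero hU hK hKU ((hV1.continuousOn.mul (contDiffOn_pd hU hw 1).continuousOn).add
      (hw.continuousOn.mul (contDiffOn_pd hU hV1 1).continuousOn)) (fun y hy hyK => by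
      rw [h0 y hy hyK, pd_zero_off hU hK h0 1 y hy hyK]; ring)
  have i3 : IntegrableOn (fun y => V0 y * pd 0 w y + V1 y * pd 1 w y) U :=
    integrableOn_of_zero hU hK hKU ((hV0.continuousOn.mul (contDiffOn_pd hU hw 0).continuousOn).add
      (hV1.continuousOn.mul (contDiffOn_pd hU hw 1).continuousOn)) (fun y hy hyK => by
      rw [pd_zero_off hU hK h0 0 y hy hyK, pd_zero_off hU hK h0 1 y hy hyK]; ring)
  have i4 : IntegrableOn (fun y => w y * (pd 0 V0 y + pd 1 V1 y)) U :=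
    integrableOn_of_zero hU hK hKU (hw.continuousOn.mul ((contDiffOn_pd hU hV0 0).continuousOn.add
      (contDiffOn_pd hU hV1 1).continuousOn)) (fun y hy hyK => by
      rw [h0 y hy hyK]; ring)
  have h3 := integral_add i1 i2
  rw [h1, h2, add_zero] at h3
  have h4 := integral_add i3 i4
  have h5 : ∫ y in U, (V0 y * pd 0 w y + w y * pd 0 V0 y + (V1 y * pd 1 w y + w y * pd 1 V1 y)) =
      ∫ y in U, (V0 y * pd 0 w y + V1 y * pd 1 w y + w y * (pd 0 V0 y + pd 1 V1 y)) := by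
    congr 1
    ext y
    ring
  rw [h5, h4] at h3
  linarith

end Pool.Agent.Helper89.Stek
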