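import Pool.Agent.Helper89.Stek.BoxA
import Pool.Agent.Helper89.Stek.GreenA

/-!
The Poincare inequality on squares of the Euclidean plane, and its subdivided version.
-/

set_option autoImplicit false

open scoped ContDiff Topology
open MeasureTheory Set Filter

namespace Pool.Agent.Helper89.Stek

/-- the identity of the plane -/
noncomputable def eP : ℝ × ℝ ≃ᵐ (ℝ × ℝ) := MeasurableEquiv.refl _

lemma eP_mp : MeasurePreserving eP volume volume := MeasurePreserving.id volume

/-- the point with given coordinates -/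
noncomputable def pt (s t : ℝ) : (ℝ × ℝ) := s • bas 0 + t • bas 1

@[simp] lemma pt_zero (s t : ℝ) : (pt s t).1 = s := by simp [pt]
@[simp] lemma pt_one (s t : ℝ) : (pt s t).2 = t := by simp [pt]

lemma pt_coord (y : (ℝ × ℝ)) : pt (y.1) (y.2) = y := (eq_bas y).symm

lemma eP_eq (p : ℝ × ℝ) : eP p = pt p.1 p.2 := eq_bas p

lemma pt_continuous : Continuous (fun p : ℝ × ℝ => pt p.1 p.2) := by
  unfold pt
  fun_prop

lemma hasDerivAt_pt_left (s t : ℝ) : HasDerivAt (fun s => pt s t) (bas 0) s := by
  unfold pt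
  have h := ((hasDerivAt_id s).smul_const (bas (0 : Fin 2))).add_const
    (t • bas (1 : Fin 2))
  simpa using h

lemma hasDerivAt_pt_right (s t : ℝ) : HasDerivAt (fun t => pt s t) (bas 1) t := by
  unfold pt
  have h := ((hasDerivAt_id t).smul_const (bas (1 : Fin 2))).const_add
    (s • bas (0 : Fin 2))
  simpa using h

/-- a half-open square -/
def bx (a b l : ℝ) : Set (ℝ × ℝ) := {y | y.1 ∈ Ioc a (a + l) ∧ y.2 ∈ Ioc b (b + l)}

lemma bx_preimage (a b l : ℝ) : eP ⁻¹' bx a b l = Ioc a (a + l) ×ˢ Ioc b (b + l) := by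
  ext p
  rw [mem_preimage, eP_eq]
  simp [bx]

lemma measurableSet_bx (a b l : ℝ) : MeasurableSet (bx a b l) := by
  have h : bx a b l = eP.symm ⁻¹' (Ioc a (a + l) ×ˢ Ioc b (b + l)) := by
    rw [← bx_preimage, ← preimage_comp]
    simp
  rw [h]
  exact eP.symm.measurable (measurableSet_Ioc.prod measurableSet_Ioc)

lemma integral_bx {a b l : ℝ} (hl : 0 ≤ l) {F : (ℝ × ℝ) → ℝ} (hF : Continuous F) :
    ∫ y in bx a b l, F y = ∫ s in a..a + l, ∫ t in b..b + l, F (pt s t) := by
  rw [← eP_mp.setIntegral_preimage_emb eP.measurableEmbedding F (bx a b l), bx_preimage]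
  have h1 : Continuous fun p : ℝ × ℝ => F (eP p) := by
    simp only [eP_eq]
    exact hF.comp pt_continuous
  rw [Measure.volume_eq_prod, setIntegral_prod]
  · rw [intervalIntegral.integral_of_le (by linarith)]
    refine setIntegral_congr_fun measurableSet_Ioc fun s _ => ?_
    beta_reduce
    rw [intervalIntegral.integral_of_le (by linarith)]
    simp only [eP_eq]
  · rw [← Measure.volume_eq_prod]
    exact (h1.continuousOn.integrableOn_compact (isCompact_Icc.prod isCompact_Icc)).mono_set
      (prod_mono Ioc_subset_Icc_self Ioc_subset_Icc_self)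

lemma bx_finite (a b l : ℝ) : volume (bx a b l) < ⊤ := by
  rw [← eP_mp.measure_preimage_emb eP.measurableEmbedding, bx_preimage, Measure.volume_eq_prod,
    Measure.prod_prod]
  exact ENNReal.mul_lt_top (by simp) (by simp)

lemma bx_ineq {a b l : ℝ} (hl : 0 < l) {W : (ℝ × ℝ) → ℝ} (hW : ContDiff ℝ ∞ W) :
    ∫ y in bx a b l, W y ^ 2 ≤ (l ^ 2)⁻¹ * (∫ y in bx a b l, W y) ^ 2 +
      l ^ 2 * ∫ y in bx a b l, (pd 0 W y ^ 2 + pd 1 W y ^ 2) := by
  have hd : Differentiable ℝ W := hW.differentiable (by simp)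
  have c0 : Continuous (pd 0 W) := (hW.continuous_fderiv (by simp)).clm_apply continuous_const
  have c1 : Continuous (pd 1 W) := (hW.continuous_fderiv (by simp)).clm_apply continuous_const
  have h := box_ineq (a := a) (b := b) hl (w := fun s t => W (pt s t)) (wx := fun s t => pd 0 W (pt s t))
    (wy := fun s t => pd 1 W (pt s t)) (hW.continuous.comp pt_continuous) (c0.comp pt_continuous)
    (c1.comp pt_continuous) (fun s t => (hd _).hasFDerivAt.comp_hasDerivAt s (hasDerivAt_pt_left s t))
    (fun s t => (hd _).hasFDerivAt.comp_hasDerivAt t (hasDerivAt_pt_right s t))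
  rw [integral_bx hl.le (F := fun y => W y ^ 2) (hW.continuous.pow 2), integral_bx hl.le hW.continuous,
    integral_bx hl.le (F := fun y => pd 0 W y ^ 2 + pd 1 W y ^ 2) ((c0.pow 2).add (c1.pow 2))]
  exact h

lemma sum_bx {a b l : ℝ} (hl : 0 ≤ l) {N : ℕ} (hN : 0 < N) {F : (ℝ × ℝ) → ℝ} (hF : Continuous F) :
    ∑ i ∈ Finset.range N, ∑ j ∈ Finset.range N,
      ∫ y in bx (a + i * (l / N)) (b + j * (l / N)) (l / N), F y = ∫ y in bx a b l, F y := by
  have hN' : (N : ℝ) ≠ 0 := by positivity
  have hlN : 0 ≤ l / N := by positivity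
  have cF : Continuous (Function.uncurry fun s t => F (pt s t)) := hF.comp pt_continuous
  have h1 : ∀ i j : ℕ, ∫ y in bx (a + i * (l / N)) (b + j * (l / N)) (l / N), F y =
      ∫ s in (a + i * (l / N))..(a + (i + 1 : ℕ) * (l / N)), ∫ t in (b + j * (l / N))..(b + (j + 1 : ℕ) * (l / N)),
        F (pt s t) := by
    intro i j
    rw [integral_bx hlN hF]
    have e1 : a + i * (l / N) + l / N = a + (i + 1 : ℕ) * (l / N) := by push_cast; ring
    have e2 : b + j * (l / N) + l / N = b + (j + 1 : ℕ) * (l / N) := by push_cast; ring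
    rw [e1, e2]
  have h2 : ∀ s, ∑ j ∈ Finset.range N, ∫ t in (b + j * (l / N))..(b + (j + 1 : ℕ) * (l / N)), F (pt s t) =
      ∫ t in b..b + l, F (pt s t) := by
    intro s
    have := intervalIntegral.sum_integral_adjacent_intervals (μ := volume) (f := fun t => F (pt s t))
      (a := fun j : ℕ => b + j * (l / N)) (n := N)
      (fun k _ => (cF.comp (Continuous.prodMk_right s)).intervalIntegrable _ _)
    rw [this]
    congr 1
    · simp
    · field_simp
  have h3 : ∀ i : ℕ, ∑ j ∈ Finset.range N, ∫ y in bx (a + i * (l / N)) (b + j * (l / N)) (l / N), F y =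
      ∫ s in (a + i * (l / N))..(a + (i + 1 : ℕ) * (l / N)), ∫ t in b..b + l, F (pt s t) := by
    intro i
    simp_rw [h1]
    rw [← intervalIntegral.integral_finsetSum]
    · exact intervalIntegral.integral_congr fun s _ => h2 s
    · intro j _
      exact (intervalIntegral.continuous_parametric_intervalIntegral_of_continuous' cF _ _).intervalIntegrable _ _
  simp_rw [h3]
  have := intervalIntegral.sum_integral_adjacent_intervals (μ := volume)
    (f := fun s => ∫ t in b..b + l, F (pt s t)) (a := fun j : ℕ => a + j * (l / N)) (n := N)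
    (fun k _ => (intervalIntegral.continuous_parametric_intervalIntegral_of_continuous' cF _ _).intervalIntegrable _ _)
  rw [this, integral_bx hl hF]
  congr 1
  · simp
  · field_simp

lemma bx_subdiv {a b l : ℝ} (hl : 0 < l) {N : ℕ} (hN : 0 < N) {W : (ℝ × ℝ) → ℝ} (hW : ContDiff ℝ ∞ W) :
    ∫ y in bx a b l, W y ^ 2 ≤ ((l / N) ^ 2)⁻¹ * (∑ i ∈ Finset.range N, ∑ j ∈ Finset.range N,
      (∫ y in bx (a + i * (l / N)) (b + j * (l / N)) (l / N), W y) ^ 2) +
      (l / N) ^ 2 * ∫ y in bx a b l, (pd 0 W y ^ 2 + pd 1 W y ^ 2) := by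
  have c0 : Continuous (pd 0 W) := (hW.continuous_fderiv (by simp)).clm_apply continuous_const
  have c1 : Continuous (pd 1 W) := (hW.continuous_fderiv (by simp)).clm_apply continuous_const
  have hlN : 0 < l / N := by positivity
  rw [← sum_bx hl.le hN (F := fun y => W y ^ 2) (hW.continuous.pow 2),
    ← sum_bx hl.le hN (F := fun y => pd 0 W y ^ 2 + pd 1 W y ^ 2) ((c0.pow 2).add (c1.pow 2)),
    Finset.mul_sum, Finset.mul_sum, ← Finset.sum_add_distrib]
  refine Finset.sum_le_sum fun i _ => ?_
  rw [Finset.mul_sum, Finset.mul_sum, ← Finset.sum_add_distrib]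
  exact Finset.sum_le_sum fun j _ => bx_ineq hlN hW

end Pool.Agent.Helper89.Stek
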