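import Pool.Agent.Helper89.Stek.Defs

/-!
Metric coefficients in charts.
-/

set_option autoImplicit false

open scoped Manifold ContDiff ENNReal
open MeasureTheory Bundle Set

namespace Pool.Agent.Helper89.Stek

/-- The standard basis of `ℝ × ℝ`. -/
noncomputable abbrev bas (i : Fin 2) : ℝ × ℝ := ![(1, 0), (0, 1)] i

lemma bas_zero : bas 0 = (1, 0) := rfl

lemma bas_one : bas 1 = (0, 1) := rfl

lemma eq_bas (z : ℝ × ℝ) : z = z.1 • bas 0 + z.2 • bas 1 := by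
  rw [bas_zero, bas_one]
  ext <;> simp

variable {M : Type*} [TopologicalSpace M] [ChartedSpace (ℝ × ℝ) M] [IsManifold 𝓘(ℝ, ℝ × ℝ) ∞ M]

section general

variable {F : Type*} [NormedAddCommGroup F] [NormedSpace ℝ F]

lemma contMDiffOn_mfderiv_vec {c : F → M} {U : Set F} (hU : IsOpen U)
    (hc : ContMDiffOn 𝓘(ℝ, F) 𝓘(ℝ, ℝ × ℝ) ∞ c U) (v : F) :
    ContMDiffOn 𝓘(ℝ, F) 𝓘(ℝ, ℝ × ℝ).tangent ∞
      (fun y => (⟨c y, mfderiv 𝓘(ℝ, F) 𝓘(ℝ, ℝ × ℝ) c y v⟩ : TangentBundle 𝓘(ℝ, ℝ × ℝ) M)) U := by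
  have h1 := hc.contMDiffOn_tangentMapWithin (m := ∞) (n := ∞) (by simp) hU.uniqueMDiffOn
  have h2 : ContMDiff 𝓘(ℝ, F) 𝓘(ℝ, F).tangent ∞ (fun y : F => (⟨y, v⟩ : TangentBundle 𝓘(ℝ, F) F)) :=
    contMDiff_vectorSpace_iff_contDiff.2 contDiff_const
  have h3 := h1.comp (t := Bundle.TotalSpace.proj ⁻¹' U) h2.contMDiffOn (fun y hy => hy)
  refine h3.congr fun y hy => ?_
  simp only [Function.comp_apply, tangentMapWithin]
  rw [mfderivWithin_of_isOpen hU hy]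

lemma contDiffOn_inner_mfderiv (g : Metric M) {c : F → M} {U : Set F} (hU : IsOpen U)
    (hc : ContMDiffOn 𝓘(ℝ, F) 𝓘(ℝ, ℝ × ℝ) ∞ c U) (v w : F) :
    ContDiffOn ℝ ∞ (fun y => g.inner (c y) (mfderiv 𝓘(ℝ, F) 𝓘(ℝ, ℝ × ℝ) c y v)
      (mfderiv 𝓘(ℝ, F) 𝓘(ℝ, ℝ × ℝ) c y w)) U := by
  rw [← contMDiffOn_iff_contDiffOn]
  let _ : RiemannianBundle (fun x : M => TangentSpace 𝓘(ℝ, ℝ × ℝ) x) := ⟨g.toRiemannianMetric⟩
  exact ContMDiffOn.inner_bundle (contMDiffOn_mfderiv_vec hU hc v) (contMDiffOn_mfderiv_vec hU hc w)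

end general

lemma exists_grad (g : Metric M) (x : M) (l : TangentSpace 𝓘(ℝ, ℝ × ℝ) x →L[ℝ] ℝ) :
    ∃ w : TangentSpace 𝓘(ℝ, ℝ × ℝ) x, ∀ v, g.inner x w v = l v := by
  have hfd : FiniteDimensional ℝ (TangentSpace 𝓘(ℝ, ℝ × ℝ) x) := inferInstanceAs (FiniteDimensional ℝ (ℝ × ℝ))
  let L : TangentSpace 𝓘(ℝ, ℝ × ℝ) x →ₗ[ℝ] Module.Dual ℝ (TangentSpace 𝓘(ℝ, ℝ × ℝ) x) :=
    LinearMap.mk₂ ℝ (fun w v => g.inner x w v)
      (fun a b c => by rw [map_add]; rfl) (fun a b c => by rw [map_smul]; rfl)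
      (fun a b c => by rw [map_add]) (fun a b c => by rw [map_smul])
  have hinj : Function.Injective L := by
    rw [injective_iff_map_eq_zero]
    intro w hw
    by_contra hne
    have h1 := g.pos x w hne
    have h2 : g.inner x w w = L w w := rfl
    rw [h2, hw] at h1
    simp at h1
  have hsurj : Function.Surjective L :=
    (LinearMap.injective_iff_surjective_of_finrank_eq_finrank (Subspace.dual_finrank_eq).symm).1 hinj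
  obtain ⟨w, hw⟩ := hsurj (l : TangentSpace 𝓘(ℝ, ℝ × ℝ) x →ₗ[ℝ] ℝ)
  exact ⟨w, fun v => by
    have : g.inner x w v = L w v := rfl
    rw [this, hw]; rfl⟩

lemma grad_spec (g : Metric M) (u : M → ℝ) (x : M) (v : TangentSpace 𝓘(ℝ, ℝ × ℝ) x) :
    g.inner x (grad g u x) v = mfderiv 𝓘(ℝ, ℝ × ℝ) 𝓘(ℝ) u x v :=
  Classical.epsilon_spec (exists_grad g x (mfderiv 𝓘(ℝ, ℝ × ℝ) 𝓘(ℝ) u x)) v

lemma inner_ext (g : Metric M) {x : M} {w w' : TangentSpace 𝓘(ℝ, ℝ × ℝ) x}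
    (h : ∀ v, g.inner x w v = g.inner x w' v) : w = w' := by
  by_contra hne
  have h1 := g.pos x (w - w') (sub_ne_zero.2 hne)
  have h2 : g.inner x (w - w') (w - w') = g.inner x w (w - w') - g.inner x w' (w - w') := by
    rw [map_sub (g.inner x)]; rfl
  rw [h2, h] at h1
  simp at h1

/-- The product of the gradients. -/
noncomputable def gradInner (g : Metric M) (u v : M → ℝ) (x : M) : ℝ :=
  g.inner x (grad g u x) (grad g v x)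

lemma gradInner_eq (g : Metric M) (u v : M → ℝ) (x : M) :
    gradInner g u v x = mfderiv 𝓘(ℝ, ℝ × ℝ) 𝓘(ℝ) u x (grad g v x) := grad_spec g u x _

lemma gradInner_symm (g : Metric M) (u v : M → ℝ) (x : M) :
    gradInner g u v x = gradInner g v u x := g.symm x _ _

lemma gradInner_nonneg (g : Metric M) (u : M → ℝ) (x : M) : 0 ≤ gradInner g u u x := by
  rcases eq_or_ne (grad g u x) 0 with h | h
  · unfold gradInner
    rw [h]; simp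
  · exact (g.pos x _ h).le

section chart

variable {φ : OpenPartialHomeomorph M (ℝ × ℝ)} (hφ : φ ∈ IsManifold.maximalAtlas 𝓘(ℝ, ℝ × ℝ) ∞ M)

/-- the partial derivative in direction `i` -/
noncomputable abbrev pd (i : Fin 2) (u : (ℝ × ℝ) → ℝ) (y : (ℝ × ℝ)) : ℝ := fderiv ℝ u y (bas i)

include hφ

lemma mfderiv_symm_comp {y : (ℝ × ℝ)} (hy : y ∈ φ.target) :
    (mfderiv 𝓘(ℝ, ℝ × ℝ) 𝓘(ℝ, ℝ × ℝ) φ (φ.symm y)).comp (mfderiv 𝓘(ℝ, ℝ × ℝ) 𝓘(ℝ, ℝ × ℝ) φ.symm y) =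
      ContinuousLinearMap.id ℝ (ℝ × ℝ) := by
  have h1 : MDifferentiableAt 𝓘(ℝ, ℝ × ℝ) 𝓘(ℝ, ℝ × ℝ) φ.symm y :=
    (contMDiffAt_symm_of_mem_maximalAtlas hφ hy).mdifferentiableAt (by simp)
  have h2 : MDifferentiableAt 𝓘(ℝ, ℝ × ℝ) 𝓘(ℝ, ℝ × ℝ) φ (φ.symm y) :=
    (contMDiffAt_of_mem_maximalAtlas hφ (φ.map_target hy)).mdifferentiableAt (by simp)
  rw [← mfderiv_comp y h2 h1]
  have h3 : (φ ∘ φ.symm) =ᶠ[nhds y] id := by
    filter_upwards [φ.open_target.mem_nhds hy] with z hz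
    exact φ.right_inv hz
  rw [h3.mfderiv_eq]
  exact mfderiv_id

lemma mfderiv_comp_symm {y : (ℝ × ℝ)} (hy : y ∈ φ.target) :
    (mfderiv 𝓘(ℝ, ℝ × ℝ) 𝓘(ℝ, ℝ × ℝ) φ.symm y).comp (mfderiv 𝓘(ℝ, ℝ × ℝ) 𝓘(ℝ, ℝ × ℝ) φ (φ.symm y)) =
      ContinuousLinearMap.id ℝ (TangentSpace 𝓘(ℝ, ℝ × ℝ) (φ.symm y)) := by
  have h1 : MDifferentiableAt 𝓘(ℝ, ℝ × ℝ) 𝓘(ℝ, ℝ × ℝ) φ.symm (φ (φ.symm y)) := by
    rw [φ.right_inv hy]
    exact (contMDiffAt_symm_of_mem_maximalAtlas hφ hy).mdifferentiableAt (by simp)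
  have h2 : MDifferentiableAt 𝓘(ℝ, ℝ × ℝ) 𝓘(ℝ, ℝ × ℝ) φ (φ.symm y) :=
    (contMDiffAt_of_mem_maximalAtlas hφ (φ.map_target hy)).mdifferentiableAt (by simp)
  have h4 := mfderiv_comp (φ.symm y) h1 h2
  rw [φ.right_inv hy] at h4
  rw [← h4]
  have h3 : (φ.symm ∘ φ) =ᶠ[nhds (φ.symm y)] id := by
    filter_upwards [φ.open_source.mem_nhds (φ.map_target hy)] with z hz
    exact φ.left_inv hz
  rw [h3.mfderiv_eq]
  exact mfderiv_id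

omit [IsManifold 𝓘(ℝ, ℝ × ℝ) ∞ M] hφ in
lemma mfderiv_lin (y : (ℝ × ℝ)) (a b : ℝ) (p q : (ℝ × ℝ)) :
    (mfderiv 𝓘(ℝ, ℝ × ℝ) 𝓘(ℝ, ℝ × ℝ) φ.symm y (a • p + b • q : (ℝ × ℝ)) : TangentSpace 𝓘(ℝ, ℝ × ℝ) (φ.symm y)) =
      a • (mfderiv 𝓘(ℝ, ℝ × ℝ) 𝓘(ℝ, ℝ × ℝ) φ.symm y p : TangentSpace 𝓘(ℝ, ℝ × ℝ) (φ.symm y)) +
      b • (mfderiv 𝓘(ℝ, ℝ × ℝ) 𝓘(ℝ, ℝ × ℝ) φ.symm y q : TangentSpace 𝓘(ℝ, ℝ × ℝ) (φ.symm y)) := by
  let L : (ℝ × ℝ) →L[ℝ] TangentSpace 𝓘(ℝ, ℝ × ℝ) (φ.symm y) := mfderiv 𝓘(ℝ, ℝ × ℝ) 𝓘(ℝ, ℝ × ℝ) φ.symm y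
  have h : L (a • p + b • q) = a • L p + b • L q := by rw [map_add, map_smul, map_smul]
  exact h

lemma coordVec_surj {y : (ℝ × ℝ)} (hy : y ∈ φ.target) (w : TangentSpace 𝓘(ℝ, ℝ × ℝ) (φ.symm y)) :
    ∃ a b : ℝ, w = a • coordVec φ 0 y + b • coordVec φ 1 y := by
  have h1 := mfderiv_comp_symm hφ hy
  have h2 : w = mfderiv 𝓘(ℝ, ℝ × ℝ) 𝓘(ℝ, ℝ × ℝ) φ.symm y (mfderiv 𝓘(ℝ, ℝ × ℝ) 𝓘(ℝ, ℝ × ℝ) φ (φ.symm y) w) := by
    have := congrArg (fun L => L w) h1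
    exact this.symm
  obtain ⟨z, hz⟩ : ∃ z : (ℝ × ℝ), z = mfderiv 𝓘(ℝ, ℝ × ℝ) 𝓘(ℝ, ℝ × ℝ) φ (φ.symm y) w := ⟨_, rfl⟩
  have h3 : z = z.1 • bas 0 + z.2 • bas 1 := eq_bas z
  refine ⟨z.1, z.2, ?_⟩
  rw [h2, ← hz]
  have h4 := mfderiv_lin (φ := φ) y (z.1) (z.2) (bas 0) (bas 1)
  rw [← h3] at h4
  exact h4

lemma coordVec_indep {y : (ℝ × ℝ)} (hy : y ∈ φ.target) {a b : ℝ}
    (h : a • coordVec φ 0 y + b • coordVec φ 1 y = 0) : a = 0 ∧ b = 0 := by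
  have h1 := mfderiv_symm_comp hφ hy
  obtain ⟨z, hz⟩ : ∃ z : (ℝ × ℝ), z = a • bas 0 + b • bas 1 :=
    ⟨_, rfl⟩
  have h2 : mfderiv 𝓘(ℝ, ℝ × ℝ) 𝓘(ℝ, ℝ × ℝ) φ.symm y z = 0 := by
    rw [hz]
    exact (mfderiv_lin (φ := φ) y a b (bas 0) (bas 1)).trans h
  have h3 : z = mfderiv 𝓘(ℝ, ℝ × ℝ) 𝓘(ℝ, ℝ × ℝ) φ (φ.symm y) (mfderiv 𝓘(ℝ, ℝ × ℝ) 𝓘(ℝ, ℝ × ℝ) φ.symm y z) := by
    have := congrArg (fun L => L z) h1
    exact this.symm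
  rw [h2, map_zero, hz] at h3
  rw [bas_zero, bas_one] at h3
  have h4 := congrArg Prod.fst h3
  have h5 := congrArg Prod.snd h3
  simp at h4 h5
  exact ⟨h4, h5⟩

lemma mfderiv_coordVec {y : (ℝ × ℝ)} (hy : y ∈ φ.target) {u : M → ℝ}
    (hu : MDifferentiableAt 𝓘(ℝ, ℝ × ℝ) 𝓘(ℝ) u (φ.symm y)) (i : Fin 2) :
    mfderiv 𝓘(ℝ, ℝ × ℝ) 𝓘(ℝ) u (φ.symm y) (coordVec φ i y) = pd i (u ∘ φ.symm) y := by
  have h1 : MDifferentiableAt 𝓘(ℝ, ℝ × ℝ) 𝓘(ℝ, ℝ × ℝ) φ.symm y :=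
    (contMDiffAt_symm_of_mem_maximalAtlas hφ hy).mdifferentiableAt (by simp)
  have h2 := mfderiv_comp y hu h1
  rw [pd, ← mfderiv_eq_fderiv, h2]
  rfl

omit hφ in
lemma gram_symm (g : Metric M) (y : (ℝ × ℝ)) : gram g φ y 1 0 = gram g φ y 0 1 := g.symm _ _ _

lemma gram_zero_pos (g : Metric M) {y : (ℝ × ℝ)} (hy : y ∈ φ.target) : 0 < gram g φ y 0 0 := by
  refine g.pos _ _ fun h => ?_
  have := coordVec_indep hφ hy (a := 1) (b := 0) (by rw [h]; simp)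
  exact one_ne_zero this.1

lemma gram_one_pos (g : Metric M) {y : (ℝ × ℝ)} (hy : y ∈ φ.target) : 0 < gram g φ y 1 1 := by
  refine g.pos _ _ fun h => ?_
  have := coordVec_indep hφ hy (a := 0) (b := 1) (by rw [h]; simp)
  exact one_ne_zero this.2

lemma gram_det_pos (g : Metric M) {y : (ℝ × ℝ)} (hy : y ∈ φ.target) : 0 < (gram g φ y).det := by
  rw [Matrix.det_fin_two, gram_symm]
  have h0 := gram_zero_pos hφ g hy
  have hne : gram g φ y 0 0 • coordVec φ 1 y - gram g φ y 0 1 • coordVec φ 0 y ≠ 0 := by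
    intro h
    have := coordVec_indep hφ hy (a := - gram g φ y 0 1) (b := gram g φ y 0 0) (by
      rw [← h, neg_smul, sub_eq_add_neg, add_comm])
    exact h0.ne' this.2
  have h1 := g.pos _ _ hne
  simp only [map_sub, map_smul, ContinuousLinearMap.sub_apply, ContinuousLinearMap.smul_apply,
    smul_eq_mul] at h1
  have e1 : g.inner (φ.symm y) (coordVec φ 1 y) (coordVec φ 1 y) = gram g φ y 1 1 := rfl
  have e2 : g.inner (φ.symm y) (coordVec φ 0 y) (coordVec φ 1 y) = gram g φ y 0 1 := rfl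
  have e3 : g.inner (φ.symm y) (coordVec φ 1 y) (coordVec φ 0 y) = gram g φ y 0 1 := gram_symm g y
  have e4 : g.inner (φ.symm y) (coordVec φ 0 y) (coordVec φ 0 y) = gram g φ y 0 0 := rfl
  rw [e1, e2, e3, e4] at h1
  have h2 : 0 < gram g φ y 0 0 * (gram g φ y 0 0 * gram g φ y 1 1 - gram g φ y 0 1 * gram g φ y 0 1) := by
    nlinarith
  exact (mul_pos_iff_of_pos_left h0).1 h2

lemma gram_contDiffOn (g : Metric M) (i j : Fin 2) :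
    ContDiffOn ℝ ∞ (fun y => gram g φ y i j) φ.target :=
  contDiffOn_inner_mfderiv g φ.open_target (contMDiffOn_symm_of_mem_maximalAtlas hφ) _ _

lemma det_contDiffOn (g : Metric M) :
    ContDiffOn ℝ ∞ (fun y => (gram g φ y).det) φ.target := by
  simp only [Matrix.det_fin_two]
  exact ((gram_contDiffOn hφ g 0 0).mul (gram_contDiffOn hφ g 1 1)).sub
    ((gram_contDiffOn hφ g 0 1).mul (gram_contDiffOn hφ g 1 0))

/-- the product of the gradients in coordinates -/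
lemma gradInner_chart (g : Metric M) {y : (ℝ × ℝ)} (hy : y ∈ φ.target) {u v : M → ℝ}
    (hu : MDifferentiableAt 𝓘(ℝ, ℝ × ℝ) 𝓘(ℝ) u (φ.symm y)) (hv : MDifferentiableAt 𝓘(ℝ, ℝ × ℝ) 𝓘(ℝ) v (φ.symm y)) :
    (gram g φ y).det * gradInner g u v (φ.symm y) =
      gram g φ y 1 1 * (pd 0 (u ∘ φ.symm) y * pd 0 (v ∘ φ.symm) y)
      - gram g φ y 0 1 * (pd 0 (u ∘ φ.symm) y * pd 1 (v ∘ φ.symm) y
        + pd 1 (u ∘ φ.symm) y * pd 0 (v ∘ φ.symm) y)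
      + gram g φ y 0 0 * (pd 1 (u ∘ φ.symm) y * pd 1 (v ∘ φ.symm) y) := by
  obtain ⟨a, b, hab⟩ := coordVec_surj hφ hy (grad g u (φ.symm y))
  have h1 : ∀ i, a * gram g φ y 0 i + b * gram g φ y 1 i = pd i (u ∘ φ.symm) y := by
    intro i
    rw [← mfderiv_coordVec hφ hy hu i, ← grad_spec g u, hab, map_add, map_smul, map_smul]
    rfl
  have h2 : gradInner g u v (φ.symm y) = a * pd 0 (v ∘ φ.symm) y + b * pd 1 (v ∘ φ.symm) y := by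
    rw [gradInner_symm, gradInner_eq, hab, map_add, map_smul, map_smul, mfderiv_coordVec hφ hy hv,
      mfderiv_coordVec hφ hy hv]
    rfl
  have h3 := h1 0
  have h4 := h1 1
  rw [gram_symm] at h3
  rw [Matrix.det_fin_two, gram_symm, h2, ← h3, ← h4]
  ring

end chart

end Pool.Agent.Helper89.Stek
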