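import Pool.Agent.Helper89.Stek.BoxB

/-!
Concentration near a line in the plane.
-/

set_option autoImplicit false

open scoped ContDiff Topology
open MeasureTheory Set Filter

namespace Pool.Agent.Helper89.Stek

lemma flat_coarea {G : (ℝ × ℝ) → ℝ} (hG : Continuous G) (hGc : HasCompactSupport G) {η : ℝ → ℝ}
    (hη : Continuous η) (hηc : HasCompactSupport η) :
    Tendsto (fun ε : ℝ => ∫ y, G y * (ε⁻¹ * η (y.2 / ε))) (𝓝[>] 0)
      (𝓝 ((∫ t, η t) * ∫ s, G (pt s 0))) := by
  -- compact support in the first variable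
  obtain ⟨R, hR⟩ : ∃ R : ℝ, ∀ s t : ℝ, s ∉ Icc (-R) R → G (pt s t) = 0 := by
    obtain ⟨R, hR⟩ := hGc.isCompact.isBounded.exists_norm_le
    refine ⟨R, fun s t hs => ?_⟩
    by_contra hne
    have h1 := hR (pt s t) (subset_tsupport _ hne)
    have h2 : |s| ≤ R := by
      have h3 : |(pt s t).1| ≤ ‖pt s t‖ := by
        rw [Prod.norm_def, ← Real.norm_eq_abs]
        exact le_max_left _ _
      rw [pt_zero] at h3
      exact h3.trans h1
    exact hs (abs_le.1 h2)
  obtain ⟨B, hB⟩ := hG.bounded_above_of_compact_support hGc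
  obtain ⟨H, hH⟩ : ∃ H : ℝ → ℝ, H = fun t => ∫ s, G (pt s t) := ⟨_, rfl⟩
  have hH' : H = fun t => ∫ s in Icc (-R) R, G (pt s t) := by
    rw [hH]
    ext t
    exact (setIntegral_eq_integral_of_forall_compl_eq_zero fun s hs => hR s t hs).symm
  have hHc : Continuous H := by
    rw [hH']
    refine continuous_parametric_integral_of_continuous (f := fun t s => G (pt s t)) ?_ isCompact_Icc
    exact hG.comp (pt_continuous.comp continuous_swap)
  have hB0 : 0 ≤ B := (norm_nonneg _).trans (hB 0)
  have hHb : ∀ t, |H t| ≤ B * (volume (Icc (-R) R)).toReal := by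
    intro t
    rw [hH']
    have := norm_setIntegral_le_of_norm_le_const (μ := volume) (s := Icc (-R) R) (f := fun s => G (pt s t))
      (C := B) measure_Icc_lt_top (fun s _ => hB _)
    exact this
  -- Fubini
  have hint : Integrable (fun p : ℝ × ℝ => G (pt p.1 p.2)) (volume : Measure (ℝ × ℝ)) := by
    have h1 : Integrable G volume := hG.integrable_of_hasCompactSupport hGc
    rw [← eP_mp.integrable_comp_emb eP.measurableEmbedding] at h1
    refine h1.congr (Eventually.of_forall fun p => ?_)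
    rw [Function.comp_apply, eP_eq]
  have hfub : ∀ ε : ℝ, 0 < ε → ∫ y, G y * (ε⁻¹ * η (y.2 / ε)) = ∫ τ, η τ * H (ε * τ) := by
    intro ε hε
    obtain ⟨Bη, hBη⟩ := hη.bounded_above_of_compact_support hηc
    rw [← eP_mp.integral_comp eP.measurableEmbedding]
    have e1 : ∀ p : ℝ × ℝ, G (eP p) * (ε⁻¹ * η ((eP p).2 / ε)) =
        G (pt p.1 p.2) * (ε⁻¹ * η (p.2 / ε)) := by
      intro p
      rw [eP_eq, pt_one]
    simp_rw [e1]
    have hint2 : Integrable (fun p : ℝ × ℝ => G (pt p.1 p.2) * (ε⁻¹ * η (p.2 / ε)))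
        (volume : Measure (ℝ × ℝ)) := by
      refine hint.mul_bdd (c := ε⁻¹ * Bη) ?_ (Eventually.of_forall fun p => ?_)
      · exact (continuous_const.mul (hη.comp (continuous_snd.div_const ε))).aestronglyMeasurable
      · rw [norm_mul, Real.norm_eq_abs ε⁻¹, abs_of_pos (inv_pos.2 hε)]
        exact mul_le_mul_of_nonneg_left (hBη _) (inv_nonneg.2 hε.le)
    rw [Measure.volume_eq_prod] at hint2 ⊢
    rw [integral_prod_symm _ hint2]
    have e2 : ∀ t : ℝ, ∫ s, G (pt s t) * (ε⁻¹ * η (t / ε)) = (ε⁻¹ * η (t / ε)) * H t := by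
      intro t
      rw [integral_mul_const, hH, mul_comm]
    simp_rw [e2]
    have e3 := Measure.integral_comp_div (fun τ => η τ * H (ε * τ)) ε
    have e4 : ∀ t, η (t / ε) * H (ε * (t / ε)) = η (t / ε) * H t := by
      intro t
      rw [mul_div_cancel₀ t hε.ne']
    simp_rw [e4] at e3
    have e5 : ∫ t, ε⁻¹ * η (t / ε) * H t = ε⁻¹ * ∫ t, η (t / ε) * H t := by
      rw [← integral_const_mul]
      congr 1
      ext t
      ring
    rw [e5, e3, abs_of_pos hε, smul_eq_mul, ← mul_assoc, inv_mul_cancel₀ hε.ne', one_mul]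
  have hlim : Tendsto (fun ε : ℝ => ∫ τ, η τ * H (ε * τ)) (𝓝[>] 0) (𝓝 (∫ τ, η τ * H 0)) := by
    refine tendsto_integral_filter_of_dominated_convergence
      (fun τ => |η τ| * (B * (volume (Icc (-R) R)).toReal)) ?_ ?_ ?_ ?_
    · exact Eventually.of_forall fun ε =>
        (hη.mul (hHc.comp (continuous_const.mul continuous_id))).aestronglyMeasurable
    · refine Eventually.of_forall fun ε => Eventually.of_forall fun τ => ?_
      rw [norm_mul, Real.norm_eq_abs, Real.norm_eq_abs]
      exact mul_le_mul_of_nonneg_left (hHb _) (abs_nonneg _)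
    · exact (hη.integrable_of_hasCompactSupport hηc).norm.mul_const _
    · refine Eventually.of_forall fun τ => ?_
      have h1 : Tendsto (fun ε : ℝ => η τ * H (ε * τ)) (𝓝 0) (𝓝 (η τ * H (0 * τ))) := by
        have : Continuous fun ε : ℝ => η τ * H (ε * τ) :=
          continuous_const.mul (hHc.comp (continuous_id.mul continuous_const))
        exact this.tendsto 0
      rw [zero_mul] at h1
      exact h1.mono_left nhdsWithin_le_nhds
  rw [integral_mul_const] at hlim
  have hH0 : H 0 = ∫ s, G (pt s 0) := by rw [hH]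
  rw [hH0] at hlim
  refine hlim.congr' ?_
  filter_upwards [self_mem_nhdsWithin] with ε hε
  exact (hfub ε hε).symm

end Pool.Agent.Helper89.Stek
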