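import Pool.Agent.Helper89.Stek.Curve

/-!
The coarea property on a closed surface.
-/

set_option autoImplicit false

open scoped Manifold ContDiff ENNReal Topology
open MeasureTheory Bundle Set Filter

namespace Pool.Agent.Helper89.Stek

variable {M : Type*} [TopologicalSpace M] [ChartedSpace (ℝ × ℝ) M] [IsManifold 𝓘(ℝ, ℝ × ℝ) ∞ M]
  [MeasurableSpace M] [BorelSpace M] [CompactSpace M] [T2Space M] {g : Metric M} {μ ν : Measure M}

lemma length_finite {f : M → ℝ} (hf : ContMDiff 𝓘(ℝ, ℝ × ℝ) 𝓘(ℝ) ∞ f) (hd : ∀ z, f z = 0 → dd f z ≠ 0)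
    (hν : IsLengthMeasure g {z | f z = 0} ν) : IsFiniteMeasure ν := by
  have h : IsLocallyFiniteMeasure ν := by
    refine ⟨fun x => ?_⟩
    by_cases hx : f x = 0
    · obtain ⟨φ, t0, δ, hfl, hxm⟩ := exists_flatAt hf (hd x hx) hx
      exact ⟨_, hfl.isOpen_image.mem_nhds hxm, (hfl.measure_obx hν).1⟩
    · refine ⟨{z | f z ≠ 0}, (isOpen_ne_fun hf.continuous continuous_const).mem_nhds hx, ?_⟩
      have h1 : ν {z | f z ≠ 0} = 0 := hν.1
      rw [h1]
      exact ENNReal.zero_lt_top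
  exact CompactSpace.isFiniteMeasure

lemma length_pos {f : M → ℝ} (hf : ContMDiff 𝓘(ℝ, ℝ × ℝ) 𝓘(ℝ) ∞ f) (hd : ∀ z, f z = 0 → dd f z ≠ 0)
    (hν : IsLengthMeasure g {z | f z = 0} ν) {x : M} (hx : f x = 0) : 0 < ν univ := by
  obtain ⟨φ, t0, δ, hfl, hxm⟩ := exists_flatAt hf (hd x hx) hx
  exact lt_of_lt_of_le (hfl.measure_obx hν).2 (measure_mono (subset_univ _))

lemma FlatAt.pd_eq {f : M → ℝ} {φ : OpenPartialHomeomorph M (ℝ × ℝ)} {t0 δ : ℝ} (h : FlatAt f φ t0 δ) {y : (ℝ × ℝ)}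
    (hy : y ∈ φ.target) : pd 0 (f ∘ φ.symm) y = 0 ∧ pd 1 (f ∘ φ.symm) y = 1 := by
  have h1 : f ∘ φ.symm =ᶠ[𝓝 y] fun y : (ℝ × ℝ) => y.2 := by
    filter_upwards [φ.open_target.mem_nhds hy] with z hz
    exact h.f_eq hz
  have h2 : HasFDerivAt (fun y : (ℝ × ℝ) => y.2) (ContinuousLinearMap.snd ℝ ℝ ℝ) y :=
    (ContinuousLinearMap.snd ℝ ℝ ℝ).hasFDerivAt
  unfold pd
  rw [h1.fderiv_eq, h2.fderiv]
  constructor <;> simp

lemma FlatAt.dens_eq {f : M → ℝ} (hf : ContMDiff 𝓘(ℝ, ℝ × ℝ) 𝓘(ℝ) ∞ f) {φ : OpenPartialHomeomorph M (ℝ × ℝ)} {t0 δ : ℝ}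
    (h : FlatAt f φ t0 δ) (h1 : ∀ z, f z = 0 → gradInner g f f z = 1) {t : ℝ}
    (ht : t ∈ Icc (t0 - δ) (t0 + δ)) : dens g φ (pt t 0) = Real.sqrt (gram g φ (pt t 0) 0 0) := by
  have hy := h.pt_mem ht
  have h2 := gradInner_chart h.mem g hy (hf.mdifferentiable (by simp) (φ.symm (pt t 0)))
    (hf.mdifferentiable (by simp) (φ.symm (pt t 0)))
  obtain ⟨e0, e1⟩ := h.pd_eq hy
  have h3 : gradInner g f f (φ.symm (pt t 0)) = 1 := h1 _ (h.f_crv ht)
  rw [e0, e1, h3] at h2
  unfold dens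
  congr 1
  linarith

lemma coarea_local (hμ : IsAreaMeasure g μ) (f : smoothAlg M) (hd : ∀ z, f.1 z = 0 → dd f.1 z ≠ 0)
    (h1 : ∀ z, f.1 z = 0 → gradInner g f.1 f.1 z = 1) (hν : IsLengthMeasure g {z | f.1 z = 0} ν) (x : M) :
    ∃ U : Set M, IsOpen U ∧ x ∈ U ∧ ∀ η : ℝ → ℝ, Continuous η → HasCompactSupport η → ∀ ψ : smoothAlg M,
      tsupport ψ.1 ⊆ U →
      Tendsto (fun ε : ℝ => ∫ z, ψ.1 z * (ε⁻¹ * η (f.1 z / ε)) * gradInner g f.1 f.1 z ∂μ) (𝓝[>] 0)
        (𝓝 ((∫ t, η t) * ∫ z, ψ.1 z ∂ν)) := by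
  by_cases hx : f.1 x = 0
  · obtain ⟨φ, t0, δ, hfl, hxm⟩ := exists_flatAt f.2 (hd x hx) hx
    refine ⟨φ.symm '' obx t0 δ, hfl.isOpen_image, hxm, fun η hη hηc ψ hψ => ?_⟩
    have hsrc : φ.symm '' obx t0 δ ⊆ φ.source := by
      rintro _ ⟨y, hy, rfl⟩
      exact φ.map_target (hfl.sub (obx_subset_cbx _ _ hy))
    have hK : IsCompact (φ '' tsupport ψ.1) :=
      ((isClosed_tsupport ψ.1).isCompact).image_of_continuousOn (φ.continuousOn.mono (hψ.trans hsrc))
    have hKo : φ '' tsupport ψ.1 ⊆ obx t0 δ := by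
      rintro _ ⟨z, hz, rfl⟩
      obtain ⟨y, hy, hyz⟩ := hψ hz
      rw [← hyz, φ.right_inv (hfl.sub (obx_subset_cbx _ _ hy))]
      exact hy
    have hKt : φ '' tsupport ψ.1 ⊆ φ.target := hKo.trans ((obx_subset_cbx _ _).trans hfl.sub)
    obtain ⟨G, hG⟩ : ∃ G : (ℝ × ℝ) → ℝ, G = φ.target.indicator
        (fun y => dens g φ y * (ψ.1 (φ.symm y) * gradInner g f.1 f.1 (φ.symm y))) := ⟨_, rfl⟩
    have hψ0 : ∀ y ∈ φ.target, y ∉ φ '' tsupport ψ.1 → ψ.1 (φ.symm y) = 0 := by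
      intro y hy hyK
      exact image_eq_zero_of_notMem_tsupport (f := ψ.1) fun h => hyK ⟨φ.symm y, h, φ.right_inv hy⟩
    obtain ⟨hGs, hGc⟩ : ContDiff ℝ ∞ G ∧ HasCompactSupport G := by
      rw [hG]
      refine contDiff_indicator φ.open_target hK hKt ?_ ?_
      · exact (dens_contDiffOn hfl.mem g).mul ((comp_symm_contDiffOn hfl.mem ψ.2).mul
          (gradInner_symm_contDiffOn hfl.mem g f.2 f.2))
      · intro y hy hyK
        rw [hψ0 y hy hyK]
        ring
    have hlim := flat_coarea hGs.continuous hGc hη hηc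
    have e1 : ∀ ε : ℝ, ∫ z, ψ.1 z * (ε⁻¹ * η (f.1 z / ε)) * gradInner g f.1 f.1 z ∂μ =
        ∫ y, G y * (ε⁻¹ * η (y.2 / ε)) := by
      intro ε
      have e3 : ∫ y, G y * (ε⁻¹ * η (y.2 / ε)) = ∫ y in φ.target, G y * (ε⁻¹ * η (y.2 / ε)) := by
        refine (setIntegral_eq_integral_of_forall_compl_eq_zero fun y hy => ?_).symm
        rw [hG, indicator_of_notMem hy, zero_mul]
      rw [integral_chart hfl.mem hμ, e3]
      · refine setIntegral_congr_fun φ.open_target.measurableSet fun y hy => ?_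
        beta_reduce
        rw [hG, indicator_of_mem hy, hfl.f_eq hy]
        ring
      · exact (ψ.2.continuous.mul (continuous_const.mul (hη.comp (f.2.continuous.div_const ε)))).mul
          (gradInner_contMDiff g f.2 f.2).continuous
      · intro z hz
        have : ψ.1 z = 0 := image_eq_zero_of_notMem_tsupport fun h => hz (hsrc (hψ h))
        rw [this]
        ring
    have e2 : ∫ s, G (pt s 0) = ∫ z, ψ.1 z ∂ν := by
      rw [hfl.integral_length hν f.2.continuous ψ.2.continuous hψ,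
        ← setIntegral_eq_integral_of_forall_compl_eq_zero (s := Ioo (t0 - δ) (t0 + δ))]
      · refine setIntegral_congr_fun measurableSet_Ioo fun t ht => ?_
        beta_reduce
        have ht' := Ioo_subset_Icc_self ht
        rw [hG, indicator_of_mem (hfl.pt_mem ht'), hfl.dens_eq f.2 h1 ht']
        have h2 : gradInner g f.1 f.1 (φ.symm (pt t 0)) = 1 := h1 _ (hfl.f_crv ht')
        rw [h2, mul_one]
        rfl
      · intro t ht
        rw [hG]
        by_cases hy : pt t 0 ∈ φ.target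
        · rw [indicator_of_mem hy, hψ0 _ hy]
          · ring
          · intro hK'
            apply ht
            have := (hKo hK').1
            rwa [pt_zero] at this
        · exact indicator_of_notMem hy _
    rw [e2] at hlim
    exact hlim.congr fun ε => (e1 ε).symm
  · refine ⟨{z | |f.1 x| / 2 < |f.1 z|}, isOpen_lt continuous_const f.2.continuous.abs, ?_, ?_⟩
    · have : 0 < |f.1 x| := abs_pos.2 hx
      change |f.1 x| / 2 < |f.1 x|
      linarith
    · intro η hη hηc ψ hψ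
      have ha : 0 < |f.1 x| := abs_pos.2 hx
      obtain ⟨R, hR⟩ := hηc.isCompact.isBounded.exists_norm_le
      have hR' : ∀ t, max R 1 < |t| → η t = 0 := by
        intro t ht
        refine image_eq_zero_of_notMem_tsupport fun h => ?_
        have := hR t h
        rw [Real.norm_eq_abs] at this
        exact absurd (lt_of_le_of_lt (this.trans (le_max_left R 1)) ht) (lt_irrefl _)
      have hm : 0 < max R 1 := lt_max_of_lt_right one_pos
      have e1 : ∫ z, ψ.1 z ∂ν = 0 := by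
        refine integral_eq_zero_of_ae ?_
        have h2 : ∀ᵐ z ∂ν, z ∈ {z | f.1 z = 0} := hν.1
        filter_upwards [h2] with z hz
        refine image_eq_zero_of_notMem_tsupport fun h => ?_
        have h3 : |f.1 x| / 2 < |f.1 z| := hψ h
        have h4 : f.1 z = 0 := hz
        rw [h4, abs_zero] at h3
        linarith
      rw [e1, mul_zero]
      refine tendsto_const_nhds.congr' ?_
      have hev : ∀ᶠ ε : ℝ in 𝓝[>] 0, ε < |f.1 x| / 2 / max R 1 :=
        nhdsWithin_le_nhds (eventually_lt_nhds (by positivity))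
      filter_upwards [hev, self_mem_nhdsWithin] with ε hε hε0
      have hε0' : (0 : ℝ) < ε := hε0
      refine (integral_eq_zero_of_ae (Eventually.of_forall fun z => ?_)).symm
      change ψ.1 z * (ε⁻¹ * η (f.1 z / ε)) * gradInner g f.1 f.1 z = 0
      by_cases hz : z ∈ tsupport ψ.1
      · have h3 : |f.1 x| / 2 < |f.1 z| := hψ hz
        have h4 : η (f.1 z / ε) = 0 := by
          apply hR'
          rw [abs_div, abs_of_pos hε0', lt_div_iff₀ hε0']
          rw [lt_div_iff₀ hm] at hε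
          linarith
        rw [h4]
        ring
      · rw [image_eq_zero_of_notMem_tsupport hz]
        ring

theorem surf_coarea [IsFiniteMeasure μ] [IsFiniteMeasure ν] (hμ : IsAreaMeasure g μ) (f : smoothAlg M)
    (hd : ∀ z, f.1 z = 0 → dd f.1 z ≠ 0) (h1 : ∀ z, f.1 z = 0 → gradInner g f.1 f.1 z = 1)
    (hν : IsLengthMeasure g {z | f.1 z = 0} ν) : (surf g).Coarea μ ν f := by
  choose U hU hx hL using coarea_local hμ f hd h1 hν
  obtain ⟨t, θ, hθ1, hθs⟩ := exists_partition U hU hx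
  intro η hη hηc (ψ : smoothAlg M)
  have hψx : ∀ z, ψ.1 z = ∑ i ∈ t, (θ i * ψ : smoothAlg M).1 z := by
    intro z
    have h2 : (∑ i ∈ t, θ i * ψ : smoothAlg M) = ψ := by rw [← Finset.sum_mul, hθ1, one_mul]
    have h3 := congrArg (fun w : smoothAlg M => w.1 z) h2
    refine h3.symm.trans ?_
    change ((∑ i ∈ t, θ i * ψ : smoothAlg M) : M → ℝ) z = _
    rw [AddSubmonoidClass.coe_finset_sum, Finset.sum_apply]
  have hlim : Tendsto (fun ε : ℝ => ∑ i ∈ t, ∫ z, (θ i * ψ : smoothAlg M).1 z * (ε⁻¹ * η (f.1 z / ε)) *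
      gradInner g f.1 f.1 z ∂μ) (𝓝[>] 0) (𝓝 (∑ i ∈ t, (∫ s, η s) * ∫ z, (θ i * ψ : smoothAlg M).1 z ∂ν)) := by
    refine tendsto_finset_sum _ fun i hi => ?_
    exact hL i η hη hηc (θ i * ψ) ((tsupport_mul_subset_left).trans (hθs i hi))
  have e1 : ∑ i ∈ t, (∫ s, η s) * ∫ z, (θ i * ψ : smoothAlg M).1 z ∂ν = (∫ s, η s) * ∫ z, ψ.1 z ∂ν := by
    rw [← Finset.mul_sum, ← integral_finset_sum]
    · congr 2
      ext z
      exact (hψx z).symm
    · intro i _
      exact (surf g).integrable (θ i * ψ : smoothAlg M) ν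
  rw [e1] at hlim
  refine hlim.congr fun ε => ?_
  rw [← integral_finset_sum]
  · congr 1
    ext z
    change _ = ψ.1 z * (ε⁻¹ * η (f.1 z / ε)) * gradInner g f.1 f.1 z
    rw [hψx z, Finset.sum_mul, Finset.sum_mul]
  · intro i _
    have hc : Continuous fun z => (θ i * ψ : smoothAlg M).1 z * (ε⁻¹ * η (f.1 z / ε)) *
        gradInner g f.1 f.1 z :=
      ((θ i * ψ).2.continuous.mul (continuous_const.mul (hη.comp (f.2.continuous.div_const ε)))).mul
        (gradInner_contMDiff g f.2 f.2).continuous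
    obtain ⟨C, hC⟩ := (isCompact_range hc).isBounded.exists_norm_le
    exact Integrable.of_bound hc.aestronglyMeasurable C (Eventually.of_forall fun z => hC _ (mem_range_self z))

end Pool.Agent.Helper89.Stek
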