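import Pool.Agent.Helper89.Stek.ExistL

/-!
Conformal metrics.
-/

set_option autoImplicit false

open scoped Manifold ContDiff ENNReal Topology
open MeasureTheory Bundle Set Filter

namespace Pool.Agent.Helper89.Stek

variable {M : Type*} [TopologicalSpace M] [ChartedSpace (ℝ × ℝ) M] [IsManifold 𝓘(ℝ, ℝ × ℝ) ∞ M]

/-- the metric `ρ g` -/
noncomputable def conf (g : Metric M) (ρ : M → ℝ) (hρ : ContMDiff 𝓘(ℝ, ℝ × ℝ) 𝓘(ℝ) ∞ ρ) (hpos : ∀ x, 0 < ρ x) :
    Metric M where
  inner x := ρ x • g.inner x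
  symm x v w := by
    change ρ x * g.inner x v w = ρ x * g.inner x w v
    rw [g.symm]
  pos x v hv := by
    change 0 < ρ x * g.inner x v v
    exact mul_pos (hpos x) (g.pos x v hv)
  isVonNBounded x := by
    have h1 := (g.isVonNBounded x).image ((Real.sqrt (ρ x))⁻¹ • ContinuousLinearMap.id ℝ (TangentSpace 𝓘(ℝ, ℝ × ℝ) x))
    refine h1.subset fun v hv => ?_
    have hs : 0 < Real.sqrt (ρ x) := Real.sqrt_pos.2 (hpos x)
    refine ⟨Real.sqrt (ρ x) • v, ?_, ?_⟩
    · change g.inner x (Real.sqrt (ρ x) • v) (Real.sqrt (ρ x) • v) < 1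
      rw [map_smul, map_smul]
      change Real.sqrt (ρ x) * (Real.sqrt (ρ x) * g.inner x v v) < 1
      rw [← mul_assoc, Real.mul_self_sqrt (hpos x).le]
      exact hv
    · change (Real.sqrt (ρ x))⁻¹ • (Real.sqrt (ρ x) • v) = v
      rw [smul_smul, inv_mul_cancel₀ hs.ne', one_smul]
  contMDiff := hρ.smul_section g.contMDiff

variable {g : Metric M} {ρ : M → ℝ} {hρ : ContMDiff 𝓘(ℝ, ℝ × ℝ) 𝓘(ℝ) ∞ ρ} {hpos : ∀ x, 0 < ρ x}

lemma conf_inner (x : M) (v w : TangentSpace 𝓘(ℝ, ℝ × ℝ) x) :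
    (conf g ρ hρ hpos).inner x v w = ρ x * g.inner x v w := rfl

lemma conf_isConformal : IsConformal g (conf g ρ hρ hpos) := ⟨ρ, hρ, hpos, fun _ _ _ => rfl⟩

lemma conf_grad (u : M → ℝ) (x : M) : grad (conf g ρ hρ hpos) u x = (ρ x)⁻¹ • grad g u x := by
  refine inner_ext (conf g ρ hρ hpos) fun v => ?_
  rw [grad_spec', conf_inner, inner_smul, grad_spec', ← mul_assoc, mul_inv_cancel₀ (hpos x).ne', one_mul]

lemma conf_gradSq (u : M → ℝ) (x : M) : gradSq (conf g ρ hρ hpos) u x = (ρ x)⁻¹ * gradSq g u x := by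
  unfold gradSq
  rw [conf_grad, conf_inner, map_smul, map_smul]
  change ρ x * ((ρ x)⁻¹ * ((ρ x)⁻¹ * g.inner x (grad g u x) (grad g u x))) =
    (ρ x)⁻¹ * g.inner x (grad g u x) (grad g u x)
  rw [← mul_assoc, mul_inv_cancel₀ (hpos x).ne', one_mul]

lemma conf_gram (φ : OpenPartialHomeomorph M (ℝ × ℝ)) (y : (ℝ × ℝ)) :
    (gram (conf g ρ hρ hpos) φ y).det = ρ (φ.symm y) ^ 2 * (gram g φ y).det := by
  have h1 : ∀ i j, gram (conf g ρ hρ hpos) φ y i j = ρ (φ.symm y) * gram g φ y i j := fun i j => rfl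
  rw [Matrix.det_fin_two, Matrix.det_fin_two, h1, h1, h1, h1]
  ring

variable [MeasurableSpace M] [BorelSpace M]

lemma lintegral_chart {φ : OpenPartialHomeomorph M (ℝ × ℝ)} (hφ : φ ∈ IsManifold.maximalAtlas 𝓘(ℝ, ℝ × ℝ) ∞ M)
    {μ : Measure M} (hμ : IsAreaMeasure g μ) {A : Set M} (hA : A ⊆ φ.source) (hAm : MeasurableSet A)
    {F : M → ℝ≥0∞} (hF : Measurable F) :
    ∫⁻ x in A, F x ∂μ = ∫⁻ y in φ '' A, F (φ.symm y) * ENNReal.ofReal (dens g φ y) := by
  have hAi : φ '' A = φ.target ∩ φ.symm ⁻¹' A := φ.image_eq_target_inter_inv_preimage hA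
  have hAim : MeasurableSet (φ '' A) := by
    rw [hAi]
    exact measurableSet_inter_preimage_of_continuousOn φ.open_target.measurableSet φ.continuousOn_symm hAm
  have h1 : ∫⁻ x in A, F x ∂μ = ∫⁻ x in φ.source, A.indicator F x ∂μ := by
    rw [lintegral_indicator hAm, Measure.restrict_restrict hAm, inter_eq_left.2 hA]
  have hm : AEMeasurable φ.symm
      ((volume.restrict φ.target).withDensity fun y => ENNReal.ofReal (dens g φ y)) :=
    symm_aemeasurable.mono_ac (withDensity_absolutelyContinuous _ _)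
  have hFi : Measurable (A.indicator F) := hF.indicator hAm
  rw [h1, restrict_source_eq hφ hμ, lintegral_map' hFi.aemeasurable hm,
    lintegral_withDensity_eq_lintegral_mul₀ (dens_aemeasurable hφ g)]
  · have h2 : ∀ y ∈ φ.target, ((fun y => ENNReal.ofReal (dens g φ y)) * fun y => A.indicator F (φ.symm y)) y =
        (φ '' A).indicator (fun y => F (φ.symm y) * ENNReal.ofReal (dens g φ y)) y := by
      intro y hy
      rw [Pi.mul_apply]
      by_cases hyA : φ.symm y ∈ A
      · have hyA' : y ∈ φ '' A := by rw [hAi]; exact ⟨hy, hyA⟩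
        rw [indicator_of_mem hyA, indicator_of_mem hyA', mul_comm]
      · have hyA' : y ∉ φ '' A := by rw [hAi]; exact fun h => hyA h.2
        rw [indicator_of_notMem hyA, indicator_of_notMem hyA', mul_zero]
    rw [setLIntegral_congr_fun φ.open_target.measurableSet h2, lintegral_indicator hAim,
      Measure.restrict_restrict hAim]
    have h3 : φ '' A ∩ φ.target = φ '' A := by
      rw [hAi]
      ext y
      simp only [mem_inter_iff]
      tauto
    rw [h3]
  · exact hFi.comp_aemeasurable symm_aemeasurable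

lemma conf_area {μ : Measure M} (hμ : IsAreaMeasure g μ) :
    IsAreaMeasure (conf g ρ hρ hpos) (μ.withDensity fun x => ENNReal.ofReal (ρ x)) := by
  intro φ hφ A hA hAm
  rw [withDensity_apply _ hAm, lintegral_chart hφ hμ hA hAm hρ.continuous.measurable.ennreal_ofReal]
  have hAi : φ '' A = φ.target ∩ φ.symm ⁻¹' A := φ.image_eq_target_inter_inv_preimage hA
  have hAim : MeasurableSet (φ '' A) := by
    rw [hAi]
    exact measurableSet_inter_preimage_of_continuousOn φ.open_target.measurableSet φ.continuousOn_symm hAm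
  refine setLIntegral_congr_fun hAim fun y _ => ?_
  beta_reduce
  rw [conf_gram, Real.sqrt_mul (sq_nonneg _), Real.sqrt_sq (hpos _).le, ENNReal.ofReal_mul (hpos _).le]
  rfl

end Pool.Agent.Helper89.Stek
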