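import Pool.Agent.Helper89.Stek.Step

/-!
The compactness argument leading to a contradiction.
-/

set_option autoImplicit false

open MeasureTheory Filter Topology
open scoped ContDiff

namespace Pool.Agent.Helper89.Stek

namespace Calc

variable {M : Type*} [MeasurableSpace M] (C : Calc M) {μ ν : Measure M} [IsFiniteMeasure μ]
  [IsFiniteMeasure ν]

/-- the estimate obtained from a cut-off near the zero set -/
lemma cut_estimate {f : C.S} (hsupp : ν {x | f.1 x ≠ 0} = 0) {c1 : ℝ}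
    (hpoin : ∀ u : C.S, C.m μ u u ≤ c1 * (C.D μ u u + C.m ν u u)) (hc1 : 0 ≤ c1)
    {s : ℝ} (hs : 0 < s) {κ : ℝ} (hκ : 0 < κ) {c₀ : ℝ} (hc₀ : 0 < c₀) :
    ∃ K, 0 ≤ K ∧ ∀ (h u : C.S), (∀ x, 0 ≤ h.1 x) → (∀ x, s / 2 ≤ |f.1 x| → c₀ ≤ h.1 x) →
      ∀ Q2 : ℝ, (∀ w : C.S, (C.D μ u w - Q2 * C.m ν u w) ^ 2 ≤
        (C.D μ u u - Q2 * C.m ν u u) * (C.D μ w w + C.m ν w w)) →
      0 ≤ C.D μ u u - Q2 * C.m ν u u →
      C.D μ u u + C.m ν u u = 1 →
      Q2 * C.m ν u u ≤ ∫ x, (C.cp (cut s) (contDiff_cut s) f * C.Γ u u).1 x ∂μ + κ +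
        K * ∫ x, (h * C.Γ u u).1 x ∂μ + Real.sqrt ((C.D μ u u - Q2 * C.m ν u u) * K) := by
  obtain ⟨Bs, hBs0, hBs⟩ := deriv_cut_bound hs
  obtain ⟨C1, hC1⟩ := C.bdd (C.Γ f f)
  have hC1' : ∀ x, (C.Γ f f).1 x ≤ |C1| := fun x => (le_abs_self _).trans ((hC1 x).trans (le_abs_self _))
  obtain ⟨g, hg⟩ : ∃ g : C.S, g = C.cp (cut s) (contDiff_cut s) f := ⟨_, rfl⟩
  rw [← hg]
  have hgx : ∀ x, g.1 x = cut s (f.1 x) := fun x => by rw [hg, C.cp_apply]
  have hΓg : ∀ (v : C.S) x, (C.Γ v g).1 x = deriv (cut s) (f.1 x) * (C.Γ v f).1 x := fun v x => by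
    rw [C.symm, hg, C.Γ_cp, C.symm]
  obtain ⟨B, hB⟩ : ∃ B : ℝ, B = 1 + Bs ^ 2 * |C1| := ⟨_, rfl⟩
  have hB0 : 0 ≤ B := by rw [hB]; positivity
  have hg1 : ∀ x, 0 ≤ g.1 x ∧ g.1 x ≤ B := fun x => by
    rw [hgx]
    refine ⟨cut_nonneg _ _, (cut_le_one _ _).trans ?_⟩
    rw [hB]
    have : 0 ≤ Bs ^ 2 * |C1| := by positivity
    linarith
  have hΓgg : ∀ x, (C.Γ g g).1 x ≤ B := fun x => by
    rw [hΓg, C.symm, hΓg]
    have h1 := hBs (f.1 x)
    have h2 : (deriv (cut s) (f.1 x)) ^ 2 ≤ Bs ^ 2 := by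
      rw [← sq_abs]
      exact pow_le_pow_left₀ (abs_nonneg _) h1 2
    have h3 := C.nonneg f x
    calc deriv (cut s) (f.1 x) * (deriv (cut s) (f.1 x) * (C.Γ f f).1 x)
        = (deriv (cut s) (f.1 x)) ^ 2 * (C.Γ f f).1 x := by ring
      _ ≤ Bs ^ 2 * |C1| := mul_le_mul h2 (hC1' x) h3 (by positivity)
      _ ≤ B := by rw [hB]; linarith
  -- choose the weight in the arithmetic-geometric inequality
  obtain ⟨θ, hθ⟩ : ∃ θ : ℝ, θ = (Bs * |C1| * (c1 + 1) + 1) / κ := ⟨_, rfl⟩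
  have hθ0 : 0 < θ := by rw [hθ]; positivity
  obtain ⟨K, hK⟩ : ∃ K : ℝ, K = Bs * θ / (2 * c₀) + (2 * B ^ 2 + 2 * B * c1 + B ^ 2) := ⟨_, rfl⟩
  have hK0 : 0 ≤ K := by rw [hK]; positivity
  refine ⟨K, hK0, fun h u hh0 hhc Q2 hCS hQ0 hN => ?_⟩
  have hD0 := C.D_nonneg μ u
  have hm0 := C.m_nonneg ν u
  have hmμ0 := C.m_nonneg μ u
  have hpu : C.m μ u u ≤ c1 := by
    have := hpoin u
    rw [hN, mul_one] at this
    exact this
  have h1 : C.D μ u (g * u) ≤ ∫ x, (g * C.Γ u u).1 x ∂μ + κ +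
      Bs * θ / (2 * c₀) * ∫ x, (h * C.Γ u u).1 x ∂μ := by
    have h2 : C.D μ u (g * u) ≤ ∫ x, (g * C.Γ u u + (Bs * |C1| / (2 * θ)) • (u * u) +
        (Bs * θ / (2 * c₀)) • (h * C.Γ u u)).1 x ∂μ := by
      rw [C.D_apply]
      refine C.int_mono μ fun x => ?_
      simp only [C.leib_apply', C.add_apply, C.smul_apply, C.mul_apply, hΓg]
      have h3 : u.1 x * (deriv (cut s) (f.1 x) * (C.Γ u f).1 x) ≤
          Bs * |C1| / (2 * θ) * (u.1 x * u.1 x) + Bs * θ / (2 * c₀) * (h.1 x * (C.Γ u u).1 x) := by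
        have hhx := hh0 x
        have hΓu := C.nonneg u x
        by_cases h4 : |f.1 x| < s / 2
        · rw [deriv_cut_zero hs h4, zero_mul, mul_zero]
          have := mul_self_nonneg (u.1 x)
          positivity
        · push Not at h4
          have h5 := hhc x h4
          have h6 : |2 * u.1 x * (C.Γ u f).1 x| ≤ θ * (C.Γ u u).1 x + |C1| / θ * (u.1 x) ^ 2 := by
            refine amgm hΓu (abs_nonneg _) hθ0 ?_
            refine (C.cauchy u f x).trans ?_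
            rw [mul_comm]
            exact mul_le_mul_of_nonneg_right (hC1' x) hΓu
          have h7 : |deriv (cut s) (f.1 x) * (2 * u.1 x * (C.Γ u f).1 x)| ≤
              Bs * (θ * (C.Γ u u).1 x + |C1| / θ * (u.1 x) ^ 2) := by
            rw [abs_mul]
            exact mul_le_mul (hBs _) h6 (abs_nonneg _) hBs0
          have h8 := le_abs_self (deriv (cut s) (f.1 x) * (2 * u.1 x * (C.Γ u f).1 x))
          have h9 : θ * (C.Γ u u).1 x ≤ θ / c₀ * (h.1 x * (C.Γ u u).1 x) := by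
            rw [div_mul_eq_mul_div, le_div_iff₀ hc₀]
            have : (C.Γ u u).1 x * c₀ ≤ h.1 x * (C.Γ u u).1 x := by
              rw [mul_comm]
              exact mul_le_mul_of_nonneg_right h5 hΓu
            calc θ * (C.Γ u u).1 x * c₀ = θ * ((C.Γ u u).1 x * c₀) := by ring
              _ ≤ θ * (h.1 x * (C.Γ u u).1 x) := mul_le_mul_of_nonneg_left this hθ0.le
          have h10 : Bs * (θ * (C.Γ u u).1 x + |C1| / θ * (u.1 x) ^ 2) ≤
              Bs * (θ / c₀ * (h.1 x * (C.Γ u u).1 x) + |C1| / θ * (u.1 x) ^ 2) :=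
            mul_le_mul_of_nonneg_left (by linarith) hBs0
          have h11 : Bs * (θ / c₀ * (h.1 x * (C.Γ u u).1 x) + |C1| / θ * (u.1 x) ^ 2) =
              2 * (Bs * |C1| / (2 * θ) * (u.1 x * u.1 x) + Bs * θ / (2 * c₀) * (h.1 x * (C.Γ u u).1 x)) := by
            field_simp
            ring
          have h12 : deriv (cut s) (f.1 x) * (2 * u.1 x * (C.Γ u f).1 x) =
              2 * (u.1 x * (deriv (cut s) (f.1 x) * (C.Γ u f).1 x)) := by ring
          rw [h12] at h7 h8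
          linarith only [h7, h8, h10, h11]
      linarith only [h3]
    rw [C.int_add, C.int_add, C.int_smul, C.int_smul] at h2
    have h3 : ∫ x, (u * u).1 x ∂μ = C.m μ u u := rfl
    rw [h3] at h2
    have h4 : Bs * |C1| / (2 * θ) * C.m μ u u ≤ κ := by
      have h5 : Bs * |C1| / (2 * θ) * C.m μ u u ≤ Bs * |C1| / (2 * θ) * c1 :=
        mul_le_mul_of_nonneg_left hpu (by positivity)
      refine h5.trans ?_
      rw [hθ]
      have h6 : Bs * |C1| / (2 * ((Bs * |C1| * (c1 + 1) + 1) / κ)) * c1 =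
          κ * ((Bs * |C1| * c1) / (2 * (Bs * |C1| * (c1 + 1) + 1))) := by
        field_simp
      rw [h6]
      have h7 : (Bs * |C1| * c1) / (2 * (Bs * |C1| * (c1 + 1) + 1)) ≤ 1 := by
        rw [div_le_one (by positivity)]
        have : 0 ≤ Bs * |C1| := by positivity
        have : 0 ≤ Bs * |C1| * c1 := by positivity
        linarith
      exact mul_le_of_le_one_right hκ.le h7
    linarith
  have h2 : C.m ν u (g * u) = C.m ν u u := by
    rw [C.m_apply, C.m_apply]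
    apply integral_congr_ae
    have h3 : ∀ᵐ x ∂ν, f.1 x = 0 := hsupp
    filter_upwards [h3] with x hx
    simp only [C.mul_apply]
    rw [hgx, hx, cut_eq_one hs (by rw [abs_zero]; positivity), one_mul]
  have h3 : C.D μ (g * u) (g * u) + C.m ν (g * u) (g * u) ≤ K := by
    have h4 := C.D_mul_le (μ := μ) g u hg1 hΓgg
    have h5 : C.m ν (g * u) (g * u) ≤ B ^ 2 * C.m ν u u := by
      have h6 : B ^ 2 * C.m ν u u = ∫ x, (B ^ 2 • (u * u)).1 x ∂ν := by
        rw [C.int_smul]; rfl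
      rw [h6, C.m_apply]
      refine C.int_mono ν fun x => ?_
      simp only [C.mul_apply, C.smul_apply]
      have h7 : g.1 x ^ 2 ≤ B ^ 2 := pow_le_pow_left₀ (hg1 x).1 (hg1 x).2 2
      have h8 := mul_le_mul_of_nonneg_right h7 (mul_self_nonneg (u.1 x))
      linarith only [h8]
    have h6 : 2 * B ^ 2 * C.D μ u u ≤ 2 * B ^ 2 * 1 := mul_le_mul_of_nonneg_left (by linarith) (by positivity)
    have h7 : 2 * B * C.m μ u u ≤ 2 * B * c1 := mul_le_mul_of_nonneg_left hpu (by positivity)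
    have h8 : B ^ 2 * C.m ν u u ≤ B ^ 2 * 1 := mul_le_mul_of_nonneg_left (by linarith) (by positivity)
    have h9 : 0 ≤ Bs * θ / (2 * c₀) := by positivity
    rw [hK]
    linarith
  have h4 := hCS (g * u)
  rw [h2] at h4
  have h5 : (C.D μ u (g * u) - Q2 * C.m ν u u) ^ 2 ≤ (C.D μ u u - Q2 * C.m ν u u) * K :=
    h4.trans (mul_le_mul_of_nonneg_left h3 hQ0)
  have h6 : -Real.sqrt ((C.D μ u u - Q2 * C.m ν u u) * K) ≤ C.D μ u (g * u) - Q2 * C.m ν u u := by
    have := Real.abs_le_sqrt h5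
    exact (abs_le.mp this).1
  have h7 : Bs * θ / (2 * c₀) * ∫ x, (h * C.Γ u u).1 x ∂μ ≤ K * ∫ x, (h * C.Γ u u).1 x ∂μ := by
    refine mul_le_mul_of_nonneg_right ?_ ?_
    · rw [hK]
      have : 0 ≤ 2 * B ^ 2 + 2 * B * c1 + B ^ 2 := by positivity
      linarith
    · exact integral_nonneg fun x => mul_nonneg (hh0 x) (C.nonneg u x)
  linarith

end Calc

end Pool.Agent.Helper89.Stek
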