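import Pool.Agent.Helper89.Stek.Flat
import Pool.Agent.Helper89.Stek.CoareaA

/-!
The zero set of a function in flat charts.
-/

set_option autoImplicit false

open scoped Manifold ContDiff ENNReal Topology
open MeasureTheory Bundle Set Filter

namespace Pool.Agent.Helper89.Stek

/-- an open square centred on the first axis -/
def obx (t0 δ : ℝ) : Set (ℝ × ℝ) := {y | y.1 ∈ Ioo (t0 - δ) (t0 + δ) ∧ y.2 ∈ Ioo (-δ) δ}

lemma isOpen_obx (t0 δ : ℝ) : IsOpen (obx t0 δ) := by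
  have c0 : Continuous fun y : (ℝ × ℝ) => y.1 := by fun_prop
  have c1 : Continuous fun y : (ℝ × ℝ) => y.2 := by fun_prop
  exact (isOpen_Ioo.preimage c0).inter (isOpen_Ioo.preimage c1)

/-- a closed square centred on the first axis -/
def cbx (t0 δ : ℝ) : Set (ℝ × ℝ) := {y | y.1 ∈ Icc (t0 - δ) (t0 + δ) ∧ y.2 ∈ Icc (-δ) δ}

lemma obx_subset_cbx (t0 δ : ℝ) : obx t0 δ ⊆ cbx t0 δ :=
  fun _ hy => ⟨Ioo_subset_Icc_self hy.1, Ioo_subset_Icc_self hy.2⟩

lemma measurableSet_inter_preimage_of_continuousOn {X Y : Type*} [TopologicalSpace X] [MeasurableSpace X]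
    [BorelSpace X] [TopologicalSpace Y] [MeasurableSpace Y] [BorelSpace Y] {c : X → Y} {I : Set X}
    (hI : MeasurableSet I) (hc : ContinuousOn c I) {B : Set Y} (hB : MeasurableSet B) :
    MeasurableSet (I ∩ c ⁻¹' B) := by
  have h2 : MeasurableSet (I.restrict c ⁻¹' B) := (continuousOn_iff_continuous_restrict.1 hc).measurable hB
  have h3 := hI.subtype_image h2
  have h4 : Subtype.val '' (I.restrict c ⁻¹' B) = I ∩ c ⁻¹' B := by
    ext x
    simp only [mem_image, mem_preimage, Subtype.exists, exists_and_right, exists_eq_right, mem_inter_iff]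
    exact ⟨fun h => ⟨h.1, h.2⟩, fun h => ⟨h.1, h.2⟩⟩
  rw [← h4]
  exact h3

variable {M : Type*} [TopologicalSpace M] [ChartedSpace (ℝ × ℝ) M] [IsManifold 𝓘(ℝ, ℝ × ℝ) ∞ M]

/-- the curve `{y.2 = 0}` of a chart -/
noncomputable def crv (φ : OpenPartialHomeomorph M (ℝ × ℝ)) (t : ℝ) : M := φ.symm (pt t 0)

/-- a flat chart for `f`, centred at a zero -/
structure FlatAt (f : M → ℝ) (φ : OpenPartialHomeomorph M (ℝ × ℝ)) (t0 δ : ℝ) : Prop where
  mem : φ ∈ IsManifold.maximalAtlas 𝓘(ℝ, ℝ × ℝ) ∞ M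
  pos : 0 < δ
  sub : cbx t0 δ ⊆ φ.target
  flat : ∀ z ∈ φ.source, f z = (φ z).2

theorem exists_flatAt {f : M → ℝ} (hf : ContMDiff 𝓘(ℝ, ℝ × ℝ) 𝓘(ℝ) ∞ f) {x : M}
    (hx : dd f x ≠ 0) (hfx : f x = 0) : ∃ φ t0 δ, FlatAt f φ t0 δ ∧ x ∈ φ.symm '' obx t0 δ := by
  obtain ⟨φ, hφ, hxs, hflat⟩ := exists_flat hf hx
  have hφx : (φ x).2 = 0 := by rw [← hflat x hxs, hfx]
  obtain ⟨r, hr, hball⟩ := Metric.nhds_basis_closedBall.mem_iff.1 (φ.open_target.mem_nhds (φ.map_source hxs))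
  refine ⟨φ, (φ x).1, r / 2, ⟨hφ, by positivity, ?_, hflat⟩, ⟨φ x, ?_, φ.left_inv hxs⟩⟩
  · intro y hy
    apply hball
    obtain ⟨h1, h2⟩ := hy
    rw [Metric.mem_closedBall, Prod.dist_eq, Real.dist_eq, Real.dist_eq, hφx,
      sub_zero]
    have e1 : |y.1 - (φ x).1| ≤ r / 2 := abs_le.2 ⟨by linarith [h1.1], by linarith [h1.2]⟩
    have e2 : |y.2| ≤ r / 2 := abs_le.2 ⟨by linarith [h2.1], by linarith [h2.2]⟩
    exact max_le (by linarith) (by linarith)
  · refine ⟨⟨by linarith, by linarith⟩, ?_⟩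
    rw [hφx]
    exact ⟨by linarith, by linarith⟩

namespace FlatAt

variable {f : M → ℝ} {φ : OpenPartialHomeomorph M (ℝ × ℝ)} {t0 δ : ℝ} (h : FlatAt f φ t0 δ)

include h

lemma pt_mem {t : ℝ} (ht : t ∈ Icc (t0 - δ) (t0 + δ)) : pt t 0 ∈ φ.target := by
  refine h.sub ⟨?_, ?_⟩
  · rw [pt_zero]; exact ht
  · rw [pt_one]; exact ⟨by linarith [h.pos], h.pos.le⟩

lemma pt_mem' {t : ℝ} (ht : t ∈ Ioo (t0 - δ) (t0 + δ)) : pt t 0 ∈ φ.target :=
  h.pt_mem (Ioo_subset_Icc_self ht)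

lemma f_eq {y : (ℝ × ℝ)} (hy : y ∈ φ.target) : f (φ.symm y) = y.2 := by
  rw [h.flat _ (φ.map_target hy), φ.right_inv hy]

lemma f_crv {t : ℝ} (ht : t ∈ Icc (t0 - δ) (t0 + δ)) : f (crv φ t) = 0 := by
  unfold crv
  rw [h.f_eq (h.pt_mem ht), pt_one]

lemma crv_smooth : ContMDiffOn 𝓘(ℝ) 𝓘(ℝ, ℝ × ℝ) ∞ (crv φ) (Ioo (t0 - δ) (t0 + δ)) := by
  have h1 := contMDiffOn_symm_of_mem_maximalAtlas h.mem
  have h2 : ContMDiff 𝓘(ℝ) 𝓘(ℝ, ℝ × ℝ) ∞ (fun t : ℝ => pt t 0) := by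
    rw [contMDiff_iff_contDiff]
    unfold pt
    fun_prop
  exact h1.comp h2.contMDiffOn (fun t ht => h.pt_mem' ht)

lemma crv_inj : InjOn (crv φ) (Icc (t0 - δ) (t0 + δ)) := by
  intro s hs t ht hst
  have h1 := φ.symm.injOn (h.pt_mem hs) (h.pt_mem ht) hst
  have h2 := congrArg (fun y : (ℝ × ℝ) => y.1) h1
  simpa using h2

lemma vel_crv {t : ℝ} (ht : t ∈ Icc (t0 - δ) (t0 + δ)) : vel (crv φ) t = coordVec φ 0 (pt t 0) := by
  have h1 : MDifferentiableAt 𝓘(ℝ, ℝ × ℝ) 𝓘(ℝ, ℝ × ℝ) φ.symm (pt t 0) :=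
    (contMDiffAt_symm_of_mem_maximalAtlas h.mem (h.pt_mem ht)).mdifferentiableAt (by simp)
  have h2 := (hasDerivAt_pt_left t 0).hasFDerivAt.hasMFDerivAt
  have h3 := (HasMFDerivAt.comp t h1.hasMFDerivAt h2).mfderiv
  have h4 := congrArg (fun L => L (1 : ℝ)) h3
  refine Eq.trans (b := mfderiv 𝓘(ℝ, ℝ × ℝ) 𝓘(ℝ, ℝ × ℝ) φ.symm (pt t 0)
    (ContinuousLinearMap.toSpanSingleton ℝ (bas (0 : Fin 2)) (1 : ℝ))) h4 ?_
  rw [ContinuousLinearMap.toSpanSingleton_apply, one_smul]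
  rfl

lemma vel_ne {t : ℝ} (ht : t ∈ Icc (t0 - δ) (t0 + δ)) : vel (crv φ) t ≠ 0 := by
  rw [h.vel_crv ht]
  intro h0
  have h0' : (coordVec φ 0 (pt t 0) : TangentSpace 𝓘(ℝ, ℝ × ℝ) (φ.symm (pt t 0))) = 0 := h0
  have := coordVec_indep h.mem (h.pt_mem ht) (a := 1) (b := 0) (by
    rw [h0', smul_zero, zero_smul, add_zero])
  exact one_ne_zero this.1

lemma inner_vel (g : Metric M) {t : ℝ} (ht : t ∈ Icc (t0 - δ) (t0 + δ)) :
    g.inner (crv φ t) (vel (crv φ) t) (vel (crv φ) t) = gram g φ (pt t 0) 0 0 := by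
  rw [h.vel_crv ht]
  rfl

lemma obx_inter : φ.symm '' obx t0 δ ∩ {z | f z = 0} = crv φ '' Ioo (t0 - δ) (t0 + δ) := by
  ext z
  constructor
  · rintro ⟨⟨y, hy, rfl⟩, hz⟩
    have hyt := h.sub (obx_subset_cbx _ _ hy)
    have h1 : y.2 = 0 := by rw [← h.f_eq hyt]; exact hz
    refine ⟨y.1, hy.1, ?_⟩
    unfold crv
    rw [← h1, pt_coord]
  · rintro ⟨t, ht, rfl⟩
    refine ⟨⟨pt t 0, ⟨?_, ?_⟩, rfl⟩, h.f_crv (Ioo_subset_Icc_self ht)⟩
    · rw [pt_zero]; exact ht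
    · rw [pt_one]; exact ⟨by linarith [h.pos], h.pos⟩

lemma isOpen_image : IsOpen (φ.symm '' obx t0 δ) :=
  φ.symm.isOpen_image_of_subset_source (isOpen_obx t0 δ) ((obx_subset_cbx _ _).trans h.sub)

lemma gram_cont (g : Metric M) : ContinuousOn (fun t => Real.sqrt (gram g φ (pt t 0) 0 0))
    (Icc (t0 - δ) (t0 + δ)) := by
  refine ContinuousOn.sqrt ?_
  have h1 := (gram_contDiffOn h.mem g 0 0).continuousOn
  have h2 : Continuous fun t : ℝ => pt t 0 := pt_continuous.comp (Continuous.prodMk_left 0)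
  exact h1.comp h2.continuousOn (fun t ht => h.pt_mem ht)

variable [MeasurableSpace M] [BorelSpace M] [T2Space M] {g : Metric M} {ν : Measure M}
  (hν : IsLengthMeasure g {z | f z = 0} ν)

omit [BorelSpace M] [T2Space M] in
include hν in
lemma measure_image {A : Set ℝ} (hA : A ⊆ Ioo (t0 - δ) (t0 + δ)) (hAm : MeasurableSet A) :
    ν (crv φ '' A) = ∫⁻ t in A, ENNReal.ofReal (Real.sqrt (gram g φ (pt t 0) 0 0)) := by
  rw [hν.2 (crv φ) (t0 - δ) (t0 + δ) h.crv_smooth (h.crv_inj.mono Ioo_subset_Icc_self)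
    (fun t ht => h.vel_ne (Ioo_subset_Icc_self ht)) ?_ A hA hAm]
  · refine setLIntegral_congr_fun hAm fun t ht => ?_
    beta_reduce
    rw [h.inner_vel g (Ioo_subset_Icc_self (hA ht))]
  · rintro _ ⟨t, ht, rfl⟩
    exact h.f_crv (Ioo_subset_Icc_self ht)

omit [BorelSpace M] [T2Space M] in
include hν in
lemma measure_obx : ν (φ.symm '' obx t0 δ) < ⊤ ∧ 0 < ν (φ.symm '' obx t0 δ) := by
  have h1 : ν (φ.symm '' obx t0 δ) = ν (crv φ '' Ioo (t0 - δ) (t0 + δ)) := by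
    rw [← h.obx_inter]
    refine (measure_inter_conull ?_).symm
    refine measure_mono_null ?_ hν.1
    intro z hz
    exact hz
  rw [h1, h.measure_image hν subset_rfl measurableSet_Ioo]
  have hc := h.gram_cont g
  constructor
  · obtain ⟨C, hC⟩ := isCompact_Icc.exists_bound_of_continuousOn hc
    refine lt_of_le_of_lt (setLIntegral_mono' measurableSet_Ioo (g := fun _ => ENNReal.ofReal C)
      fun t ht => ?_) ?_
    · exact ENNReal.ofReal_le_ofReal ((le_abs_self _).trans (hC t (Ioo_subset_Icc_self ht)))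
    · rw [setLIntegral_const]
      exact ENNReal.mul_lt_top ENNReal.ofReal_lt_top measure_Ioo_lt_top
  · rw [pos_iff_ne_zero]
    intro h3
    have hm : AEMeasurable (fun t => ENNReal.ofReal (Real.sqrt (gram g φ (pt t 0) 0 0)))
        (volume.restrict (Ioo (t0 - δ) (t0 + δ))) :=
      ((hc.mono Ioo_subset_Icc_self).aemeasurable measurableSet_Ioo).ennreal_ofReal
    rw [lintegral_eq_zero_iff' hm] at h3
    have h4 : ∀ᵐ t ∂volume.restrict (Ioo (t0 - δ) (t0 + δ)), False := by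
      filter_upwards [h3, ae_restrict_mem measurableSet_Ioo] with t ht htI
      have h5 := Real.sqrt_pos.2 (gram_zero_pos h.mem g (h.pt_mem' htI))
      simp only [Pi.zero_apply, ENNReal.ofReal_eq_zero] at ht
      linarith
    have h6 := eventually_false_iff_eq_bot.1 h4
    rw [ae_eq_bot, Measure.restrict_eq_zero, Real.volume_Ioo] at h6
    have h7 := h.pos
    rw [ENNReal.ofReal_eq_zero] at h6
    linarith

lemma isClosed_zero (hf : Continuous f) : IsClosed {z | f z = 0} := isClosed_eq hf continuous_const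

include hν in
lemma restrict_eq (hf : Continuous f) : ν.restrict (crv φ '' Ioo (t0 - δ) (t0 + δ)) =
    Measure.map (crv φ) ((volume.restrict (Ioo (t0 - δ) (t0 + δ))).withDensity
      fun t => ENNReal.ofReal (Real.sqrt (gram g φ (pt t 0) 0 0))) := by
  have hm : AEMeasurable (crv φ) ((volume.restrict (Ioo (t0 - δ) (t0 + δ))).withDensity
      fun t => ENNReal.ofReal (Real.sqrt (gram g φ (pt t 0) 0 0))) :=
    (h.crv_smooth.continuousOn.aemeasurable measurableSet_Ioo).mono_ac (withDensity_absolutelyContinuous _ _)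
  ext B hB
  have h1 : MeasurableSet (Ioo (t0 - δ) (t0 + δ) ∩ crv φ ⁻¹' B) :=
    measurableSet_inter_preimage_of_continuousOn measurableSet_Ioo h.crv_smooth.continuousOn hB
  rw [Measure.restrict_apply hB, Measure.map_apply_of_aemeasurable hm hB, withDensity_apply',
    Measure.restrict_restrict₀' measurableSet_Ioo.nullMeasurableSet, inter_comm (crv φ ⁻¹' B),
    ← h.measure_image hν inter_subset_left h1]
  congr 1
  ext z
  constructor
  · rintro ⟨hz, t, ht, rfl⟩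
    exact ⟨t, ⟨ht, hz⟩, rfl⟩
  · rintro ⟨t, ⟨ht, hz⟩, rfl⟩
    exact ⟨hz, t, ht, rfl⟩

include hν in
lemma integral_length (hf : Continuous f) {ψ : M → ℝ} (hψ : Continuous ψ)
    (hs : tsupport ψ ⊆ φ.symm '' obx t0 δ) :
    ∫ z, ψ z ∂ν = ∫ t in Ioo (t0 - δ) (t0 + δ), Real.sqrt (gram g φ (pt t 0) 0 0) * ψ (crv φ t) := by
  have hZ : MeasurableSet {z | f z = 0} := (isClosed_zero h hf).measurableSet
  have hT : MeasurableSet (crv φ '' Ioo (t0 - δ) (t0 + δ)) := by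
    rw [← h.obx_inter]
    exact h.isOpen_image.measurableSet.inter hZ
  have h1 : ∫ z, ψ z ∂ν = ∫ z in crv φ '' Ioo (t0 - δ) (t0 + δ), ψ z ∂ν := by
    refine (setIntegral_eq_integral_of_ae_compl_eq_zero ?_).symm
    have h2 : ∀ᵐ z ∂ν, z ∈ {z | f z = 0} := hν.1
    filter_upwards [h2] with z hz hzT
    by_contra hne
    apply hzT
    rw [← h.obx_inter]
    exact ⟨hs (subset_tsupport _ hne), hz⟩
  have hm : AEMeasurable (crv φ) ((volume.restrict (Ioo (t0 - δ) (t0 + δ))).withDensity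
      fun t => ENNReal.ofReal (Real.sqrt (gram g φ (pt t 0) 0 0))) :=
    (h.crv_smooth.continuousOn.aemeasurable measurableSet_Ioo).mono_ac (withDensity_absolutelyContinuous _ _)
  have hd : AEMeasurable (fun t => ENNReal.ofReal (Real.sqrt (gram g φ (pt t 0) 0 0)))
      (volume.restrict (Ioo (t0 - δ) (t0 + δ))) :=
    (((h.gram_cont g).mono Ioo_subset_Icc_self).aemeasurable measurableSet_Ioo).ennreal_ofReal
  rw [h1, h.restrict_eq hν hf, integral_map hm hψ.aestronglyMeasurable,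
    integral_withDensity_eq_integral_toReal_smul₀ hd (Eventually.of_forall fun t => ENNReal.ofReal_lt_top)]
  refine setIntegral_congr_fun measurableSet_Ioo fun t _ => ?_
  beta_reduce
  rw [ENNReal.toReal_ofReal (Real.sqrt_nonneg _), smul_eq_mul]

end FlatAt

end Pool.Agent.Helper89.Stek
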