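import Mathlib

/-!
Steklov and Laplace eigenvalues on surfaces: definitions.
-/

set_option autoImplicit false

open scoped Manifold ContDiff ENNReal
open MeasureTheory Bundle

namespace Pool.Agent.Helper89.Stek


variable {M : Type*} [TopologicalSpace M] [ChartedSpace (ℝ × ℝ) M] [IsManifold 𝓘(ℝ, ℝ × ℝ) ∞ M]

variable (M) in
/-- Smooth Riemannian metrics on the surface `M`. -/
abbrev Metric : Type _ :=
  ContMDiffRiemannianMetric 𝓘(ℝ, ℝ × ℝ) ∞ (ℝ × ℝ) (fun x : M => TangentSpace 𝓘(ℝ, ℝ × ℝ) x)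

/-- The gradient of `u` at `x` with respect to `g`: the tangent vector `w` with `g (w, v) = du (v)` for
all tangent vectors `v`. -/
noncomputable def grad (g : Metric M) (u : M → ℝ) (x : M) : TangentSpace 𝓘(ℝ, ℝ × ℝ) x :=
  Classical.epsilon fun w : TangentSpace 𝓘(ℝ, ℝ × ℝ) x =>
    ∀ v : TangentSpace 𝓘(ℝ, ℝ × ℝ) x, g.inner x w v = mfderiv 𝓘(ℝ, ℝ × ℝ) 𝓘(ℝ) u x v

/-- The squared length of the gradient of `u` at `x`. -/
noncomputable def gradSq (g : Metric M) (u : M → ℝ) (x : M) : ℝ :=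
  g.inner x (grad g u x) (grad g u x)

/-- The coordinate vector fields of the chart `φ`, at the point with coordinates `y`. -/
noncomputable def coordVec (φ : OpenPartialHomeomorph M (ℝ × ℝ)) (i : Fin 2) (y : ℝ × ℝ) :
    TangentSpace 𝓘(ℝ, ℝ × ℝ) (φ.symm y) :=
  mfderiv 𝓘(ℝ, ℝ × ℝ) 𝓘(ℝ, ℝ × ℝ) φ.symm y (![(1, 0), (0, 1)] i : ℝ × ℝ)

/-- The Gram matrix of the metric `g` in the chart `φ`, at the point with coordinates `y`. -/
noncomputable def gram (g : Metric M) (φ : OpenPartialHomeomorph M (ℝ × ℝ)) (y : ℝ × ℝ) :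
    Matrix (Fin 2) (Fin 2) ℝ :=
  Matrix.of fun i j => g.inner (φ.symm y) (coordVec φ i y) (coordVec φ j y)

/-- `μ` is the Riemannian area measure of `g`: in every smooth chart it has density the square root of
the determinant of the Gram matrix. -/
def IsAreaMeasure [MeasurableSpace M] (g : Metric M) (μ : Measure M) : Prop :=
  ∀ φ ∈ IsManifold.maximalAtlas 𝓘(ℝ, ℝ × ℝ) ∞ M, ∀ A ⊆ φ.source, MeasurableSet A →
    μ A = ∫⁻ y in φ '' A, ENNReal.ofReal (Real.sqrt (gram g φ y).det)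

/-- The velocity of the curve `c` at time `t`. -/
noncomputable def vel (c : ℝ → M) (t : ℝ) : TangentSpace 𝓘(ℝ, ℝ × ℝ) (c t) :=
  mfderiv 𝓘(ℝ) 𝓘(ℝ, ℝ × ℝ) c t (1 : ℝ)

/-- `ν` is the length measure of the curve `Γ ⊂ M`, regarded as a measure on `M` carried by `Γ`: the image
under `c` of a measurable set `A` of times has measure `∫_A |c'(t)| dt`, for every regular injective
smooth curve `c : (a, b) → Γ`. -/
def IsLengthMeasure [MeasurableSpace M] (g : Metric M) (Γ : Set M) (ν : Measure M) : Prop :=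
  ν Γᶜ = 0 ∧ ∀ (c : ℝ → M) (a b : ℝ), ContMDiffOn 𝓘(ℝ) 𝓘(ℝ, ℝ × ℝ) ∞ c (Set.Ioo a b) →
    Set.InjOn c (Set.Ioo a b) → (∀ t ∈ Set.Ioo a b, vel c t ≠ 0) → c '' Set.Ioo a b ⊆ Γ →
    ∀ A ⊆ Set.Ioo a b, MeasurableSet A →
      ν (c '' A) = ∫⁻ t in A, ENNReal.ofReal (Real.sqrt (g.inner (c t) (vel c t) (vel c t)))

/-- `Ω` is a domain with nonempty smooth boundary: it is open and connected, its frontier is nonempty, and
near each boundary point it is the sublevel set `{f < 0}` of a smooth function `f` without critical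
points. -/
structure IsSmoothDomain (Ω : Set M) : Prop where
  isOpen : IsOpen Ω
  isConnected : IsConnected Ω
  nonempty : (frontier Ω).Nonempty
  boundary : ∀ x ∈ frontier Ω, ∃ (U : Set M) (f : M → ℝ), IsOpen U ∧ x ∈ U ∧
    ContMDiffOn 𝓘(ℝ, ℝ × ℝ) 𝓘(ℝ) ∞ f U ∧ (∀ z ∈ U, mfderiv 𝓘(ℝ, ℝ × ℝ) 𝓘(ℝ) f z ≠ 0) ∧ ∀ z ∈ U, z ∈ Ω ↔ f z < 0

/-- `h` is conformal to `g`. -/
def IsConformal (g h : Metric M) : Prop :=
  ∃ ρ : M → ℝ, ContMDiff 𝓘(ℝ, ℝ × ℝ) 𝓘(ℝ) ∞ ρ ∧ (∀ x, 0 < ρ x) ∧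
    ∀ x, ∀ v w : TangentSpace 𝓘(ℝ, ℝ × ℝ) x, h.inner x v w = ρ x * g.inner x v w

variable [MeasurableSpace M]

/-- The area measure of `g`. -/
noncomputable def areaMeasure (g : Metric M) : Measure M := Classical.epsilon (IsAreaMeasure g)

/-- The length measure of the curve `Γ` with respect to `g`. -/
noncomputable def lengthMeasure (g : Metric M) (Γ : Set M) : Measure M :=
  Classical.epsilon (IsLengthMeasure g Γ)

/-- The area of `(M, g)`. -/
noncomputable def area (g : Metric M) : ℝ := (areaMeasure g Set.univ).toReal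

/-- The length of the boundary of `Ω`. -/
noncomputable def bdryLength (g : Metric M) (Ω : Set M) : ℝ := (lengthMeasure g (frontier Ω) Set.univ).toReal

/-- The `k`-th Steklov eigenvalue of `(Ω, g)`, by the min-max principle: the infimum of the numbers `Λ` for
which there is a `(k + 1)`-dimensional space `E` of smooth functions, no nonzero member of which vanishes
on the boundary, with `∫_Ω |∇u|² ≤ Λ ∫_{∂Ω} u²` for all `u ∈ E`. -/
noncomputable def steklov (g : Metric M) (Ω : Set M) (k : ℕ) : ℝ :=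
  sInf {Λ : ℝ | 0 ≤ Λ ∧ ∃ E : Submodule ℝ (M → ℝ), Module.finrank ℝ E = k + 1 ∧
    (∀ u ∈ E, ContMDiff 𝓘(ℝ, ℝ × ℝ) 𝓘(ℝ) ∞ u) ∧ (∀ u ∈ E, (∀ x ∈ frontier Ω, u x = 0) → u = 0) ∧
    ∀ u ∈ E, ∫ x in Ω, gradSq g u x ∂areaMeasure g ≤ Λ * ∫ x, u x ^ 2 ∂lengthMeasure g (frontier Ω)}

/-- The `k`-th eigenvalue of the Laplace operator of `(M, h)`, by the min-max principle: the infimum of the
numbers `Λ` for which there is a `(k + 1)`-dimensional space `E` of smooth functions with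
`∫_M |∇u|² ≤ Λ ∫_M u²` for all `u ∈ E`. -/
noncomputable def laplace (h : Metric M) (k : ℕ) : ℝ :=
  sInf {Λ : ℝ | 0 ≤ Λ ∧ ∃ E : Submodule ℝ (M → ℝ), Module.finrank ℝ E = k + 1 ∧
    (∀ u ∈ E, ContMDiff 𝓘(ℝ, ℝ × ℝ) 𝓘(ℝ) ∞ u) ∧
    ∀ u ∈ E, ∫ x, gradSq h u x ∂areaMeasure h ≤ Λ * ∫ x, u x ^ 2 ∂areaMeasure h}

/-- The conformal supremum `λ_k^*(M, [g])`, in the extended reals. -/
noncomputable def conformalSup (g : Metric M) (k : ℕ) : EReal :=
  ⨆ h : {h : Metric M // IsConformal g h}, ((laplace h.1 k * area h.1 : ℝ) : EReal)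

end Pool.Agent.Helper89.Stek
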