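import Pool.Agent.Helper89.Stek.Curve

/-!
Existence and uniqueness of the area measure.
-/

set_option autoImplicit false

open scoped Manifold ContDiff ENNReal Topology
open MeasureTheory Bundle Set Filter

namespace Pool.Agent.Helper89.Stek

variable {M : Type*} [TopologicalSpace M] [ChartedSpace (ℝ × ℝ) M] [IsManifold 𝓘(ℝ, ℝ × ℝ) ∞ M]

lemma inner_congr (g : Metric M) {p q : M} (h : p = q) (a b : (ℝ × ℝ)) :
    g.inner p (a : TangentSpace 𝓘(ℝ, ℝ × ℝ) p) (b : TangentSpace 𝓘(ℝ, ℝ × ℝ) p) =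
      g.inner q (a : TangentSpace 𝓘(ℝ, ℝ × ℝ) q) (b : TangentSpace 𝓘(ℝ, ℝ × ℝ) q) := by
  subst h
  rfl

/-- entries of the derivative -/
noncomputable abbrev ent (L : (ℝ × ℝ) →L[ℝ] (ℝ × ℝ)) (k j : Fin 2) : ℝ :=
  ![(L (bas j)).1, (L (bas j)).2] k

lemma det_eq (L : (ℝ × ℝ) →L[ℝ] (ℝ × ℝ)) : L.det = ent L 0 0 * ent L 1 1 - ent L 0 1 * ent L 1 0 := by
  have h1 : L.det = LinearMap.det (L : (ℝ × ℝ) →ₗ[ℝ] (ℝ × ℝ)) := rfl
  rw [h1, ← LinearMap.det_toMatrix (Module.Basis.finTwoProd ℝ), Matrix.det_fin_two]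
  simp [LinearMap.toMatrix_apply, ent]

section change

variable {φ ψ : OpenPartialHomeomorph M (ℝ × ℝ)} (hφ : φ ∈ IsManifold.maximalAtlas 𝓘(ℝ, ℝ × ℝ) ∞ M)
  (hψ : ψ ∈ IsManifold.maximalAtlas 𝓘(ℝ, ℝ × ℝ) ∞ M)

include hφ hψ

omit [IsManifold 𝓘(ℝ, ℝ × ℝ) ∞ M] in
lemma trans_differentiable {y : (ℝ × ℝ)} (hy : y ∈ ψ.target) (hy2 : ψ.symm y ∈ φ.source) :
    DifferentiableAt ℝ (φ ∘ ψ.symm) y := by
  have h1 : MDifferentiableAt 𝓘(ℝ, ℝ × ℝ) 𝓘(ℝ, ℝ × ℝ) ψ.symm y :=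
    (contMDiffAt_symm_of_mem_maximalAtlas hψ hy).mdifferentiableAt (by simp)
  have h2 : MDifferentiableAt 𝓘(ℝ, ℝ × ℝ) 𝓘(ℝ, ℝ × ℝ) φ (ψ.symm y) :=
    (contMDiffAt_of_mem_maximalAtlas hφ hy2).mdifferentiableAt (by simp)
  exact (h2.comp y h1).differentiableAt

lemma gram_change (g : Metric M) {y : (ℝ × ℝ)} (hy : y ∈ ψ.target) (hy2 : ψ.symm y ∈ φ.source) :
    (gram g ψ y).det = (fderiv ℝ (φ ∘ ψ.symm) y).det ^ 2 * (gram g φ ((φ ∘ ψ.symm) y)).det := by
  obtain ⟨τ, hτ⟩ : ∃ τ, τ = φ ∘ ψ.symm := ⟨_, rfl⟩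
  obtain ⟨L, hL⟩ : ∃ L, L = fderiv ℝ τ y := ⟨_, rfl⟩
  rw [← hτ, ← hL]
  have hτy : τ y ∈ φ.target := by rw [hτ]; exact φ.map_source hy2
  have hd : DifferentiableAt ℝ τ y := by rw [hτ]; exact trans_differentiable hφ hψ hy hy2
  have hback : φ.symm (τ y) = ψ.symm y := by rw [hτ]; exact φ.left_inv hy2
  have hev : ψ.symm =ᶠ[𝓝 y] φ.symm ∘ τ := by
    have h1 : ∀ᶠ z in 𝓝 y, ψ.symm z ∈ φ.source :=
      (ψ.continuousAt_symm hy).eventually (φ.open_source.mem_nhds hy2)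
    filter_upwards [h1] with z hz
    rw [hτ, Function.comp_apply, Function.comp_apply, φ.left_inv hz]
  have hφd : MDifferentiableAt 𝓘(ℝ, ℝ × ℝ) 𝓘(ℝ, ℝ × ℝ) φ.symm (τ y) :=
    (contMDiffAt_symm_of_mem_maximalAtlas hφ hτy).mdifferentiableAt (by simp)
  have hcomp : HasMFDerivAt 𝓘(ℝ, ℝ × ℝ) 𝓘(ℝ, ℝ × ℝ) (φ.symm ∘ τ) y
      ((mfderiv 𝓘(ℝ, ℝ × ℝ) 𝓘(ℝ, ℝ × ℝ) φ.symm (τ y)).comp L) :=
    HasMFDerivAt.comp y hφd.hasMFDerivAt (by rw [hL]; exact hd.hasFDerivAt.hasMFDerivAt)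
  have hcomp2 := (hcomp.congr_of_eventuallyEq hev).mfderiv
  obtain ⟨A, hA⟩ : ∃ A : (ℝ × ℝ) → (ℝ × ℝ), A = fun v => mfderiv 𝓘(ℝ, ℝ × ℝ) 𝓘(ℝ, ℝ × ℝ) φ.symm (τ y) v := ⟨_, rfl⟩
  have hvec : ∀ i, (coordVec ψ i y : (ℝ × ℝ)) = A (L (bas i)) := by
    intro i
    rw [hA]
    exact congrArg (fun T => T (bas i)) hcomp2
  have hAlin : ∀ i, A (L (bas i)) =
      ent L 0 i • (coordVec φ 0 (τ y) : (ℝ × ℝ)) + ent L 1 i • (coordVec φ 1 (τ y) : (ℝ × ℝ)) := by
    intro i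
    have h2 : L (bas i) =
        ent L 0 i • bas 0 + ent L 1 i • bas 1 := eq_bas _
    rw [h2, hA]
    exact mfderiv_lin (φ := φ) (τ y) (ent L 0 i) (ent L 1 i) (bas 0)
      (bas 1)
  have hgram : ∀ i j, gram g ψ y i j = ent L 0 i * ent L 0 j * gram g φ (τ y) 0 0 +
      (ent L 0 i * ent L 1 j + ent L 1 i * ent L 0 j) * gram g φ (τ y) 0 1 +
      ent L 1 i * ent L 1 j * gram g φ (τ y) 1 1 := by
    intro i j
    have h1 : gram g ψ y i j = g.inner (φ.symm (τ y))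
        (ent L 0 i • coordVec φ 0 (τ y) + ent L 1 i • coordVec φ 1 (τ y))
        (ent L 0 j • coordVec φ 0 (τ y) + ent L 1 j • coordVec φ 1 (τ y)) := by
      have h2 := inner_congr g hback.symm (coordVec ψ i y : (ℝ × ℝ)) (coordVec ψ j y : (ℝ × ℝ))
      refine Eq.trans h2 ?_
      rw [hvec i, hvec j, hAlin i, hAlin j]
    rw [h1]
    simp only [map_add, map_smul, add_apply, smul_apply, smul_eq_mul]
    have e00 : g.inner (φ.symm (τ y)) (coordVec φ 0 (τ y)) (coordVec φ 0 (τ y)) = gram g φ (τ y) 0 0 := rfl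
    have e01 : g.inner (φ.symm (τ y)) (coordVec φ 0 (τ y)) (coordVec φ 1 (τ y)) = gram g φ (τ y) 0 1 := rfl
    have e10 : g.inner (φ.symm (τ y)) (coordVec φ 1 (τ y)) (coordVec φ 0 (τ y)) = gram g φ (τ y) 0 1 :=
      gram_symm g (τ y)
    have e11 : g.inner (φ.symm (τ y)) (coordVec φ 1 (τ y)) (coordVec φ 1 (τ y)) = gram g φ (τ y) 1 1 := rfl
    rw [e00, e01, e10, e11]
    ring
  rw [Matrix.det_fin_two, hgram, hgram, hgram, hgram, det_eq, Matrix.det_fin_two, gram_symm]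
  ring

variable [MeasurableSpace M] [BorelSpace M]

lemma lintegral_change (g : Metric M) {B : Set M} (hB : MeasurableSet B) (hBψ : B ⊆ ψ.source)
    (hBφ : B ⊆ φ.source) :
    ∫⁻ y in ψ '' B, ENNReal.ofReal (dens g ψ y) = ∫⁻ y in φ '' B, ENNReal.ofReal (dens g φ y) := by
  have hBm : MeasurableSet (ψ '' B) := by
    have h1 : ψ '' B = ψ.target ∩ ψ.symm ⁻¹' B := by
      have := ψ.image_eq_target_inter_inv_preimage (s := B) hBψ
      exact this
    rw [h1]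
    exact measurableSet_inter_preimage_of_continuousOn ψ.open_target.measurableSet ψ.continuousOn_symm hB
  have himg : φ '' B = (φ ∘ ψ.symm) '' (ψ '' B) := by
    rw [image_comp, image_image (f := ψ)]
    have h1 : (fun x => ψ.symm (ψ x)) '' B = B := by
      refine (image_congr fun x hx => ψ.left_inv (hBψ hx)).trans (by simp)
    rw [h1]
  have hmem : ∀ y ∈ ψ '' B, y ∈ ψ.target ∧ ψ.symm y ∈ φ.source := by
    rintro _ ⟨x, hx, rfl⟩
    exact ⟨ψ.map_source (hBψ hx), by rw [ψ.left_inv (hBψ hx)]; exact hBφ hx⟩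
  have hinj : InjOn (φ ∘ ψ.symm) (ψ '' B) := by
    rintro y hy z hz hyz
    have h1 := φ.injOn (hmem y hy).2 (hmem z hz).2 hyz
    exact ψ.symm.injOn (hmem y hy).1 (hmem z hz).1 h1
  rw [himg, lintegral_image_eq_lintegral_abs_det_fderiv_mul volume hBm
    (f' := fun y => fderiv ℝ (φ ∘ ψ.symm) y)
    (fun y hy => (trans_differentiable hφ hψ (hmem y hy).1 (hmem y hy).2).hasFDerivAt.hasFDerivWithinAt) hinj]
  refine setLIntegral_congr_fun hBm fun y hy => ?_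
  beta_reduce
  rw [← ENNReal.ofReal_mul (abs_nonneg _)]
  congr 1
  unfold dens
  rw [gram_change hφ hψ g (hmem y hy).1 (hmem y hy).2, Real.sqrt_mul (sq_nonneg _), Real.sqrt_sq_eq_abs]

end change

variable [MeasurableSpace M] [BorelSpace M]

/-- the local area measure of a chart -/
noncomputable def locArea (g : Metric M) (ψ : OpenPartialHomeomorph M (ℝ × ℝ)) : Measure M :=
  Measure.map ψ.symm ((volume.restrict ψ.target).withDensity fun y => ENNReal.ofReal (dens g ψ y))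

lemma locArea_apply (g : Metric M) {ψ : OpenPartialHomeomorph M (ℝ × ℝ)} {B : Set M} (hB : MeasurableSet B)
    (hBψ : B ⊆ ψ.source) : locArea g ψ B = ∫⁻ y in ψ '' B, ENNReal.ofReal (dens g ψ y) := by
  have h1 : AEMeasurable ψ.symm
      ((volume.restrict ψ.target).withDensity fun y => ENNReal.ofReal (dens g ψ y)) :=
    symm_aemeasurable.mono_ac (withDensity_absolutelyContinuous _ _)
  unfold locArea
  rw [Measure.map_apply_of_aemeasurable h1 hB, withDensity_apply',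
    Measure.restrict_restrict₀' ψ.open_target.measurableSet.nullMeasurableSet,
    ψ.image_eq_target_inter_inv_preimage hBψ, inter_comm]

variable (M) in
lemma exists_chart_seq [CompactSpace M] [Nonempty M] :
    ∃ s : ℕ → M, ⋃ n, (chartAt (ℝ × ℝ) (s n)).source = univ := by
  obtain ⟨t, -, ht⟩ := isCompact_univ.elim_nhds_subcover (fun x : M => (chartAt (ℝ × ℝ) x).source)
    (fun x _ => (chartAt (ℝ × ℝ) x).open_source.mem_nhds (mem_chart_source (ℝ × ℝ) x))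
  have hne : (t : Set M).Nonempty := by
    obtain ⟨x⟩ : Nonempty M := inferInstance
    obtain ⟨i, hi, -⟩ := mem_iUnion₂.1 (ht (mem_univ x))
    exact ⟨i, hi⟩
  obtain ⟨s, hs⟩ := t.countable_toSet.exists_eq_range hne
  refine ⟨s, univ_subset_iff.1 fun x hx => ?_⟩
  obtain ⟨i, hi, hxi⟩ := mem_iUnion₂.1 (ht hx)
  have : i ∈ range s := by rw [← hs]; exact hi
  obtain ⟨n, rfl⟩ := this
  exact mem_iUnion.2 ⟨n, hxi⟩

theorem exists_area [CompactSpace M] [Nonempty M] (g : Metric M) : ∃ μ : Measure M, IsAreaMeasure g μ := by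
  obtain ⟨s, hs⟩ := exists_chart_seq M
  have hat : ∀ n, chartAt (ℝ × ℝ) (s n) ∈ IsManifold.maximalAtlas 𝓘(ℝ, ℝ × ℝ) ∞ M := fun n =>
    IsManifold.chart_mem_maximalAtlas (s n)
  obtain ⟨U, hU⟩ : ∃ U : ℕ → Set M, U = fun n => (chartAt (ℝ × ℝ) (s n)).source := ⟨_, rfl⟩
  have hUm : ∀ n, MeasurableSet (U n) := fun n => by
    rw [hU]; exact (chartAt (ℝ × ℝ) (s n)).open_source.measurableSet
  have hVm : ∀ n, MeasurableSet (disjointed U n) := fun n => MeasurableSet.disjointed hUm n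
  have hVs : ∀ n, disjointed U n ⊆ (chartAt (ℝ × ℝ) (s n)).source := fun n => by
    have := disjointed_subset U n
    rw [hU] at this ⊢
    exact this
  have hVu : ⋃ n, disjointed U n = univ := by rw [iUnion_disjointed, hU]; exact hs
  refine ⟨Measure.sum fun n => (locArea g (chartAt (ℝ × ℝ) (s n))).restrict (disjointed U n), ?_⟩
  intro φ hφ A hA hAm
  have h1 : ∀ n, (locArea g (chartAt (ℝ × ℝ) (s n))).restrict (disjointed U n) A =
      ∫⁻ y in φ '' (A ∩ disjointed U n), ENNReal.ofReal (dens g φ y) := by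
    intro n
    rw [Measure.restrict_apply hAm, locArea_apply g (hAm.inter (hVm n)) (inter_subset_right.trans (hVs n))]
    exact lintegral_change hφ (hat n) g (hAm.inter (hVm n)) (inter_subset_right.trans (hVs n))
      (inter_subset_left.trans hA)
  rw [Measure.sum_apply _ hAm]
  simp_rw [h1]
  have hm : ∀ n, MeasurableSet (φ '' (A ∩ disjointed U n)) := by
    intro n
    rw [φ.image_eq_target_inter_inv_preimage (inter_subset_left.trans hA)]
    exact measurableSet_inter_preimage_of_continuousOn φ.open_target.measurableSet φ.continuousOn_symm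
      (hAm.inter (hVm n))
  have hdisj : Pairwise (Function.onFun Disjoint fun n => φ '' (A ∩ disjointed U n)) := by
    intro m n hmn
    have h2 := disjoint_disjointed U hmn
    refine disjoint_left.2 ?_
    rintro _ ⟨x, ⟨hxA, hxm⟩, rfl⟩ ⟨z, ⟨hzA, hzn⟩, hzx⟩
    have h3 := φ.injOn (hA hzA) (hA hxA) hzx
    rw [h3] at hzn
    exact disjoint_left.1 h2 hxm hzn
  rw [← lintegral_iUnion hm hdisj]
  have hun : ⋃ n, φ '' (A ∩ disjointed U n) = φ '' A := by
    rw [← image_iUnion, ← inter_iUnion, hVu, inter_univ]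
  rw [hun]
  rfl

theorem area_unique [CompactSpace M] [Nonempty M] {g : Metric M} {μ μ' : Measure M}
    (h : IsAreaMeasure g μ) (h' : IsAreaMeasure g μ') : μ = μ' := by
  obtain ⟨s, hs⟩ := exists_chart_seq M
  refine (Measure.ext_iff_of_iUnion_eq_univ hs).2 fun n => ?_
  rw [restrict_source_eq (IsManifold.chart_mem_maximalAtlas (s n)) h,
    restrict_source_eq (IsManifold.chart_mem_maximalAtlas (s n)) h']

theorem isAreaMeasure_areaMeasure [CompactSpace M] [Nonempty M] (g : Metric M) :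
    IsAreaMeasure g (areaMeasure g) :=
  Classical.epsilon_spec (exists_area g)

end Pool.Agent.Helper89.Stek
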