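import Pool.Agent.Helper89.Stek.ExistA

/-!
Existence of the length measure of a smooth curve given by an equation.
-/

set_option autoImplicit false

open scoped Manifold ContDiff ENNReal Topology
open MeasureTheory Bundle Set Filter

namespace Pool.Agent.Helper89.Stek

variable {M : Type*} [TopologicalSpace M] [ChartedSpace (ℝ × ℝ) M] [IsManifold 𝓘(ℝ, ℝ × ℝ) ∞ M]
  [MeasurableSpace M] [BorelSpace M] [T2Space M]

/-- the local length measure of a flat chart -/
noncomputable def locLen (g : Metric M) (φ : OpenPartialHomeomorph M (ℝ × ℝ)) (t0 δ : ℝ) : Measure M :=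
  Measure.map (crv φ) ((volume.restrict (Ioo (t0 - δ) (t0 + δ))).withDensity
    fun t => ENNReal.ofReal (Real.sqrt (gram g φ (pt t 0) 0 0)))

lemma locLen_compl (g : Metric M) {f : M → ℝ} (hf : Continuous f) {φ : OpenPartialHomeomorph M (ℝ × ℝ)} {t0 δ : ℝ}
    (h : FlatAt f φ t0 δ) : locLen g φ t0 δ {z | f z = 0}ᶜ = 0 := by
  have hm : AEMeasurable (crv φ) ((volume.restrict (Ioo (t0 - δ) (t0 + δ))).withDensity
      fun t => ENNReal.ofReal (Real.sqrt (gram g φ (pt t 0) 0 0))) :=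
    (h.crv_smooth.continuousOn.aemeasurable measurableSet_Ioo).mono_ac (withDensity_absolutelyContinuous _ _)
  unfold locLen
  rw [Measure.map_apply_of_aemeasurable hm (isClosed_eq hf continuous_const).measurableSet.compl,
    withDensity_apply', Measure.restrict_restrict₀' measurableSet_Ioo.nullMeasurableSet]
  have h1 : crv φ ⁻¹' {z | f z = 0}ᶜ ∩ Ioo (t0 - δ) (t0 + δ) = ∅ := by
    ext t
    simp only [mem_inter_iff, mem_preimage, mem_compl_iff, mem_ofPred_eq, mem_empty_iff_false, iff_false,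
      not_and]
    intro h2 h3
    exact h2 (h.f_crv (Ioo_subset_Icc_self h3))
  rw [h1]
  simp

/-- the local length formula -/
lemma locLen_curve (g : Metric M) {f : M → ℝ} {φ : OpenPartialHomeomorph M (ℝ × ℝ)} {t0 δ : ℝ}
    (h : FlatAt f φ t0 δ) {c : ℝ → M} {a b : ℝ} (hc : ContMDiffOn 𝓘(ℝ) 𝓘(ℝ, ℝ × ℝ) ∞ c (Ioo a b))
    (hinj : InjOn c (Ioo a b)) (hcf : ∀ t ∈ Ioo a b, f (c t) = 0) {B : Set ℝ} (hB : B ⊆ Ioo a b)
    (hBm : MeasurableSet B) (hBU : c '' B ⊆ φ.symm '' obx t0 δ) :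
    locLen g φ t0 δ (c '' B) = ∫⁻ t in B, ENNReal.ofReal (Real.sqrt (g.inner (c t) (vel c t) (vel c t))) := by
  have hm : AEMeasurable (crv φ) ((volume.restrict (Ioo (t0 - δ) (t0 + δ))).withDensity
      fun t => ENNReal.ofReal (Real.sqrt (gram g φ (pt t 0) 0 0))) :=
    (h.crv_smooth.continuousOn.aemeasurable measurableSet_Ioo).mono_ac (withDensity_absolutelyContinuous _ _)
  have hcm : MeasurableSet (c '' B) :=
    hBm.image_of_continuousOn_injOn (hc.continuousOn.mono hB) (hinj.mono hB)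
  obtain ⟨α, hα⟩ : ∃ α : ℝ → ℝ, α = fun t => (φ (c t)).1 := ⟨_, rfl⟩
  -- facts on the set where the curve is in the chart
  have hmem : ∀ t ∈ B, c t ∈ φ.source ∧ α t ∈ Ioo (t0 - δ) (t0 + δ) ∧ crv φ (α t) = c t := by
    intro t ht
    obtain ⟨y, hy, hyc⟩ := hBU ⟨t, ht, rfl⟩
    have hyt := h.sub (obx_subset_cbx _ _ hy)
    have hφc : φ (c t) = y := by rw [← hyc, φ.right_inv hyt]
    have hy1 : y.2 = 0 := by rw [← h.f_eq hyt, hyc]; exact hcf t (hB ht)
    refine ⟨by rw [← hyc]; exact φ.map_target hyt, ?_, ?_⟩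
    · rw [hα]
      simp only [hφc]
      exact hy.1
    · rw [hα]
      simp only [hφc]
      unfold crv
      rw [← hy1, pt_coord, hyc]
  -- differentiability of `α` and the velocity formula
  have hder : ∀ t ∈ B, ∃ α' : ℝ, HasDerivAt α α' t ∧
      g.inner (c t) (vel c t) (vel c t) = α' ^ 2 * gram g φ (pt (α t) 0) 0 0 := by
    intro t ht
    obtain ⟨hs, hαI, hcr⟩ := hmem t ht
    have hcd : ContMDiffAt 𝓘(ℝ) 𝓘(ℝ, ℝ × ℝ) ∞ c t := hc.contMDiffAt (isOpen_Ioo.mem_nhds (hB ht))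
    have hφc : ContMDiffAt 𝓘(ℝ) 𝓘(ℝ, ℝ × ℝ) ∞ (φ ∘ c) t :=
      (contMDiffAt_of_mem_maximalAtlas h.mem hs).comp t hcd
    have hφc' : DifferentiableAt ℝ (φ ∘ c) t := (hφc.contDiffAt).differentiableAt (by simp)
    have hα' : HasDerivAt α ((deriv (φ ∘ c) t).1) t := by
      have h1 := hφc'.hasDerivAt
      have h2 := ((ContinuousLinearMap.fst ℝ ℝ ℝ).hasFDerivAt (x := (φ ∘ c) t)).comp_hasDerivAt t h1
      rw [hα]
      exact h2
    refine ⟨_, hα', ?_⟩
    -- `c = crv ∘ α` near `t`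
    have hev : c =ᶠ[𝓝 t] crv φ ∘ α := by
      have h1 : ∀ᶠ s in 𝓝 t, c s ∈ φ.source :=
        hcd.continuousAt.eventually (φ.open_source.mem_nhds hs)
      filter_upwards [h1, isOpen_Ioo.mem_nhds (hB ht)] with s hs1 hs2
      have h2 : (φ (c s)).2 = 0 := by rw [← h.flat _ hs1]; exact hcf s hs2
      rw [Function.comp_apply, hα]
      unfold crv
      rw [← h2, pt_coord, φ.left_inv hs1]
    have hcrd : MDifferentiableAt 𝓘(ℝ) 𝓘(ℝ, ℝ × ℝ) (crv φ) (α t) :=
      (h.crv_smooth.contMDiffAt (isOpen_Ioo.mem_nhds hαI)).mdifferentiableAt (by simp)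
    have h3 := (HasMFDerivAt.comp t hcrd.hasMFDerivAt hα'.hasFDerivAt.hasMFDerivAt)
    have h4 := (h3.congr_of_eventuallyEq hev).mfderiv
    have h5 : (vel c t : (ℝ × ℝ)) = (deriv (φ ∘ c) t).1 • (vel (crv φ) (α t) : (ℝ × ℝ)) := by
      have h6 := congrArg (fun T => T (1 : ℝ)) h4
      refine Eq.trans (b := (mfderiv 𝓘(ℝ) 𝓘(ℝ, ℝ × ℝ) (crv φ) (α t)
        (ContinuousLinearMap.toSpanSingleton ℝ ((deriv (φ ∘ c) t).1) (1 : ℝ)) : (ℝ × ℝ))) h6 ?_
      rw [ContinuousLinearMap.toSpanSingleton_apply, one_smul]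
      have h7 : ((deriv (φ ∘ c) t).1 : ℝ) = (deriv (φ ∘ c) t).1 • (1 : ℝ) := by simp
      let T : ℝ →L[ℝ] (ℝ × ℝ) := mfderiv 𝓘(ℝ) 𝓘(ℝ, ℝ × ℝ) (crv φ) (α t)
      change T ((deriv (φ ∘ c) t).1) = (deriv (φ ∘ c) t).1 • T 1
      nth_rewrite 1 [h7]
      rw [map_smul]
    have h8 := inner_congr g hcr.symm (vel c t : (ℝ × ℝ)) (vel c t : (ℝ × ℝ))
    refine Eq.trans h8 ?_
    rw [h5]
    have h9 : g.inner (crv φ (α t)) ((deriv (φ ∘ c) t).1 • vel (crv φ) (α t))
        ((deriv (φ ∘ c) t).1 • vel (crv φ) (α t)) =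
        ((deriv (φ ∘ c) t).1) ^ 2 * g.inner (crv φ (α t)) (vel (crv φ) (α t)) (vel (crv φ) (α t)) := by
      simp only [map_smul, smul_apply, smul_eq_mul]
      ring
    rw [← h.inner_vel g (Ioo_subset_Icc_self hαI), ← h9]
  choose! α' hα'1 hα'2 using hder
  have hαinj : InjOn α B := by
    intro s hs t ht hst
    have h1 : c s = c t := by
      rw [← (hmem s hs).2.2, ← (hmem t ht).2.2, hst]
    exact hinj (hB hs) (hB ht) h1
  have hpre : crv φ ⁻¹' (c '' B) ∩ Ioo (t0 - δ) (t0 + δ) = α '' B := by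
    ext s
    constructor
    · rintro ⟨⟨t, ht, hts⟩, hs⟩
      refine ⟨t, ht, ?_⟩
      obtain ⟨_, hαI, hcr⟩ := hmem t ht
      exact h.crv_inj (Ioo_subset_Icc_self hαI) (Ioo_subset_Icc_self hs) (hcr.trans hts)
    · rintro ⟨t, ht, rfl⟩
      obtain ⟨_, hαI, hcr⟩ := hmem t ht
      exact ⟨⟨t, ht, hcr.symm⟩, hαI⟩
  unfold locLen
  rw [Measure.map_apply_of_aemeasurable hm hcm, withDensity_apply',
    Measure.restrict_restrict₀' measurableSet_Ioo.nullMeasurableSet, hpre,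
    lintegral_image_eq_lintegral_abs_deriv_mul hBm (fun t ht => (hα'1 t ht).hasDerivWithinAt) hαinj]
  refine setLIntegral_congr_fun hBm fun t ht => ?_
  rw [hα'2 t ht, ← ENNReal.ofReal_mul (abs_nonneg _), Real.sqrt_mul (sq_nonneg _), Real.sqrt_sq_eq_abs]

theorem exists_length [CompactSpace M] [Nonempty M] (g : Metric M) {f : M → ℝ}
    (hf : ContMDiff 𝓘(ℝ, ℝ × ℝ) 𝓘(ℝ) ∞ f) (hd : ∀ z, f z = 0 → dd f z ≠ 0) :
    ∃ ν : Measure M, IsLengthMeasure g {z | f z = 0} ν := by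
  have hloc : ∀ x : M, ∃ (U : Set M) (ℓ : Measure M), IsOpen U ∧ x ∈ U ∧ ℓ {z | f z = 0}ᶜ = 0 ∧
      ∀ (c : ℝ → M) (a b : ℝ), ContMDiffOn 𝓘(ℝ) 𝓘(ℝ, ℝ × ℝ) ∞ c (Ioo a b) → InjOn c (Ioo a b) →
        (∀ t ∈ Ioo a b, f (c t) = 0) → ∀ B ⊆ Ioo a b, MeasurableSet B → c '' B ⊆ U →
        ℓ (c '' B) = ∫⁻ t in B, ENNReal.ofReal (Real.sqrt (g.inner (c t) (vel c t) (vel c t))) := by
    intro x
    by_cases hx : f x = 0
    · obtain ⟨φ, t0, δ, hfl, hxm⟩ := exists_flatAt hf (hd x hx) hx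
      exact ⟨_, locLen g φ t0 δ, hfl.isOpen_image, hxm, locLen_compl g hf.continuous hfl,
        fun c a b hc hinj hcf B hB hBm hBU => locLen_curve g hfl hc hinj hcf hB hBm hBU⟩
    · refine ⟨{z | f z ≠ 0}, 0, isOpen_ne_fun hf.continuous continuous_const, hx, by simp, ?_⟩
      intro c a b hc hinj hcf B hB hBm hBU
      have hBe : B = ∅ := by
        rw [eq_empty_iff_forall_notMem]
        intro t ht
        exact hBU ⟨t, ht, rfl⟩ (hcf t (hB ht))
      rw [hBe]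
      simp
  choose U ℓ hU hxU hℓ0 hℓ using hloc
  obtain ⟨t, -, ht⟩ := isCompact_univ.elim_nhds_subcover U (fun x _ => (hU x).mem_nhds (hxU x))
  have hne : (t : Set M).Nonempty := by
    obtain ⟨x⟩ : Nonempty M := inferInstance
    obtain ⟨i, hi, -⟩ := mem_iUnion₂.1 (ht (mem_univ x))
    exact ⟨i, hi⟩
  obtain ⟨s, hs⟩ := t.countable_toSet.exists_eq_range hne
  obtain ⟨W, hW⟩ : ∃ W : ℕ → Set M, W = fun n => U (s n) := ⟨_, rfl⟩
  have hWu : ⋃ n, W n = univ := by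
    refine univ_subset_iff.1 fun x hx => ?_
    obtain ⟨i, hi, hxi⟩ := mem_iUnion₂.1 (ht hx)
    have : i ∈ range s := by rw [← hs]; exact hi
    obtain ⟨n, rfl⟩ := this
    exact mem_iUnion.2 ⟨n, by rw [hW]; exact hxi⟩
  have hWm : ∀ n, MeasurableSet (W n) := fun n => by rw [hW]; exact (hU (s n)).measurableSet
  have hVm : ∀ n, MeasurableSet (disjointed W n) := fun n => MeasurableSet.disjointed hWm n
  have hVs : ∀ n, disjointed W n ⊆ U (s n) := fun n => by
    have := disjointed_subset W n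
    rw [hW] at this ⊢
    exact this
  have hVu : ⋃ n, disjointed W n = univ := by rw [iUnion_disjointed]; exact hWu
  have hZ : MeasurableSet {z | f z = 0}ᶜ := (isClosed_eq hf.continuous continuous_const).measurableSet.compl
  refine ⟨Measure.sum fun n => (ℓ (s n)).restrict (disjointed W n), ?_, ?_⟩
  · rw [Measure.sum_apply _ hZ]
    simp only [ENNReal.tsum_eq_zero]
    intro n
    exact le_antisymm ((Measure.restrict_apply_le _ _).trans (hℓ0 (s n)).le) zero_le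
  · intro c a b hc hinj hne' hcΓ A hA hAm
    have hcf : ∀ t ∈ Ioo a b, f (c t) = 0 := fun t ht => hcΓ ⟨t, ht, rfl⟩
    have hcm : MeasurableSet (c '' A) :=
      hAm.image_of_continuousOn_injOn (hc.continuousOn.mono hA) (hinj.mono hA)
    have hBm : ∀ n, MeasurableSet (A ∩ c ⁻¹' disjointed W n) := fun n =>
      measurableSet_inter_preimage_of_continuousOn hAm (hc.continuousOn.mono hA) (hVm n)
    have h1 : ∀ n, (ℓ (s n)).restrict (disjointed W n) (c '' A) =
        ∫⁻ t in A ∩ c ⁻¹' disjointed W n, ENNReal.ofReal (Real.sqrt (g.inner (c t) (vel c t) (vel c t))) := by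
      intro n
      rw [Measure.restrict_apply hcm, ← image_inter_preimage]
      exact hℓ (s n) c a b hc hinj hcf _ (inter_subset_left.trans hA) (hBm n)
        (by rintro _ ⟨t, ⟨_, ht⟩, rfl⟩; exact hVs n ht)
    rw [Measure.sum_apply _ hcm]
    simp_rw [h1]
    rw [← lintegral_iUnion hBm]
    · rw [← inter_iUnion, ← preimage_iUnion, hVu, preimage_univ, inter_univ]
    · intro m n hmn
      have h2 := disjoint_disjointed W hmn
      refine disjoint_left.2 fun t ht ht' => ?_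
      exact disjoint_left.1 h2 ht.2 ht'.2

end Pool.Agent.Helper89.Stek
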