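import Pool.Agent.Helper89.Stek.Side2

/-!
Two-sided families of densities.
-/

set_option autoImplicit false

open MeasureTheory Filter Topology
open scoped ContDiff

namespace Pool.Agent.Helper89.Stek

namespace Calc

variable {M : Type*} [MeasurableSpace M] (C : Calc M) {μ ν : Measure M} [IsFiniteMeasure μ]
  [IsFiniteMeasure ν]
variable {f Lf : C.S}

theorem exists_family (hg : C.Green μ f Lf) (hco : C.Coarea μ ν f) (hsupp : ν {x | f.1 x ≠ 0} = 0)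
    {r : ℝ} (hr : 0 < r) (hlow : ∀ x, |f.1 x| ≤ 2 * r → 1 / 2 ≤ (C.Γ f f).1 x) :
    ∃ B : ℝ, 0 ≤ B ∧ ∃ h c n : ℝ → C.S,
      (∀ ε > 0, ∀ x, 0 ≤ (h ε).1 x ∧ (h ε).1 x ≤ B ∧ (f.1 x = 0 → (h ε).1 x = 0) ∧
        (C.Γ (h ε) (h ε)).1 x ≤ B ∧ 0 ≤ (c ε).1 x ∧ 0 ≤ (n ε).1 x) ∧
      (∀ ε > 0, ∀ ψ : C.S, ∫ x, (ψ * n ε).1 x ∂μ =
        2 * ∫ x, (ψ * c ε).1 x ∂μ + ∫ x, (C.Γ ψ (h ε)).1 x ∂μ) ∧
      (∀ τ > 0, ∃ ε₁ > 0, ∀ ε, 0 < ε → ε < ε₁ → ∀ u : C.S,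
        |∫ x, (u * u * c ε).1 x ∂μ - C.m ν u u| ≤ τ * (C.D μ u u + C.m μ u u)) ∧
      (∀ s₀ > 0, ∃ c₀ > 0, ∃ ε₂ > 0, ∀ ε, 0 < ε → ε ≤ ε₂ → ∀ x, s₀ ≤ |f.1 x| → c₀ ≤ (h ε).1 x) ∧
      (∀ τ > 0, ∃ K, 0 ≤ K ∧ ∀ u : C.S, C.m ν u u ≤ τ * C.D μ u u + K * C.m μ u u) := by
  obtain ⟨C0, hC0⟩ := C.bdd Lf
  obtain ⟨C1, hC1⟩ := C.bdd (C.Γ f f)
  have hC1' : ∀ x, (C.Γ f f).1 x ≤ |C1| := fun x => (le_abs_self _).trans ((hC1 x).trans (le_abs_self _))
  have hC0' : ∀ x, |Lf.1 x| ≤ |C0| := fun x => (hC0 x).trans (le_abs_self _)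
  -- the data of the other side
  have hg' := hg.neg
  have hco' := hco.neg
  have hnf : ∀ x, (-f).1 x = - f.1 x := fun x => rfl
  have hnLf : ∀ x, (-Lf).1 x = - Lf.1 x := fun x => rfl
  have hΓn : ∀ x, (C.Γ (-f) (-f)).1 x = (C.Γ f f).1 x := fun x => by
    rw [map_neg, map_neg, LinearMap.neg_apply, neg_neg]
  have hsupp' : ν {x | (-f).1 x ≠ 0} = 0 := by
    have : {x | (-f).1 x ≠ 0} = {x | f.1 x ≠ 0} := by
      ext x
      simp only [Set.mem_ofPred_eq, hnf, ne_eq, neg_eq_zero]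
    rw [this]; exact hsupp
  have hlow' : ∀ x, |(-f).1 x| ≤ 2 * r → 1 / 2 ≤ (C.Γ (-f) (-f)).1 x := fun x hx => by
    rw [hΓn]
    refine hlow x ?_
    rwa [hnf, abs_neg] at hx
  have hC0n : ∀ x, |(-Lf).1 x| ≤ |C0| := fun x => by rw [hnLf, abs_neg]; exact hC0' x
  have hC1n : ∀ x, |(C.Γ (-f) (-f)).1 x| ≤ C1 := fun x => by rw [hΓn]; exact hC1 x
  obtain ⟨A, hA⟩ : ∃ A : ℝ, A = 2 * |C0| := ⟨_, rfl⟩
  have hA0 : 0 ≤ A := by rw [hA]; positivity
  obtain ⟨K, hK0, hK⟩ := C.sn_bounds (f := f) (Lf := Lf) hA0 hC0' hC1 hr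
  obtain ⟨K', hK'0, hK'⟩ := C.sn_bounds (f := -f) (Lf := -Lf) hA0 hC0n hC1n hr
  -- the formula for `Γ (v, h)`
  have hΓh : ∀ ε (v : C.S) x, (C.Γ v (C.sh f A r ε + C.sh (-f) A r ε)).1 x =
      (kk A r ε (f.1 x) - kk A r ε (-f.1 x)) * (C.Γ v f).1 x := by
    intro ε v x
    rw [map_add, C.add_apply, C.Γ_sh, C.Γ_sh, map_neg, C.neg_apply, C.neg_apply]
    ring
  have hq : ∀ ε, 0 < ε → ∀ s, |kk A r ε s - kk A r ε (-s)| ≤ 1 := by
    intro ε hε s
    have h1 := kk_nonneg A r ε s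
    have h2 := kk_nonneg A r ε (-s)
    have h3 := kk_le_one (r := r) (s := s) hA0 hε
    have h4 := kk_le_one (r := r) (s := -s) hA0 hε
    rw [abs_le]
    constructor <;> linarith
  have hid : ∀ ε > 0, ∀ ψ : C.S, ∫ x, (ψ * (C.sn f Lf A r ε + C.sn (-f) (-Lf) A r ε)).1 x ∂μ =
        2 * ∫ x, (ψ * ((1 / 2 : ℝ) • (C.sc f A r ε + C.sc (-f) A r ε))).1 x ∂μ +
          ∫ x, (C.Γ ψ (C.sh f A r ε + C.sh (-f) A r ε)).1 x ∂μ := by
    intro ε _ ψ
    have h1 := C.side_id hg A r ε ψ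
    have h2 := C.side_id hg' A r ε ψ
    rw [mul_add, C.int_add, map_add, C.int_add, mul_smul_comm, C.int_smul, mul_add, C.int_add, h1, h2]
    ring
  have hrate : ∀ τ > 0, ∃ ε₁ > 0, ∀ ε, 0 < ε → ε < ε₁ → ∀ u : C.S,
        |∫ x, (u * u * ((1 / 2 : ℝ) • (C.sc f A r ε + C.sc (-f) A r ε))).1 x ∂μ - C.m ν u u| ≤
          τ * (C.D μ u u + C.m μ u u) := by
    intro τ hτ
    obtain ⟨e1, he1, h1⟩ := C.sc_rate hg hco hsupp hA0 hr hlow τ hτ
    obtain ⟨e2, he2, h2⟩ := C.sc_rate hg' hco' hsupp' hA0 hr hlow' τ hτ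
    refine ⟨min e1 e2, by positivity, fun ε hε hε1 u => ?_⟩
    have h3 := h1 ε hε (hε1.trans_le (min_le_left _ _)) u
    have h4 := h2 ε hε (hε1.trans_le (min_le_right _ _)) u
    rw [mul_smul_comm, C.int_smul, mul_add, C.int_add]
    rw [abs_le] at *
    constructor <;> linarith [h3.1, h3.2, h4.1, h4.2]
  refine ⟨4 * r + |C1|, by positivity, fun ε => C.sh f A r ε + C.sh (-f) A r ε,
    fun ε => (1 / 2 : ℝ) • (C.sc f A r ε + C.sc (-f) A r ε),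
    fun ε => C.sn f Lf A r ε + C.sn (-f) (-Lf) A r ε, ?_, hid, hrate, ?_, ?_⟩
  · intro ε hε x
    have h1 := C.sh_nonneg (f := f) (r := r) (A := A) hε x
    have h2 := C.sh_nonneg (f := -f) (r := r) (A := A) hε x
    have h3 := C.sh_le (f := f) hA0 hr hε x
    have h4 := C.sh_le (f := -f) hA0 hr hε x
    have h5 := abs_nonneg C1
    refine ⟨?_, ?_, ?_, ?_, ?_, ?_⟩
    · rw [C.add_apply]; linarith
    · rw [C.add_apply]; linarith
    · intro hx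
      rw [C.add_apply, C.sh_eq_zero hε (le_of_eq hx), C.sh_eq_zero hε (by rw [hnf, hx, neg_zero]),
        add_zero]
    · rw [hΓh, C.symm, hΓh]
      have h6 := hq ε hε (f.1 x)
      have h7 : (kk A r ε (f.1 x) - kk A r ε (-f.1 x)) ^ 2 ≤ 1 := by
        rw [← sq_abs]
        exact pow_le_one₀ (abs_nonneg _) h6
      have h8 := C.nonneg f x
      have h9 := hC1' x
      nlinarith
    · rw [C.smul_apply, C.add_apply]
      have := C.sc_nonneg (f := f) (r := r) (A := A) hε x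
      have := C.sc_nonneg (f := -f) (r := r) (A := A) hε x
      linarith
    · rw [C.add_apply]
      have := C.sn_nonneg (f := f) (Lf := Lf) hε (le_of_eq hA.symm) hC0' (abs_nonneg _) hr hlow x
      have := C.sn_nonneg (f := -f) (Lf := -Lf) hε (le_of_eq hA.symm) hC0n (abs_nonneg _) hr hlow' x
      linarith
  · intro s₀ hs₀
    obtain ⟨c₀, hc₀, ε₂, hε₂, hJ⟩ := JJ_lower hA0 hr hs₀
    refine ⟨c₀, hc₀, ε₂, hε₂, fun ε hε hle x hx => ?_⟩
    have h1 := C.sh_nonneg (f := f) (r := r) (A := A) hε x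
    have h2 := C.sh_nonneg (f := -f) (r := r) (A := A) hε x
    rw [C.add_apply]
    rcases le_total 0 (f.1 x) with h | h
    · rw [abs_of_nonneg h] at hx
      have h3 := hJ ε (f.1 x) hε hle hx
      have h4 : (C.sh f A r ε).1 x = JJ A r ε (f.1 x) := C.cp_apply _ _ _ _
      linarith
    · rw [abs_of_nonpos h] at hx
      have h3 := hJ ε (-f.1 x) hε hle hx
      have h4 : (C.sh (-f) A r ε).1 x = JJ A r ε (-f.1 x) := C.cp_apply _ _ _ _
      linarith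
  · intro τ hτ
    refine ⟨(K + K') / 2 + |C1| / (4 * τ), by positivity, fun u => ?_⟩
    have hbd : ∀ ε, 0 < ε → ∫ x, (u * u * ((1 / 2 : ℝ) • (C.sc f A r ε + C.sc (-f) A r ε))).1 x ∂μ ≤
        τ * C.D μ u u + ((K + K') / 2 + |C1| / (4 * τ)) * C.m μ u u := by
      intro ε hε
      have h1 := hid ε hε (u * u)
      have h2 : ∫ x, (u * u * ((1 / 2 : ℝ) • (C.sc f A r ε + C.sc (-f) A r ε))).1 x ∂μ =
          ∫ x, ((1 / 2 : ℝ) • (u * u * (C.sn f Lf A r ε + C.sn (-f) (-Lf) A r ε) -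
            C.Γ (u * u) (C.sh f A r ε + C.sh (-f) A r ε))).1 x ∂μ := by
        rw [C.int_smul, C.int_sub]
        linarith
      have h3 : τ * C.D μ u u + ((K + K') / 2 + |C1| / (4 * τ)) * C.m μ u u =
          ∫ x, (τ • C.Γ u u + ((K + K') / 2 + |C1| / (4 * τ)) • (u * u)).1 x ∂μ := by
        rw [C.int_add, C.int_smul, C.int_smul]; rfl
      rw [h2, h3]
      refine C.int_mono μ fun x => ?_
      rw [C.smul_apply, C.sub_apply, hΓh]
      simp only [C.add_apply, C.smul_apply, C.mul_apply, C.leib_apply]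
      have h4 := (hK ε hε x).1
      have h5 := (hK' ε hε x).1
      have h6 : |2 * u.1 x * (C.Γ u f).1 x| ≤ (2 * τ) * (C.Γ u u).1 x + |C1| / (2 * τ) * (u.1 x) ^ 2 := by
        refine amgm (C.nonneg u x) (abs_nonneg _) (by positivity) ?_
        refine (C.cauchy u f x).trans ?_
        rw [mul_comm]
        exact mul_le_mul_of_nonneg_right (hC1' x) (C.nonneg u x)
      have h7 := hq ε hε (f.1 x)
      have hu := mul_self_nonneg (u.1 x)
      have h8 : |(kk A r ε (f.1 x) - kk A r ε (-f.1 x)) * (2 * u.1 x * (C.Γ u f).1 x)| ≤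
          (2 * τ) * (C.Γ u u).1 x + |C1| / (2 * τ) * (u.1 x) ^ 2 := by
        rw [abs_mul]
        calc _ ≤ 1 * |2 * u.1 x * (C.Γ u f).1 x| := by gcongr
          _ ≤ _ := by rw [one_mul]; exact h6
      have h9 := neg_abs_le ((kk A r ε (f.1 x) - kk A r ε (-f.1 x)) * (2 * u.1 x * (C.Γ u f).1 x))
      have h10 : u.1 x * u.1 x * ((C.sn f Lf A r ε).1 x + (C.sn (-f) (-Lf) A r ε).1 x) ≤
          u.1 x * u.1 x * (K + K') := by
        refine mul_le_mul_of_nonneg_left ?_ hu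
        exact add_le_add (le_of_abs_le h4) (le_of_abs_le h5)
      have h11 : |C1| / (2 * τ) * (u.1 x) ^ 2 = 2 * (|C1| / (4 * τ) * (u.1 x * u.1 x)) := by
        field_simp
        ring
      nlinarith
    refine le_of_forall_pos_le_add fun δ hδ => ?_
    obtain ⟨ε₁, hε₁, h1⟩ := hrate (δ / (C.D μ u u + C.m μ u u + 1)) (by
      have := C.D_nonneg μ u
      have := C.m_nonneg μ u
      positivity)
    have h2 := h1 (ε₁ / 2) (by positivity) (by linarith) u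
    have h3 := hbd (ε₁ / 2) (by positivity)
    have h4 : δ / (C.D μ u u + C.m μ u u + 1) * (C.D μ u u + C.m μ u u) ≤ δ := by
      have hD := C.D_nonneg μ u
      have hm := C.m_nonneg μ u
      rw [div_mul_eq_mul_div, div_le_iff₀ (by positivity)]
      nlinarith
    rw [abs_le] at h2
    linarith [h2.1]

end Calc

end Pool.Agent.Helper89.Stek
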