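import Pool.Agent.Helper89.Stek.Local

/-!
Charts in which a function with nonzero differential is the second coordinate.
-/

set_option autoImplicit false

open scoped Manifold ContDiff ENNReal Topology
open MeasureTheory Bundle Set Filter

namespace Pool.Agent.Helper89.Stek

variable {M : Type*} [TopologicalSpace M] [ChartedSpace (ℝ × ℝ) M]

lemma trans_mem_maximalAtlas {e : OpenPartialHomeomorph M (ℝ × ℝ)}
    (he : e ∈ IsManifold.maximalAtlas 𝓘(ℝ, ℝ × ℝ) ∞ M) {e2 : OpenPartialHomeomorph (ℝ × ℝ) (ℝ × ℝ)}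
    (he2 : e2 ∈ contDiffGroupoid ∞ 𝓘(ℝ, ℝ × ℝ)) : e.trans e2 ∈ IsManifold.maximalAtlas 𝓘(ℝ, ℝ × ℝ) ∞ M := by
  rw [IsManifold.maximalAtlas, mem_maximalAtlas_iff] at he ⊢
  intro e' he'
  obtain ⟨h1, h2⟩ := he e' he'
  constructor
  · rw [OpenPartialHomeomorph.trans_symm_eq_symm_trans_symm, OpenPartialHomeomorph.trans_assoc]
    exact (contDiffGroupoid ∞ 𝓘(ℝ, ℝ × ℝ)).trans ((contDiffGroupoid ∞ 𝓘(ℝ, ℝ × ℝ)).symm he2) h1
  · rw [← OpenPartialHomeomorph.trans_assoc]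
    exact (contDiffGroupoid ∞ 𝓘(ℝ, ℝ × ℝ)).trans h2 he2

lemma mem_groupoid {e : OpenPartialHomeomorph (ℝ × ℝ) (ℝ × ℝ)} (h1 : ContDiffOn ℝ ∞ e e.source)
    (h2 : ContDiffOn ℝ ∞ e.symm e.target) : e ∈ contDiffGroupoid ∞ 𝓘(ℝ, ℝ × ℝ) := by
  rw [contDiffGroupoid, mem_groupoid_of_pregroupoid]
  simp only [contDiffPregroupoid, modelWithCornersSelf_coe, modelWithCornersSelf_coe_symm,
    Function.id_comp, Function.comp_id, preimage_id, range_id, inter_univ]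
  exact ⟨h1, h2⟩

/-- the linear equivalence with given determinant data -/
noncomputable def linEq (p0 p1 q0 q1 S : ℝ) (hS : S = p1 * q1 + p0 * q0) (h : S ≠ 0) : (ℝ × ℝ) ≃L[ℝ] (ℝ × ℝ) :=
  ContinuousLinearEquiv.equivOfInverse
    ((((p1 • ContinuousLinearMap.fst ℝ ℝ ℝ - p0 • ContinuousLinearMap.snd ℝ ℝ ℝ : (ℝ × ℝ) →L[ℝ] ℝ)).smulRight
        (bas 0)) +
      ((q0 • ContinuousLinearMap.fst ℝ ℝ ℝ + q1 • ContinuousLinearMap.snd ℝ ℝ ℝ : (ℝ × ℝ) →L[ℝ] ℝ)).smulRight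
        (bas 1))
    (((((q1 / S) • ContinuousLinearMap.fst ℝ ℝ ℝ + (p0 / S) •
        ContinuousLinearMap.snd ℝ ℝ ℝ : (ℝ × ℝ) →L[ℝ] ℝ)).smulRight (bas 0)) +
      (((p1 / S) • ContinuousLinearMap.snd ℝ ℝ ℝ - (q0 / S) •
        ContinuousLinearMap.fst ℝ ℝ ℝ : (ℝ × ℝ) →L[ℝ] ℝ)).smulRight (bas 1))
    (by
      intro v
      refine Prod.ext ?_ ?_
      · simp
        field_simp
        rw [hS]
        ring
      · simp
        field_simp
        rw [hS]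
        ring)
    (by
      intro v
      refine Prod.ext ?_ ?_
      · simp
        field_simp
        rw [hS]
        ring
      · simp
        field_simp
        rw [hS]
        ring)

/-- the straightening map -/
noncomputable def straight (F : (ℝ × ℝ) → ℝ) (p0 p1 : ℝ) (y : (ℝ × ℝ)) : (ℝ × ℝ) := pt (p1 * y.1 - p0 * y.2) (F y)

lemma straight_hasFDerivAt {F : (ℝ × ℝ) → ℝ} {p0 p1 : ℝ} {y : (ℝ × ℝ)} (hF : DifferentiableAt ℝ F y) {S : ℝ}
    (hS : S = p1 * pd 1 F y + p0 * pd 0 F y) (h : S ≠ 0) :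
    HasFDerivAt (straight F p0 p1) (linEq p0 p1 (pd 0 F y) (pd 1 F y) S hS h : (ℝ × ℝ) →L[ℝ] (ℝ × ℝ)) y := by
  have e0 : HasFDerivAt (fun y : (ℝ × ℝ) => y.1) (ContinuousLinearMap.fst ℝ ℝ ℝ) y :=
    (ContinuousLinearMap.fst ℝ ℝ ℝ).hasFDerivAt
  have e1 : HasFDerivAt (fun y : (ℝ × ℝ) => y.2) (ContinuousLinearMap.snd ℝ ℝ ℝ) y :=
    (ContinuousLinearMap.snd ℝ ℝ ℝ).hasFDerivAt
  have h1 : HasFDerivAt (fun y : (ℝ × ℝ) => p1 * y.1 - p0 * y.2)
      (p1 • ContinuousLinearMap.fst ℝ ℝ ℝ - p0 • ContinuousLinearMap.snd ℝ ℝ ℝ : (ℝ × ℝ) →L[ℝ] ℝ) y :=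
    (e0.const_mul p1).sub (e1.const_mul p0)
  have h2 : fderiv ℝ F y = (pd 0 F y • ContinuousLinearMap.fst ℝ ℝ ℝ + pd 1 F y • ContinuousLinearMap.snd ℝ ℝ ℝ : (ℝ × ℝ) →L[ℝ] ℝ) := by
    refine ContinuousLinearMap.ext fun v => ?_
    have hv : v = v.1 • bas 0 + v.2 • bas 1 := eq_bas v
    nth_rewrite 1 [hv]
    rw [map_add, map_smul, map_smul]
    simp only [add_apply, smul_apply, smul_eq_mul]
    change v.1 * pd 0 F y + v.2 * pd 1 F y = pd 0 F y * v.1 + pd 1 F y * v.2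
    ring
  have h3 := hF.hasFDerivAt
  rw [h2] at h3
  have h4 := (h1.smul_const (bas (0 : Fin 2))).add
    (h3.smul_const (bas (1 : Fin 2)))
  exact h4

lemma straight_contDiffAt {F : (ℝ × ℝ) → ℝ} {p0 p1 : ℝ} {y : (ℝ × ℝ)} (hF : ContDiffAt ℝ ∞ F y) :
    ContDiffAt ℝ ∞ (straight F p0 p1) y := by
  unfold straight pt
  have h1 : ContDiffAt ℝ ∞ (fun y : (ℝ × ℝ) => p1 * y.1 - p0 * y.2) y := ContDiff.contDiffAt (by fun_prop)
  exact (h1.smul (contDiffAt_const (c := bas (0 : Fin 2)))).add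
    (hF.smul (contDiffAt_const (c := bas (1 : Fin 2))))

/-- straightening a function with nonzero differential -/
theorem exists_straight {F : (ℝ × ℝ) → ℝ} {U : Set (ℝ × ℝ)} (hU : IsOpen U) (hF : ContDiffOn ℝ ∞ F U) {y0 : (ℝ × ℝ)}
    (hy0 : y0 ∈ U) (hne : fderiv ℝ F y0 ≠ 0) : ∃ e : OpenPartialHomeomorph (ℝ × ℝ) (ℝ × ℝ),
      e ∈ contDiffGroupoid ∞ 𝓘(ℝ, ℝ × ℝ) ∧ y0 ∈ e.source ∧ e.source ⊆ U ∧ ∀ y ∈ e.source, (e y).2 = F y := by
  obtain ⟨p0, hp0⟩ : ∃ p0, p0 = pd 0 F y0 := ⟨_, rfl⟩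
  obtain ⟨p1, hp1⟩ : ∃ p1, p1 = pd 1 F y0 := ⟨_, rfl⟩
  have hS0 : 0 < p1 * pd 1 F y0 + p0 * pd 0 F y0 := by
    rw [← hp0, ← hp1]
    have h1 : p0 ≠ 0 ∨ p1 ≠ 0 := by
      by_contra hcon
      push Not at hcon
      apply hne
      refine ContinuousLinearMap.ext fun v => ?_
      have hv : v = v.1 • bas 0 + v.2 • bas 1 := eq_bas v
      rw [hv, map_add, map_smul, map_smul]
      change v.1 • pd 0 F y0 + v.2 • pd 1 F y0 = 0
      rw [← hp0, ← hp1, hcon.1, hcon.2]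
      simp
    rcases h1 with h1 | h1
    · nlinarith [sq_nonneg p1, sq_pos_of_ne_zero h1]
    · nlinarith [sq_nonneg p0, sq_pos_of_ne_zero h1]
  have hd0 : DifferentiableAt ℝ F y0 := (hF.contDiffAt (hU.mem_nhds hy0)).differentiableAt (by simp)
  have hΦ0 := straight_hasFDerivAt hd0 rfl hS0.ne'
  obtain ⟨e, he⟩ : ∃ e : OpenPartialHomeomorph (ℝ × ℝ) (ℝ × ℝ),
      e = (straight_contDiffAt (p0 := p0) (p1 := p1) (hF.contDiffAt (hU.mem_nhds hy0))).toOpenPartialHomeomorph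
        (straight F p0 p1) hΦ0 (by simp) := ⟨_, rfl⟩
  have hecoe : (e : (ℝ × ℝ) → (ℝ × ℝ)) = straight F p0 p1 := by
    rw [he]
    exact ContDiffAt.toOpenPartialHomeomorph_coe _ _ _
  have hmem : y0 ∈ e.source := by
    rw [he]
    exact ContDiffAt.mem_toOpenPartialHomeomorph_source _ _ _
  have hcont : ContinuousOn (fun y => p1 * pd 1 F y + p0 * pd 0 F y) U :=
    (continuousOn_const.mul (contDiffOn_pd hU hF 1).continuousOn).add
      (continuousOn_const.mul (contDiffOn_pd hU hF 0).continuousOn)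
  obtain ⟨O, hO⟩ : ∃ O, O = U ∩ (fun y => p1 * pd 1 F y + p0 * pd 0 F y) ⁻¹' Ioi 0 := ⟨_, rfl⟩
  have hOo : IsOpen O := by
    rw [hO]
    exact hcont.isOpen_inter_preimage hU isOpen_Ioi
  have hy0O : y0 ∈ O := by rw [hO]; exact ⟨hy0, hS0⟩
  have hOU : O ⊆ U := by rw [hO]; exact inter_subset_left
  have hsrc : (e.restrOpen O hOo).source = e.source ∩ O := e.restrOpen_source O hOo
  refine ⟨e.restrOpen O hOo, mem_groupoid ?_ ?_, by rw [hsrc]; exact ⟨hmem, hy0O⟩,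
    by rw [hsrc]; exact inter_subset_right.trans hOU, ?_⟩
  · intro y hy
    rw [hsrc] at hy
    have h1 : ContDiffAt ℝ ∞ (straight F p0 p1) y :=
      straight_contDiffAt (hF.contDiffAt (hU.mem_nhds (hOU hy.2)))
    rw [← hecoe] at h1
    exact h1.contDiffWithinAt
  · intro z hz
    obtain ⟨y, hy, hyz⟩ : ∃ y ∈ (e.restrOpen O hOo).source, (e.restrOpen O hOo) y = z :=
      ⟨(e.restrOpen O hOo).symm z, (e.restrOpen O hOo).map_target hz, (e.restrOpen O hOo).right_inv hz⟩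
    rw [hsrc] at hy
    have hzt : z ∈ e.target := by
      rw [← hyz]
      exact e.map_source hy.1
    have hsy : e.symm z = y := by
      rw [← hyz]
      exact e.left_inv hy.1
    have hSy : 0 < p1 * pd 1 F y + p0 * pd 0 F y := by
      have := hy.2
      rw [hO] at this
      exact this.2
    have hFy : ContDiffAt ℝ ∞ F y := hF.contDiffAt (hU.mem_nhds (hOU hy.2))
    obtain ⟨A, h1⟩ : ∃ A : (ℝ × ℝ) ≃L[ℝ] (ℝ × ℝ), HasFDerivAt (straight F p0 p1) (A : (ℝ × ℝ) →L[ℝ] (ℝ × ℝ)) y :=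
      ⟨_, straight_hasFDerivAt (p0 := p0) (p1 := p1) (hFy.differentiableAt (by simp)) rfl hSy.ne'⟩
    rw [← hecoe, ← hsy] at h1
    have h2 : ContDiffAt ℝ ∞ e (e.symm z) := by
      rw [hecoe, hsy]
      exact straight_contDiffAt hFy
    exact (e.contDiffAt_symm hzt h1 h2).contDiffWithinAt
  · intro y hy
    have h1 : (e.restrOpen O hOo) y = e y := rfl
    rw [h1, hecoe]
    simp [straight]

/-- charts in which `f` is the second coordinate -/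
theorem exists_flat [IsManifold 𝓘(ℝ, ℝ × ℝ) ∞ M] {f : M → ℝ} (hf : ContMDiff 𝓘(ℝ, ℝ × ℝ) 𝓘(ℝ) ∞ f) {x : M}
    (hx : dd f x ≠ 0) : ∃ φ ∈ IsManifold.maximalAtlas 𝓘(ℝ, ℝ × ℝ) ∞ M, x ∈ φ.source ∧
      ∀ z ∈ φ.source, f z = (φ z).2 := by
  have hφ : chartAt (ℝ × ℝ) x ∈ IsManifold.maximalAtlas 𝓘(ℝ, ℝ × ℝ) ∞ M := IsManifold.chart_mem_maximalAtlas x
  obtain ⟨φ, hφe⟩ : ∃ φ, φ = chartAt (ℝ × ℝ) x := ⟨_, rfl⟩
  rw [← hφe] at hφ
  have hxs : x ∈ φ.source := by rw [hφe]; exact mem_chart_source (ℝ × ℝ) x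
  have hne : fderiv ℝ (f ∘ φ.symm) (φ x) ≠ 0 := by
    intro h0
    apply hx
    have hy := φ.map_source hxs
    ext w
    have hdz : ∀ w : TangentSpace 𝓘(ℝ, ℝ × ℝ) (φ.symm (φ x)), dd f (φ.symm (φ x)) w = 0 := by
      intro w
      obtain ⟨a, b, hab⟩ := coordVec_surj hφ hy w
      have hd : MDifferentiableAt 𝓘(ℝ, ℝ × ℝ) 𝓘(ℝ) f (φ.symm (φ x)) := hf.mdifferentiable (by simp) _
      have h1 : ∀ i, dd f (φ.symm (φ x)) (coordVec φ i (φ x)) = 0 := by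
        intro i
        have := mfderiv_coordVec hφ hy hd i
        rw [pd, h0] at this
        exact this
      rw [hab, map_add, map_smul, map_smul, h1, h1]
      simp
    rw [φ.left_inv hxs] at hdz
    exact hdz w
  obtain ⟨e, he, hye, hes, heF⟩ := exists_straight φ.open_target (comp_symm_contDiffOn hφ hf)
    (φ.map_source hxs) hne
  refine ⟨φ.trans e, trans_mem_maximalAtlas hφ he, ?_, ?_⟩
  · rw [OpenPartialHomeomorph.trans_source]
    exact ⟨hxs, hye⟩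
  · intro z hz
    rw [OpenPartialHomeomorph.trans_source] at hz
    have h1 := heF (φ z) hz.2
    rw [Function.comp_apply, φ.left_inv hz.1] at h1
    exact h1.symm

end Pool.Agent.Helper89.Stek
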