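import Pool.Agent.Helper89.Stek.Abs2

/-!
An abstract calculus: an algebra of functions with a carre du champ.
-/

set_option autoImplicit false

open MeasureTheory Filter Topology
open scoped ContDiff

namespace Pool.Agent.Helper89.Stek

/-- an algebra of bounded measurable functions with a symmetric, nonnegative derivation -/
structure Calc (M : Type*) [MeasurableSpace M] where
  /-- the algebra -/
  S : Subalgebra ℝ (M → ℝ)
  meas : ∀ u : S, Measurable u.1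
  bdd : ∀ u : S, ∃ c, ∀ x, |u.1 x| ≤ c
  /-- the carre du champ -/
  Γ : S →ₗ[ℝ] S →ₗ[ℝ] S
  symm : ∀ u v, Γ u v = Γ v u
  nonneg : ∀ (u : S) x, 0 ≤ (Γ u u).1 x
  leib : ∀ u v w, Γ (u * v) w = u * Γ v w + v * Γ u w
  comp : ∀ θ : ℝ → ℝ, ContDiff ℝ ∞ θ → ∀ u : S, ∃ w : S, (∀ x, w.1 x = θ (u.1 x)) ∧
    ∀ v x, (Γ w v).1 x = deriv θ (u.1 x) * (Γ u v).1 x

namespace Calc

variable {M : Type*} [MeasurableSpace M] (C : Calc M)

/-- composition with a smooth function of one variable -/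
noncomputable def cp (θ : ℝ → ℝ) (hθ : ContDiff ℝ ∞ θ) (u : C.S) : C.S := (C.comp θ hθ u).choose

lemma cp_apply (θ : ℝ → ℝ) (hθ : ContDiff ℝ ∞ θ) (u : C.S) (x : M) : (C.cp θ hθ u).1 x = θ (u.1 x) :=
  (C.comp θ hθ u).choose_spec.1 x

lemma Γ_cp (θ : ℝ → ℝ) (hθ : ContDiff ℝ ∞ θ) (u v : C.S) (x : M) :
    (C.Γ (C.cp θ hθ u) v).1 x = deriv θ (u.1 x) * (C.Γ u v).1 x :=
  (C.comp θ hθ u).choose_spec.2 v x

lemma mul_apply (u v : C.S) (x : M) : (u * v).1 x = u.1 x * v.1 x := rfl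
lemma add_apply (u v : C.S) (x : M) : (u + v).1 x = u.1 x + v.1 x := rfl
lemma sub_apply (u v : C.S) (x : M) : (u - v).1 x = u.1 x - v.1 x := rfl
lemma smul_apply (c : ℝ) (u : C.S) (x : M) : (c • u).1 x = c * u.1 x := rfl
lemma one_apply (x : M) : (1 : C.S).1 x = 1 := rfl
lemma zero_apply (x : M) : (0 : C.S).1 x = 0 := rfl
lemma neg_apply (u : C.S) (x : M) : (-u).1 x = - u.1 x := rfl

lemma Γ_one (v : C.S) : C.Γ 1 v = 0 := by
  have h := C.leib 1 1 v
  rw [one_mul, one_mul] at h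
  exact left_eq_add.mp h

lemma leib_apply (u v w : C.S) (x : M) :
    (C.Γ (u * v) w).1 x = u.1 x * (C.Γ v w).1 x + v.1 x * (C.Γ u w).1 x := by
  rw [C.leib]; rfl

lemma leib_apply' (u v w : C.S) (x : M) :
    (C.Γ w (u * v)).1 x = u.1 x * (C.Γ w v).1 x + v.1 x * (C.Γ w u).1 x := by
  rw [C.symm, leib_apply, C.symm v w, C.symm u w]

/-- pointwise Cauchy-Schwarz -/
lemma cauchy (u v : C.S) (x : M) : (C.Γ u v).1 x ^ 2 ≤ (C.Γ u u).1 x * (C.Γ v v).1 x := by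
  let B : C.S →ₗ[ℝ] C.S →ₗ[ℝ] ℝ := LinearMap.mk₂ ℝ (fun u v : C.S => (C.Γ u v).1 x)
    (fun a b c => by rw [map_add]; rfl) (fun a b c => by rw [map_smul]; rfl)
    (fun a b c => by rw [map_add]; rfl) (fun a b c => by rw [map_smul]; rfl)
  exact psd_cauchy B (fun a b => by
    change (C.Γ a b).1 x = (C.Γ b a).1 x
    rw [C.symm]) (fun a => C.nonneg a x) u v

lemma integrable (u : C.S) (μ : Measure M) [IsFiniteMeasure μ] : Integrable u.1 μ := by
  obtain ⟨c, hc⟩ := C.bdd u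
  exact Integrable.of_bound (C.meas u).aestronglyMeasurable c (Eventually.of_forall fun x => hc x)

variable (μ ν : Measure M) [IsFiniteMeasure μ] [IsFiniteMeasure ν]

/-- the Dirichlet form -/
noncomputable def D : C.S →ₗ[ℝ] C.S →ₗ[ℝ] ℝ := LinearMap.mk₂ ℝ (fun u v : C.S => ∫ x, (C.Γ u v).1 x ∂μ)
  (fun a b c => by
    rw [map_add, ← integral_add (C.integrable _ μ) (C.integrable _ μ)]; rfl)
  (fun a b c => by
    rw [map_smul, smul_eq_mul, ← integral_const_mul]; rfl)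
  (fun a b c => by
    rw [map_add, ← integral_add (C.integrable _ μ) (C.integrable _ μ)]; rfl)
  (fun a b c => by
    rw [map_smul, smul_eq_mul, ← integral_const_mul]; rfl)

lemma D_apply (u v : C.S) : C.D μ u v = ∫ x, (C.Γ u v).1 x ∂μ := rfl

/-- the `L²` form -/
noncomputable def m : C.S →ₗ[ℝ] C.S →ₗ[ℝ] ℝ := LinearMap.mk₂ ℝ (fun u v : C.S => ∫ x, (u * v).1 x ∂μ)
  (fun a b c => by
    rw [add_mul, ← integral_add (C.integrable _ μ) (C.integrable _ μ)]; rfl)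
  (fun a b c => by
    rw [smul_mul_assoc, smul_eq_mul, ← integral_const_mul]; rfl)
  (fun a b c => by
    rw [mul_add, ← integral_add (C.integrable _ μ) (C.integrable _ μ)]; rfl)
  (fun a b c => by
    rw [mul_smul_comm, smul_eq_mul, ← integral_const_mul]; rfl)

lemma m_apply (u v : C.S) : C.m μ u v = ∫ x, (u * v).1 x ∂μ := rfl

lemma D_symm (u v : C.S) : C.D μ u v = C.D μ v u := by
  rw [D_apply, D_apply, C.symm]

lemma m_symm (u v : C.S) : C.m μ u v = C.m μ v u := by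
  rw [m_apply, m_apply, mul_comm]

lemma D_nonneg (u : C.S) : 0 ≤ C.D μ u u := integral_nonneg (C.nonneg u)

lemma m_nonneg (u : C.S) : 0 ≤ C.m μ u u := integral_nonneg fun x => mul_self_nonneg (u.1 x)

lemma int_mono (μ : Measure M) [IsFiniteMeasure μ] {u v : C.S} (h : ∀ x, u.1 x ≤ v.1 x) :
    ∫ x, u.1 x ∂μ ≤ ∫ x, v.1 x ∂μ :=
  integral_mono (C.integrable u μ) (C.integrable v μ) h

lemma int_add (μ : Measure M) [IsFiniteMeasure μ] (u v : C.S) :
    ∫ x, (u + v).1 x ∂μ = ∫ x, u.1 x ∂μ + ∫ x, v.1 x ∂μ :=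
  integral_add (C.integrable u μ) (C.integrable v μ)

lemma int_sub (μ : Measure M) [IsFiniteMeasure μ] (u v : C.S) :
    ∫ x, (u - v).1 x ∂μ = ∫ x, u.1 x ∂μ - ∫ x, v.1 x ∂μ :=
  integral_sub (C.integrable u μ) (C.integrable v μ)

lemma int_smul (μ : Measure M) (c : ℝ) (u : C.S) :
    ∫ x, (c • u).1 x ∂μ = c * ∫ x, u.1 x ∂μ :=
  integral_const_mul _ _

end Calc

end Pool.Agent.Helper89.Stek
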