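import Pool.Agent.Helper89.Stek.Local

/-!
Global Poincare and Rellich inequalities on a closed surface.
-/

set_option autoImplicit false

open scoped Manifold ContDiff ENNReal Topology
open MeasureTheory Bundle Set Filter

namespace Pool.Agent.Helper89.Stek

namespace Calc

variable {X : Type*} [MeasurableSpace X] (C : Calc X) (μ : Measure X) [IsFiniteMeasure μ]

lemma integrable_shift (u : C.S) (a : ℝ) : Integrable (fun x => (u.1 x - a) ^ 2) μ := by
  have h := C.integrable ((u - a • (1 : C.S)) ^ 2) μ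
  refine h.congr (Eventually.of_forall fun x => ?_)
  change (u.1 x - a * 1) ^ 2 = _
  rw [mul_one]

variable {C μ}

lemma Pn.mono {U V : Set X} (hUV : U ⊆ V) (h : C.Pn μ V) : C.Pn μ U := by
  obtain ⟨c, hc, h⟩ := h
  refine ⟨c, hc, fun u => ?_⟩
  obtain ⟨a, ha⟩ := h u
  refine ⟨a, le_trans ?_ ha⟩
  exact setIntegral_mono_set (C.integrable_shift μ u a).integrableOn
    (Eventually.of_forall fun x => sq_nonneg _) (HasSubset.Subset.eventuallyLE hUV)

lemma setIntegral_union_le' {U V : Set X} (hU : MeasurableSet U) (hV : MeasurableSet V) {f : X → ℝ}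
    (hf : Integrable f μ) (h0 : ∀ x, 0 ≤ f x) : ∫ x in U ∪ V, f x ∂μ ≤ ∫ x in U, f x ∂μ + ∫ x in V, f x ∂μ := by
  have h1 : U ∪ V = U ∪ (V \ U) := by rw [union_diff_self]
  rw [h1, setIntegral_union disjoint_sdiff_right (hV.diff hU) hf.integrableOn hf.integrableOn]
  have h2 : ∫ x in V \ U, f x ∂μ ≤ ∫ x in V, f x ∂μ :=
    setIntegral_mono_set hf.integrableOn (Eventually.of_forall h0)
      (HasSubset.Subset.eventuallyLE diff_subset)
  linarith

lemma Pn.union {U V : Set X} (hU : MeasurableSet U) (hV : MeasurableSet V) (hpos : 0 < μ (U ∩ V))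
    (h1 : C.Pn μ U) (h2 : C.Pn μ V) : C.Pn μ (U ∪ V) := by
  obtain ⟨c1, hc1, h1⟩ := h1
  obtain ⟨c2, hc2, h2⟩ := h2
  obtain ⟨m, hm⟩ : ∃ m, m = (μ (U ∩ V)).toReal := ⟨_, rfl⟩
  have hm0 : 0 < m := by rw [hm]; exact ENNReal.toReal_pos hpos.ne' (measure_ne_top _ _)
  obtain ⟨v, hv⟩ : ∃ v, v = (μ V).toReal := ⟨_, rfl⟩
  have hv0 : 0 ≤ v := by rw [hv]; exact ENNReal.toReal_nonneg
  refine ⟨c1 + 2 * c2 + 2 * (2 * (c1 + c2) / m) * v, by positivity, fun u => ?_⟩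
  obtain ⟨a, ha⟩ := h1 u
  obtain ⟨b, hb⟩ := h2 u
  have hD := C.D_nonneg μ u
  refine ⟨a, (setIntegral_union_le' hU hV (C.integrable_shift μ u a) fun x => sq_nonneg _).trans ?_⟩
  have hUV : MeasurableSet (U ∩ V) := hU.inter hV
  have h3 : (a - b) ^ 2 * m ≤ 2 * (c1 + c2) * C.D μ u u := by
    have e1 : (a - b) ^ 2 * m = ∫ _x in U ∩ V, (a - b) ^ 2 ∂μ := by
      rw [setIntegral_const, Measure.real, hm, smul_eq_mul, mul_comm]
    have e2 : ∫ _x in U ∩ V, (a - b) ^ 2 ∂μ ≤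
        ∫ x in U ∩ V, (2 * (u.1 x - a) ^ 2 + 2 * (u.1 x - b) ^ 2) ∂μ := by
      refine integral_mono (integrable_const _)
        (((C.integrable_shift μ u a).const_mul 2).add ((C.integrable_shift μ u b).const_mul 2)).integrableOn
        fun x => ?_
      beta_reduce
      nlinarith [sq_nonneg (2 * u.1 x - a - b)]
    have e3 : ∫ x in U ∩ V, (2 * (u.1 x - a) ^ 2 + 2 * (u.1 x - b) ^ 2) ∂μ =
        2 * ∫ x in U ∩ V, (u.1 x - a) ^ 2 ∂μ + 2 * ∫ x in U ∩ V, (u.1 x - b) ^ 2 ∂μ := by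
      rw [integral_add ((C.integrable_shift μ u a).const_mul 2).integrableOn
        ((C.integrable_shift μ u b).const_mul 2).integrableOn, integral_const_mul, integral_const_mul]
    have e4 : ∫ x in U ∩ V, (u.1 x - a) ^ 2 ∂μ ≤ ∫ x in U, (u.1 x - a) ^ 2 ∂μ :=
      setIntegral_mono_set (C.integrable_shift μ u a).integrableOn
        (Eventually.of_forall fun x => sq_nonneg _) (HasSubset.Subset.eventuallyLE inter_subset_left)
    have e5 : ∫ x in U ∩ V, (u.1 x - b) ^ 2 ∂μ ≤ ∫ x in V, (u.1 x - b) ^ 2 ∂μ :=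
      setIntegral_mono_set (C.integrable_shift μ u b).integrableOn
        (Eventually.of_forall fun x => sq_nonneg _) (HasSubset.Subset.eventuallyLE inter_subset_right)
    rw [e1]
    linarith
  have h4 : (a - b) ^ 2 ≤ 2 * (c1 + c2) / m * C.D μ u u := by
    rw [div_mul_eq_mul_div, le_div_iff₀ hm0]
    exact h3
  have h5 : ∫ x in V, (u.1 x - a) ^ 2 ∂μ ≤ 2 * ∫ x in V, (u.1 x - b) ^ 2 ∂μ + 2 * (a - b) ^ 2 * v := by
    have e1 : ∫ x in V, (u.1 x - a) ^ 2 ∂μ ≤ ∫ x in V, (2 * (u.1 x - b) ^ 2 + 2 * (a - b) ^ 2) ∂μ := by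
      refine integral_mono (C.integrable_shift μ u a).integrableOn
        (((C.integrable_shift μ u b).const_mul 2).integrableOn.add (integrable_const _)) fun x => ?_
      beta_reduce
      nlinarith [sq_nonneg (u.1 x - b + (a - b))]
    have e2 : ∫ x in V, (2 * (u.1 x - b) ^ 2 + 2 * (a - b) ^ 2) ∂μ =
        2 * ∫ x in V, (u.1 x - b) ^ 2 ∂μ + 2 * (a - b) ^ 2 * v := by
      rw [integral_add ((C.integrable_shift μ u b).const_mul 2).integrableOn (integrable_const _),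
        integral_const_mul, setIntegral_const, Measure.real, hv, smul_eq_mul]
      ring
    rw [← e2]
    exact e1
  have h6 := mul_le_mul_of_nonneg_right h4 hv0
  have h7 : (c1 + 2 * c2 + 2 * (2 * (c1 + c2) / m) * v) * C.D μ u u =
      c1 * C.D μ u u + 2 * (c2 * C.D μ u u) + 2 * (2 * (c1 + c2) / m * C.D μ u u * v) := by ring
  rw [h7]
  have h8 : 2 * (a - b) ^ 2 * v = 2 * ((a - b) ^ 2 * v) := by ring
  rw [h8] at h5
  linarith

lemma Rl.mono {U V : Set X} (hUV : U ⊆ V) (h : C.Rl μ V) : C.Rl μ U := by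
  intro ε hε
  obtain ⟨ι, hι, K, a, hK, h1, h2⟩ := h ε hε
  refine ⟨ι, hι, K, a, hK, h1, fun u => le_trans ?_ (h2 u)⟩
  have hint : Integrable (fun x => u.1 x ^ 2) μ := by simpa using C.integrable_shift μ u 0
  exact setIntegral_mono_set hint.integrableOn
    (Eventually.of_forall fun x => sq_nonneg _) (HasSubset.Subset.eventuallyLE hUV)

lemma Rl.union {U V : Set X} (hU : MeasurableSet U) (hV : MeasurableSet V)
    (h1 : C.Rl μ U) (h2 : C.Rl μ V) : C.Rl μ (U ∪ V) := by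
  intro ε hε
  obtain ⟨ι, hι, K, a, hK, ha1, ha2⟩ := h1 (ε / 2) (by positivity)
  obtain ⟨κ, hκ, L, b, hL, hb1, hb2⟩ := h2 (ε / 2) (by positivity)
  refine ⟨ι ⊕ κ, inferInstance, K + L, Sum.elim a b, by positivity, ?_, fun u => ?_⟩
  · rintro (i | i) u
    · have := ha1 i u
      have h3 := C.m_nonneg μ u
      simp only [Sum.elim_inl]
      nlinarith [mul_nonneg hL h3]
    · have := hb1 i u
      have h3 := C.m_nonneg μ u
      simp only [Sum.elim_inr]
      nlinarith [mul_nonneg hK h3]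
  · have hint : Integrable (fun x => u.1 x ^ 2) μ := by simpa using C.integrable_shift μ u 0
    refine (setIntegral_union_le' hU hV hint fun x => sq_nonneg _).trans ?_
    rw [Fintype.sum_sum_type]
    simp only [Sum.elim_inl, Sum.elim_inr]
    have h3 := ha2 u
    have h4 := hb2 u
    have h5 : 0 ≤ ∑ i, (a i u) ^ 2 := Finset.sum_nonneg fun i _ => sq_nonneg _
    have h6 : 0 ≤ ∑ i, (b i u) ^ 2 := Finset.sum_nonneg fun i _ => sq_nonneg _
    nlinarith [mul_nonneg hK h6, mul_nonneg hL h5]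

lemma Rl.empty : C.Rl μ ∅ := by
  intro ε hε
  refine ⟨Empty, inferInstance, 0, fun i => i.elim, le_rfl, fun i => i.elim, fun u => ?_⟩
  have := C.D_nonneg μ u
  simp
  positivity

end Calc

variable {M : Type*} [TopologicalSpace M] [ChartedSpace (ℝ × ℝ) M] [IsManifold 𝓘(ℝ, ℝ × ℝ) ∞ M]
  [MeasurableSpace M] [BorelSpace M] [CompactSpace M] [T2Space M] {g : Metric M} {μ : Measure M}
  (hμ : IsAreaMeasure g μ) [IsFiniteMeasure μ]

include hμ

omit [T2Space M] in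
lemma surf_Rl : (surf g).Rl μ univ := by
  have h : ∃ T : Set M, MeasurableSet T ∧ univ ⊆ T ∧ (surf g).Rl μ T := by
    refine isCompact_univ.induction_on (p := fun S => ∃ T : Set M, MeasurableSet T ∧ S ⊆ T ∧ (surf g).Rl μ T)
      ⟨∅, MeasurableSet.empty, subset_rfl, Calc.Rl.empty⟩ ?_ ?_ ?_
    · rintro S T hST ⟨V, hV, hTV, h⟩
      exact ⟨V, hV, hST.trans hTV, h⟩
    · rintro S T ⟨V, hV, hSV, h⟩ ⟨W, hW, hTW, h'⟩
      exact ⟨V ∪ W, hV.union hW, union_subset_union hSV hTW, h.union hV hW h'⟩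
    · intro x _
      obtain ⟨V, hV, hVm, _, hR⟩ := local_props hμ x
      exact ⟨V, mem_nhdsWithin_of_mem_nhds hV, V, hVm, subset_rfl, hR⟩
  obtain ⟨T, -, hT, h⟩ := h
  exact h.mono hT

omit [T2Space M] in
theorem surf_hrell (ε : ℝ) (hε : 0 < ε) : ∃ (n : ℕ) (K : ℝ) (a : Fin n → (surf g).S →ₗ[ℝ] ℝ),
    (∀ i u, (a i u) ^ 2 ≤ K * (surf g).m μ u u) ∧
      ∀ u, (surf g).m μ u u ≤ ε * (surf g).D μ u u + K * ∑ i, (a i u) ^ 2 := by
  obtain ⟨ι, hι, K, a, hK, h1, h2⟩ := surf_Rl hμ ε hε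
  refine ⟨Fintype.card ι, K, fun i => a ((Fintype.equivFin ι).symm i), fun i u => h1 _ u, fun u => ?_⟩
  have h3 := h2 u
  rw [Measure.restrict_univ] at h3
  have h4 : ∑ i, (a ((Fintype.equivFin ι).symm i) u) ^ 2 = ∑ i, (a i u) ^ 2 :=
    (Fintype.equivFin ι).symm.sum_comp fun i => (a i u) ^ 2
  rw [h4]
  exact (surf_m g μ u).le.trans h3

omit [T2Space M] in
lemma surf_Pn [ConnectedSpace M] : (surf g).Pn μ univ := by
  obtain ⟨x0⟩ : Nonempty M := inferInstance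
  have hloc : ∀ x, ∃ V, IsOpen V ∧ x ∈ V ∧ (surf g).Pn μ V := by
    intro x
    obtain ⟨V, hV, hVm, hP, _⟩ := local_props hμ x
    exact ⟨interior V, isOpen_interior, mem_interior_iff_mem_nhds.2 hV, hP.mono interior_subset⟩
  obtain ⟨W, hW⟩ : ∃ W : Set M, W = {y | ∃ U, IsOpen U ∧ x0 ∈ U ∧ y ∈ U ∧ (surf g).Pn μ U} := ⟨_, rfl⟩
  have hWo : IsOpen W := by
    rw [isOpen_iff_mem_nhds]
    intro y hy
    rw [hW] at hy
    obtain ⟨U, hU, hx0, hyU, hP⟩ := hy
    refine mem_of_superset (hU.mem_nhds hyU) fun z hz => ?_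
    rw [hW]
    exact ⟨U, hU, hx0, hz, hP⟩
  have hWc : IsClosed W := by
    rw [← closure_subset_iff_isClosed]
    intro y hy
    obtain ⟨V, hV, hyV, hPV⟩ := hloc y
    obtain ⟨z, hzV, hzW⟩ := mem_closure_iff.1 hy V hV hyV
    rw [hW] at hzW
    obtain ⟨U, hU, hx0, hzU, hP⟩ := hzW
    rw [hW]
    refine ⟨U ∪ V, hU.union hV, Or.inl hx0, Or.inr hyV, hP.union hU.measurableSet hV.measurableSet ?_ hPV⟩
    exact area_pos hμ (hU.inter hV) ⟨z, hzU, hzV⟩
  have hWne : W.Nonempty := by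
    obtain ⟨V, hV, hxV, hPV⟩ := hloc x0
    exact ⟨x0, by rw [hW]; exact ⟨V, hV, hxV, hxV, hPV⟩⟩
  have hWu : W = univ := IsClopen.eq_univ ⟨hWc, hWo⟩ hWne
  have h : ∃ T : Set M, IsOpen T ∧ x0 ∈ T ∧ univ ⊆ T ∧ (surf g).Pn μ T := by
    refine isCompact_univ.induction_on
      (p := fun S => ∃ T : Set M, IsOpen T ∧ x0 ∈ T ∧ S ⊆ T ∧ (surf g).Pn μ T) ?_ ?_ ?_ ?_
    · obtain ⟨V, hV, hxV, hPV⟩ := hloc x0
      exact ⟨V, hV, hxV, empty_subset _, hPV⟩
    · rintro S T hST ⟨V, hV, hx, hTV, h⟩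
      exact ⟨V, hV, hx, hST.trans hTV, h⟩
    · rintro S T ⟨V, hV, hxV, hSV, h⟩ ⟨W', hW', hxW, hTW, h'⟩
      exact ⟨V ∪ W', hV.union hW', Or.inl hxV, union_subset_union hSV hTW,
        h.union hV.measurableSet hW'.measurableSet (area_pos hμ (hV.inter hW') ⟨x0, hxV, hxW⟩) h'⟩
    · intro x _
      have hx : x ∈ W := by rw [hWu]; trivial
      rw [hW] at hx
      obtain ⟨U, hU, hx0, hxU, hP⟩ := hx
      exact ⟨U, mem_nhdsWithin_of_mem_nhds (hU.mem_nhds hxU), U, hU, hx0, subset_rfl, hP⟩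
  obtain ⟨T, -, -, hT, h⟩ := h
  exact h.mono hT

omit [T2Space M] in
theorem surf_hpoin [ConnectedSpace M] : ∃ c, 0 ≤ c ∧ ∀ u : (surf g).S, ∃ a : ℝ,
    (surf g).m μ (u - a • (1 : (surf g).S)) (u - a • (1 : (surf g).S)) ≤ c * (surf g).D μ u u := by
  obtain ⟨c, hc, h⟩ := surf_Pn hμ (g := g)
  refine ⟨c, hc, fun (u : smoothAlg M) => ?_⟩
  obtain ⟨a, ha⟩ := h u
  refine ⟨a, le_trans (le_of_eq ?_) ha⟩
  rw [Measure.restrict_univ]
  refine (surf_m g μ (u - a • (1 : smoothAlg M))).trans ?_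
  congr 1
  ext x
  change (u.1 x - a * 1) ^ 2 = _
  rw [mul_one]

omit [T2Space M] in
theorem surf_hdef (u : (surf g).S) (h : (surf g).m μ u u = 0) : u = 0 := by
  change smoothAlg M at u
  have h1 : (surf g).m μ u u = ∫ z, u.1 z ^ 2 ∂μ := surf_m g μ u
  have h2 : Integrable (fun z => u.1 z ^ 2) μ := by simpa using (surf g).integrable_shift μ u 0
  have h3 := (integral_eq_zero_iff_of_nonneg (fun z => sq_nonneg (u.1 z)) h2).1 (h1.symm.trans h)
  ext x
  by_contra hne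
  have hopen : IsOpen {z | u.1 z ≠ 0} := isOpen_ne_fun u.2.continuous continuous_const
  have h4 := area_pos hμ hopen ⟨x, hne⟩
  have h5 : μ {z | u.1 z ≠ 0} = 0 := by
    have h6 : ∀ᵐ z ∂μ, ¬ (u.1 z ≠ 0) := by
      filter_upwards [h3] with z hz
      have hz' : u.1 z ^ 2 = 0 := hz
      simpa using hz'
    rw [ae_iff] at h6
    simpa using h6
  exact h4.ne' h5

end Pool.Agent.Helper89.Stek
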