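import Pool.Agent.Helper89.Stek.Flat

/-!
A global defining function of a smooth domain.
-/

set_option autoImplicit false

open scoped Manifold ContDiff ENNReal Topology
open MeasureTheory Bundle Set Filter

namespace Pool.Agent.Helper89.Stek

lemma compare_weak {f h : (ℝ × ℝ) → ℝ} {y v : (ℝ × ℝ)} (hf : DifferentiableAt ℝ f y) (hh : DifferentiableAt ℝ h y)
    (f0 : f y = 0) (h0 : h y = 0) (hev : ∀ᶠ w in 𝓝 y, 0 < f w → 0 ≤ h w) (hv : 0 < fderiv ℝ f y v) :
    0 ≤ fderiv ℝ h y v := by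
  obtain ⟨γ, hγ⟩ : ∃ γ : ℝ → (ℝ × ℝ), γ = fun s => y + s • v := ⟨_, rfl⟩
  have hγ0 : γ 0 = y := by rw [hγ]; simp
  have hγd : HasDerivAt γ v 0 := by
    rw [hγ]
    simpa using ((hasDerivAt_id (0 : ℝ)).smul_const v).const_add y
  have hf' : HasFDerivAt f (fderiv ℝ f y) (γ 0) := by rw [hγ0]; exact hf.hasFDerivAt
  have hh' : HasFDerivAt h (fderiv ℝ h y) (γ 0) := by rw [hγ0]; exact hh.hasFDerivAt
  have h1 : HasDerivAt (f ∘ γ) (fderiv ℝ f y v) 0 := hf'.comp_hasDerivAt 0 hγd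
  have h2 : HasDerivAt (h ∘ γ) (fderiv ℝ h y v) 0 := hh'.comp_hasDerivAt 0 hγd
  have h3 := (hasDerivAt_iff_tendsto_slope_zero.1 h1).mono_left
    (nhdsWithin_mono 0 (fun s (hs : s ∈ Ioi (0 : ℝ)) => (ne_of_gt hs : s ≠ 0)))
  have h4 := (hasDerivAt_iff_tendsto_slope_zero.1 h2).mono_left
    (nhdsWithin_mono 0 (fun s (hs : s ∈ Ioi (0 : ℝ)) => (ne_of_gt hs : s ≠ 0)))
  have h5 : ∀ᶠ s : ℝ in 𝓝[>] 0, 0 < s⁻¹ • ((f ∘ γ) (0 + s) - (f ∘ γ) 0) := h3.eventually (lt_mem_nhds hv)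
  have h6 : Tendsto γ (𝓝[>] 0) (𝓝 y) := by
    have := hγd.continuousAt.tendsto
    rw [hγ0] at this
    exact this.mono_left nhdsWithin_le_nhds
  refine ge_of_tendsto h4 ?_
  filter_upwards [h5, h6.eventually hev, self_mem_nhdsWithin] with s hs hs2 hs3
  have hs3' : (0 : ℝ) < s := hs3
  simp only [Function.comp_apply, hγ0, f0, h0, zero_add, sub_zero, smul_eq_mul] at hs ⊢
  have h7 : 0 < f (γ s) := by
    have := (mul_pos_iff_of_pos_left (inv_pos.2 hs3')).1 hs
    exact this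
  exact mul_nonneg (inv_nonneg.2 hs3'.le) (hs2 h7)

lemma compare {f h : (ℝ × ℝ) → ℝ} {y v : (ℝ × ℝ)} (hf : DifferentiableAt ℝ f y) (hh : DifferentiableAt ℝ h y)
    (f0 : f y = 0) (h0 : h y = 0) (hev : ∀ᶠ w in 𝓝 y, 0 < f w → 0 ≤ h w) (hv : 0 < fderiv ℝ f y v)
    (hne : fderiv ℝ h y ≠ 0) : 0 < fderiv ℝ h y v := by
  rcases (compare_weak hf hh f0 h0 hev hv).lt_or_eq with h1 | h1
  · exact h1
  · exfalso
    obtain ⟨w, hw⟩ : ∃ w, fderiv ℝ h y w < 0 := by
      by_contra hcon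
      push Not at hcon
      apply hne
      refine ContinuousLinearMap.ext fun w => ?_
      have h2 := hcon w
      have h3 := hcon (-w)
      rw [map_neg] at h3
      simp only [zero_apply]
      linarith
    -- perturb
    obtain ⟨a, ha⟩ : ∃ a, a = fderiv ℝ f y v := ⟨_, rfl⟩
    obtain ⟨b, hb⟩ : ∃ b, b = fderiv ℝ f y w := ⟨_, rfl⟩
    obtain ⟨ε, hε⟩ : ∃ ε, ε = a / (2 * (|b| + 1)) := ⟨_, rfl⟩
    have ha0 : 0 < a := by rw [ha]; exact hv
    have hε0 : 0 < ε := by rw [hε]; positivity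
    have h4 : 0 < fderiv ℝ f y (v + ε • w) := by
      rw [map_add, map_smul, smul_eq_mul, ← ha, ← hb]
      have h5 : ε * |b| ≤ a / 2 := by
        rw [hε, div_mul_eq_mul_div, div_le_div_iff₀ (by positivity) (by norm_num)]
        nlinarith [abs_nonneg b]
      have h6 := neg_abs_le b
      nlinarith
    have h5 := compare_weak hf hh f0 h0 hev h4
    rw [map_add, map_smul, smul_eq_mul, ← h1, zero_add] at h5
    nlinarith

variable {M : Type*} [TopologicalSpace M] [ChartedSpace (ℝ × ℝ) M] [IsManifold 𝓘(ℝ, ℝ × ℝ) ∞ M]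

section chart

variable {φ : OpenPartialHomeomorph M (ℝ × ℝ)} (hφ : φ ∈ IsManifold.maximalAtlas 𝓘(ℝ, ℝ × ℝ) ∞ M)

include hφ

lemma dd_zero_of_fderiv {f : M → ℝ} {y : (ℝ × ℝ)} (hy : y ∈ φ.target)
    (hf : MDifferentiableAt 𝓘(ℝ, ℝ × ℝ) 𝓘(ℝ) f (φ.symm y)) (h0 : fderiv ℝ (f ∘ φ.symm) y = 0) :
    dd f (φ.symm y) = 0 := by
  ext w
  obtain ⟨a, b, hab⟩ := coordVec_surj hφ hy w
  have h1 : ∀ i, dd f (φ.symm y) (coordVec φ i y) = 0 := by
    intro i
    have := mfderiv_coordVec hφ hy hf i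
    rw [pd, h0] at this
    exact this
  rw [hab, map_add, map_smul, map_smul, h1, h1]
  simp

lemma fderiv_zero_of_dd {f : M → ℝ} {y : (ℝ × ℝ)} (hy : y ∈ φ.target)
    (hf : MDifferentiableAt 𝓘(ℝ, ℝ × ℝ) 𝓘(ℝ) f (φ.symm y)) (h0 : dd f (φ.symm y) = 0) :
    fderiv ℝ (f ∘ φ.symm) y = 0 := by
  refine ContinuousLinearMap.ext fun v => ?_
  have hv : v = v.1 • bas 0 + v.2 • bas 1 := by
    exact eq_bas v
  have h1 : ∀ i, pd i (f ∘ φ.symm) y = 0 := by
    intro i
    have h2 : dd f (φ.symm y) (coordVec φ i y) = pd i (f ∘ φ.symm) y := mfderiv_coordVec hφ hy hf i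
    rw [← h2, h0]
    rfl
  rw [hv, map_add, map_smul, map_smul]
  change v.1 • pd 0 (f ∘ φ.symm) y + v.2 • pd 1 (f ∘ φ.symm) y = 0
  rw [h1, h1]
  simp

end chart

/-- local defining data near a point -/
lemma local_defining {Ω : Set M} (hΩ : IsSmoothDomain Ω) (x : M) : ∃ (U : Set M) (h : M → ℝ), IsOpen U ∧
    x ∈ U ∧ ContMDiffOn 𝓘(ℝ, ℝ × ℝ) 𝓘(ℝ) ∞ h U ∧ (∀ z ∈ U, z ∈ Ω → h z < 0) ∧
    (∀ z ∈ U, z ∈ frontier Ω → h z = 0 ∧ dd h z ≠ 0) ∧ (∀ z ∈ U, z ∉ closure Ω → 0 < h z) := by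
  by_cases hx : x ∈ frontier Ω
  · obtain ⟨U, h, hU, hxU, hh, hne, hiff⟩ := hΩ.boundary x hx
    refine ⟨U, h, hU, hxU, hh, fun z hz hzΩ => (hiff z hz).1 hzΩ, fun z hz hzf => ⟨?_, hne z hz⟩, ?_⟩
    · have hzn : z ∉ Ω := by
        rw [hΩ.isOpen.frontier_eq] at hzf
        exact hzf.2
      have h1 : 0 ≤ h z := not_lt.1 fun hlt => hzn ((hiff z hz).2 hlt)
      have h2 : h z ≤ 0 := by
        by_contra hcon
        push Not at hcon
        have hc : ContinuousAt h z := (hh.continuousOn).continuousAt (hU.mem_nhds hz)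
        have h3 : ∀ᶠ w in 𝓝 z, 0 < h w ∧ w ∈ U :=
          (hc.eventually (lt_mem_nhds hcon)).and (hU.mem_nhds hz)
        have h4 : z ∈ closure Ω := frontier_subset_closure hzf
        obtain ⟨w, hwΩ, hw1, hw2⟩ := ((mem_closure_iff_frequently.1 h4).and_eventually h3).exists
        have := (hiff w hw2).1 hwΩ
        linarith
      exact le_antisymm h2 h1
    · intro z hz hzc
      have h0 : ∀ᶠ w in 𝓝 z, 0 ≤ h w := by
        filter_upwards [hU.mem_nhds hz, isClosed_closure.isOpen_compl.mem_nhds hzc] with w hw hwc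
        refine not_lt.1 fun hlt => hwc (subset_closure ((hiff w hw).2 hlt))
      rcases (h0.self_of_nhds).lt_or_eq with h1 | h1
      · exact h1
      · exfalso
        -- local minimum
        have hφ : chartAt (ℝ × ℝ) z ∈ IsManifold.maximalAtlas 𝓘(ℝ, ℝ × ℝ) ∞ M := IsManifold.chart_mem_maximalAtlas z
        obtain ⟨φ, hφe⟩ : ∃ φ, φ = chartAt (ℝ × ℝ) z := ⟨_, rfl⟩
        rw [← hφe] at hφ
        have hzs : z ∈ φ.source := by rw [hφe]; exact mem_chart_source (ℝ × ℝ) z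
        have hy := φ.map_source hzs
        have hmd : MDifferentiableAt 𝓘(ℝ, ℝ × ℝ) 𝓘(ℝ) h (φ.symm (φ z)) := by
          rw [φ.left_inv hzs]
          exact (hh.contMDiffAt (hU.mem_nhds hz)).mdifferentiableAt (by simp)
        have hmin : IsLocalMin (h ∘ φ.symm) (φ z) := by
          have hc : ContinuousAt φ.symm (φ z) := φ.continuousAt_symm hy
          have h2 : Tendsto φ.symm (𝓝 (φ z)) (𝓝 z) := by
            have := hc.tendsto
            rwa [φ.left_inv hzs] at this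
          filter_upwards [h2.eventually h0] with w hw
          rw [Function.comp_apply, φ.left_inv hzs, ← h1]
          exact hw
        have h3 := dd_zero_of_fderiv hφ hy hmd hmin.fderiv_eq_zero
        rw [φ.left_inv hzs] at h3
        exact hne z hz h3
  · by_cases hxΩ : x ∈ Ω
    · refine ⟨Ω, fun _ => -1, hΩ.isOpen, hxΩ, contMDiffOn_const, fun _ _ _ => by norm_num, ?_, ?_⟩
      · intro z hz hzf
        rw [hΩ.isOpen.frontier_eq] at hzf
        exact absurd hz hzf.2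
      · intro z hz hzc
        exact absurd (subset_closure hz) hzc
    · have hxc : x ∉ closure Ω := by
        intro h
        apply hx
        rw [hΩ.isOpen.frontier_eq]
        exact ⟨h, hxΩ⟩
      refine ⟨(closure Ω)ᶜ, fun _ => 1, isClosed_closure.isOpen_compl, hxc, contMDiffOn_const, ?_, ?_,
        fun _ _ _ => one_pos⟩
      · intro z hz hzΩ
        exact absurd (subset_closure hzΩ) hz
      · intro z hz hzf
        exact absurd (frontier_subset_closure hzf) hz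

/-- a global defining function -/
theorem exists_defining [CompactSpace M] [T2Space M] {Ω : Set M} (hΩ : IsSmoothDomain Ω) :
    ∃ f : M → ℝ, ContMDiff 𝓘(ℝ, ℝ × ℝ) 𝓘(ℝ) ∞ f ∧ (∀ z, z ∈ Ω ↔ f z < 0) ∧ (∀ z, z ∈ frontier Ω ↔ f z = 0) ∧
      ∀ z, f z = 0 → dd f z ≠ 0 := by
  choose U h hU hxU hh hneg hzero hpos using local_defining hΩ
  obtain ⟨t, θ, hθ1, hθs, hθ0⟩ := exists_partition' U hU hxU
  have hsum : ∀ z, ∑ i ∈ t, (θ i).1 z = 1 := by
    intro z
    have h3 := congrArg (fun w : smoothAlg M => w.1 z) hθ1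
    refine Eq.trans ?_ h3
    rw [AddSubmonoidClass.coe_finset_sum, Finset.sum_apply]
  obtain ⟨F, hF⟩ : ∃ F : M → ℝ, F = fun z => ∑ i ∈ t, (θ i).1 z * h i z := ⟨_, rfl⟩
  have hterm : ∀ i ∈ t, ContMDiff 𝓘(ℝ, ℝ × ℝ) 𝓘(ℝ) ∞ (fun z => (θ i).1 z * h i z) := by
    intro i hi
    apply contMDiff_of_tsupport
    intro z hz
    have hz1 : z ∈ tsupport (θ i).1 := tsupport_mul_subset_left hz
    exact (θ i).2.contMDiffAt.mul ((hh i).contMDiffAt ((hU i).mem_nhds (hθs i hi hz1)))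
  have hFs : ContMDiff 𝓘(ℝ, ℝ × ℝ) 𝓘(ℝ) ∞ F := by
    rw [hF]
    exact contMDiff_finsetSum hterm
  have hact : ∀ z, ∃ i ∈ t, 0 < (θ i).1 z := by
    intro z
    by_contra hcon
    push Not at hcon
    have h1 : ∑ i ∈ t, (θ i).1 z ≤ 0 := Finset.sum_nonpos hcon
    rw [hsum z] at h1
    linarith
  have hzero' : ∀ i ∈ t, ∀ z, 0 < (θ i).1 z → z ∈ U i := by
    intro i hi z hz
    exact hθs i hi (subset_tsupport _ hz.ne')
  have key : ∀ i ∈ t, ∀ z, z ∉ U i → (θ i).1 z = 0 := by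
    intro i hi z hz
    exact image_eq_zero_of_notMem_tsupport fun h => hz (hθs i hi h)
  have s1 : ∀ z, z ∈ Ω → F z < 0 := by
    intro z hz
    rw [hF]
    obtain ⟨i0, hi0, hi0p⟩ := hact z
    refine Finset.sum_neg' (fun i hi => ?_) ⟨i0, hi0, ?_⟩
    · by_cases hzU : z ∈ U i
      · exact mul_nonpos_of_nonneg_of_nonpos (hθ0 i hi z) (hneg i z hzU hz).le
      · rw [key i hi z hzU, zero_mul]
    · exact mul_neg_of_pos_of_neg hi0p (hneg i0 z (hzero' i0 hi0 z hi0p) hz)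
  have s2 : ∀ z, z ∉ closure Ω → 0 < F z := by
    intro z hz
    rw [hF]
    obtain ⟨i0, hi0, hi0p⟩ := hact z
    refine Finset.sum_pos' (fun i hi => ?_) ⟨i0, hi0, ?_⟩
    · by_cases hzU : z ∈ U i
      · exact mul_nonneg (hθ0 i hi z) (hpos i z hzU hz).le
      · rw [key i hi z hzU, zero_mul]
    · exact mul_pos hi0p (hpos i0 z (hzero' i0 hi0 z hi0p) hz)
  have s3 : ∀ z, z ∈ frontier Ω → F z = 0 := by
    intro z hz
    rw [hF]
    refine Finset.sum_eq_zero fun i hi => ?_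
    by_cases hzU : z ∈ U i
    · rw [(hzero i z hzU hz).1, mul_zero]
    · rw [key i hi z hzU, zero_mul]
  have hcases : ∀ z, z ∈ Ω ∨ z ∈ frontier Ω ∨ z ∉ closure Ω := by
    intro z
    by_cases h1 : z ∈ Ω
    · exact Or.inl h1
    · by_cases h2 : z ∈ closure Ω
      · refine Or.inr (Or.inl ?_)
        rw [hΩ.isOpen.frontier_eq]
        exact ⟨h2, h1⟩
      · exact Or.inr (Or.inr h2)
  have s4 : ∀ z, z ∈ frontier Ω ↔ F z = 0 := by
    intro z
    refine ⟨s3 z, fun h0 => ?_⟩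
    rcases hcases z with h1 | h1 | h1
    · exact absurd h0 (s1 z h1).ne
    · exact h1
    · exact absurd h0 (s2 z h1).ne'
  refine ⟨F, hFs, fun z => ⟨s1 z, fun hlt => ?_⟩, s4, fun z hz => ?_⟩
  · rcases hcases z with h1 | h1 | h1
    · exact h1
    · exact absurd (s3 z h1) hlt.ne
    · exact absurd (s2 z h1) (not_lt.2 hlt.le)
  · have hzf : z ∈ frontier Ω := (s4 z).2 hz
    have hφ : chartAt (ℝ × ℝ) z ∈ IsManifold.maximalAtlas 𝓘(ℝ, ℝ × ℝ) ∞ M := IsManifold.chart_mem_maximalAtlas z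
    obtain ⟨φ, hφe⟩ : ∃ φ, φ = chartAt (ℝ × ℝ) z := ⟨_, rfl⟩
    rw [← hφe] at hφ
    have hzs : z ∈ φ.source := by rw [hφe]; exact mem_chart_source (ℝ × ℝ) z
    have hy := φ.map_source hzs
    intro hdd
    have hmdF : MDifferentiableAt 𝓘(ℝ, ℝ × ℝ) 𝓘(ℝ) F (φ.symm (φ z)) := hFs.mdifferentiable (by simp) _
    have h0 : fderiv ℝ (F ∘ φ.symm) (φ z) = 0 :=
      fderiv_zero_of_dd hφ hy hmdF (by rw [φ.left_inv hzs]; exact hdd)
    -- local differentiability of the pieces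
    have hhd : ∀ i, z ∈ U i → DifferentiableAt ℝ (h i ∘ φ.symm) (φ z) := by
      intro i hzU
      have h1 : MDifferentiableAt 𝓘(ℝ, ℝ × ℝ) 𝓘(ℝ) (h i) (φ.symm (φ z)) := by
        rw [φ.left_inv hzs]
        exact ((hh i).contMDiffAt ((hU i).mem_nhds hzU)).mdifferentiableAt (by simp)
      have h2 : MDifferentiableAt 𝓘(ℝ, ℝ × ℝ) 𝓘(ℝ, ℝ × ℝ) φ.symm (φ z) :=
        (contMDiffAt_symm_of_mem_maximalAtlas hφ hy).mdifferentiableAt (by simp)
      exact (h1.comp (φ z) h2).differentiableAt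
    have hhne : ∀ i, z ∈ U i → fderiv ℝ (h i ∘ φ.symm) (φ z) ≠ 0 := by
      intro i hzU hcon
      have h1 : MDifferentiableAt 𝓘(ℝ, ℝ × ℝ) 𝓘(ℝ) (h i) (φ.symm (φ z)) := by
        rw [φ.left_inv hzs]
        exact ((hh i).contMDiffAt ((hU i).mem_nhds hzU)).mdifferentiableAt (by simp)
      have h2 := dd_zero_of_fderiv hφ hy h1 hcon
      rw [φ.left_inv hzs] at h2
      exact (hzero i z hzU hzf).2 h2
    have hθd : ∀ i, DifferentiableAt ℝ ((θ i).1 ∘ φ.symm) (φ z) := by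
      intro i
      exact ((comp_symm_contDiffOn hφ (θ i).2).contDiffAt (φ.open_target.mem_nhds hy)).differentiableAt
        (by simp)
    have hlim : Tendsto φ.symm (𝓝 (φ z)) (𝓝 z) := by
      have := (φ.continuousAt_symm hy).tendsto
      rwa [φ.left_inv hzs] at this
    have hderiv : ∀ i ∈ t, ∀ v, fderiv ℝ (fun y => (θ i).1 (φ.symm y) * h i (φ.symm y)) (φ z) v =
        (θ i).1 z * fderiv ℝ (h i ∘ φ.symm) (φ z) v := by
      intro i hi v
      by_cases hzt : z ∈ tsupport (θ i).1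
      · have hzU := hθs i hi hzt
        have h1 := ((hθd i).hasFDerivAt.mul (hhd i hzU).hasFDerivAt).fderiv
        have h2 := congrArg (fun L => L v) h1
        refine Eq.trans h2 ?_
        simp only [Function.comp_apply, add_apply, smul_apply, smul_eq_mul]
        rw [φ.left_inv hzs, (hzero i z hzU hzf).1]
        ring
      · have h1 : (fun y => (θ i).1 (φ.symm y) * h i (φ.symm y)) =ᶠ[𝓝 (φ z)] fun _ => 0 := by
          filter_upwards [hlim.eventually (notMem_tsupport_iff_eventuallyEq.1 hzt)] with y hy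
          have hy' : (θ i).1 (φ.symm y) = 0 := hy
          rw [hy', zero_mul]
        rw [h1.fderiv_eq, image_eq_zero_of_notMem_tsupport hzt]
        simp
    have hdt : ∀ i ∈ t, DifferentiableAt ℝ (fun y => (θ i).1 (φ.symm y) * h i (φ.symm y)) (φ z) := by
      intro i hi
      by_cases hzt : z ∈ tsupport (θ i).1
      · exact (hθd i).mul (hhd i (hθs i hi hzt))
      · have h1 : (fun y => (θ i).1 (φ.symm y) * h i (φ.symm y)) =ᶠ[𝓝 (φ z)] fun _ => 0 := by
          filter_upwards [hlim.eventually (notMem_tsupport_iff_eventuallyEq.1 hzt)] with y hy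
          have hy' : (θ i).1 (φ.symm y) = 0 := hy
          rw [hy', zero_mul]
        exact (differentiableAt_const (0 : ℝ)).congr_of_eventuallyEq h1
    obtain ⟨i0, hi0, hi0p⟩ := hact z
    have hz0 := hzero' i0 hi0 z hi0p
    obtain ⟨v, hv⟩ : ∃ v, 0 < fderiv ℝ (h i0 ∘ φ.symm) (φ z) v := by
      by_contra hcon
      push Not at hcon
      apply hhne i0 hz0
      refine ContinuousLinearMap.ext fun w => ?_
      have h2 := hcon w
      have h3 := hcon (-w)
      rw [map_neg] at h3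
      simp only [zero_apply]
      linarith
    have hcomp : ∀ i, z ∈ U i → 0 < fderiv ℝ (h i ∘ φ.symm) (φ z) v := by
      intro i hzU
      refine compare (hhd i0 hz0) (hhd i hzU) ?_ ?_ ?_ hv (hhne i hzU)
      · rw [Function.comp_apply, φ.left_inv hzs]
        exact (hzero i0 z hz0 hzf).1
      · rw [Function.comp_apply, φ.left_inv hzs]
        exact (hzero i z hzU hzf).1
      · have h3 : ∀ᶠ w in 𝓝 z, 0 < h i0 w → 0 ≤ h i w := by
          filter_upwards [(hU i0).mem_nhds hz0, (hU i).mem_nhds hzU] with w hw0 hwi hpos0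
          rcases hcases w with h1 | h1 | h1
          · exact absurd (hneg i0 w hw0 h1) (not_lt.2 hpos0.le)
          · exact (hzero i w hwi h1).1.ge
          · exact (hpos i w hwi h1).le
        exact hlim.eventually h3
    have hfin : fderiv ℝ (F ∘ φ.symm) (φ z) v = ∑ i ∈ t, (θ i).1 z * fderiv ℝ (h i ∘ φ.symm) (φ z) v := by
      have h1 : F ∘ φ.symm = fun y => ∑ i ∈ t, (θ i).1 (φ.symm y) * h i (φ.symm y) := by
        rw [hF]; rfl
      rw [h1, fderiv_fun_sum hdt, sum_apply]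
      exact Finset.sum_congr rfl fun i hi => hderiv i hi v
    have hposs : 0 < ∑ i ∈ t, (θ i).1 z * fderiv ℝ (h i ∘ φ.symm) (φ z) v := by
      refine Finset.sum_pos' (fun i hi => ?_) ⟨i0, hi0, mul_pos hi0p hv⟩
      by_cases hzU : z ∈ U i
      · exact mul_nonneg (hθ0 i hi z) (hcomp i hzU).le
      · rw [key i hi z hzU, zero_mul]
    rw [← hfin, h0] at hposs
    simp at hposs

end Pool.Agent.Helper89.Stek
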