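import Pool.Agent.Helper89.Stek.GreenA

/-!
The Green formula on a closed surface.
-/

set_option autoImplicit false

open scoped Manifold ContDiff ENNReal Topology
open MeasureTheory Bundle Set Filter

namespace Pool.Agent.Helper89.Stek

variable {M : Type*} [TopologicalSpace M] [ChartedSpace (ℝ × ℝ) M] [IsManifold 𝓘(ℝ, ℝ × ℝ) ∞ M]

namespace Calc

variable {X : Type*} [MeasurableSpace X] (C : Calc X) (μ : Measure X) [IsFiniteMeasure μ]

lemma D_sum {ι : Type*} (t : Finset ι) (a : ι → C.S) (f : C.S) :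
    C.D μ (∑ i ∈ t, a i) f = ∑ i ∈ t, C.D μ (a i) f := by rw [map_sum, LinearMap.sum_apply]

lemma m_sum {ι : Type*} (t : Finset ι) (a : ι → C.S) (f : C.S) :
    C.m μ f (∑ i ∈ t, a i) = ∑ i ∈ t, C.m μ f (a i) := by rw [map_sum]

end Calc

/-- partitions of unity -/
lemma exists_partition' [T2Space M] [CompactSpace M] (U : M → Set M) (hU : ∀ x, IsOpen (U x))
    (hx : ∀ x, x ∈ U x) : ∃ (t : Finset M) (θ : M → smoothAlg M), (∑ i ∈ t, θ i = 1) ∧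
      (∀ i ∈ t, tsupport (θ i).1 ⊆ U i) ∧ ∀ i ∈ t, ∀ z, 0 ≤ (θ i).1 z := by
  classical
  obtain ⟨t, -, ht⟩ := isCompact_univ.elim_nhds_subcover U (fun x _ => (hU x).mem_nhds (hx x))
  obtain ⟨θ, hθ⟩ := SmoothPartitionOfUnity.exists_isSubordinate 𝓘(ℝ, ℝ × ℝ) isClosed_univ
    (fun i : t => U i.1) (fun i => hU i.1) (by
      intro x hx
      obtain ⟨i, hi, hxi⟩ := mem_iUnion₂.1 (ht hx)
      exact mem_iUnion.2 ⟨⟨i, hi⟩, hxi⟩)
  refine ⟨t, fun i => if h : i ∈ t then ⟨θ ⟨i, h⟩, (θ ⟨i, h⟩).contMDiff⟩ else 0, ?_, ?_, ?_⟩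
  · ext x
    have h1 := θ.sum_eq_one (mem_univ x)
    rw [finsum_eq_sum_of_fintype] at h1
    have h2 : ((∑ i ∈ t, (if h : i ∈ t then (⟨θ ⟨i, h⟩, (θ ⟨i, h⟩).contMDiff⟩ : smoothAlg M) else 0) :
        smoothAlg M) : M → ℝ) x = ∑ i ∈ t, (if h : i ∈ t then θ ⟨i, h⟩ x else 0) := by
      rw [AddSubmonoidClass.coe_finset_sum, Finset.sum_apply]
      refine Finset.sum_congr rfl fun i hi => ?_
      rw [dif_pos hi, dif_pos hi]
    change ((∑ i ∈ t, (if h : i ∈ t then (⟨θ ⟨i, h⟩, (θ ⟨i, h⟩).contMDiff⟩ : smoothAlg M) else 0) :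
        smoothAlg M) : M → ℝ) x = 1
    rw [h2, ← h1, ← Finset.sum_coe_sort t]
    refine Finset.sum_congr rfl fun i _ => ?_
    rw [dif_pos i.2]
  · intro i hi
    simp only [dif_pos hi]
    exact hθ ⟨i, hi⟩
  · intro i hi z
    simp only [dif_pos hi]
    exact θ.nonneg ⟨i, hi⟩ z

/-- partitions of unity -/
lemma exists_partition [T2Space M] [CompactSpace M] (U : M → Set M) (hU : ∀ x, IsOpen (U x))
    (hx : ∀ x, x ∈ U x) : ∃ (t : Finset M) (θ : M → smoothAlg M), (∑ i ∈ t, θ i = 1) ∧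
      ∀ i ∈ t, tsupport (θ i).1 ⊆ U i := by
  obtain ⟨t, θ, h1, h2, -⟩ := exists_partition' U hU hx
  exact ⟨t, θ, h1, h2⟩

lemma gradInner_zero_off {u : M → ℝ} (g : Metric M) (v : M → ℝ) {x : M} (hx : x ∉ tsupport u) :
    gradInner g u v x = 0 := by
  have h1 : u =ᶠ[𝓝 x] fun _ => 0 := notMem_tsupport_iff_eventuallyEq.1 hx
  have h2 : dd u x = 0 := by
    unfold dd
    rw [h1.mfderiv_eq]
    exact mfderiv_const
  have h3 : gradInner g u v x = dd u x (grad g v x) := gradInner_eq g u v x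
  rw [h3, h2]
  rfl

section local_green

variable [MeasurableSpace M] [BorelSpace M] [CompactSpace M] {g : Metric M} {μ : Measure M}
  (hμ : IsAreaMeasure g μ)
  {φ : OpenPartialHomeomorph M (ℝ × ℝ)} (hφ : φ ∈ IsManifold.maximalAtlas 𝓘(ℝ, ℝ × ℝ) ∞ M)

/-- the first component of the density of the gradient field -/
noncomputable def fieldA (g : Metric M) (φ : OpenPartialHomeomorph M (ℝ × ℝ)) (f : M → ℝ) (y : (ℝ × ℝ)) : ℝ :=
  (gram g φ y 1 1 * pd 0 (f ∘ φ.symm) y - gram g φ y 0 1 * pd 1 (f ∘ φ.symm) y) / dens g φ y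

/-- the second component of the density of the gradient field -/
noncomputable def fieldB (g : Metric M) (φ : OpenPartialHomeomorph M (ℝ × ℝ)) (f : M → ℝ) (y : (ℝ × ℝ)) : ℝ :=
  (gram g φ y 0 0 * pd 1 (f ∘ φ.symm) y - gram g φ y 0 1 * pd 0 (f ∘ φ.symm) y) / dens g φ y

omit [MeasurableSpace M] [BorelSpace M] [CompactSpace M] in
include hφ in
lemma fieldA_contDiffOn {f : M → ℝ} (hf : ContMDiff 𝓘(ℝ, ℝ × ℝ) 𝓘(ℝ) ∞ f) :
    ContDiffOn ℝ ∞ (fieldA g φ f) φ.target :=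
  (((gram_contDiffOn hφ g 1 1).mul (pd_contDiffOn hφ hf 0)).sub
    ((gram_contDiffOn hφ g 0 1).mul (pd_contDiffOn hφ hf 1))).div (dens_contDiffOn hφ g)
    (fun _ hy => (dens_pos hφ g hy).ne')

omit [MeasurableSpace M] [BorelSpace M] [CompactSpace M] in
include hφ in
lemma fieldB_contDiffOn {f : M → ℝ} (hf : ContMDiff 𝓘(ℝ, ℝ × ℝ) 𝓘(ℝ) ∞ f) :
    ContDiffOn ℝ ∞ (fieldB g φ f) φ.target :=
  (((gram_contDiffOn hφ g 0 0).mul (pd_contDiffOn hφ hf 1)).sub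
    ((gram_contDiffOn hφ g 0 1).mul (pd_contDiffOn hφ hf 0))).div (dens_contDiffOn hφ g)
    (fun _ hy => (dens_pos hφ g hy).ne')

omit [MeasurableSpace M] [BorelSpace M] [CompactSpace M] in
include hφ in
lemma dens_gradInner {u f : M → ℝ} (hu : ContMDiff 𝓘(ℝ, ℝ × ℝ) 𝓘(ℝ) ∞ u) (hf : ContMDiff 𝓘(ℝ, ℝ × ℝ) 𝓘(ℝ) ∞ f)
    {y : (ℝ × ℝ)} (hy : y ∈ φ.target) :
    dens g φ y * gradInner g u f (φ.symm y) =
      fieldA g φ f y * pd 0 (u ∘ φ.symm) y + fieldB g φ f y * pd 1 (u ∘ φ.symm) y := by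
  have h1 := gradInner_chart hφ g hy (hu.mdifferentiable (by simp) (φ.symm y))
    (hf.mdifferentiable (by simp) (φ.symm y))
  have h2 := dens_pos hφ g hy
  rw [← dens_sq hφ g hy] at h1
  unfold fieldA fieldB
  field_simp
  rw [pow_two, h1]
  ring

omit [CompactSpace M] in
include hμ hφ in
/-- the Green formula in a chart -/
lemma green_chart [CompactSpace M] {ψ f : M → ℝ} (hψ : ContMDiff 𝓘(ℝ, ℝ × ℝ) 𝓘(ℝ) ∞ ψ)
    (hf : ContMDiff 𝓘(ℝ, ℝ × ℝ) 𝓘(ℝ) ∞ f) (hs : tsupport ψ ⊆ φ.source) {L : M → ℝ} (hL : Continuous L)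
    (hLf : ∀ x ∈ tsupport ψ, L x = (pd 0 (fieldA g φ f) (φ x) + pd 1 (fieldB g φ f) (φ x)) / dens g φ (φ x)) :
    ∫ x, gradInner g ψ f x ∂μ = - ∫ x, ψ x * L x ∂μ := by
  rw [integral_chart hφ hμ _ (gradInner_contMDiff g hψ hf).continuous
    (fun x hx => gradInner_zero_off g f fun h => hx (hs h)),
    integral_chart hφ hμ (fun x => ψ x * L x) (hψ.continuous.mul hL) (fun x hx => by
      rw [image_eq_zero_of_notMem_tsupport fun h => hx (hs h), zero_mul])]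
  have hK : IsCompact (φ '' tsupport ψ) :=
    ((isClosed_tsupport ψ).isCompact).image_of_continuousOn (φ.continuousOn.mono hs)
  have hKU : φ '' tsupport ψ ⊆ φ.target := by
    rintro _ ⟨x, hx, rfl⟩
    exact φ.map_source (hs hx)
  have h0 : ∀ y ∈ φ.target, y ∉ φ '' tsupport ψ → (ψ ∘ φ.symm) y = 0 := by
    intro y hy hyK
    exact image_eq_zero_of_notMem_tsupport (f := ψ) fun h => hyK ⟨φ.symm y, h, φ.right_inv hy⟩
  have h1 := parts_sum φ.open_target hK hKU (comp_symm_contDiffOn hφ hψ) h0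
    (fieldA_contDiffOn (g := g) hφ hf) (fieldB_contDiffOn (g := g) hφ hf)
  rw [setIntegral_congr_fun φ.open_target.measurableSet (fun y hy => dens_gradInner hφ hψ hf hy), h1]
  congr 1
  refine setIntegral_congr_fun φ.open_target.measurableSet fun y hy => ?_
  beta_reduce
  by_cases hyK : φ.symm y ∈ tsupport ψ
  · rw [hLf _ hyK, φ.right_inv hy]
    have h2 := dens_pos hφ g hy
    simp only [Function.comp_apply]
    field_simp
  · rw [image_eq_zero_of_notMem_tsupport hyK]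
    have h3 : (ψ ∘ φ.symm) y = 0 := image_eq_zero_of_notMem_tsupport (f := ψ) hyK
    rw [h3]
    ring

end local_green

variable [MeasurableSpace M] [BorelSpace M] [CompactSpace M] [T2Space M] {g : Metric M} {μ : Measure M}
  (hμ : IsAreaMeasure g μ)

include hμ in
lemma green_local (f : smoothAlg M) (x : M) : ∃ U : Set M, IsOpen U ∧ x ∈ U ∧ ∃ L : smoothAlg M,
    ∀ ψ : smoothAlg M, tsupport ψ.1 ⊆ U → ∫ z, gradInner g ψ.1 f.1 z ∂μ = - ∫ z, ψ.1 z * L.1 z ∂μ := by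
  have hφ : chartAt (ℝ × ℝ) x ∈ IsManifold.maximalAtlas 𝓘(ℝ, ℝ × ℝ) ∞ M := IsManifold.chart_mem_maximalAtlas x
  obtain ⟨χ⟩ : Nonempty (SmoothBumpFunction 𝓘(ℝ, ℝ × ℝ) x) := inferInstance
  have hχ1 := χ.eventuallyEq_one
  obtain ⟨V, hV, hVo, hxV⟩ := eventually_nhds_iff.1 hχ1
  have hsm : ContMDiff 𝓘(ℝ, ℝ × ℝ) 𝓘(ℝ) ∞ (fun z => χ z * ((pd 0 (fieldA g (chartAt (ℝ × ℝ) x) f.1) (chartAt (ℝ × ℝ) x z) +
      pd 1 (fieldB g (chartAt (ℝ × ℝ) x) f.1) (chartAt (ℝ × ℝ) x z)) / dens g (chartAt (ℝ × ℝ) x) (chartAt (ℝ × ℝ) x z))) := by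
    apply contMDiff_of_tsupport
    intro z hz
    have hz1 : z ∈ tsupport χ := tsupport_mul_subset_left hz
    have hz2 : z ∈ (chartAt (ℝ × ℝ) x).source := χ.tsupport_subset_chartAt_source hz1
    refine χ.contMDiff.contMDiffAt.mul ?_
    have h1 : ContDiffOn ℝ ∞ (fun y => (pd 0 (fieldA g (chartAt (ℝ × ℝ) x) f.1) y +
      pd 1 (fieldB g (chartAt (ℝ × ℝ) x) f.1) y) / dens g (chartAt (ℝ × ℝ) x) y) (chartAt (ℝ × ℝ) x).target :=
      ((contDiffOn_pd (chartAt (ℝ × ℝ) x).open_target (fieldA_contDiffOn hφ f.2) 0).add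
        (contDiffOn_pd (chartAt (ℝ × ℝ) x).open_target (fieldB_contDiffOn hφ f.2) 1)).div
        (dens_contDiffOn hφ g) (fun _ hy => (dens_pos hφ g hy).ne')
    have h2 := (h1.contDiffAt ((chartAt (ℝ × ℝ) x).open_target.mem_nhds ((chartAt (ℝ × ℝ) x).map_source hz2))).contMDiffAt
    exact ContMDiffAt.comp z h2 (contMDiffAt_of_mem_maximalAtlas hφ hz2)
  refine ⟨V ∩ (chartAt (ℝ × ℝ) x).source, hVo.inter (chartAt (ℝ × ℝ) x).open_source, ⟨hxV, mem_chart_source (ℝ × ℝ) x⟩,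
    ⟨_, hsm⟩, fun ψ hψ => ?_⟩
  refine green_chart hμ hφ ψ.2 f.2 (hψ.trans inter_subset_right) hsm.continuous fun z hz => ?_
  have h3 : χ z = 1 := hV z (hψ hz).1
  change χ z * _ = _
  rw [h3, one_mul]

include hμ in
theorem exists_green (f : smoothAlg M) : ∃ Lf : smoothAlg M, (surf g).Green μ f Lf := by
  choose U hU hx L hL using green_local hμ f
  have hfin := area_finite hμ
  obtain ⟨t, θ, hθ1, hθs⟩ := exists_partition U hU hx
  refine ⟨∑ i ∈ t, θ i * L i, fun (ψ : smoothAlg M) => ?_⟩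
  have h1 : ψ = ∑ i ∈ t, θ i * ψ := by rw [← Finset.sum_mul, hθ1, one_mul]
  have h2 : ∫ x, ((surf g).Γ ψ f).1 x ∂μ = ∑ i ∈ t, ∫ x, ((surf g).Γ (θ i * ψ) f).1 x ∂μ := by
    change (surf g).D μ ψ f = ∑ i ∈ t, (surf g).D μ (θ i * ψ) f
    exact (congrArg (fun a => (surf g).D μ a f) h1).trans ((surf g).D_sum μ t (fun i => θ i * ψ) f)
  have h3 : ∫ x, (ψ * ∑ i ∈ t, θ i * L i : smoothAlg M).1 x ∂μ =
      ∑ i ∈ t, ∫ x, ((θ i * ψ) * L i : smoothAlg M).1 x ∂μ := by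
    refine ((surf g).m_sum μ t (fun i => θ i * L i) ψ).trans ?_
    refine Finset.sum_congr rfl fun i _ => ?_
    change ∫ x, ψ.1 x * ((θ i).1 x * (L i).1 x) ∂μ = ∫ x, (θ i).1 x * ψ.1 x * (L i).1 x ∂μ
    congr 1
    ext x
    ring
  rw [h2]
  refine Eq.trans ?_ (congrArg Neg.neg h3).symm
  rw [← Finset.sum_neg_distrib]
  refine Finset.sum_congr rfl fun i hi => ?_
  exact hL i (θ i * ψ) ((tsupport_mul_subset_left).trans (hθs i hi))

end Pool.Agent.Helper89.Stek
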