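import Pool.Agent.Helper89.Stek.BoxB
import Pool.Agent.Helper89.Stek.Green

/-!
Local Poincare and Rellich inequalities on a closed surface.
-/

set_option autoImplicit false

open scoped Manifold ContDiff ENNReal Topology
open MeasureTheory Bundle Set Filter

namespace Pool.Agent.Helper89.Stek

namespace Calc

variable {X : Type*} [MeasurableSpace X] (C : Calc X) (μ : Measure X) [IsFiniteMeasure μ]

/-- local Poincare property -/
def Pn (U : Set X) : Prop := ∃ c, 0 ≤ c ∧ ∀ u : C.S, ∃ a : ℝ, ∫ x in U, (u.1 x - a) ^ 2 ∂μ ≤ c * C.D μ u u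

/-- local Rellich property -/
def Rl (U : Set X) : Prop := ∀ ε > 0, ∃ (ι : Type) (_ : Fintype ι) (K : ℝ) (a : ι → C.S →ₗ[ℝ] ℝ), 0 ≤ K ∧
  (∀ i u, (a i u) ^ 2 ≤ K * C.m μ u u) ∧
  ∀ u, ∫ x in U, u.1 x ^ 2 ∂μ ≤ ε * C.D μ u u + K * ∑ i, (a i u) ^ 2

end Calc

variable {M : Type*} [TopologicalSpace M] [ChartedSpace (ℝ × ℝ) M] [IsManifold 𝓘(ℝ, ℝ × ℝ) ∞ M]

section chart

variable {φ : OpenPartialHomeomorph M (ℝ × ℝ)} (hφ : φ ∈ IsManifold.maximalAtlas 𝓘(ℝ, ℝ × ℝ) ∞ M)
  [MeasurableSpace M] [BorelSpace M] {g : Metric M} {μ : Measure M} (hμ : IsAreaMeasure g μ)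

omit [ChartedSpace (ℝ × ℝ) M] [IsManifold 𝓘(ℝ, ℝ × ℝ) ∞ M] in
lemma measurableSet_symm_image {s : Set (ℝ × ℝ)} (hs : MeasurableSet s) (hst : s ⊆ φ.target) :
    MeasurableSet (φ.symm '' s) := by
  have h1 : φ.symm '' s = φ.source ∩ φ ⁻¹' s := by
    have := φ.symm.image_eq_target_inter_inv_preimage (s := s) hst
    simpa using this
  have h2 : MeasurableSet (φ.source.restrict φ ⁻¹' s) :=
    (continuousOn_iff_continuous_restrict.1 φ.continuousOn).measurable hs
  have h3 := φ.open_source.measurableSet.subtype_image h2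
  have h4 : Subtype.val '' (φ.source.restrict φ ⁻¹' s) = φ.source ∩ φ ⁻¹' s := by
    ext x
    simp only [mem_image, mem_preimage, Subtype.exists, exists_and_right, exists_eq_right, mem_inter_iff]
    exact ⟨fun h => ⟨h.1, h.2⟩, fun h => ⟨h.1, h.2⟩⟩
  rw [h1, ← h4]
  exact h3

include hφ hμ in
lemma setIntegral_chart {s : Set (ℝ × ℝ)} (hs : MeasurableSet s) (hst : s ⊆ φ.target) {F : M → ℝ}
    (hF : Continuous F) : ∫ x in φ.symm '' s, F x ∂μ = ∫ y in s, dens g φ y * F (φ.symm y) := by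
  have hm := measurableSet_symm_image (φ := φ) hs hst
  have hsub : φ.symm '' s ⊆ φ.source := by
    rintro _ ⟨y, hy, rfl⟩
    exact φ.map_target (hst hy)
  have h1 := setIntegral_source hφ hμ ((φ.symm '' s).indicator F)
    (hF.aestronglyMeasurable.indicator hm)
  rw [setIntegral_indicator hm, inter_eq_right.2 hsub] at h1
  rw [h1]
  have h2 : ∀ y ∈ φ.target, dens g φ y * (φ.symm '' s).indicator F (φ.symm y) =
      s.indicator (fun y => dens g φ y * F (φ.symm y)) y := by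
    intro y hy
    by_cases hys : y ∈ s
    · rw [indicator_of_mem hys, indicator_of_mem (mem_image_of_mem _ hys)]
    · rw [indicator_of_notMem hys, indicator_of_notMem, mul_zero]
      rintro ⟨z, hz, hzy⟩
      exact hys (by rw [← φ.symm.injOn (hst hz) hy hzy]; exact hz)
  rw [setIntegral_congr_fun φ.open_target.measurableSet h2, setIntegral_indicator hs, inter_eq_right.2 hst]

omit [MeasurableSpace M] [BorelSpace M] in
include hφ in
lemma grad_le {u : M → ℝ} (hu : ContMDiff 𝓘(ℝ, ℝ × ℝ) 𝓘(ℝ) ∞ u) {y : (ℝ × ℝ)} (hy : y ∈ φ.target) :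
    pd 0 (u ∘ φ.symm) y ^ 2 + pd 1 (u ∘ φ.symm) y ^ 2 ≤
      (gram g φ y 0 0 + gram g φ y 1 1) * gradInner g u u (φ.symm y) := by
  have h1 := gradInner_chart hφ g hy (hu.mdifferentiable (by simp) (φ.symm y))
    (hu.mdifferentiable (by simp) (φ.symm y))
  have h2 := gram_det_pos hφ g hy
  have h3 : (gram g φ y).det = gram g φ y 0 0 * gram g φ y 1 1 - gram g φ y 0 1 * gram g φ y 0 1 := by
    rw [Matrix.det_fin_two, gram_symm]
  refine le_of_mul_le_mul_left ?_ h2
  have h4 : (gram g φ y).det * ((gram g φ y 0 0 + gram g φ y 1 1) * gradInner g u u (φ.symm y)) =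
      (gram g φ y 0 0 + gram g φ y 1 1) * ((gram g φ y).det * gradInner g u u (φ.symm y)) := by ring
  rw [h4, h1, h3]
  nlinarith [sq_nonneg (gram g φ y 1 1 * pd 0 (u ∘ φ.symm) y - gram g φ y 0 1 * pd 1 (u ∘ φ.symm) y),
    sq_nonneg (gram g φ y 0 1 * pd 0 (u ∘ φ.symm) y - gram g φ y 0 0 * pd 1 (u ∘ φ.symm) y)]

end chart

/-- the localised function -/
noncomputable def loc (φ : OpenPartialHomeomorph M (ℝ × ℝ)) (χ : (ℝ × ℝ) → ℝ) (u : M → ℝ) : (ℝ × ℝ) → ℝ :=
  φ.target.indicator fun y => χ y * u (φ.symm y)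

section loc

variable {φ : OpenPartialHomeomorph M (ℝ × ℝ)} (hφ : φ ∈ IsManifold.maximalAtlas 𝓘(ℝ, ℝ × ℝ) ∞ M)
  {χ : (ℝ × ℝ) → ℝ} (hχ : ContDiff ℝ ∞ χ) (hc : HasCompactSupport χ) (hs : tsupport χ ⊆ φ.target)

include hφ hχ hc hs in
omit [IsManifold 𝓘(ℝ, ℝ × ℝ) ∞ M] in
lemma loc_smooth {u : M → ℝ} (hu : ContMDiff 𝓘(ℝ, ℝ × ℝ) 𝓘(ℝ) ∞ u) :
    ContDiff ℝ ∞ (loc φ χ u) ∧ HasCompactSupport (loc φ χ u) :=
  contDiff_indicator φ.open_target hc hs (hχ.contDiffOn.mul (comp_symm_contDiffOn hφ hu))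
    (fun y _ hyK => by
      rw [image_eq_zero_of_notMem_tsupport hyK, zero_mul])

omit [IsManifold 𝓘(ℝ, ℝ × ℝ) ∞ M] [ChartedSpace (ℝ × ℝ) M] in
lemma loc_eq {u : M → ℝ} {y : (ℝ × ℝ)} (hy : y ∈ φ.target) (h1 : χ y = 1) : loc φ χ u y = u (φ.symm y) := by
  unfold loc
  rw [indicator_of_mem hy, h1, one_mul]

omit [IsManifold 𝓘(ℝ, ℝ × ℝ) ∞ M] [ChartedSpace (ℝ × ℝ) M] in
lemma loc_pd {u : M → ℝ} {y : (ℝ × ℝ)} (hy : y ∈ φ.target) (h1 : ∀ᶠ z in 𝓝 y, χ z = 1) (i : Fin 2) :
    pd i (loc φ χ u) y = pd i (u ∘ φ.symm) y := by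
  have h2 : loc φ χ u =ᶠ[𝓝 y] u ∘ φ.symm := by
    filter_upwards [h1, φ.open_target.mem_nhds hy] with z hz hzt
    exact loc_eq hzt hz
  unfold pd
  rw [h2.fderiv_eq]

end loc

lemma bx_real_volume {a b l : ℝ} (hl : 0 ≤ l) : (volume (bx a b l)).toReal = l * l := by
  rw [← eP_mp.measure_preimage_emb eP.measurableEmbedding, bx_preimage, Measure.volume_eq_prod,
    Measure.prod_prod, Real.volume_Ioc, Real.volume_Ioc, ENNReal.toReal_mul]
  simp [hl]

/-- Poincare inequality with the mean -/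
lemma bx_poincare {a b l : ℝ} (hl : 0 < l) {W : (ℝ × ℝ) → ℝ} (hW : ContDiff ℝ ∞ W) :
    ∃ m, ∫ y in bx a b l, (W y - m) ^ 2 ≤ l ^ 2 * ∫ y in bx a b l, (pd 0 W y ^ 2 + pd 1 W y ^ 2) := by
  obtain ⟨m, hm⟩ : ∃ m, m = (∫ y in bx a b l, W y) / (l * l) := ⟨_, rfl⟩
  refine ⟨m, ?_⟩
  have h1 := bx_ineq (a := a) (b := b) hl (W := fun y => W y - m) (hW.sub contDiff_const)
  have h2 : ∫ y in bx a b l, (W y - m) = 0 := by
    rw [integral_sub, setIntegral_const, Measure.real, bx_real_volume hl.le, hm]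
    · simp only [smul_eq_mul]
      field_simp
      ring
    · obtain ⟨K, hK⟩ : ∃ K : Set (ℝ × ℝ), K = Icc a (a + l) ×ˢ Icc b (b + l) := ⟨_, rfl⟩
      have hKc : IsCompact ((fun p : ℝ × ℝ => pt p.1 p.2) '' K) := by
        rw [hK]
        exact (isCompact_Icc.prod isCompact_Icc).image pt_continuous
      refine (hW.continuous.continuousOn.integrableOn_compact hKc).mono_set fun y hy => ?_
      refine ⟨(y.1, y.2), ?_, pt_coord y⟩
      rw [hK]
      exact ⟨Ioc_subset_Icc_self hy.1, Ioc_subset_Icc_self hy.2⟩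
    · exact integrableOn_const (bx_finite a b l).ne
  have h3 : ∀ i, pd i (fun y => W y - m) = pd i W := by
    intro i
    ext y
    unfold pd
    rw [fderiv_sub_const]
  rw [h2, h3, h3] at h1
  simpa using h1

lemma integrableOn_bx {a b l : ℝ} {W : (ℝ × ℝ) → ℝ} (hW : Continuous W) : IntegrableOn W (bx a b l) := by
  have hKc : IsCompact ((fun p : ℝ × ℝ => pt p.1 p.2) '' (Icc a (a + l) ×ˢ Icc b (b + l))) :=
    (isCompact_Icc.prod isCompact_Icc).image pt_continuous
  refine (hW.continuousOn.integrableOn_compact hKc).mono_set fun y hy => ?_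
  exact ⟨(y.1, y.2), ⟨Ioc_subset_Icc_self hy.1, Ioc_subset_Icc_self hy.2⟩, pt_coord y⟩

/-- Cauchy-Schwarz on a subset of finite volume -/
lemma sq_setIntegral_le {S : Set (ℝ × ℝ)} {V : ℝ} (hfin : volume S < ⊤) (hV : (volume S).toReal ≤ V)
    {W : (ℝ × ℝ) → ℝ} (hW : IntegrableOn W S) (hW2 : IntegrableOn (fun y => W y ^ 2) S) :
    (∫ y in S, W y) ^ 2 ≤ V * ∫ y in S, W y ^ 2 := by
  obtain ⟨I, hI⟩ : ∃ I, I = ∫ y in S, W y := ⟨_, rfl⟩
  obtain ⟨J, hJ⟩ : ∃ J, J = ∫ y in S, W y ^ 2 := ⟨_, rfl⟩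
  have hJ0 : 0 ≤ J := by rw [hJ]; exact integral_nonneg fun y => sq_nonneg _
  have hv0 : 0 ≤ (volume S).toReal := ENNReal.toReal_nonneg
  have h1 : ∀ c : ℝ, 0 ≤ J - 2 * c * I + c ^ 2 * (volume S).toReal := by
    intro c
    have h2 : 0 ≤ ∫ y in S, (W y - c) ^ 2 := integral_nonneg fun y => sq_nonneg _
    have h3 : ∫ y in S, (W y - c) ^ 2 = J - 2 * c * I + c ^ 2 * (volume S).toReal := by
      have e1 : (fun y => (W y - c) ^ 2) = fun y => (W y ^ 2 - 2 * c * W y) + c ^ 2 := by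
        ext y; ring
      have i1 : Integrable (fun y => 2 * c * W y) (volume.restrict S) := hW.const_mul _
      have i2 : Integrable (fun _ : (ℝ × ℝ) => c ^ 2) (volume.restrict S) := integrableOn_const hfin.ne
      have i3 : Integrable (fun y => W y ^ 2 - 2 * c * W y) (volume.restrict S) := hW2.sub i1
      rw [e1, integral_add i3 i2, integral_sub hW2 i1, integral_const_mul, setIntegral_const,
        ← hI, ← hJ, Measure.real, smul_eq_mul]
      ring
    rw [← h3]
    exact h2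
  rw [← hI, ← hJ]
  rcases hv0.eq_or_lt with h0 | h0
  · -- measure zero
    have h2 := h1 (I * (J + 1))
    rw [← h0] at h2
    by_cases hI0 : I = 0
    · rw [hI0]
      have : 0 ≤ V := hv0.trans hV
      simpa using mul_nonneg this hJ0
    · exfalso
      have h3 : 0 < I ^ 2 := by positivity
      nlinarith [h1 ((J + 1) / I), mul_div_cancel₀ (J + 1) hI0]
  · have h2 := h1 (I / (volume S).toReal)
    have h3 : J - 2 * (I / (volume S).toReal) * I + (I / (volume S).toReal) ^ 2 * (volume S).toReal =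
        J - I ^ 2 / (volume S).toReal := by
      field_simp
      ring
    rw [h3] at h2
    have h4 : I ^ 2 / (volume S).toReal ≤ J := by linarith
    rw [div_le_iff₀ h0] at h4
    refine h4.trans ?_
    rw [mul_comm]
    exact mul_le_mul_of_nonneg_right hV hJ0

variable [MeasurableSpace M] [BorelSpace M] [CompactSpace M] [T2Space M] {g : Metric M} {μ : Measure M}
  (hμ : IsAreaMeasure g μ) [IsFiniteMeasure μ]

omit [MeasurableSpace M] [BorelSpace M] [CompactSpace M] [T2Space M] in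
/-- the basic local estimates near a point -/
lemma local_data (g : Metric M) (x : M) : ∃ (φ : OpenPartialHomeomorph M (ℝ × ℝ)) (χ : (ℝ × ℝ) → ℝ) (a b l C1 c1 C2 : ℝ),
    φ ∈ IsManifold.maximalAtlas 𝓘(ℝ, ℝ × ℝ) ∞ M ∧ ContDiff ℝ ∞ χ ∧ HasCompactSupport χ ∧ tsupport χ ⊆ φ.target ∧
    0 < l ∧ 0 ≤ C1 ∧ 0 < c1 ∧ 0 ≤ C2 ∧ bx a b l ⊆ φ.target ∧ φ.symm '' bx a b l ∈ 𝓝 x ∧
    (∀ y ∈ bx a b l, ∀ᶠ z in 𝓝 y, χ z = 1) ∧ (∀ y ∈ bx a b l, dens g φ y ≤ C1) ∧
    (∀ y ∈ bx a b l, c1 ≤ dens g φ y) ∧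
    (∀ y ∈ bx a b l, gram g φ y 0 0 + gram g φ y 1 1 ≤ C2 * dens g φ y) := by
  have hφ : chartAt (ℝ × ℝ) x ∈ IsManifold.maximalAtlas 𝓘(ℝ, ℝ × ℝ) ∞ M := IsManifold.chart_mem_maximalAtlas x
  obtain ⟨φ, hφe⟩ : ∃ φ, φ = chartAt (ℝ × ℝ) x := ⟨_, rfl⟩
  rw [← hφe] at hφ
  have hx : x ∈ φ.source := by rw [hφe]; exact mem_chart_source (ℝ × ℝ) x
  obtain ⟨r, hr, hball⟩ := Metric.nhds_basis_closedBall.mem_iff.1 (φ.open_target.mem_nhds (φ.map_source hx))
  let χ : ContDiffBump (φ x) := ⟨r / 2, r, by positivity, by linarith⟩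
  have hK : IsCompact (Metric.closedBall (φ x) (r / 2)) := isCompact_closedBall _ _
  have hKt : Metric.closedBall (φ x) (r / 2) ⊆ φ.target :=
    (Metric.closedBall_subset_closedBall (by linarith)).trans hball
  have hne : (Metric.closedBall (φ x) (r / 2)).Nonempty := ⟨φ x, Metric.mem_closedBall_self (by positivity)⟩
  obtain ⟨C1, hC1⟩ := hK.exists_bound_of_continuousOn ((dens_continuousOn hφ g).mono hKt)
  obtain ⟨y1, hy1, hmin⟩ := hK.exists_isMinOn hne ((dens_continuousOn hφ g).mono hKt)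
  have hcont2 : ContinuousOn (fun y => (gram g φ y 0 0 + gram g φ y 1 1) / dens g φ y)
      (Metric.closedBall (φ x) (r / 2)) := by
    refine (((gram_contDiffOn hφ g 0 0).continuousOn.add (gram_contDiffOn hφ g 1 1).continuousOn).div
      (dens_continuousOn hφ g) (fun y hy => (dens_pos hφ g hy).ne')).mono hKt
  obtain ⟨C2, hC2⟩ := hK.exists_bound_of_continuousOn hcont2
  have hsub : bx ((φ x).1 - r / 8) ((φ x).2 - r / 8) (r / 4) ⊆ Metric.ball (φ x) (r / 2) := by
    intro y hy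
    obtain ⟨h1, h2⟩ := hy
    rw [Metric.mem_ball, Prod.dist_eq, Real.dist_eq, Real.dist_eq]
    have e1 : |y.1 - (φ x).1| ≤ r / 8 := abs_le.2 ⟨by linarith [h1.1], by linarith [h1.2]⟩
    have e2 : |y.2 - (φ x).2| ≤ r / 8 := abs_le.2 ⟨by linarith [h2.1], by linarith [h2.2]⟩
    exact max_lt (by linarith) (by linarith)
  have hsubc : bx ((φ x).1 - r / 8) ((φ x).2 - r / 8) (r / 4) ⊆ Metric.closedBall (φ x) (r / 2) :=
    hsub.trans Metric.ball_subset_closedBall
  refine ⟨φ, χ, (φ x).1 - r / 8, (φ x).2 - r / 8, r / 4, |C1|, dens g φ y1, |C2|, hφ, χ.contDiff,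
    χ.hasCompactSupport, ?_, by positivity, abs_nonneg _, dens_pos hφ g (hKt hy1), abs_nonneg _,
    hsubc.trans hKt, ?_, ?_, ?_, ?_, ?_⟩
  · rw [χ.tsupport_eq]
    exact hball
  · have h1 : φ x ∈ {y : (ℝ × ℝ) | y.1 ∈ Ioo ((φ x).1 - r / 8) ((φ x).1 - r / 8 + r / 4) ∧
        y.2 ∈ Ioo ((φ x).2 - r / 8) ((φ x).2 - r / 8 + r / 4)} :=
      ⟨⟨by linarith, by linarith⟩, ⟨by linarith, by linarith⟩⟩
    have h2 : IsOpen {y : (ℝ × ℝ) | y.1 ∈ Ioo ((φ x).1 - r / 8) ((φ x).1 - r / 8 + r / 4) ∧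
        y.2 ∈ Ioo ((φ x).2 - r / 8) ((φ x).2 - r / 8 + r / 4)} := by
      have c0 : Continuous fun y : (ℝ × ℝ) => y.1 := by fun_prop
      have c1 : Continuous fun y : (ℝ × ℝ) => y.2 := by fun_prop
      exact (isOpen_Ioo.preimage c0).inter (isOpen_Ioo.preimage c1)
    have h3 : {y : (ℝ × ℝ) | y.1 ∈ Ioo ((φ x).1 - r / 8) ((φ x).1 - r / 8 + r / 4) ∧
        y.2 ∈ Ioo ((φ x).2 - r / 8) ((φ x).2 - r / 8 + r / 4)} ⊆ bx ((φ x).1 - r / 8) ((φ x).2 - r / 8) (r / 4) :=
      fun y hy => ⟨Ioo_subset_Ioc_self hy.1, Ioo_subset_Ioc_self hy.2⟩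
    have h4 := φ.symm.isOpen_image_of_subset_source h2 (h3.trans (hsubc.trans hKt))
    exact mem_of_superset (h4.mem_nhds ⟨φ x, h1, φ.left_inv hx⟩) (image_mono h3)
  · intro y hy
    filter_upwards [Metric.isOpen_ball.mem_nhds (hsub hy)] with z hz
    exact χ.one_of_mem_closedBall (Metric.ball_subset_closedBall hz)
  · intro y hy
    exact (le_abs_self _).trans ((hC1 y (hsubc hy)).trans (le_abs_self _))
  · intro y hy
    exact hmin (hsubc hy)
  · intro y hy
    have h1 := (le_abs_self _).trans (hC2 y (hsubc hy))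
    rw [div_le_iff₀ (dens_pos hφ g (hKt (hsubc hy)))] at h1
    exact h1.trans (mul_le_mul_of_nonneg_right (le_abs_self _) (dens_pos hφ g (hKt (hsubc hy))).le)

omit [T2Space M] in
lemma surf_m (g : Metric M) (μ : Measure M) [IsFiniteMeasure μ] (u : smoothAlg M) :
    (surf g).m μ u u = ∫ z, u.1 z ^ 2 ∂μ := by
  have h : (fun z => u.1 z ^ 2) = fun z => (u * u : smoothAlg M).1 z := by
    ext z
    change _ = u.1 z * u.1 z
    ring
  rw [h]
  rfl

include hμ in
omit [T2Space M] in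
/-- near each point the Poincare and Rellich properties hold -/
theorem local_props (x : M) : ∃ V ∈ 𝓝 x, MeasurableSet V ∧ (surf g).Pn μ V ∧ (surf g).Rl μ V := by
  obtain ⟨φ, χ, a, b, l, C1, c1, C2, hφ, hχ, hχc, hχs, hl, hC1, hc1, hC2, hsub, hnhds, hone, hb1, hb2, hb3⟩ :=
    local_data g x
  obtain ⟨Q, hQ⟩ : ∃ Q, Q = bx a b l := ⟨_, rfl⟩
  have hQm : MeasurableSet Q := by rw [hQ]; exact measurableSet_bx a b l
  rw [← hQ] at hsub hnhds hone hb1 hb2 hb3
  have hone' : ∀ y ∈ Q, χ y = 1 := fun y hy => (hone y hy).self_of_nhds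
  -- comparison of the `L²` norms
  have hL2 : ∀ (u : smoothAlg M) (m : ℝ), ∫ z in φ.symm '' Q, (u.1 z - m) ^ 2 ∂μ ≤
      C1 * ∫ y in Q, (loc φ χ u.1 y - m) ^ 2 := by
    intro u m
    have hW := loc_smooth hφ hχ hχc hχs u.2
    rw [setIntegral_chart hφ hμ hQm hsub (F := fun z => (u.1 z - m) ^ 2)
      ((u.2.continuous.sub continuous_const).pow 2), ← integral_const_mul]
    have hint : IntegrableOn (fun y => C1 * (loc φ χ u.1 y - m) ^ 2) Q := by
      rw [hQ]
      exact integrableOn_bx (continuous_const.mul ((hW.1.continuous.sub continuous_const).pow 2))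
    refine integral_mono_of_nonneg ?_ hint ?_
    · filter_upwards [ae_restrict_mem hQm] with y hy
      exact mul_nonneg (dens_pos hφ g (hsub hy)).le (sq_nonneg _)
    · filter_upwards [ae_restrict_mem hQm] with y hy
      beta_reduce
      rw [loc_eq (hsub hy) (hone' y hy)]
      exact mul_le_mul_of_nonneg_right (hb1 y hy) (sq_nonneg _)
  -- comparison of the energies
  have hE : ∀ u : smoothAlg M, ∫ y in Q, (pd 0 (loc φ χ u.1) y ^ 2 + pd 1 (loc φ χ u.1) y ^ 2) ≤
      C2 * (surf g).D μ u u := by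
    intro u
    have hW := loc_smooth hφ hχ hχc hχs u.2
    have hΓ := gradInner_contMDiff g u.2 u.2
    have h1 : ∫ z in φ.symm '' Q, gradInner g u.1 u.1 z ∂μ ≤ (surf g).D μ u u := by
      refine setIntegral_le_integral ((surf g).integrable ((surf g).Γ u u) μ) ?_
      exact Eventually.of_forall fun z => gradInner_nonneg g u.1 z
    refine le_trans ?_ (mul_le_mul_of_nonneg_left h1 hC2)
    rw [setIntegral_chart hφ hμ hQm hsub hΓ.continuous, ← integral_const_mul]
    have hint : IntegrableOn (fun y => C2 * (dens g φ y * gradInner g u.1 u.1 (φ.symm y))) Q := by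
      have hcont : ContinuousOn (fun y => C2 * (dens g φ y * gradInner g u.1 u.1 (φ.symm y))) φ.target :=
        continuousOn_const.mul ((dens_continuousOn hφ g).mul
          (hΓ.continuous.comp_continuousOn φ.continuousOn_symm))
      have hbd : ∃ B, ∀ y ∈ Q, |C2 * (dens g φ y * gradInner g u.1 u.1 (φ.symm y))| ≤ B := by
        obtain ⟨B, hB⟩ := (surf g).bdd ((surf g).Γ u u)
        refine ⟨C2 * (C1 * B), fun y hy => ?_⟩
        have hB' : |gradInner g u.1 u.1 (φ.symm y)| ≤ B := hB (φ.symm y)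
        rw [abs_mul, abs_mul, abs_of_nonneg hC2, abs_of_pos (dens_pos hφ g (hsub hy))]
        exact mul_le_mul_of_nonneg_left (mul_le_mul (hb1 y hy) hB' (abs_nonneg _) hC1) hC2
      obtain ⟨B, hB⟩ := hbd
      refine IntegrableOn.of_bound ?_ ((hcont.mono hsub).aestronglyMeasurable hQm) B ?_
      · rw [hQ]; exact bx_finite a b l
      · filter_upwards [ae_restrict_mem hQm] with y hy
        exact hB y hy
    refine integral_mono_of_nonneg (Eventually.of_forall fun y => by positivity) hint ?_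
    filter_upwards [ae_restrict_mem hQm] with y hy
    beta_reduce
    rw [loc_pd (hsub hy) (hone y hy), loc_pd (hsub hy) (hone y hy)]
    have h2 := grad_le (g := g) hφ u.2 (hsub hy)
    have h3 := mul_le_mul_of_nonneg_right (hb3 y hy) (gradInner_nonneg g u.1 (φ.symm y))
    linarith
  -- bound of integrals over parts
  have hA : ∀ (u : smoothAlg M) (S : Set (ℝ × ℝ)), MeasurableSet S → S ⊆ Q →
      (∫ y in S, loc φ χ u.1 y) ^ 2 ≤ (l * l / c1) * (surf g).m μ u u := by
    intro u S hS hSQ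
    have hW := loc_smooth hφ hχ hχc hχs u.2
    have hSb : S ⊆ bx a b l := by rw [← hQ]; exact hSQ
    have hi : IntegrableOn (loc φ χ u.1) S := (integrableOn_bx hW.1.continuous).mono_set hSb
    have hi2 : IntegrableOn (fun y => loc φ χ u.1 y ^ 2) S :=
      (integrableOn_bx (hW.1.continuous.pow 2)).mono_set hSb
    have hV : (volume S).toReal ≤ l * l := by
      rw [← bx_real_volume (a := a) (b := b) hl.le]
      exact ENNReal.toReal_mono (bx_finite a b l).ne (measure_mono hSb)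
    have h1 := sq_setIntegral_le ((measure_mono hSb).trans_lt (bx_finite a b l)) hV hi hi2
    have h2 : ∫ y in S, loc φ χ u.1 y ^ 2 ≤ c1⁻¹ * (surf g).m μ u u := by
      have h3 : ∫ z in φ.symm '' S, u.1 z ^ 2 ∂μ ≤ (surf g).m μ u u := by
        rw [surf_m]
        refine setIntegral_le_integral ?_ (Eventually.of_forall fun z => sq_nonneg _)
        exact (surf g).integrable (u ^ 2 : smoothAlg M) μ
      refine le_trans ?_ (mul_le_mul_of_nonneg_left h3 (inv_nonneg.2 hc1.le))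
      rw [setIntegral_chart hφ hμ hS (hSQ.trans hsub) (F := fun z => u.1 z ^ 2)
        (u.2.continuous.pow 2), ← integral_const_mul]
      have hint : IntegrableOn (fun y => c1⁻¹ * (dens g φ y * u.1 (φ.symm y) ^ 2)) S := by
        obtain ⟨B, hB⟩ := (surf g).bdd u
        have hcont : ContinuousOn (fun y => c1⁻¹ * (dens g φ y * u.1 (φ.symm y) ^ 2)) φ.target :=
          continuousOn_const.mul ((dens_continuousOn hφ g).mul
            ((u.2.continuous.comp_continuousOn φ.continuousOn_symm).pow 2))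
        refine IntegrableOn.of_bound ((measure_mono hSb).trans_lt (bx_finite a b l))
          ((hcont.mono (hSQ.trans hsub)).aestronglyMeasurable hS) (c1⁻¹ * (C1 * B ^ 2)) ?_
        filter_upwards [ae_restrict_mem hS] with y hy
        have hB' : |u.1 (φ.symm y)| ≤ B := hB (φ.symm y)
        rw [Real.norm_eq_abs, abs_mul, abs_mul, abs_of_pos (inv_pos.2 hc1),
          abs_of_pos (dens_pos hφ g (hsub (hSQ hy))), abs_pow]
        exact mul_le_mul_of_nonneg_left (mul_le_mul (hb1 y (hSQ hy))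
          (pow_le_pow_left₀ (abs_nonneg _) hB' 2) (by positivity) hC1) (inv_nonneg.2 hc1.le)
      refine integral_mono_of_nonneg (Eventually.of_forall fun y => sq_nonneg _) hint ?_
      filter_upwards [ae_restrict_mem hS] with y hy
      beta_reduce
      rw [loc_eq (hsub (hSQ hy)) (hone' y (hSQ hy)), inv_mul_eq_div, le_div_iff₀ hc1, mul_comm]
      exact mul_le_mul_of_nonneg_right (hb2 y (hSQ hy)) (sq_nonneg _)
    refine h1.trans ?_
    have h3 := mul_le_mul_of_nonneg_left h2 (by positivity : (0 : ℝ) ≤ l * l)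
    refine h3.trans (le_of_eq ?_)
    ring
  refine ⟨φ.symm '' Q, hnhds, measurableSet_symm_image hQm hsub, ?_, ?_⟩
  · -- Poincare
    refine ⟨C1 * (l ^ 2 * C2), by positivity, fun (u : smoothAlg M) => ?_⟩
    obtain ⟨m, hm⟩ := bx_poincare (a := a) (b := b) hl (loc_smooth hφ hχ hχc hχs u.2).1
    rw [← hQ] at hm
    refine ⟨m, (hL2 u m).trans ?_⟩
    have h1 := mul_le_mul_of_nonneg_left (hm.trans (mul_le_mul_of_nonneg_left (hE u) (sq_nonneg l))) hC1
    refine h1.trans (le_of_eq ?_)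
    ring
  · -- Rellich
    intro ε hε
    obtain ⟨N, hN0, hN⟩ : ∃ N : ℕ, 0 < N ∧ C1 * ((l / N) ^ 2 * C2) ≤ ε := by
      obtain ⟨N, hN⟩ := exists_nat_gt (C1 * (l ^ 2 * C2) / ε + 1)
      have hpos : 0 ≤ C1 * (l ^ 2 * C2) / ε := by positivity
      have hN1 : (1 : ℝ) < N := by linarith
      refine ⟨N, by exact_mod_cast (by linarith : (0 : ℝ) < N), ?_⟩
      have h1 : C1 * (l ^ 2 * C2) ≤ N * ε := by
        rw [← div_le_iff₀ hε]; linarith
      have h2 : C1 * ((l / N) ^ 2 * C2) = C1 * (l ^ 2 * C2) / (N * N) := by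
        field_simp
      rw [h2, div_le_iff₀ (by nlinarith)]
      nlinarith [mul_pos (by linarith : (0 : ℝ) < N) hε]
    have hlin : ∀ i j : ℕ, ∃ A : (surf g).S →ₗ[ℝ] ℝ, ∀ u : smoothAlg M,
        A u = ∫ y in bx (a + i * (l / N)) (b + j * (l / N)) (l / N), loc φ χ u.1 y := by
      intro i j
      refine ⟨{ toFun := fun u : smoothAlg M => ∫ y in bx (a + i * (l / N)) (b + j * (l / N)) (l / N),
                  loc φ χ u.1 y, map_add' := ?_, map_smul' := ?_ }, fun u => rfl⟩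
      · intro (u : smoothAlg M) (v : smoothAlg M)
        rw [← integral_add (integrableOn_bx (loc_smooth hφ hχ hχc hχs u.2).1.continuous)
          (integrableOn_bx (loc_smooth hφ hχ hχc hχs v.2).1.continuous)]
        congr 1
        ext y
        unfold loc
        by_cases hy : y ∈ φ.target
        · rw [indicator_of_mem hy, indicator_of_mem hy, indicator_of_mem hy]
          change χ y * (u.1 _ + v.1 _) = _
          ring
        · rw [indicator_of_notMem hy, indicator_of_notMem hy, indicator_of_notMem hy, add_zero]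
      · intro c (u : smoothAlg M)
        rw [RingHom.id_apply, smul_eq_mul, ← integral_const_mul]
        congr 1
        ext y
        unfold loc
        by_cases hy : y ∈ φ.target
        · rw [indicator_of_mem hy, indicator_of_mem hy]
          change χ y * (c * u.1 _) = _
          ring
        · rw [indicator_of_notMem hy, indicator_of_notMem hy, mul_zero]
    choose A hA' using hlin
    have hsubbox : ∀ i j : ℕ, i < N → j < N → bx (a + i * (l / N)) (b + j * (l / N)) (l / N) ⊆ Q := by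
      intro i j hi hj y hy
      rw [hQ]
      have hN' : (0 : ℝ) < N := by exact_mod_cast hN0
      have key : ∀ k : ℕ, k < N → 0 ≤ k * (l / N) ∧ k * (l / N) + l / N ≤ l := by
        intro k hk
        refine ⟨by positivity, ?_⟩
        have h1 : (k : ℝ) + 1 ≤ N := by exact_mod_cast hk
        have h2 : k * (l / N) + l / N = (k + 1) * (l / N) := by ring
        rw [h2]
        calc ((k : ℝ) + 1) * (l / N) ≤ N * (l / N) := mul_le_mul_of_nonneg_right h1 (by positivity)
          _ = l := by field_simp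
      obtain ⟨h1, h2⟩ := key i hi
      obtain ⟨h3, h4⟩ := key j hj
      exact ⟨⟨by linarith [hy.1.1], by linarith [hy.1.2]⟩, ⟨by linarith [hy.2.1], by linarith [hy.2.2]⟩⟩
    obtain ⟨K, hK⟩ : ∃ K, K = l * l / c1 + C1 * ((l / N) ^ 2)⁻¹ := ⟨_, rfl⟩
    have hK1 : l * l / c1 ≤ K := by rw [hK]; have : 0 ≤ C1 * ((l / N) ^ 2)⁻¹ := by positivity
                                    linarith
    have hK2 : C1 * ((l / N) ^ 2)⁻¹ ≤ K := by rw [hK]; have : 0 ≤ l * l / c1 := by positivity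
                                              linarith
    refine ⟨Fin N × Fin N, inferInstance, K, fun p => A p.1 p.2, (by positivity : 0 ≤ l * l / c1).trans hK1,
      fun p (u : smoothAlg M) => ?_, fun (u : smoothAlg M) => ?_⟩
    · rw [hA' p.1 p.2 u]
      exact (hA u _ (measurableSet_bx _ _ _) (hsubbox _ _ p.1.2 p.2.2)).trans
        (mul_le_mul_of_nonneg_right hK1 ((surf g).m_nonneg μ u))
    · have h1 := bx_subdiv (a := a) (b := b) hl hN0 (loc_smooth hφ hχ hχc hχs u.2).1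
      rw [← hQ] at h1
      have h2 : ∑ p : Fin N × Fin N, (A p.1 p.2 u) ^ 2 = ∑ i ∈ Finset.range N, ∑ j ∈ Finset.range N,
          (∫ y in bx (a + i * (l / N)) (b + j * (l / N)) (l / N), loc φ χ u.1 y) ^ 2 := by
        rw [Fintype.sum_prod_type, Finset.sum_range]
        refine Finset.sum_congr rfl fun i _ => ?_
        rw [Finset.sum_range]
        refine Finset.sum_congr rfl fun j _ => ?_
        rw [hA' i j u]
      rw [← h2] at h1
      have h3 := hL2 u 0
      simp only [sub_zero] at h3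
      have h4 : 0 ≤ ∑ p : Fin N × Fin N, (A p.1 p.2 u) ^ 2 := Finset.sum_nonneg fun p _ => sq_nonneg _
      have h5 := mul_le_mul_of_nonneg_left (hE u) (sq_nonneg (l / N))
      have h6 := mul_le_mul_of_nonneg_left (h1.trans (add_le_add_right h5 _)) hC1
      have h7 := mul_le_mul_of_nonneg_right hN ((surf g).D_nonneg μ u)
      have h8 := mul_le_mul_of_nonneg_right hK2 h4
      have h9 : C1 * (((l / N) ^ 2)⁻¹ * ∑ p : Fin N × Fin N, (A p.1 p.2 u) ^ 2 +
          (l / N) ^ 2 * (C2 * (surf g).D μ u u)) =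
          C1 * ((l / N) ^ 2)⁻¹ * ∑ p : Fin N × Fin N, (A p.1 p.2 u) ^ 2 +
          C1 * ((l / N) ^ 2 * C2) * (surf g).D μ u u := by ring
      rw [h9] at h6
      have h10 := h3.trans h6
      refine h10.trans ?_
      rw [add_comm]
      exact add_le_add h7 h8

end Pool.Agent.Helper89.Stek
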