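import Pool.Agent.Helper89.Stek.MainA

/-!
The strict comparison of Steklov and conformal Laplace eigenvalues.
-/

set_option autoImplicit false

open scoped Manifold ContDiff ENNReal Topology
open MeasureTheory Bundle Set Filter

namespace Pool.Agent.Helper89.Stek

variable {M : Type*} [TopologicalSpace M] [ChartedSpace (ℝ × ℝ) M] [IsManifold 𝓘(ℝ, ℝ × ℝ) ∞ M]
  [MeasurableSpace M] [BorelSpace M] [CompactSpace M] [T2Space M] [ConnectedSpace M]

lemma surf_D (g : Metric M) (μ : Measure M) [IsFiniteMeasure μ] (u : smoothAlg M) :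
    (surf g).D μ u u = ∫ z, gradSq g u.1 z ∂μ := rfl

/-- there are spaces of smooth functions of every dimension -/
lemma exists_space (f : smoothAlg M) {x y : M} (hne : f.1 x ≠ f.1 y) (k : ℕ) :
    ∃ E : Submodule ℝ (smoothAlg M), FiniteDimensional ℝ E ∧ Module.finrank ℝ E = k := by
  have hinf : (range f.1).Infinite := by
    have h1 : IsPreconnected (range f.1) := isPreconnected_range f.2.continuous
    wlog hlt : f.1 x < f.1 y generalizing x y
    · exact this (x := y) (y := x) hne.symm (lt_of_le_of_ne (not_lt.1 hlt) hne.symm)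
    · exact (Icc_infinite hlt).mono (h1.Icc_subset (mem_range_self x) (mem_range_self y))
  have hli : LinearIndependent ℝ (fun i : Fin k => f ^ (i : ℕ)) := by
    rw [Fintype.linearIndependent_iff]
    intro c hc i
    obtain ⟨p, hp⟩ : ∃ p : Polynomial ℝ, p = ∑ i : Fin k, Polynomial.C (c i) * Polynomial.X ^ (i : ℕ) :=
      ⟨_, rfl⟩
    have hroot : ∀ z : M, p.eval (f.1 z) = 0 := by
      intro z
      have h2 := congrArg (fun w : smoothAlg M => w.1 z) hc
      have h3 : ((∑ i : Fin k, c i • f ^ (i : ℕ) : smoothAlg M) : M → ℝ) z = ∑ i : Fin k, c i * f.1 z ^ (i : ℕ) := by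
        rw [AddSubmonoidClass.coe_finsetSum, Finset.sum_apply]
        rfl
      rw [hp, Polynomial.eval_finsetSum]
      simp only [Polynomial.eval_mul, Polynomial.eval_C, Polynomial.eval_pow, Polynomial.eval_X]
      rw [← h3]
      exact h2
    have hp0 : p = 0 := by
      refine Polynomial.eq_zero_of_infinite_isRoot p (hinf.mono ?_)
      rintro _ ⟨z, rfl⟩
      exact hroot z
    have h4 : p.coeff (i : ℕ) = c i := by
      rw [hp, Polynomial.finset_sum_coeff]
      simp only [Polynomial.coeff_C_mul, Polynomial.coeff_X_pow]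
      rw [Finset.sum_eq_single i]
      · simp
      · intro j _ hji
        have : (i : ℕ) ≠ (j : ℕ) := fun h => hji (Fin.ext h.symm)
        simp [this]
      · simp
    rw [← h4, hp0]
    simp
  exact ⟨Submodule.span ℝ (range fun i : Fin k => f ^ (i : ℕ)),
    FiniteDimensional.span_of_finite ℝ (finite_range _), by
    rw [finrank_span_eq_card hli, Fintype.card_fin]⟩

lemma exists_length_frontier (g : Metric M) {Ω : Set M} (hΩ : IsSmoothDomain Ω) :
    ∃ ν : Measure M, IsLengthMeasure g (frontier Ω) ν := by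
  obtain ⟨f, hf, _, hzero, hd⟩ := exists_defining hΩ
  have h1 : frontier Ω = {z | f z = 0} := by ext z; exact hzero z
  rw [h1]
  exact exists_length g hf hd

lemma isLengthMeasure_lengthMeasure (g : Metric M) {Ω : Set M} (hΩ : IsSmoothDomain Ω) :
    IsLengthMeasure g (frontier Ω) (lengthMeasure g (frontier Ω)) :=
  Classical.epsilon_spec (exists_length_frontier g hΩ)

/-- The main theorem, for one conformal metric. -/
theorem steklov_lt_laplace (g : Metric M) {Ω : Set M} (hΩ : IsSmoothDomain Ω) {k : ℕ} (hk : 1 ≤ k) :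
    ∃ h : Metric M, IsConformal g h ∧ steklov g Ω k * bdryLength g Ω < laplace h k * area h := by
  obtain ⟨μ, hμe⟩ : ∃ μ, μ = areaMeasure g := ⟨_, rfl⟩
  obtain ⟨ν, hνe⟩ : ∃ ν, ν = lengthMeasure g (frontier Ω) := ⟨_, rfl⟩
  have hμ : IsAreaMeasure g μ := by rw [hμe]; exact isAreaMeasure_areaMeasure g
  obtain ⟨f, hneg, hzero, hΓ1⟩ := exists_normalised g hΩ
  have hfr : frontier Ω = {z | f.1 z = 0} := by ext z; exact hzero z
  have hν : IsLengthMeasure g {z | f.1 z = 0} ν := by
    rw [hνe, ← hfr]; exact isLengthMeasure_lengthMeasure g hΩ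
  have hd : ∀ z, f.1 z = 0 → dd f.1 z ≠ 0 := fun z hz =>
    dd_ne_zero (g := g) (by rw [hΓ1 z hz]; exact one_ne_zero)
  have hfin := area_finite hμ
  have hfinν := length_finite f.2 hd hν
  obtain ⟨Lf, hg⟩ := exists_green hμ f
  have hco := surf_coarea hμ f hd hΓ1 hν
  obtain ⟨r, hr, hlow⟩ := exists_r g f hΓ1
  obtain ⟨x0, hx0⟩ := hΩ.nonempty
  have hx0' : f.1 x0 = 0 := (hzero x0).1 hx0
  have hm1 : ∀ (κ : Measure M) [IsFiniteMeasure κ], (surf g).m κ 1 1 = (κ univ).toReal := by
    intro κ _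
    have h1 : (surf g).m κ 1 1 = ∫ z, (1 : smoothAlg M).1 z ^ 2 ∂κ := surf_m g κ 1
    rw [h1]
    have h2 : ∀ z : M, (1 : smoothAlg M).1 z ^ 2 = 1 := fun z => by
      change (1 : ℝ) ^ 2 = 1
      norm_num
    simp_rw [h2]
    rw [integral_const, smul_eq_mul, mul_one]
    rfl
  have hlen : 0 < (surf g).m ν 1 1 := by
    rw [hm1 ν]
    exact ENNReal.toReal_pos (length_pos f.2 hd hν hx0').ne' (measure_ne_top _ _)
  have hfν : ∀ᵐ z ∂ν, z ∈ frontier Ω := by
    rw [hfr]
    exact hν.1
  -- the Steklov value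
  obtain ⟨σ, hσe⟩ : ∃ σ, σ = steklov g Ω k := ⟨_, rfl⟩
  have hσ : ∀ E : Submodule ℝ (surf g).S, Module.finrank ℝ E = k + 1 →
      (∀ u ∈ E, (surf g).m ν u u = 0 → u = 0) → ∀ Λ : ℝ,
      (∀ u ∈ E, (surf g).D μ u u ≤ Λ * (surf g).m ν u u) → σ ≤ Λ := by
    intro E hE hnd Λ hΛ
    have hΛ0 : 0 ≤ Λ := by
      obtain ⟨u, huE, hu0, -⟩ := exists_ne_zero_of_finrank (n := 0) (k := k + 1) (by omega) E hE
        (fun i => i.elim0)
      have h1 := hΛ u huE
      have h2 := (surf g).D_nonneg μ u
      have h3 : 0 < (surf g).m ν u u := by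
        rcases ((surf g).m_nonneg ν u).lt_or_eq with h4 | h4
        · exact h4
        · exact absurd (hnd u huE h4.symm) hu0
      by_contra hcon
      push Not at hcon
      nlinarith
    rw [hσe]
    refine csInf_le ⟨0, fun Λ' h => h.1⟩ ⟨hΛ0, E.map (smoothAlg M).val.toLinearMap, ?_, ?_, ?_, ?_⟩
    · exact (finrank_map_val (S := smoothAlg M) E).trans hE
    · rintro _ ⟨(u : smoothAlg M), hu, rfl⟩
      exact u.2
    · rintro _ ⟨(u : smoothAlg M), hu, rfl⟩ h0
      have h1 : (surf g).m ν u u = 0 := by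
        refine (surf_m g ν u).trans (integral_eq_zero_of_ae ?_)
        filter_upwards [hfν] with z hz
        have h2 : u.1 z = 0 := h0 z hz
        rw [h2]
        simp
      have h3 := hnd u hu h1
      rw [h3]
      rfl
    · rintro _ ⟨(u : smoothAlg M), hu, rfl⟩
      have h1 : ∫ z in Ω, gradSq g u.1 z ∂areaMeasure g ≤ (surf g).D μ u u := by
        rw [← hμe]
        exact setIntegral_le_integral ((surf g).integrable ((surf g).Γ u u) μ)
          (Eventually.of_forall fun z => gradInner_nonneg g u.1 z)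
      have h2 := hΛ u hu
      have h3 : (surf g).m ν u u = ∫ z, u.1 z ^ 2 ∂lengthMeasure g (frontier Ω) := by
        rw [← hνe]
        exact surf_m g ν u
      refine (h1.trans h2).trans (le_of_eq ?_)
      rw [h3]
      rfl
  obtain ⟨(ρ : smoothAlg M), hρ0, P, hP, hmain⟩ := (surf g).abstract_main hg hco hν.1 hr hlow hlen (surf_hpoin hμ)
    (fun ε hε => surf_hrell hμ ε hε) (surf_hdef hμ) hk hσ
  -- the conformal metric
  have hρs : ContMDiff 𝓘(ℝ, ℝ × ℝ) 𝓘(ℝ) ∞ ρ.1 := ρ.2
  obtain ⟨hm, hhm⟩ : ∃ hm : Metric M, hm = conf g ρ.1 hρs hρ0 := ⟨_, rfl⟩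
  have hareah : areaMeasure hm = μ.withDensity fun x => ENNReal.ofReal (ρ.1 x) := by
    refine area_unique (isAreaMeasure_areaMeasure hm) ?_
    rw [hhm]
    exact conf_area hμ
  have hρc : Continuous ρ.1 := hρs.continuous
  have hint : ∀ F : M → ℝ, ∫ z, F z ∂areaMeasure hm = ∫ z, ρ.1 z * F z ∂μ := by
    intro F
    rw [hareah, integral_withDensity_eq_integral_toReal_smul hρc.measurable.ennreal_ofReal
      (Eventually.of_forall fun _ => ENNReal.ofReal_lt_top)]
    congr 1
    ext z
    rw [ENNReal.toReal_ofReal (hρ0 z).le, smul_eq_mul]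
  have harea : area hm = ∫ z, ρ.1 z ∂μ := by
    have h1 := hint fun _ => 1
    rw [integral_const, smul_eq_mul, mul_one] at h1
    simp only [mul_one] at h1
    exact h1
  have harea0 : 0 ≤ area hm := ENNReal.toReal_nonneg
  refine ⟨hm, by rw [hhm]; exact conf_isConformal, ?_⟩
  have hle : P ≤ laplace hm k := by
    refine le_csInf ?_ ?_
    · -- nonempty
      obtain ⟨x1, hx1⟩ := hΩ.isConnected.nonempty
      have hne : f.1 x1 ≠ f.1 x0 := by
        rw [hx0']
        exact ((hneg x1).1 hx1).ne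
      obtain ⟨E, hfd, hE⟩ := exists_space f hne (k + 1)
      have hfin' := area_finite (isAreaMeasure_areaMeasure hm)
      obtain ⟨Λ, hΛ0, hΛ⟩ := exists_ratio (V := E)
        (((surf hm).D (areaMeasure hm)).domRestrict₁₂ E E) (((surf hm).m (areaMeasure hm)).domRestrict₁₂ E E)
        (fun u v => (surf hm).m_symm (areaMeasure hm) u.1 v.1)
        (fun u => (surf hm).m_nonneg (areaMeasure hm) u.1)
        (fun u hu => by
          have := surf_hdef (isAreaMeasure_areaMeasure hm) (u : smoothAlg M) hu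
          exact Subtype.ext this)
      refine ⟨Λ, hΛ0, E.map (smoothAlg M).val.toLinearMap, ?_, ?_, ?_⟩
      · exact (finrank_map_val (S := smoothAlg M) E).trans hE
      · rintro _ ⟨u, hu, rfl⟩
        exact u.2
      · rintro _ ⟨u, hu, rfl⟩
        have h1 := hΛ ⟨u, hu⟩
        have h2 : (surf hm).m (areaMeasure hm) u u = ∫ z, u.1 z ^ 2 ∂areaMeasure hm :=
          surf_m hm (areaMeasure hm) u
        have h3 : (surf hm).D (areaMeasure hm) u u = ∫ z, gradSq hm u.1 z ∂areaMeasure hm := rfl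
        change (surf hm).D (areaMeasure hm) u u ≤ Λ * (surf hm).m (areaMeasure hm) u u at h1
        rw [h2, h3] at h1
        exact h1
    · rintro Λ ⟨_, E', hE', hsm, hle'⟩
      have hmap : (E'.comap (surf g).S.val.toLinearMap).map (surf g).S.val.toLinearMap = E' := by
        rw [Submodule.map_comap_eq, inf_eq_right]
        intro u hu
        exact ⟨⟨u, hsm u hu⟩, rfl⟩
      refine hmain (E'.comap (surf g).S.val.toLinearMap) ?_ Λ fun (u : smoothAlg M) hu => ?_
      · refine (finrank_map_val (S := (surf g).S) _).symm.trans ?_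
        rw [hmap, hE']
      · have h1 := hle' u.1 hu
        rw [hint, hint] at h1
        have h2 : (surf g).D μ u u = ∫ z, ρ.1 z * gradSq hm u.1 z ∂μ := by
          refine (surf_D g μ u).trans ?_
          congr 1
          ext z
          rw [hhm, conf_gradSq, ← mul_assoc, mul_inv_cancel₀ (hρ0 z).ne', one_mul]
        have h3 : ∫ z, (u * u * ρ : smoothAlg M).1 z ∂μ = ∫ z, ρ.1 z * u.1 z ^ 2 ∂μ := by
          congr 1
          ext z
          change u.1 z * u.1 z * ρ.1 z = _
          ring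
        refine (le_of_eq h2).trans (h1.trans (le_of_eq ?_))
        rw [← h3]
        rfl
  have h1 : steklov g Ω k * bdryLength g Ω = σ * (surf g).m ν 1 1 := by
    rw [hm1 ν, hσe]
    unfold bdryLength
    rw [← hνe]
  rw [h1]
  refine hP.trans_le ?_
  rw [← harea]
  exact mul_le_mul_of_nonneg_right hle harea0

/-- The strict comparison of Steklov and conformal Laplace eigenvalues. -/
theorem steklov_lt_conformalSup (g : Metric M) {Ω : Set M} (hΩ : IsSmoothDomain Ω) {k : ℕ} (hk : 1 ≤ k) :
    ((steklov g Ω k * bdryLength g Ω : ℝ) : EReal) < conformalSup g k := by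
  obtain ⟨h, hconf, hlt⟩ := steklov_lt_laplace g hΩ hk
  refine lt_of_lt_of_le (EReal.coe_lt_coe_iff.2 hlt) ?_
  exact le_iSup (fun h : {h : Metric M // IsConformal g h} => ((laplace h.1 k * area h.1 : ℝ) : EReal)) ⟨h, hconf⟩

end Pool.Agent.Helper89.Stek
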