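import Pool.Agent.Helper89.Stek.Conf
import Pool.Agent.Helper89.Stek.Glue
import Pool.Agent.Helper89.Stek.CoareaB
import Pool.Agent.Helper89.Stek.Global

/-!
Preparations for the main theorem: normalised defining functions, finite Rayleigh quotients.
-/

set_option autoImplicit false

open scoped Manifold ContDiff ENNReal Topology
open MeasureTheory Bundle Set Filter

namespace Pool.Agent.Helper89.Stek

lemma exists_ratio_normed {V : Type*} [NormedAddCommGroup V] [InnerProductSpace ℝ V]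
    [FiniteDimensional ℝ V] (D : V →ₗ[ℝ] V →ₗ[ℝ] ℝ) :
    ∃ Λ, 0 ≤ Λ ∧ ∀ u, D u u ≤ Λ * (‖u‖ * ‖u‖) := by
  let T : V →L[ℝ] (V →L[ℝ] ℝ) :=
    LinearMap.toContinuousLinearMap ((LinearMap.toContinuousLinearMap :
      (V →ₗ[ℝ] ℝ) ≃ₗ[ℝ] (V →L[ℝ] ℝ)).toLinearMap ∘ₗ D)
  refine ⟨‖T‖, T.opNorm_nonneg, fun u => ?_⟩
  have h1 := T.le_opNorm₂ u u
  have h2 : T u u = D u u := rfl
  rw [h2] at h1
  rw [← mul_assoc]
  exact (le_abs_self _).trans h1

/-- two quadratic forms on a finite-dimensional space -/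
lemma exists_ratio {V : Type*} [AddCommGroup V] [Module ℝ V] [FiniteDimensional ℝ V]
    (D m : V →ₗ[ℝ] V →ₗ[ℝ] ℝ) (hms : ∀ u v, m u v = m v u) (hm0 : ∀ u, 0 ≤ m u u)
    (hdef : ∀ u, m u u = 0 → u = 0) : ∃ Λ, 0 ≤ Λ ∧ ∀ u, D u u ≤ Λ * m u u := by
  obtain ⟨H, _, _, _, ι, _, hι⟩ := exists_hilbert m hms hm0
  have hinj : Function.Injective ι := by
    rw [injective_iff_map_eq_zero]
    intro u hu
    apply hdef
    rw [← hι, hu, inner_zero_left]
  let e := LinearEquiv.ofInjective ι hinj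
  obtain ⟨Λ, hΛ0, hΛ⟩ := exists_ratio_normed (V := LinearMap.range ι)
    (D.compl₁₂ e.symm.toLinearMap e.symm.toLinearMap)
  refine ⟨Λ, hΛ0, fun u => ?_⟩
  have h1 := hΛ (e u)
  have h2 : (D.compl₁₂ e.symm.toLinearMap e.symm.toLinearMap) (e u) (e u) = D u u := by
    change D (e.symm (e u)) (e.symm (e u)) = D u u
    rw [e.symm_apply_apply]
  have h3 : m u u = ‖e u‖ * ‖e u‖ := by
    rw [← hι, real_inner_self_eq_norm_mul_norm]; rfl
  rw [h2] at h1
  rw [h3]
  exact h1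

variable {M : Type*} [TopologicalSpace M] [ChartedSpace (ℝ × ℝ) M] [IsManifold 𝓘(ℝ, ℝ × ℝ) ∞ M]

lemma grad_ne_zero {g : Metric M} {f : M → ℝ} {z : M} (h : dd f z ≠ 0) : 0 < gradInner g f f z := by
  refine g.pos z _ fun h0 => h ?_
  ext v
  rw [← grad_spec' g f z v, h0, map_zero]

lemma dd_ne_zero {g : Metric M} {f : M → ℝ} {z : M} (h : gradInner g f f z ≠ 0) : dd f z ≠ 0 := by
  intro h0
  apply h
  have h1 : gradInner g f f z = dd f z (grad g f z) := gradInner_eq g f f z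
  rw [h1, h0]
  rfl

/-- normalised defining function -/
theorem exists_normalised [CompactSpace M] [T2Space M] (g : Metric M) {Ω : Set M} (hΩ : IsSmoothDomain Ω) :
    ∃ f : smoothAlg M, (∀ z, z ∈ Ω ↔ f.1 z < 0) ∧ (∀ z, z ∈ frontier Ω ↔ f.1 z = 0) ∧
      (∀ z, f.1 z = 0 → gradInner g f.1 f.1 z = 1) := by
  obtain ⟨f0, hf0, hneg, hzero, hd⟩ := exists_defining hΩ
  obtain ⟨N, hN⟩ : ∃ N : M → ℝ, N = fun z => gradInner g f0 f0 z + f0 z ^ 2 := ⟨_, rfl⟩
  have hNs : ContMDiff 𝓘(ℝ, ℝ × ℝ) 𝓘(ℝ) ∞ N := by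
    rw [hN]
    exact (gradInner_contMDiff g hf0 hf0).add (hf0.pow 2)
  have hNpos : ∀ z, 0 < N z := by
    intro z
    rw [hN]
    have h1 := gradInner_nonneg g f0 z
    by_cases h0 : f0 z = 0
    · have := grad_ne_zero (g := g) (hd z h0)
      have h2 := sq_nonneg (f0 z)
      linarith
    · have : 0 < f0 z ^ 2 := by positivity
      linarith
  obtain ⟨w, hw⟩ : ∃ w : M → ℝ, w = fun z => (Real.sqrt (N z))⁻¹ := ⟨_, rfl⟩
  have hws : ContMDiff 𝓘(ℝ, ℝ × ℝ) 𝓘(ℝ) ∞ w := by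
    intro z
    have h1 : ContDiffAt ℝ ∞ (fun x : ℝ => (Real.sqrt x)⁻¹) (N z) :=
      (contDiffAt_id.sqrt (hNpos z).ne').inv (Real.sqrt_pos.2 (hNpos z)).ne'
    have h2 := ContMDiffAt.comp z h1.contMDiffAt (hNs z)
    rw [hw]
    exact h2
  have hwpos : ∀ z, 0 < w z := fun z => by rw [hw]; exact inv_pos.2 (Real.sqrt_pos.2 (hNpos z))
  refine ⟨⟨fun z => f0 z * w z, hf0.mul hws⟩, fun z => ?_, fun z => ?_, fun z hz => ?_⟩
  · rw [hneg z]
    change _ ↔ f0 z * w z < 0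
    exact ⟨fun h => mul_neg_of_neg_of_pos h (hwpos z), fun h => by
      by_contra hcon
      push Not at hcon
      exact absurd h (not_lt.2 (mul_nonneg hcon (hwpos z).le))⟩
  · rw [hzero z]
    change _ ↔ f0 z * w z = 0
    rw [mul_eq_zero_iff_right (hwpos z).ne']
  · have hz0 : f0 z = 0 := (mul_eq_zero_iff_right (hwpos z).ne').1 hz
    have hgrad : grad g (fun z => f0 z * w z) z = w z • grad g f0 z := by
      have h1 := grad_mul g (hf0.mdifferentiable (by simp) z) (hws.mdifferentiable (by simp) z)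
      rw [hz0, zero_smul, zero_add] at h1
      exact h1
    change g.inner z (grad g (fun z => f0 z * w z) z) (grad g (fun z => f0 z * w z) z) = 1
    rw [hgrad, map_smul, map_smul]
    change w z * (w z * gradInner g f0 f0 z) = 1
    have h2 : gradInner g f0 f0 z = N z := by rw [hN]; simp [hz0]
    have h3 : w z * w z = (N z)⁻¹ := by
      rw [hw]
      beta_reduce
      rw [← mul_inv, Real.mul_self_sqrt (hNpos z).le]
    rw [h2, ← mul_assoc, h3, inv_mul_cancel₀ (hNpos z).ne']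

lemma exists_r [CompactSpace M] (g : Metric M) (f : smoothAlg M)
    (h1 : ∀ z, f.1 z = 0 → gradInner g f.1 f.1 z = 1) :
    ∃ r > 0, ∀ x, |f.1 x| ≤ 2 * r → 1 / 2 ≤ gradInner g f.1 f.1 x := by
  have hc := (gradInner_contMDiff g f.2 f.2).continuous
  have hK : IsCompact {x | gradInner g f.1 f.1 x ≤ 1 / 2} := (isClosed_le hc continuous_const).isCompact
  rcases {x | gradInner g f.1 f.1 x ≤ 1 / 2}.eq_empty_or_nonempty with h0 | h0
  · refine ⟨1, one_pos, fun x _ => ?_⟩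
    by_contra hcon
    push Not at hcon
    have : x ∈ {x | gradInner g f.1 f.1 x ≤ 1 / 2} := hcon.le
    rw [h0] at this
    exact this
  · obtain ⟨y, hy, hmin⟩ := hK.exists_isMinOn h0 f.2.continuous.abs.continuousOn
    have hpos : 0 < |f.1 y| := by
      rw [abs_pos]
      intro hy0
      have h2 : gradInner g f.1 f.1 y ≤ 1 / 2 := hy
      rw [h1 y hy0] at h2
      norm_num at h2
    refine ⟨|f.1 y| / 4, by positivity, fun x hx => ?_⟩
    by_contra hcon
    push Not at hcon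
    have h3 : |f.1 y| ≤ |f.1 x| := hmin hcon.le
    linarith

lemma finrank_map_val {S : Subalgebra ℝ (M → ℝ)} (E : Submodule ℝ S) :
    Module.finrank ℝ (E.map S.val.toLinearMap) = Module.finrank ℝ E :=
  (Submodule.equivMapOfInjective S.val.toLinearMap Subtype.val_injective E).symm.finrank_eq

end Pool.Agent.Helper89.Stek
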