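import Mathlib

/-!
Functions of one variable used for the cut-offs.
-/

set_option autoImplicit false

open MeasureTheory Filter Topology
open scoped ContDiff

namespace Pool.Agent.Helper89.Stek

/-- smooth step from `0` (for `s ≤ 1/2`) to `1` (for `s ≥ 1`) -/
noncomputable def sp (s : ℝ) : ℝ := Real.smoothTransition (2 * s - 1)

/-- smooth step from `1` (for `s ≤ r`) to `0` (for `s ≥ 2 r`) -/
noncomputable def be (r s : ℝ) : ℝ := Real.smoothTransition (2 - s / r)

lemma contDiff_sp : ContDiff ℝ ∞ sp := by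
  unfold sp
  exact Real.smoothTransition.contDiff.comp (by fun_prop)

lemma contDiff_be (r : ℝ) : ContDiff ℝ ∞ (be r) := by
  unfold be
  exact Real.smoothTransition.contDiff.comp (by fun_prop)

lemma sp_nonneg (s : ℝ) : 0 ≤ sp s := Real.smoothTransition.nonneg _
lemma sp_le_one (s : ℝ) : sp s ≤ 1 := Real.smoothTransition.le_one _
lemma be_nonneg (r s : ℝ) : 0 ≤ be r s := Real.smoothTransition.nonneg _
lemma be_le_one (r s : ℝ) : be r s ≤ 1 := Real.smoothTransition.le_one _

lemma sp_eq_zero {s : ℝ} (h : s ≤ 1 / 2) : sp s = 0 :=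
  Real.smoothTransition.zero_of_nonpos (by linarith)
lemma sp_eq_one {s : ℝ} (h : 1 ≤ s) : sp s = 1 :=
  Real.smoothTransition.one_of_one_le (by linarith)

lemma be_eq_one {r s : ℝ} (hr : 0 < r) (h : s ≤ r) : be r s = 1 := by
  refine Real.smoothTransition.one_of_one_le ?_
  have : s / r ≤ 1 := (div_le_one hr).mpr h
  linarith
lemma be_eq_zero {r s : ℝ} (hr : 0 < r) (h : 2 * r ≤ s) : be r s = 0 := by
  refine Real.smoothTransition.zero_of_nonpos ?_
  have : 2 ≤ s / r := by rw [le_div_iff₀ hr]; exact h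
  linarith

lemma mono_smoothTransition : Monotone Real.smoothTransition := Real.smoothTransition.monotone

lemma mono_sp : Monotone sp := fun a b h => mono_smoothTransition (by linarith)

lemma anti_be {r : ℝ} (hr : 0 < r) : Antitone (be r) := fun a b h => by
  refine mono_smoothTransition ?_
  have : a / r ≤ b / r := by gcongr
  linarith

lemma deriv_sp_nonneg (s : ℝ) : 0 ≤ deriv sp s := mono_sp.deriv_nonneg

lemma deriv_be_nonpos {r : ℝ} (hr : 0 < r) (s : ℝ) : deriv (be r) s ≤ 0 := (anti_be hr).deriv_nonpos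

lemma deriv_sp_cont : Continuous (deriv sp) :=
  (contDiff_sp.of_le (by exact_mod_cast le_top : (1 : WithTop ℕ∞) ≤ ∞)).continuous_deriv le_rfl

lemma deriv_be_cont (r : ℝ) : Continuous (deriv (be r)) :=
  ((contDiff_be r).of_le (by exact_mod_cast le_top : (1 : WithTop ℕ∞) ≤ ∞)).continuous_deriv le_rfl

lemma deriv_sp_zero {s : ℝ} (h : s < 1 / 2 ∨ 1 < s) : deriv sp s = 0 := by
  rcases h with h | h
  · have : sp =ᶠ[𝓝 s] fun _ => 0 := by
      filter_upwards [eventually_lt_nhds h] with t ht using sp_eq_zero ht.le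
    rw [this.deriv_eq]; simp
  · have : sp =ᶠ[𝓝 s] fun _ => 1 := by
      filter_upwards [eventually_gt_nhds h] with t ht using sp_eq_one ht.le
    rw [this.deriv_eq]; simp

lemma deriv_be_zero {r s : ℝ} (hr : 0 < r) (h : s < r ∨ 2 * r < s) : deriv (be r) s = 0 := by
  rcases h with h | h
  · have : be r =ᶠ[𝓝 s] fun _ => 1 := by
      filter_upwards [eventually_lt_nhds h] with t ht using be_eq_one hr ht.le
    rw [this.deriv_eq]; simp
  · have : be r =ᶠ[𝓝 s] fun _ => 0 := by
      filter_upwards [eventually_gt_nhds h] with t ht using be_eq_zero hr ht.le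
    rw [this.deriv_eq]; simp

lemma deriv_sp_compact : HasCompactSupport (deriv sp) := by
  refine HasCompactSupport.intro (isCompact_Icc (a := (1 / 2 : ℝ)) (b := 1)) fun s hs => ?_
  apply deriv_sp_zero
  rw [Set.mem_Icc, not_and_or, not_le, not_le] at hs
  exact hs

lemma deriv_be_compact {r : ℝ} (hr : 0 < r) : HasCompactSupport (deriv (be r)) := by
  refine HasCompactSupport.intro (isCompact_Icc (a := r) (b := 2 * r)) fun s hs => ?_
  apply deriv_be_zero hr
  rw [Set.mem_Icc, not_and_or, not_le, not_le] at hs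
  exact hs

lemma deriv_be_bound {r : ℝ} (hr : 0 < r) : ∃ B, 0 ≤ B ∧ ∀ s, |deriv (be r) s| ≤ B := by
  obtain ⟨B, hB⟩ := (deriv_be_compact hr).exists_bound_of_continuous (deriv_be_cont r)
  exact ⟨B, (norm_nonneg _).trans (hB 0), fun s => hB s⟩

lemma integral_deriv_sp : ∫ t, deriv sp t = 1 := by
  have h1 : ∫ t, deriv sp t = ∫ t in (0 : ℝ)..2, deriv sp t := by
    rw [intervalIntegral.integral_of_le (by norm_num)]
    symm
    apply setIntegral_eq_integral_of_forall_compl_eq_zero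
    intro s hs
    apply deriv_sp_zero
    rw [Set.mem_Ioc, not_and_or, not_lt, not_le] at hs
    rcases hs with h | h
    · left; linarith
    · right; linarith
  rw [h1, intervalIntegral.integral_eq_sub_of_hasDerivAt (f := sp)]
  · rw [sp_eq_one (by norm_num), sp_eq_zero (by norm_num)]; norm_num
  · intro x _
    exact (contDiff_sp.differentiable (by simp)).differentiableAt.hasDerivAt
  · exact deriv_sp_cont.intervalIntegrable _ _

/-- the derivative of the function `J` -/
noncomputable def kk (A r ε s : ℝ) : ℝ := Real.exp (-A * s) * be r s * sp (s / ε)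

lemma contDiff_kk (A r ε : ℝ) : ContDiff ℝ ∞ (kk A r ε) := by
  unfold kk
  refine ContDiff.mul (ContDiff.mul (by fun_prop) (contDiff_be r)) ?_
  exact contDiff_sp.comp (by fun_prop)

lemma kk_nonneg (A r ε s : ℝ) : 0 ≤ kk A r ε s := by
  unfold kk
  exact mul_nonneg (mul_nonneg (Real.exp_pos _).le (be_nonneg _ _)) (sp_nonneg _)

lemma kk_eq_zero {A r ε s : ℝ} (hε : 0 < ε) (hs : s ≤ ε / 2) : kk A r ε s = 0 := by
  unfold kk
  rw [sp_eq_zero, mul_zero]
  rw [div_le_iff₀ hε]
  linarith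

lemma kk_le_one {A r ε s : ℝ} (hA : 0 ≤ A) (hε : 0 < ε) : kk A r ε s ≤ 1 := by
  rcases le_total s (ε / 2) with h | h
  · rw [kk_eq_zero hε h]; norm_num
  · unfold kk
    have h1 : Real.exp (-A * s) ≤ 1 := Real.exp_le_one_iff.mpr (by
      have : 0 ≤ s := by linarith
      nlinarith)
    have h2 := be_le_one r s
    have h3 := sp_le_one (s / ε)
    have h4 := be_nonneg r s
    have h5 := sp_nonneg (s / ε)
    calc Real.exp (-A * s) * be r s * sp (s / ε) ≤ 1 * 1 * 1 := by
          gcongr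
      _ = 1 := by norm_num

lemma deriv_kk (A r ε s : ℝ) : deriv (kk A r ε) s =
    Real.exp (-A * s) * be r s * (deriv sp (s / ε) / ε) -
      Real.exp (-A * s) * sp (s / ε) * (A * be r s - deriv (be r) s) := by
  have h1 : HasDerivAt (fun s => Real.exp (-A * s)) (Real.exp (-A * s) * (-A)) s := by
    have := ((hasDerivAt_id s).const_mul (-A)).exp
    simpa using this
  have h2 : HasDerivAt (be r) (deriv (be r) s) s :=
    ((contDiff_be r).differentiable (by simp)).differentiableAt.hasDerivAt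
  have h3 : HasDerivAt (fun s => sp (s / ε)) (deriv sp (s / ε) * (1 / ε)) s := by
    have h4 : HasDerivAt sp (deriv sp (s / ε)) (s / ε) :=
      (contDiff_sp.differentiable (by simp)).differentiableAt.hasDerivAt
    exact HasDerivAt.comp s (h := fun s => s / ε) (h₂ := sp) h4 ((hasDerivAt_id s).div_const ε)
  have h5 := (h1.mul h2).mul h3
  have h6 : HasDerivAt (kk A r ε) _ s := h5
  rw [h6.deriv]
  simp only [Pi.mul_apply]
  ring

/-- the function `J` -/
noncomputable def JJ (A r ε s : ℝ) : ℝ := ∫ t in (0 : ℝ)..s, kk A r ε t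

lemma hasDerivAt_JJ (A r ε s : ℝ) : HasDerivAt (JJ A r ε) (kk A r ε s) s :=
  (contDiff_kk A r ε).continuous.integral_hasStrictDerivAt 0 s |>.hasDerivAt

lemma contDiff_JJ (A r ε : ℝ) : ContDiff ℝ ∞ (JJ A r ε) := by
  rw [contDiff_infty_iff_deriv]
  refine ⟨fun s => (hasDerivAt_JJ A r ε s).differentiableAt, ?_⟩
  have : deriv (JJ A r ε) = kk A r ε := by
    ext s
    exact (hasDerivAt_JJ A r ε s).deriv
  rw [this]
  exact contDiff_kk A r ε

lemma deriv_JJ (A r ε s : ℝ) : deriv (JJ A r ε) s = kk A r ε s := (hasDerivAt_JJ A r ε s).deriv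

lemma mono_JJ (A r ε : ℝ) : Monotone (JJ A r ε) := by
  apply monotone_of_deriv_nonneg
  · exact fun s => (hasDerivAt_JJ A r ε s).differentiableAt
  · intro s
    rw [deriv_JJ]
    exact kk_nonneg _ _ _ _

lemma JJ_eq_zero {A r ε s : ℝ} (hε : 0 < ε) (hs : s ≤ 0) : JJ A r ε s = 0 := by
  unfold JJ
  rw [intervalIntegral.integral_symm, neg_eq_zero]
  have : ∀ t ∈ Set.uIcc s 0, kk A r ε t = 0 := by
    intro t ht
    rw [Set.uIcc_of_le hs] at ht
    exact kk_eq_zero hε (by linarith [ht.2])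
  rw [intervalIntegral.integral_congr this]
  simp

lemma JJ_nonneg {A r ε : ℝ} (hε : 0 < ε) (s : ℝ) : 0 ≤ JJ A r ε s := by
  rcases le_total s 0 with h | h
  · rw [JJ_eq_zero hε h]
  · rw [← JJ_eq_zero (A := A) (r := r) hε le_rfl]
    exact mono_JJ A r ε h

lemma JJ_le {A r ε : ℝ} (hA : 0 ≤ A) (hr : 0 < r) (hε : 0 < ε) (s : ℝ) : JJ A r ε s ≤ 2 * r := by
  have h1 : ∀ s ≤ 2 * r, JJ A r ε s ≤ 2 * r := by
    intro s hs
    rcases le_total s 0 with h | h
    · rw [JJ_eq_zero hε h]; linarith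
    · unfold JJ
      have h2 : ∫ t in (0 : ℝ)..s, kk A r ε t ≤ ∫ t in (0 : ℝ)..s, (1 : ℝ) := by
        apply intervalIntegral.integral_mono_on h
        · exact (contDiff_kk A r ε).continuous.intervalIntegrable _ _
        · exact continuous_const.intervalIntegrable _ _
        · intro t _
          exact kk_le_one hA hε
      refine h2.trans ?_
      simp
      linarith
  rcases le_total s (2 * r) with h | h
  · exact h1 s h
  · have h2 : JJ A r ε s = JJ A r ε (2 * r) := by
      unfold JJ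
      rw [← intervalIntegral.integral_add_adjacent_intervals
        ((contDiff_kk A r ε).continuous.intervalIntegrable 0 (2 * r))
        ((contDiff_kk A r ε).continuous.intervalIntegrable (2 * r) s)]
      have : ∀ t ∈ Set.uIcc (2 * r) s, kk A r ε t = 0 := by
        intro t ht
        rw [Set.uIcc_of_le h] at ht
        unfold kk
        rw [be_eq_zero hr ht.1]
        ring
      rw [intervalIntegral.integral_congr this]
      simp
    rw [h2]
    exact h1 _ le_rfl

/-- a lower bound of `J` away from `0`, uniform in `ε` -/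
lemma JJ_lower {A r : ℝ} (hA : 0 ≤ A) (hr : 0 < r) {s₀ : ℝ} (hs₀ : 0 < s₀) : ∃ c > 0, ∃ ε₀ > 0,
    ∀ ε s : ℝ, 0 < ε → ε ≤ ε₀ → s₀ ≤ s → c ≤ JJ A r ε s := by
  obtain ⟨s₁, hs₁, hs₁r, hs₁0⟩ : ∃ s₁, 0 < s₁ ∧ s₁ ≤ r ∧ s₁ ≤ s₀ := ⟨min r s₀, by positivity, min_le_left _ _,
    min_le_right _ _⟩
  refine ⟨s₁ / 2 * Real.exp (-A * s₁), by positivity, s₁ / 2, by positivity, fun ε s hε hε₀ hs => ?_⟩
  refine le_trans ?_ (mono_JJ A r ε (hs₁0.trans hs))
  have h0 : JJ A r ε s₁ = (∫ t in (0 : ℝ)..(s₁ / 2), kk A r ε t) + ∫ t in (s₁ / 2)..s₁, kk A r ε t := by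
    unfold JJ
    rw [← intervalIntegral.integral_add_adjacent_intervals
        ((contDiff_kk A r ε).continuous.intervalIntegrable 0 (s₁ / 2))
        ((contDiff_kk A r ε).continuous.intervalIntegrable (s₁ / 2) s₁)]
  have h1 : 0 ≤ ∫ t in (0 : ℝ)..(s₁ / 2), kk A r ε t :=
    intervalIntegral.integral_nonneg (by positivity) fun t _ => kk_nonneg _ _ _ _
  have h2 : ∫ t in (s₁ / 2)..s₁, Real.exp (-A * s₁) ≤ ∫ t in (s₁ / 2)..s₁, kk A r ε t := by
    apply intervalIntegral.integral_mono_on (by linarith)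
    · exact continuous_const.intervalIntegrable _ _
    · exact (contDiff_kk A r ε).continuous.intervalIntegrable _ _
    · intro t ht
      unfold kk
      rw [be_eq_one hr (ht.2.trans hs₁r), sp_eq_one, mul_one, mul_one]
      · apply Real.exp_le_exp.mpr
        nlinarith [ht.2]
      · rw [le_div_iff₀ hε]
        linarith [ht.1]
  have h3 : ∫ t in (s₁ / 2)..s₁, Real.exp (-A * s₁) = s₁ / 2 * Real.exp (-A * s₁) := by
    rw [intervalIntegral.integral_const, smul_eq_mul]
    ring
  rw [h0]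
  linarith

/-- the weight `1 / (1 + (s / ε)²)` -/
noncomputable def om (ε s : ℝ) : ℝ := (1 + (s / ε) ^ 2)⁻¹

lemma contDiff_om (ε : ℝ) : ContDiff ℝ ∞ (om ε) := by
  unfold om
  refine ContDiff.inv (by fun_prop) fun s => ?_
  positivity

lemma om_pos (ε s : ℝ) : 0 < om ε s := by
  unfold om; positivity

lemma om_le_one (ε s : ℝ) : om ε s ≤ 1 := by
  unfold om
  exact inv_le_one_of_one_le₀ (by nlinarith [sq_nonneg (s / ε)])

lemma half_le_om {ε s : ℝ} (hε : 0 < ε) (hs : |s| ≤ ε) : 1 / 2 ≤ om ε s := by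
  unfold om
  have h1 : (s / ε) ^ 2 ≤ 1 := by
    rw [div_pow, div_le_one (by positivity), ← sq_abs]
    exact pow_le_pow_left₀ (abs_nonneg _) hs 2
  rw [one_div]
  exact inv_anti₀ (by positivity) (by linarith)

lemma om_le {ε s a : ℝ} (hε : 0 < ε) (ha : 0 < a) (hs : a ≤ |s|) : om ε s ≤ ε ^ 2 / a ^ 2 := by
  unfold om
  have h1 : 0 < a ^ 2 := by positivity
  have h2 : a ^ 2 ≤ s ^ 2 := by
    rw [← sq_abs s]
    exact pow_le_pow_left₀ ha.le hs 2
  rw [inv_le_comm₀ (by positivity) (by positivity), inv_div, div_pow]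
  have h3 : a ^ 2 / ε ^ 2 ≤ s ^ 2 / ε ^ 2 := by gcongr
  linarith

/-- the function `ε arctan (s / ε)` -/
noncomputable def at' (ε s : ℝ) : ℝ := ε * Real.arctan (s / ε)

lemma contDiff_at (ε : ℝ) : ContDiff ℝ ∞ (at' ε) := by
  unfold at'
  exact contDiff_const.mul (Real.contDiff_arctan.comp (by fun_prop))

lemma deriv_at {ε : ℝ} (hε : 0 < ε) (s : ℝ) : deriv (at' ε) s = om ε s := by
  have h1 : HasDerivAt (at' ε) (ε * (1 / (1 + (s / ε) ^ 2) * (1 / ε))) s := by
    have h2 : HasDerivAt Real.arctan (1 / (1 + (s / ε) ^ 2)) (s / ε) := Real.hasDerivAt_arctan _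
    exact (h2.comp s ((hasDerivAt_id s).div_const ε)).const_mul ε
  rw [h1.deriv]
  unfold om
  field_simp

lemma abs_at_le {ε : ℝ} (hε : 0 < ε) (s : ℝ) : |at' ε s| ≤ 2 * ε := by
  unfold at'
  rw [abs_mul, abs_of_pos hε]
  have h1 : |Real.arctan (s / ε)| ≤ 2 := by
    rw [abs_le]
    have := Real.arctan_lt_pi_div_two (s / ε)
    have := Real.neg_pi_div_two_lt_arctan (s / ε)
    have := Real.pi_le_four
    constructor <;> linarith
  nlinarith

end Pool.Agent.Helper89.Stek

namespace Pool.Agent.Helper89.Stek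

/-- a cut-off equal to `1` on `[-s/2, s/2]` and to `0` outside `[-s, s]` -/
noncomputable def cut (s σ : ℝ) : ℝ := Real.smoothTransition (4 / 3 * (1 - σ ^ 2 / s ^ 2))

lemma contDiff_cut (s : ℝ) : ContDiff ℝ ∞ (cut s) := by
  unfold cut
  exact Real.smoothTransition.contDiff.comp (by fun_prop)

lemma cut_nonneg (s σ : ℝ) : 0 ≤ cut s σ := Real.smoothTransition.nonneg _
lemma cut_le_one (s σ : ℝ) : cut s σ ≤ 1 := Real.smoothTransition.le_one _

lemma cut_eq_one {s σ : ℝ} (hs : 0 < s) (h : |σ| ≤ s / 2) : cut s σ = 1 := by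
  refine Real.smoothTransition.one_of_one_le ?_
  have h1 : σ ^ 2 ≤ (s / 2) ^ 2 := by
    rw [← sq_abs]
    exact pow_le_pow_left₀ (abs_nonneg _) h 2
  have h2 : σ ^ 2 / s ^ 2 ≤ 1 / 4 := by
    rw [div_le_iff₀ (by positivity)]
    nlinarith
  linarith

lemma cut_eq_zero {s σ : ℝ} (hs : 0 < s) (h : s ≤ |σ|) : cut s σ = 0 := by
  refine Real.smoothTransition.zero_of_nonpos ?_
  have h1 : s ^ 2 ≤ σ ^ 2 := by
    rw [← sq_abs σ]
    exact pow_le_pow_left₀ hs.le h 2
  have h2 : 1 ≤ σ ^ 2 / s ^ 2 := by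
    rw [le_div_iff₀ (by positivity)]
    linarith
  linarith

lemma deriv_cut_zero {s σ : ℝ} (hs : 0 < s) (h : |σ| < s / 2) : deriv (cut s) σ = 0 := by
  have h1 : ∀ᶠ t in 𝓝 σ, |t| < s / 2 := (continuous_abs.continuousAt).eventually_lt_const h
  have : cut s =ᶠ[𝓝 σ] fun _ => 1 := by
    filter_upwards [h1] with t ht using cut_eq_one hs ht.le
  rw [this.deriv_eq]; simp

lemma deriv_cut_bound {s : ℝ} (hs : 0 < s) : ∃ B, 0 ≤ B ∧ ∀ σ, |deriv (cut s) σ| ≤ B := by
  have hc : HasCompactSupport (cut s) := by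
    refine HasCompactSupport.intro (isCompact_Icc (a := -s) (b := s)) fun σ hσ => ?_
    apply cut_eq_zero hs
    rw [Set.mem_Icc, not_and_or, not_le, not_le] at hσ
    rcases hσ with h | h
    · rw [abs_of_neg (by linarith)]; linarith
    · rw [abs_of_pos (by linarith)]; linarith
  have hd : Continuous (deriv (cut s)) :=
    ((contDiff_cut s).of_le (by exact_mod_cast le_top : (1 : WithTop ℕ∞) ≤ ∞)).continuous_deriv le_rfl
  obtain ⟨B, hB⟩ := hc.deriv.exists_bound_of_continuous hd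
  exact ⟨B, (norm_nonneg _).trans (hB 0), fun σ => hB σ⟩

end Pool.Agent.Helper89.Stek
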