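import Pool.Agent.Helper89.Stek.Gam
import Pool.Agent.Helper89.Stek.One

/-!
One-sided constructions near the zero set of the function `f`.
-/

set_option autoImplicit false

open MeasureTheory Filter Topology
open scoped ContDiff

namespace Pool.Agent.Helper89.Stek

lemma amgm {u a g K τ : ℝ} (hg : 0 ≤ g) (hK : 0 ≤ K) (hτ : 0 < τ) (h : a ^ 2 ≤ K * g) :
    |2 * u * a| ≤ τ * g + K / τ * u ^ 2 := by
  refine abs_le_of_sq_le_sq ?_ (by positivity)
  have h1 : (2 * u * a) ^ 2 ≤ 4 * (τ * g) * (K / τ * u ^ 2) := by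
    have h2 : 4 * (τ * g) * (K / τ * u ^ 2) = 4 * u ^ 2 * (K * g) := by field_simp
    rw [h2]
    nlinarith [sq_nonneg u]
  nlinarith [sq_nonneg (τ * g - K / τ * u ^ 2)]

lemma contDiff_deriv {θ : ℝ → ℝ} (h : ContDiff ℝ ∞ θ) : ContDiff ℝ ∞ (deriv θ) :=
  (contDiff_infty_iff_deriv.mp h).2

/-- `e^{-A s} β(s) S'(s / ε) / ε` -/
noncomputable def th3 (A r ε s : ℝ) : ℝ := Real.exp (-A * s) * be r s * (deriv sp (s / ε) / ε)

/-- `e^{-A s} S(s / ε) (A β(s) - β'(s))` -/
noncomputable def th1 (A r ε s : ℝ) : ℝ := Real.exp (-A * s) * sp (s / ε) * (A * be r s - deriv (be r) s)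

lemma contDiff_th3 (A r ε : ℝ) : ContDiff ℝ ∞ (th3 A r ε) := by
  unfold th3
  refine ContDiff.mul (ContDiff.mul (by fun_prop) (contDiff_be r)) ?_
  exact ((contDiff_deriv contDiff_sp).comp (by fun_prop)).div_const ε

lemma contDiff_th1 (A r ε : ℝ) : ContDiff ℝ ∞ (th1 A r ε) := by
  unfold th1
  refine ContDiff.mul (ContDiff.mul (by fun_prop) ?_) ?_
  · exact contDiff_sp.comp (by fun_prop)
  · exact (contDiff_const.mul (contDiff_be r)).sub (contDiff_deriv (contDiff_be r))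

lemma deriv_kk' (A r ε s : ℝ) : deriv (kk A r ε) s = th3 A r ε s - th1 A r ε s := by
  rw [deriv_kk]; rfl

lemma th3_nonneg {A r ε : ℝ} (hε : 0 < ε) (s : ℝ) : 0 ≤ th3 A r ε s := by
  unfold th3
  have := deriv_sp_nonneg (s / ε)
  have := be_nonneg r s
  positivity

lemma th1_bound {A r : ℝ} (hA : 0 ≤ A) (hr : 0 < r) : ∃ B, 0 ≤ B ∧ ∀ ε s, 0 < ε → 0 ≤ th1 A r ε s ∧
    th1 A r ε s ≤ B ∧ ∀ ε' > 0, ε' ≤ ε → |th1 A r ε s - th1 A r ε' s| ≤ B * (2 * om ε s) := by
  obtain ⟨B, hB0, hB⟩ := deriv_be_bound hr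
  refine ⟨A + B, by positivity, fun ε s hε => ?_⟩
  have hbr : 0 ≤ A * be r s - deriv (be r) s ∧ A * be r s - deriv (be r) s ≤ A + B := by
    have h1 := deriv_be_nonpos hr s
    have h2 := be_nonneg r s
    have h3 := be_le_one r s
    have h4 := hB s
    rw [abs_le] at h4
    constructor
    · nlinarith
    · nlinarith
  have hsp0 : ∀ ε > 0, s ≤ 0 → sp (s / ε) = 0 := fun ε hε h => sp_eq_zero (by
    have : s / ε ≤ 0 := div_nonpos_of_nonpos_of_nonneg h hε.le
    linarith)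
  have hexp : 0 ≤ s → Real.exp (-A * s) ≤ 1 := fun h => Real.exp_le_one_iff.mpr (by nlinarith)
  have hexp0 := (Real.exp_pos (-A * s)).le
  refine ⟨?_, ?_, ?_⟩
  · unfold th1
    have := sp_nonneg (s / ε)
    have := hbr.1
    positivity
  · unfold th1
    rcases le_total s 0 with h | h
    · rw [hsp0 ε hε h]
      simp only [mul_zero, zero_mul]
      positivity
    · have h1 := hexp h
      have h2 := sp_nonneg (s / ε)
      have h3 := sp_le_one (s / ε)
      calc Real.exp (-A * s) * sp (s / ε) * (A * be r s - deriv (be r) s)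
          ≤ 1 * 1 * (A + B) := by
            have := hbr.1
            have := hbr.2
            gcongr
        _ = A + B := by ring
  · intro ε' hε' hle
    have hdiff : th1 A r ε s - th1 A r ε' s =
        Real.exp (-A * s) * (A * be r s - deriv (be r) s) * (sp (s / ε) - sp (s / ε')) := by
      unfold th1; ring
    rw [hdiff]
    have hom := (om_pos ε s).le
    rcases le_total s 0 with h | h
    · rw [hsp0 ε hε h, hsp0 ε' hε' h]
      simp only [sub_self, mul_zero, abs_zero]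
      positivity
    · rcases le_total ε s with h' | h'
      · rw [sp_eq_one (by rw [le_div_iff₀ hε]; linarith), sp_eq_one (by rw [le_div_iff₀ hε']; linarith)]
        simp only [sub_self, mul_zero, abs_zero]
        positivity
      · have h1 := half_le_om hε (by rw [abs_of_nonneg h]; exact h' : |s| ≤ ε)
        have h2 : |sp (s / ε) - sp (s / ε')| ≤ 1 := by
          rw [abs_le]
          have := sp_nonneg (s / ε)
          have := sp_le_one (s / ε)
          have := sp_nonneg (s / ε')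
          have := sp_le_one (s / ε')
          constructor <;> linarith
        rw [abs_mul, abs_mul, abs_of_nonneg hexp0, abs_of_nonneg hbr.1]
        have h3 := hexp h
        calc Real.exp (-A * s) * (A * be r s - deriv (be r) s) * |sp (s / ε) - sp (s / ε')|
            ≤ 1 * (A + B) * 1 := by
              have := hbr.1
              have := hbr.2
              gcongr
          _ ≤ (A + B) * (2 * om ε s) := by nlinarith

lemma kk_diff {A r ε ε' s : ℝ} (hA : 0 ≤ A) (hε : 0 < ε) (hε' : 0 < ε') (hle : ε' ≤ ε) :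
    |kk A r ε s - kk A r ε' s| ≤ 2 * om ε s := by
  have hom := (om_pos ε s).le
  rcases le_total s 0 with h | h
  · rw [kk_eq_zero hε (by linarith), kk_eq_zero hε' (by linarith)]
    simp only [sub_self, abs_zero]
    positivity
  · rcases le_total ε s with h' | h'
    · unfold kk
      rw [sp_eq_one (by rw [le_div_iff₀ hε]; linarith), sp_eq_one (by rw [le_div_iff₀ hε']; linarith)]
      simp only [sub_self, abs_zero]
      positivity
    · have h1 := half_le_om hε (by rw [abs_of_nonneg h]; exact h' : |s| ≤ ε)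
      have h2 := kk_nonneg A r ε s
      have h3 := kk_nonneg A r ε' s
      have h4 := kk_le_one (r := r) (s := s) hA hε
      have h5 := kk_le_one (r := r) (s := s) hA hε'
      rw [abs_le]
      constructor <;> linarith

namespace Calc

variable {M : Type*} [MeasurableSpace M] (C : Calc M) (μ : Measure M) [IsFiniteMeasure μ]
variable (f Lf : C.S)

/-- the pair `(f, Lf)` satisfies Green's formula -/
def Green : Prop := ∀ ψ : C.S, ∫ x, (C.Γ ψ f).1 x ∂μ = - ∫ x, (ψ * Lf).1 x ∂μ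

variable {μ f Lf}

lemma Green.neg (h : C.Green μ f Lf) : C.Green μ (-f) (-Lf) := by
  intro ψ
  have h1 := h ψ
  have h2 : ∫ x, (C.Γ ψ (-f)).1 x ∂μ = - ∫ x, (C.Γ ψ f).1 x ∂μ := by
    rw [map_neg, ← integral_neg]; rfl
  have h3 : ∫ x, (ψ * -Lf).1 x ∂μ = - ∫ x, (ψ * Lf).1 x ∂μ := by
    rw [← integral_neg]
    congr 1
    ext x
    change ψ.1 x * (-(Lf.1 x)) = -(ψ.1 x * Lf.1 x)
    ring
  rw [h2, h3, h1]

lemma green_cp (h : C.Green μ f Lf) (θ : ℝ → ℝ) (hθ : ContDiff ℝ ∞ θ) (ψ : C.S) :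
    ∫ x, (C.cp θ hθ f * C.Γ ψ f).1 x ∂μ =
      - (∫ x, (ψ * C.Γ (C.cp θ hθ f) f).1 x ∂μ) - ∫ x, (ψ * C.cp θ hθ f * Lf).1 x ∂μ := by
  have h1 := h (ψ * C.cp θ hθ f)
  rw [C.leib, C.int_add] at h1
  linarith

/-- the mass of `u²` near the zero set of `f` is small -/
lemma thin (h : C.Green μ f Lf) {r : ℝ} (hr : 0 < r)
    (hlow : ∀ x, |f.1 x| ≤ 2 * r → 1 / 2 ≤ (C.Γ f f).1 x) :
    ∃ c, 0 ≤ c ∧ ∀ ε, 0 < ε → ε ≤ 1 → ∀ u : C.S,
      ∫ x, (C.cp (om ε) (contDiff_om ε) f * (u * u)).1 x ∂μ ≤ c * ε * (C.D μ u u + C.m μ u u) := by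
  obtain ⟨C0, hC0⟩ := C.bdd Lf
  obtain ⟨C1, hC1⟩ := C.bdd (C.Γ f f)
  have hC1' : ∀ x, (C.Γ f f).1 x ≤ |C1| := fun x => (le_abs_self _).trans ((hC1 x).trans (le_abs_self _))
  have hC0' : ∀ x, |Lf.1 x| ≤ |C0| := fun x => (hC0 x).trans (le_abs_self _)
  refine ⟨4 * (1 + |C1| + |C0|) + 1 / (4 * r ^ 2), by positivity, fun ε hε hε1 u => ?_⟩
  have hg := C.green_cp h (at' ε) (contDiff_at ε) (u * u)
  have h1 : ∫ x, (u * u * C.Γ (C.cp (at' ε) (contDiff_at ε) f) f).1 x ∂μ ≤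
      2 * ε * (C.D μ u u + (|C1| + |C0|) * C.m μ u u) := by
    have h2 : ∫ x, (u * u * C.Γ (C.cp (at' ε) (contDiff_at ε) f) f).1 x ∂μ =
        ∫ x, (-(C.cp (at' ε) (contDiff_at ε) f * C.Γ (u * u) f) -
          u * u * C.cp (at' ε) (contDiff_at ε) f * Lf).1 x ∂μ := by
      rw [C.int_sub]
      have h3 : ∫ x, (-(C.cp (at' ε) (contDiff_at ε) f * C.Γ (u * u) f)).1 x ∂μ =
          - ∫ x, (C.cp (at' ε) (contDiff_at ε) f * C.Γ (u * u) f).1 x ∂μ := by
        rw [← integral_neg]; rfl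
      rw [h3]
      linarith
    rw [h2]
    have h3 : 2 * ε * (C.D μ u u + (|C1| + |C0|) * C.m μ u u) =
        ∫ x, ((2 * ε) • (C.Γ u u + (|C1| + |C0|) • (u * u))).1 x ∂μ := by
      rw [C.int_smul, C.int_add, C.int_smul]; rfl
    rw [h3]
    refine C.int_mono μ fun x => ?_
    simp only [C.sub_apply, C.neg_apply, C.mul_apply, C.smul_apply, C.add_apply, C.cp_apply, C.leib_apply]
    have h4 := abs_at_le hε (f.1 x)
    have h5 : |2 * u.1 x * (C.Γ u f).1 x| ≤ 1 * (C.Γ u u).1 x + |C1| / 1 * (u.1 x) ^ 2 := by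
      refine amgm (C.nonneg u x) (abs_nonneg _) one_pos ?_
      refine (C.cauchy u f x).trans ?_
      rw [mul_comm]
      exact mul_le_mul_of_nonneg_right (hC1' x) (C.nonneg u x)
    have h6 : -(at' ε (f.1 x) * (u.1 x * (C.Γ u f).1 x + u.1 x * (C.Γ u f).1 x)) ≤
        2 * ε * ((C.Γ u u).1 x + |C1| * (u.1 x) ^ 2) := by
      have h7 : |at' ε (f.1 x) * (2 * u.1 x * (C.Γ u f).1 x)| ≤
          2 * ε * ((C.Γ u u).1 x + |C1| * (u.1 x) ^ 2) := by
        rw [abs_mul]
        refine mul_le_mul h4 (by linarith) (abs_nonneg _) (by positivity)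
      have h8 := neg_abs_le (at' ε (f.1 x) * (2 * u.1 x * (C.Γ u f).1 x))
      have h9 : at' ε (f.1 x) * (u.1 x * (C.Γ u f).1 x + u.1 x * (C.Γ u f).1 x) =
        at' ε (f.1 x) * (2 * u.1 x * (C.Γ u f).1 x) := by ring
      rw [h9]
      linarith
    have h10 : -(u.1 x * u.1 x * at' ε (f.1 x) * Lf.1 x) ≤ 2 * ε * (|C0| * (u.1 x) ^ 2) := by
      have h11 : |u.1 x * u.1 x * at' ε (f.1 x) * Lf.1 x| ≤ 2 * ε * (|C0| * (u.1 x) ^ 2) := by
        rw [abs_mul, abs_mul, abs_of_nonneg (mul_self_nonneg (u.1 x))]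
        calc u.1 x * u.1 x * |at' ε (f.1 x)| * |Lf.1 x| ≤ u.1 x * u.1 x * (2 * ε) * |C0| := by
              have := hC0' x
              have := mul_self_nonneg (u.1 x)
              gcongr
          _ = 2 * ε * (|C0| * (u.1 x) ^ 2) := by ring
      have := neg_abs_le (u.1 x * u.1 x * at' ε (f.1 x) * Lf.1 x)
      linarith
    have h12 : (u.1 x) ^ 2 = u.1 x * u.1 x := sq _
    rw [h12] at h6 h10
    nlinarith
  have h2 : ∫ x, (C.cp (om ε) (contDiff_om ε) f * (u * u)).1 x ∂μ ≤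
      ∫ x, ((2 : ℝ) • (u * u * C.Γ (C.cp (at' ε) (contDiff_at ε) f) f) +
        (ε ^ 2 / (4 * r ^ 2)) • (u * u)).1 x ∂μ := by
    refine C.int_mono μ fun x => ?_
    simp only [C.mul_apply, C.smul_apply, C.add_apply, C.cp_apply, C.Γ_cp, deriv_at hε]
    have h3 := mul_self_nonneg (u.1 x)
    have h4 := C.nonneg f x
    have h5 := (om_pos ε (f.1 x)).le
    rcases le_total |f.1 x| (2 * r) with h6 | h6
    · have h7 := hlow x h6
      have h8 : 0 ≤ ε ^ 2 / (4 * r ^ 2) * (u.1 x * u.1 x) := by positivity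
      have h9 : om ε (f.1 x) * (u.1 x * u.1 x) ≤ 2 * (u.1 x * u.1 x * (om ε (f.1 x) * (C.Γ f f).1 x)) := by
        have : 0 ≤ om ε (f.1 x) * (u.1 x * u.1 x) := by positivity
        nlinarith
      linarith
    · have h7 := om_le hε (by positivity : (0 : ℝ) < 2 * r) h6
      have h8 : 0 ≤ 2 * (u.1 x * u.1 x * (om ε (f.1 x) * (C.Γ f f).1 x)) := by positivity
      have h9 : om ε (f.1 x) * (u.1 x * u.1 x) ≤ ε ^ 2 / (4 * r ^ 2) * (u.1 x * u.1 x) := by
        refine mul_le_mul_of_nonneg_right (h7.trans (le_of_eq ?_)) h3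
        ring
      linarith
  rw [C.int_add, C.int_smul, C.int_smul] at h2
  have h3 : ∫ x, (u * u).1 x ∂μ = C.m μ u u := rfl
  rw [h3] at h2
  have hD := C.D_nonneg μ u
  have hm := C.m_nonneg μ u
  have h4 : ε ^ 2 / (4 * r ^ 2) ≤ 1 / (4 * r ^ 2) * ε := by
    rw [div_eq_mul_one_div, mul_comm]
    exact mul_le_mul_of_nonneg_left (by nlinarith) (by positivity)
  have h5 : ε ^ 2 / (4 * r ^ 2) * C.m μ u u ≤ 1 / (4 * r ^ 2) * ε * (C.D μ u u + C.m μ u u) :=
    mul_le_mul h4 (by linarith) hm (by positivity)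
  have h6 : 2 * ε * (C.D μ u u + (|C1| + |C0|) * C.m μ u u) ≤
      2 * ε * ((1 + |C1| + |C0|) * (C.D μ u u + C.m μ u u)) := by
    refine mul_le_mul_of_nonneg_left ?_ (by positivity)
    have := abs_nonneg C1
    have := abs_nonneg C0
    nlinarith
  linarith

end Calc

end Pool.Agent.Helper89.Stek
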