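import Pool.Agent.Helper89.Stek.Side

/-!
One-sided families of densities.
-/

set_option autoImplicit false

open MeasureTheory Filter Topology
open scoped ContDiff

namespace Pool.Agent.Helper89.Stek

namespace Calc

variable {M : Type*} [MeasurableSpace M] (C : Calc M) (μ ν : Measure M) [IsFiniteMeasure μ]
  [IsFiniteMeasure ν]
variable (f Lf : C.S)

/-- the coarea property -/
def Coarea : Prop := ∀ η : ℝ → ℝ, Continuous η → HasCompactSupport η → ∀ ψ : C.S,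
  Tendsto (fun ε : ℝ => ∫ x, ψ.1 x * (ε⁻¹ * η (f.1 x / ε)) * (C.Γ f f).1 x ∂μ) (𝓝[>] 0)
    (𝓝 ((∫ t, η t) * ∫ x, ψ.1 x ∂ν))

variable {μ ν f Lf}

lemma Coarea.neg (h : C.Coarea μ ν f) : C.Coarea μ ν (-f) := by
  intro η hη hηc ψ
  have h1 := h (fun t => η (-t)) (hη.comp continuous_neg)
    (hηc.comp_homeomorph (Homeomorph.neg ℝ)) ψ
  have h2 : ∫ t, η (-t) = ∫ t, η t := integral_neg_eq_self η volume
  rw [h2] at h1
  refine h1.congr fun ε => ?_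
  congr 1
  ext x
  have h3 : (C.Γ (-f) (-f)).1 x = (C.Γ f f).1 x := by
    rw [map_neg, map_neg, LinearMap.neg_apply, neg_neg]
  have h4 : (-f).1 x = - f.1 x := rfl
  rw [h3, h4, neg_div]

variable (f Lf)

/-- the function `h` of one side -/
noncomputable def sh (A r ε : ℝ) : C.S := C.cp (JJ A r ε) (contDiff_JJ A r ε) f

/-- the density `c` of one side -/
noncomputable def sc (A r ε : ℝ) : C.S := C.cp (th3 A r ε) (contDiff_th3 A r ε) f * C.Γ f f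

/-- the density `n` of one side -/
noncomputable def sn (A r ε : ℝ) : C.S :=
  C.cp (th1 A r ε) (contDiff_th1 A r ε) f * C.Γ f f - C.cp (kk A r ε) (contDiff_kk A r ε) f * Lf

lemma Γ_sh (A r ε : ℝ) (v : C.S) (x : M) :
    (C.Γ v (C.sh f A r ε)).1 x = kk A r ε (f.1 x) * (C.Γ v f).1 x := by
  unfold sh
  rw [C.symm, C.Γ_cp, deriv_JJ, C.symm]

variable {f Lf}

lemma side_id (h : C.Green μ f Lf) (A r ε : ℝ) (ψ : C.S) :
    ∫ x, (ψ * C.sn f Lf A r ε).1 x ∂μ =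
      ∫ x, (ψ * C.sc f A r ε).1 x ∂μ + ∫ x, (C.Γ ψ (C.sh f A r ε)).1 x ∂μ := by
  have h1 := C.green_cp h (kk A r ε) (contDiff_kk A r ε) ψ
  have h2 : ∫ x, (C.Γ ψ (C.sh f A r ε)).1 x ∂μ =
      ∫ x, (C.cp (kk A r ε) (contDiff_kk A r ε) f * C.Γ ψ f).1 x ∂μ := by
    congr 1
    ext x
    rw [C.Γ_sh, C.mul_apply, C.cp_apply]
  rw [h2, h1]
  have h3 : ∫ x, (ψ * C.sn f Lf A r ε).1 x ∂μ =
      ∫ x, (ψ * C.sc f A r ε - ψ * C.Γ (C.cp (kk A r ε) (contDiff_kk A r ε) f) f -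
        ψ * C.cp (kk A r ε) (contDiff_kk A r ε) f * Lf).1 x ∂μ := by
    congr 1
    ext x
    simp only [C.sub_apply, C.mul_apply, sn, sc, C.cp_apply, C.Γ_cp, deriv_kk']
    ring
  rw [h3, C.int_sub, C.int_sub]
  ring

section

variable {r A C0 C1 : ℝ}

lemma sh_nonneg {ε : ℝ} (hε : 0 < ε) (x : M) : 0 ≤ (C.sh f A r ε).1 x := by
  unfold sh
  rw [C.cp_apply]
  exact JJ_nonneg hε _

lemma sh_le {ε : ℝ} (hA : 0 ≤ A) (hr : 0 < r) (hε : 0 < ε) (x : M) : (C.sh f A r ε).1 x ≤ 2 * r := by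
  unfold sh
  rw [C.cp_apply]
  exact JJ_le hA hr hε _

lemma sh_eq_zero {ε : ℝ} (hε : 0 < ε) {x : M} (hx : f.1 x ≤ 0) : (C.sh f A r ε).1 x = 0 := by
  unfold sh
  rw [C.cp_apply]
  exact JJ_eq_zero hε hx

lemma sc_nonneg {ε : ℝ} (hε : 0 < ε) (x : M) : 0 ≤ (C.sc f A r ε).1 x := by
  unfold sc
  rw [C.mul_apply, C.cp_apply]
  exact mul_nonneg (th3_nonneg hε _) (C.nonneg f x)

lemma sn_nonneg {ε : ℝ} (hε : 0 < ε) (hA : 2 * C0 ≤ A) (hC0 : ∀ x, |Lf.1 x| ≤ C0) (hC0' : 0 ≤ C0)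
    (hr : 0 < r) (hlow : ∀ x, |f.1 x| ≤ 2 * r → 1 / 2 ≤ (C.Γ f f).1 x) (x : M) :
    0 ≤ (C.sn f Lf A r ε).1 x := by
  unfold sn
  rw [C.sub_apply, C.mul_apply, C.mul_apply, C.cp_apply, C.cp_apply]
  have hA0 : 0 ≤ A := by linarith
  obtain ⟨B, _, hB⟩ := th1_bound hA0 hr
  have hth := (hB ε (f.1 x) hε).1
  have hΓ := C.nonneg f x
  by_cases h1 : |f.1 x| ≤ 2 * r
  · have h2 := hlow x h1
    have h3 : th1 A r ε (f.1 x) * (C.Γ f f).1 x - kk A r ε (f.1 x) * Lf.1 x =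
        Real.exp (-A * f.1 x) * sp (f.1 x / ε) * (be r (f.1 x) * (A * (C.Γ f f).1 x - Lf.1 x) -
          deriv (be r) (f.1 x) * (C.Γ f f).1 x) := by
      unfold th1 kk; ring
    rw [h3]
    have h4 := be_nonneg r (f.1 x)
    have h5 := deriv_be_nonpos hr (f.1 x)
    have h6 := le_of_abs_le (hC0 x)
    have h7 : 0 ≤ A * (C.Γ f f).1 x - Lf.1 x := by nlinarith
    have h8 := sp_nonneg (f.1 x / ε)
    have h9 : 0 ≤ - deriv (be r) (f.1 x) * (C.Γ f f).1 x := mul_nonneg (by linarith) hΓ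
    have h10 : 0 ≤ be r (f.1 x) * (A * (C.Γ f f).1 x - Lf.1 x) := mul_nonneg h4 h7
    refine mul_nonneg (mul_nonneg (Real.exp_pos _).le h8) ?_
    linarith
  · push Not at h1
    have h2 : kk A r ε (f.1 x) = 0 := by
      rcases le_total 0 (f.1 x) with h | h
      · rw [abs_of_nonneg h] at h1
        unfold kk
        rw [be_eq_zero hr h1.le]
        ring
      · exact kk_eq_zero hε (by linarith)
    rw [h2]
    nlinarith [mul_nonneg hth hΓ]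

lemma sn_bounds (hA : 0 ≤ A) (hC0 : ∀ x, |Lf.1 x| ≤ C0)
    (hC1 : ∀ x, |(C.Γ f f).1 x| ≤ C1) (hr : 0 < r) :
    ∃ K, 0 ≤ K ∧ ∀ ε, 0 < ε → ∀ x, |(C.sn f Lf A r ε).1 x| ≤ K ∧
      ∀ ε' > 0, ε' ≤ ε → |(C.sn f Lf A r ε).1 x - (C.sn f Lf A r ε').1 x| ≤ K * (2 * om ε (f.1 x)) := by
  obtain ⟨B, hB0, hB⟩ := th1_bound hA hr
  refine ⟨B * |C1| + |C0|, by positivity, fun ε hε x => ?_⟩
  obtain ⟨h1, h2, h3⟩ := hB ε (f.1 x) hε
  have h4 := kk_nonneg A r ε (f.1 x)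
  have h5 := kk_le_one (r := r) (s := f.1 x) hA hε
  have h6 : |(C.Γ f f).1 x| ≤ |C1| := (hC1 x).trans (le_abs_self _)
  have h7 : |Lf.1 x| ≤ |C0| := (hC0 x).trans (le_abs_self _)
  constructor
  · unfold sn
    rw [C.sub_apply, C.mul_apply, C.mul_apply, C.cp_apply, C.cp_apply]
    calc |th1 A r ε (f.1 x) * (C.Γ f f).1 x - kk A r ε (f.1 x) * Lf.1 x|
        ≤ |th1 A r ε (f.1 x) * (C.Γ f f).1 x| + |kk A r ε (f.1 x) * Lf.1 x| := abs_sub _ _
      _ = th1 A r ε (f.1 x) * |(C.Γ f f).1 x| + kk A r ε (f.1 x) * |Lf.1 x| := by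
          rw [abs_mul, abs_mul, abs_of_nonneg h1, abs_of_nonneg h4]
      _ ≤ B * |C1| + 1 * |C0| := by gcongr
      _ = B * |C1| + |C0| := by ring
  · intro ε' hε' hle
    have h8 := h3 ε' hε' hle
    have h9 := kk_diff (r := r) (s := f.1 x) hA hε hε' hle
    have hom := (om_pos ε (f.1 x)).le
    have h10 : (C.sn f Lf A r ε).1 x - (C.sn f Lf A r ε').1 x =
        (th1 A r ε (f.1 x) - th1 A r ε' (f.1 x)) * (C.Γ f f).1 x -
          (kk A r ε (f.1 x) - kk A r ε' (f.1 x)) * Lf.1 x := by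
      unfold sn
      simp only [C.sub_apply, C.mul_apply, C.cp_apply]
      ring
    rw [h10]
    calc |(th1 A r ε (f.1 x) - th1 A r ε' (f.1 x)) * (C.Γ f f).1 x -
          (kk A r ε (f.1 x) - kk A r ε' (f.1 x)) * Lf.1 x|
        ≤ |(th1 A r ε (f.1 x) - th1 A r ε' (f.1 x)) * (C.Γ f f).1 x| +
          |(kk A r ε (f.1 x) - kk A r ε' (f.1 x)) * Lf.1 x| := abs_sub _ _
      _ = |th1 A r ε (f.1 x) - th1 A r ε' (f.1 x)| * |(C.Γ f f).1 x| +
          |kk A r ε (f.1 x) - kk A r ε' (f.1 x)| * |Lf.1 x| := by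
          rw [abs_mul, abs_mul]
      _ ≤ B * (2 * om ε (f.1 x)) * |C1| + 2 * om ε (f.1 x) * |C0| := by gcongr
      _ = (B * |C1| + |C0|) * (2 * om ε (f.1 x)) := by ring

/-- the one-sided densities converge to `ν` -/
lemma sc_tendsto (hco : C.Coarea μ ν f) (hsupp : ν {x | f.1 x ≠ 0} = 0) (A : ℝ) (hr : 0 < r) (ψ : C.S) :
    Tendsto (fun ε : ℝ => ∫ x, (ψ * C.sc f A r ε).1 x ∂μ) (𝓝[>] 0) (𝓝 (∫ x, ψ.1 x ∂ν)) := by
  have hw : ContDiff ℝ ∞ (fun s : ℝ => Real.exp (-A * s) * be r s) :=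
    ContDiff.mul (by fun_prop) (contDiff_be r)
  have h1 := hco (deriv sp) deriv_sp_cont deriv_sp_compact
    (ψ * C.cp (fun s : ℝ => Real.exp (-A * s) * be r s) hw f)
  rw [integral_deriv_sp, one_mul] at h1
  have h2 : ∫ x, (ψ * C.cp (fun s : ℝ => Real.exp (-A * s) * be r s) hw f).1 x ∂ν = ∫ x, ψ.1 x ∂ν := by
    apply integral_congr_ae
    have h3 : ∀ᵐ x ∂ν, f.1 x = 0 := hsupp
    filter_upwards [h3] with x hx
    rw [C.mul_apply, C.cp_apply, hx, be_eq_one hr hr.le]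
    simp
  rw [h2] at h1
  refine h1.congr fun ε => ?_
  congr 1
  ext x
  simp only [C.mul_apply, C.cp_apply, sc, th3]
  ring

/-- uniform rate of convergence of the one-sided densities -/
lemma sc_rate (hg : C.Green μ f Lf) (hco : C.Coarea μ ν f) (hsupp : ν {x | f.1 x ≠ 0} = 0)
    (hA : 0 ≤ A) (hr : 0 < r) (hlow : ∀ x, |f.1 x| ≤ 2 * r → 1 / 2 ≤ (C.Γ f f).1 x) :
    ∀ τ > 0, ∃ ε₁ > 0, ∀ ε, 0 < ε → ε < ε₁ → ∀ u : C.S,
      |∫ x, (u * u * C.sc f A r ε).1 x ∂μ - C.m ν u u| ≤ τ * (C.D μ u u + C.m μ u u) := by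
  obtain ⟨C0, hC0⟩ := C.bdd Lf
  obtain ⟨C1, hC1⟩ := C.bdd (C.Γ f f)
  have hC1' : ∀ x, (C.Γ f f).1 x ≤ |C1| := fun x => (le_abs_self _).trans ((hC1 x).trans (le_abs_self _))
  obtain ⟨K, hK0, hK⟩ := C.sn_bounds (f := f) (Lf := Lf) hA hC0 hC1 hr
  obtain ⟨c, hc0, hc⟩ := C.thin hg hr hlow
  intro τ hτ
  refine ⟨min 1 (τ / (2 * ((2 * K + 8 * |C1| / τ) * c + 1))), by positivity, fun ε hε hε1 u => ?_⟩
  have hε1' : ε ≤ 1 := hε1.le.trans (min_le_left _ _)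
  have hε2 : ε * (2 * ((2 * K + 8 * |C1| / τ) * c + 1)) < τ := by
    have := hε1.trans_le (min_le_right _ _)
    rwa [lt_div_iff₀ (by positivity)] at this
  have hD := C.D_nonneg μ u
  have hm := C.m_nonneg μ u
  -- comparison of two parameters
  have hcmp : ∀ ε' > 0, ε' ≤ ε → |∫ x, (u * u * C.sc f A r ε).1 x ∂μ -
      ∫ x, (u * u * C.sc f A r ε').1 x ∂μ| ≤ τ * (C.D μ u u + C.m μ u u) := by
    intro ε' hε' hle
    have h1 := C.side_id hg A r ε (u * u)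
    have h2 := C.side_id hg A r ε' (u * u)
    have h3 : ∫ x, (u * u * C.sc f A r ε).1 x ∂μ - ∫ x, (u * u * C.sc f A r ε').1 x ∂μ =
        ∫ x, (u * u * (C.sn f Lf A r ε - C.sn f Lf A r ε') -
          (C.Γ (u * u) (C.sh f A r ε) - C.Γ (u * u) (C.sh f A r ε'))).1 x ∂μ := by
      rw [C.int_sub, C.int_sub, mul_sub, C.int_sub]
      linarith
    rw [h3]
    have h4 : ∀ x, |(u * u * (C.sn f Lf A r ε - C.sn f Lf A r ε') -
          (C.Γ (u * u) (C.sh f A r ε) - C.Γ (u * u) (C.sh f A r ε'))).1 x| ≤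
        ((2 * K + 8 * |C1| / τ) • (C.cp (om ε) (contDiff_om ε) f * (u * u)) +
          (τ / 2) • C.Γ u u).1 x := by
      intro x
      have h5 := (hK ε hε x).2 ε' hε' hle
      have h6 : |2 * u.1 x * (C.Γ u f).1 x| ≤ τ / 4 * (C.Γ u u).1 x + |C1| / (τ / 4) * (u.1 x) ^ 2 := by
        refine amgm (C.nonneg u x) (abs_nonneg _) (by positivity) ?_
        refine (C.cauchy u f x).trans ?_
        rw [mul_comm]
        exact mul_le_mul_of_nonneg_right (hC1' x) (C.nonneg u x)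
      have h7 := kk_diff (r := r) (s := f.1 x) hA hε hε' hle
      have hom := (om_pos ε (f.1 x)).le
      have hom1 := om_le_one ε (f.1 x)
      have h8 : (u * u * (C.sn f Lf A r ε - C.sn f Lf A r ε') -
          (C.Γ (u * u) (C.sh f A r ε) - C.Γ (u * u) (C.sh f A r ε'))).1 x =
          u.1 x * u.1 x * ((C.sn f Lf A r ε).1 x - (C.sn f Lf A r ε').1 x) -
            (kk A r ε (f.1 x) - kk A r ε' (f.1 x)) * (2 * u.1 x * (C.Γ u f).1 x) := by
        simp only [C.sub_apply, C.mul_apply, C.Γ_sh, C.leib_apply]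
        ring
      rw [h8]
      simp only [C.add_apply, C.smul_apply, C.mul_apply, C.cp_apply]
      have hu := mul_self_nonneg (u.1 x)
      have hΓ := C.nonneg u x
      calc |u.1 x * u.1 x * ((C.sn f Lf A r ε).1 x - (C.sn f Lf A r ε').1 x) -
            (kk A r ε (f.1 x) - kk A r ε' (f.1 x)) * (2 * u.1 x * (C.Γ u f).1 x)|
          ≤ |u.1 x * u.1 x * ((C.sn f Lf A r ε).1 x - (C.sn f Lf A r ε').1 x)| +
            |(kk A r ε (f.1 x) - kk A r ε' (f.1 x)) * (2 * u.1 x * (C.Γ u f).1 x)| := abs_sub _ _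
        _ = u.1 x * u.1 x * |(C.sn f Lf A r ε).1 x - (C.sn f Lf A r ε').1 x| +
            |kk A r ε (f.1 x) - kk A r ε' (f.1 x)| * |2 * u.1 x * (C.Γ u f).1 x| := by
            rw [abs_mul, abs_of_nonneg hu, abs_mul]
        _ ≤ u.1 x * u.1 x * (K * (2 * om ε (f.1 x))) + 2 * om ε (f.1 x) *
            (τ / 4 * (C.Γ u u).1 x + |C1| / (τ / 4) * (u.1 x) ^ 2) := by gcongr
        _ ≤ (2 * K + 8 * |C1| / τ) * (om ε (f.1 x) * (u.1 x * u.1 x)) + τ / 2 * (C.Γ u u).1 x := by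
            have h9 : |C1| / (τ / 4) = 4 * |C1| / τ := by field_simp
            rw [h9]
            have h10 : 2 * om ε (f.1 x) * (τ / 4 * (C.Γ u u).1 x) ≤ τ / 2 * (C.Γ u u).1 x := by
              have : 0 ≤ τ / 2 * (C.Γ u u).1 x := by positivity
              nlinarith
            have h11 : u.1 x * u.1 x * (K * (2 * om ε (f.1 x))) + 2 * om ε (f.1 x) *
              (4 * |C1| / τ * (u.1 x) ^ 2) = (2 * K + 8 * |C1| / τ) * (om ε (f.1 x) * (u.1 x * u.1 x)) := by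
              ring
            linarith
    have h5 : |∫ x, (u * u * (C.sn f Lf A r ε - C.sn f Lf A r ε') -
          (C.Γ (u * u) (C.sh f A r ε) - C.Γ (u * u) (C.sh f A r ε'))).1 x ∂μ| ≤
        ∫ x, ((2 * K + 8 * |C1| / τ) • (C.cp (om ε) (contDiff_om ε) f * (u * u)) +
          (τ / 2) • C.Γ u u).1 x ∂μ := by
      refine (abs_integral_le_integral_abs).trans ?_
      exact integral_mono (C.integrable _ μ).abs (C.integrable _ μ) h4
    refine h5.trans ?_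
    rw [C.int_add, C.int_smul, C.int_smul]
    have h6 := hc ε hε hε1' u
    have h7 : ∫ x, (C.Γ u u).1 x ∂μ = C.D μ u u := rfl
    rw [h7]
    have h8 : (2 * K + 8 * |C1| / τ) * ∫ x, (C.cp (om ε) (contDiff_om ε) f * (u * u)).1 x ∂μ ≤
        (2 * K + 8 * |C1| / τ) * (c * ε * (C.D μ u u + C.m μ u u)) :=
      mul_le_mul_of_nonneg_left h6 (by positivity)
    have h9 : (2 * K + 8 * |C1| / τ) * (c * ε) ≤ τ / 2 := by nlinarith
    have h10 : (2 * K + 8 * |C1| / τ) * (c * ε * (C.D μ u u + C.m μ u u)) ≤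
        τ / 2 * (C.D μ u u + C.m μ u u) := by
      have := mul_le_mul_of_nonneg_right h9 (add_nonneg hD hm)
      linarith
    nlinarith
  have hlim := C.sc_tendsto hco hsupp A hr (u * u)
  have hlim2 : Tendsto (fun ε' : ℝ => |∫ x, (u * u * C.sc f A r ε).1 x ∂μ -
      ∫ x, (u * u * C.sc f A r ε').1 x ∂μ|) (𝓝[>] 0)
      (𝓝 (|∫ x, (u * u * C.sc f A r ε).1 x ∂μ - ∫ x, (u * u).1 x ∂ν|)) :=
    (tendsto_const_nhds.sub hlim).abs
  refine le_of_tendsto hlim2 ?_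
  have h1 : ∀ᶠ ε' in 𝓝[>] (0 : ℝ), ε' ∈ Set.Ioo 0 ε := Ioo_mem_nhdsGT hε
  filter_upwards [h1] with ε' hε'
  exact hcmp ε' hε'.1 hε'.2.le

end

end Calc

end Pool.Agent.Helper89.Stek
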