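import Pool.Agent.Helper89.Stek.Fam

/-!
One step of the main argument: a nearly optimal function for a perturbed density.
-/

set_option autoImplicit false

open MeasureTheory Filter Topology
open scoped ContDiff

namespace Pool.Agent.Helper89.Stek

/-- a subspace of large dimension contains a nonzero vector killed by few functionals -/
lemma exists_ne_zero_of_finrank {X : Type*} [AddCommGroup X] [Module ℝ X] {n k : ℕ} (hn : n < k)
    (E : Submodule ℝ X) (hE : Module.finrank ℝ E = k) (l : Fin n → X →ₗ[ℝ] ℝ) :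
    ∃ u ∈ E, u ≠ 0 ∧ ∀ i, l i u = 0 := by
  have hfd : FiniteDimensional ℝ E := Module.finite_of_finrank_pos (by omega)
  let T : E →ₗ[ℝ] (Fin n → ℝ) := LinearMap.pi fun i => (l i).comp E.subtype
  have h1 : LinearMap.ker T ≠ ⊥ := by
    apply LinearMap.ker_ne_bot_of_finrank_lt
    rw [hE, Module.finrank_fin_fun]
    exact hn
  obtain ⟨⟨u, hu⟩, hker, hne⟩ := Submodule.exists_mem_ne_zero_of_ne_bot h1
  refine ⟨u, hu, fun h => hne (Subtype.ext h), fun i => ?_⟩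
  have := congrFun (LinearMap.mem_ker.mp hker) i
  exact this

namespace Calc

variable {M : Type*} [MeasurableSpace M] (C : Calc M) {μ ν : Measure M} [IsFiniteMeasure μ]
  [IsFiniteMeasure ν]

lemma D_mul_le {B : ℝ} (h u : C.S) (hB : ∀ x, 0 ≤ h.1 x ∧ h.1 x ≤ B) (hΓ : ∀ x, (C.Γ h h).1 x ≤ B) :
    C.D μ (h * u) (h * u) ≤ 2 * B ^ 2 * C.D μ u u + 2 * B * C.m μ u u := by
  have h1 : 2 * B ^ 2 * C.D μ u u + 2 * B * C.m μ u u =
      ∫ x, ((2 * B ^ 2) • C.Γ u u + (2 * B) • (u * u)).1 x ∂μ := by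
    rw [C.int_add, C.int_smul, C.int_smul]; rfl
  rw [h1, C.D_apply]
  refine C.int_mono μ fun x => ?_
  have h2 := C.cauchy h u x
  have h3 := C.nonneg h x
  have h4 := C.nonneg u x
  simp only [C.leib_apply, C.leib_apply', C.add_apply, C.smul_apply, C.mul_apply]
  rw [C.symm u h]
  have h5 := (hB x).1
  have h6 := (hB x).2
  have h7 := hΓ x
  set a := (C.Γ h u).1 x
  set g := (C.Γ u u).1 x
  set w := (C.Γ h h).1 x
  set y := h.1 x
  set z := u.1 x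
  have h8 : y ^ 2 ≤ B ^ 2 := pow_le_pow_left₀ h5 h6 2
  have h9 : 2 * (y * z * a) ≤ y ^ 2 * g + z ^ 2 * w := by
    have h10 : (y * z * a) ^ 2 ≤ (y ^ 2 * g) * (z ^ 2 * w) := by
      have : (y * z * a) ^ 2 = y ^ 2 * z ^ 2 * a ^ 2 := by ring
      rw [this]
      have h11 : y ^ 2 * z ^ 2 * a ^ 2 ≤ y ^ 2 * z ^ 2 * (w * g) :=
        mul_le_mul_of_nonneg_left h2 (by positivity)
      linarith
    have h12 : 0 ≤ y ^ 2 * g := by positivity
    have h13 : 0 ≤ z ^ 2 * w := by positivity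
    by_contra hcon
    push Not at hcon
    nlinarith [sq_nonneg (y ^ 2 * g - z ^ 2 * w)]
  have h10 : y ^ 2 * g ≤ B ^ 2 * g := mul_le_mul_of_nonneg_right h8 h4
  have h11 : z ^ 2 * w ≤ z ^ 2 * B := mul_le_mul_of_nonneg_left h7 (by positivity)
  nlinarith

lemma abs_D_le (u v : C.S) : |C.D μ u v| ≤ (C.D μ u u + C.D μ v v) / 2 := by
  have h1 := C.D_nonneg μ (u + v)
  have h2 := C.D_nonneg μ (u - v)
  simp only [map_add, map_sub, LinearMap.add_apply, LinearMap.sub_apply] at h1 h2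
  have h3 := C.D_symm μ v u
  rw [abs_le]
  constructor <;> linarith

/-- the one-step lemma -/
theorem one_step {f : C.S} (hsupp : ν {x | f.1 x ≠ 0} = 0) {B : ℝ} (hB0 : 0 ≤ B)
    {h c n : ℝ → C.S}
    (hpt : ∀ ε > 0, ∀ x, 0 ≤ (h ε).1 x ∧ (h ε).1 x ≤ B ∧ (f.1 x = 0 → (h ε).1 x = 0) ∧
        (C.Γ (h ε) (h ε)).1 x ≤ B ∧ 0 ≤ (c ε).1 x ∧ 0 ≤ (n ε).1 x)
    (hid : ∀ ε > 0, ∀ ψ : C.S, ∫ x, (ψ * n ε).1 x ∂μ =
        2 * ∫ x, (ψ * c ε).1 x ∂μ + ∫ x, (C.Γ ψ (h ε)).1 x ∂μ)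
    (hrate : ∀ τ > 0, ∃ ε₁ > 0, ∀ ε, 0 < ε → ε < ε₁ → ∀ u : C.S,
        |∫ x, (u * u * c ε).1 x ∂μ - C.m ν u u| ≤ τ * (C.D μ u u + C.m μ u u))
    (hlen : 0 < C.m ν 1 1) {c1 : ℝ} (hc1 : 0 ≤ c1)
    (hpoin : ∀ u : C.S, C.m μ u u ≤ c1 * (C.D μ u u + C.m ν u u))
    (hdef : ∀ u : C.S, C.m μ u u = 0 → u = 0)
    {lam : ℝ} (hlam : 0 < lam) {k n' : ℕ} (hn : n' ≤ k) (l : Fin n' → C.S →ₗ[ℝ] ℝ) {Cl : ℝ}
    (hl : ∀ i u, (l i u) ^ 2 ≤ Cl * C.m ν u u)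
    (hQ : ∀ v, (∀ i, l i v = 0) → 0 ≤ C.D μ v v - lam * C.m ν v v)
    (hneg : ∀ ρ : C.S, (∀ x, 0 < ρ.1 x) → ∀ P, lam * C.m ν 1 1 < P * ∫ x, ρ.1 x ∂μ →
      ∃ E : Submodule ℝ C.S, Module.finrank ℝ E = k + 1 ∧ ∀ u ∈ E,
        C.D μ u u ≤ P * ∫ x, (u * u * ρ).1 x ∂μ) :
    ∃ K, 0 ≤ K ∧ ∀ t, 0 < t → t < 1 → ∃ ε, 0 < ε ∧ ε < t ∧ ∃ u : C.S, (∀ i, l i u = 0) ∧
      C.D μ u u + C.m ν u u = 1 ∧ C.D μ u u - lam * C.m ν u u ≤ K * t ∧
      ∫ x, (h ε * C.Γ u u).1 x ∂μ ≤ K * t := by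
  obtain ⟨L, hL⟩ : ∃ L : ℝ, L = C.m ν 1 1 := ⟨_, rfl⟩
  rw [← hL] at hlen hneg
  obtain ⟨V, hV⟩ : ∃ V : ℝ, V = C.m μ 1 1 := ⟨_, rfl⟩
  have hV0 : 0 ≤ V := by rw [hV]; exact C.m_nonneg μ 1
  obtain ⟨K3, hK3⟩ : ∃ K3 : ℝ, K3 = 2 * B ^ 2 + 2 * B * c1 := ⟨_, rfl⟩
  have hK30 : 0 ≤ K3 := by rw [hK3]; positivity
  obtain ⟨K4, hK4⟩ : ∃ K4 : ℝ, K4 = (1 + K3) / 2 := ⟨_, rfl⟩
  have hK40 : 0 ≤ K4 := by rw [hK4]; positivity
  obtain ⟨K5, hK5⟩ : ∃ K5 : ℝ, K5 = lam + 2 * lam * (1 + c1) + 2 * lam * c1 + 4 * lam ^ 2 * K3 := ⟨_, rfl⟩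
  have hK50 : 0 ≤ K5 := by rw [hK5]; positivity
  refine ⟨3 * K5 / (2 * lam) + (K5 + 4 * lam * K4), by positivity, fun t ht ht1 => ?_⟩
  obtain ⟨τ, hτ⟩ : ∃ τ : ℝ, τ = t ^ 2 := ⟨_, rfl⟩
  have hτ0 : 0 < τ := by rw [hτ]; positivity
  have hτt : τ ≤ t := by rw [hτ]; nlinarith
  have hτ1 : τ ≤ 1 := hτt.trans ht1.le
  obtain ⟨e1, he1, hr1⟩ := hrate τ hτ0
  obtain ⟨e2, he2, hr2⟩ := hrate (τ * L / (4 * (V + 1))) (by positivity)
  obtain ⟨ε, hε⟩ : ∃ ε : ℝ, ε = min (min e1 e2) t / 2 := ⟨_, rfl⟩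
  have hmin : 0 < min (min e1 e2) t := by positivity
  have hε0 : 0 < ε := by rw [hε]; positivity
  have hε1 : ε < e1 := by
    have : min (min e1 e2) t ≤ e1 := (min_le_left _ _).trans (min_le_left _ _)
    linarith
  have hε2 : ε < e2 := by
    have : min (min e1 e2) t ≤ e2 := (min_le_left _ _).trans (min_le_right _ _)
    linarith
  have hεt : ε < t := by
    have : min (min e1 e2) t ≤ t := min_le_right _ _
    linarith
  have hcε : ∀ x, 0 ≤ (c ε).1 x := fun x => (hpt ε hε0 x).2.2.2.2.1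
  have hnε : ∀ x, 0 ≤ (n ε).1 x := fun x => (hpt ε hε0 x).2.2.2.2.2
  -- total mass
  obtain ⟨a, ha⟩ : ∃ a : ℝ, a = ∫ x, (c ε).1 x ∂μ := ⟨_, rfl⟩
  have haL : L < (1 + τ) * a := by
    have h1 := hr2 ε hε0 hε2 1
    have h2 : C.D μ 1 1 = 0 := by rw [C.D_apply, C.Γ_one]; simp [C.zero_apply]
    rw [one_mul, one_mul, ← ha, ← hL, ← hV, h2, zero_add] at h1
    rw [abs_le] at h1
    have h3 : τ * L / (4 * (V + 1)) * V ≤ τ * L / 4 := by
      rw [div_mul_eq_mul_div, div_le_div_iff₀ (by positivity) (by norm_num)]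
      have : 0 ≤ τ * L := by positivity
      nlinarith
    have h4 := h1.1
    have h5 : 0 < τ * L := by positivity
    nlinarith
  have ha0 : 0 < a := by
    by_contra hcon
    push Not at hcon
    nlinarith
  obtain ⟨ρ, hρ⟩ : ∃ ρ : C.S, ρ = c ε + t • n ε + τ • 1 := ⟨_, rfl⟩
  have hρpos : ∀ x, 0 < ρ.1 x := by
    intro x
    have h1 : ρ.1 x = (c ε).1 x + t * (n ε).1 x + τ * 1 := by rw [hρ]; rfl
    rw [h1]
    have := hcε x
    have := hnε x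
    positivity
  have hρint : ∫ x, ρ.1 x ∂μ = (1 + 2 * t) * a + τ * V := by
    have h1 := hid ε hε0 1
    rw [C.Γ_one] at h1
    simp only [one_mul, C.zero_apply, integral_zero, add_zero] at h1
    have h2 : V = ∫ x, (1 : C.S).1 x ∂μ := by rw [hV, C.m_apply, one_mul]
    rw [hρ, C.int_add, C.int_add, C.int_smul, C.int_smul, h1, ← ha, ← h2]
    ring
  obtain ⟨P, hP⟩ : ∃ P : ℝ, P = lam * (1 + τ) / (1 + 2 * t) := ⟨_, rfl⟩
  have hP0 : 0 < P := by rw [hP]; positivity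
  have hP1 : P * (1 + 2 * t) = lam * (1 + τ) := by rw [hP]; field_simp
  have hP2 : P ≤ 2 * lam := by
    rw [hP, div_le_iff₀ (by positivity)]
    nlinarith
  have hP3 : lam / 3 ≤ P := by
    rw [hP, div_le_div_iff₀ (by positivity) (by positivity)]
    nlinarith
  have hPρ : lam * L < P * ∫ x, ρ.1 x ∂μ := by
    rw [hρint]
    have h1 : P * ((1 + 2 * t) * a + τ * V) = lam * ((1 + τ) * a) + P * (τ * V) := by
      rw [mul_add, ← mul_assoc, hP1]; ring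
    rw [h1]
    have h2 : 0 ≤ P * (τ * V) := by positivity
    have h3 : lam * L < lam * ((1 + τ) * a) := mul_lt_mul_of_pos_left haL hlam
    linarith
  obtain ⟨E, hE, hEρ⟩ := hneg ρ hρpos P hPρ
  obtain ⟨u, huE, hu0, hlu⟩ := exists_ne_zero_of_finrank (Nat.lt_succ_of_le hn) E hE l
  have hDρ := hEρ u huE
  -- notation for the quadratic quantities
  obtain ⟨Nu, hNu⟩ : ∃ Nu : ℝ, Nu = C.D μ u u + C.m ν u u := ⟨_, rfl⟩
  have hD0 := C.D_nonneg μ u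
  have hm0 := C.m_nonneg ν u
  have hmμ0 := C.m_nonneg μ u
  have hNu0 : 0 < Nu := by
    rw [hNu]
    rcases (add_nonneg hD0 hm0).lt_or_eq with h1 | h1
    · exact h1
    · exfalso
      have h2 := hpoin u
      rw [← h1, mul_zero] at h2
      exact hu0 (hdef u (le_antisymm h2 hmμ0))
  have hpu : C.m μ u u ≤ c1 * Nu := by rw [hNu]; exact hpoin u
  obtain ⟨I, hI⟩ : ∃ I : ℝ, I = ∫ x, (u * u * c ε).1 x ∂μ := ⟨_, rfl⟩
  have hI1 : I ≤ C.m ν u u + τ * ((1 + c1) * Nu) := by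
    have h1 := hr1 ε hε0 hε1 u
    rw [← hI, abs_le] at h1
    have h2 : C.D μ u u + C.m μ u u ≤ (1 + c1) * Nu := by
      have : C.D μ u u ≤ Nu := by rw [hNu]; linarith
      linarith
    have h3 := mul_le_mul_of_nonneg_left h2 hτ0.le
    linarith [h1.2]
  obtain ⟨b, hb⟩ : ∃ b : ℝ, b = C.D μ u (h ε * u) := ⟨_, rfl⟩
  obtain ⟨Gu, hGu⟩ : ∃ Gu : ℝ, Gu = ∫ x, (h ε * C.Γ u u).1 x ∂μ := ⟨_, rfl⟩
  have hGu0 : 0 ≤ Gu := by
    rw [hGu]
    refine integral_nonneg fun x => ?_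
    exact mul_nonneg (hpt ε hε0 x).1 (C.nonneg u x)
  have hΓuu : ∫ x, (C.Γ (u * u) (h ε)).1 x ∂μ = 2 * b - 2 * Gu := by
    have h1 : ∫ x, (C.Γ (u * u) (h ε)).1 x ∂μ =
        ∫ x, ((2 : ℝ) • C.Γ u (h ε * u) - (2 : ℝ) • (h ε * C.Γ u u)).1 x ∂μ := by
      congr 1
      ext x
      simp only [C.sub_apply, C.smul_apply, C.mul_apply, C.leib_apply, C.leib_apply']
      ring
    rw [h1, C.int_sub, C.int_smul, C.int_smul, hb, hGu]
    rfl
  have hρu : ∫ x, (u * u * ρ).1 x ∂μ = (1 + 2 * t) * I + 2 * t * b - 2 * t * Gu + τ * C.m μ u u := by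
    have h1 := hid ε hε0 (u * u)
    rw [hΓuu, ← hI] at h1
    have h2 : u * u * ρ = u * u * c ε + t • (u * u * n ε) + τ • (u * u) := by
      rw [hρ, mul_add, mul_add, mul_smul_comm, mul_smul_comm, mul_one]
    rw [h2, C.int_add, C.int_add, C.int_smul, C.int_smul, h1, ← hI, ← C.m_apply]
    ring
  have hDhu : C.D μ (h ε * u) (h ε * u) ≤ K3 * Nu := by
    have h1 := C.D_mul_le (μ := μ) (h ε) u (fun x => ⟨(hpt ε hε0 x).1, (hpt ε hε0 x).2.1⟩)
      (fun x => (hpt ε hε0 x).2.2.2.1)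
    have h2 : C.D μ u u ≤ Nu := by rw [hNu]; linarith
    have h3 : 2 * B ^ 2 * C.D μ u u ≤ 2 * B ^ 2 * Nu := mul_le_mul_of_nonneg_left h2 (by positivity)
    have h4 : 2 * B * C.m μ u u ≤ 2 * B * (c1 * Nu) := mul_le_mul_of_nonneg_left hpu (by positivity)
    rw [hK3]
    linarith
  have hbabs : |b| ≤ K4 * Nu := by
    rw [hb]
    refine (C.abs_D_le u (h ε * u)).trans ?_
    have h2 : C.D μ u u ≤ Nu := by rw [hNu]; linarith
    rw [hK4]
    linarith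
  -- the modified function
  have hν0 : ∀ᵐ x ∂ν, (h ε).1 x = 0 := by
    have h3 : ∀ᵐ x ∂ν, f.1 x = 0 := hsupp
    filter_upwards [h3] with x hx using (hpt ε hε0 x).2.2.1 hx
  have hlhu : ∀ i, l i (h ε * u) = 0 := by
    intro i
    have h1 := hl i (h ε * u)
    have h2 : C.m ν (h ε * u) (h ε * u) = 0 := by
      rw [C.m_apply]
      have : ∫ x, (h ε * u * (h ε * u)).1 x ∂ν = ∫ x, (0 : ℝ) ∂ν := by
        apply integral_congr_ae
        filter_upwards [hν0] with x hx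
        simp only [C.mul_apply, hx]
        ring
      rw [this]; simp
    rw [h2, mul_zero] at h1
    exact pow_eq_zero_iff two_ne_zero |>.mp (le_antisymm h1 (sq_nonneg _))
  have hQT := hQ (u - (t * P) • (h ε * u)) (fun i => by
    rw [map_sub, map_smul, hlu, hlhu]; simp)
  have hDT : C.D μ (u - (t * P) • (h ε * u)) (u - (t * P) • (h ε * u)) =
      C.D μ u u - 2 * (t * P) * b + (t * P) ^ 2 * C.D μ (h ε * u) (h ε * u) := by
    have h1 := C.D_symm μ (h ε * u) u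
    simp only [map_sub, map_smul, LinearMap.sub_apply, LinearMap.smul_apply, smul_eq_mul]
    rw [h1, ← hb]
    ring
  have hmT : C.m ν (u - (t * P) • (h ε * u)) (u - (t * P) • (h ε * u)) = C.m ν u u := by
    rw [C.m_apply, C.m_apply]
    apply integral_congr_ae
    filter_upwards [hν0] with x hx
    simp only [C.mul_apply, C.sub_apply, C.smul_apply, hx]
    ring
  rw [hDT, hmT] at hQT
  rw [hρu] at hDρ
  have hDmain : C.D μ u u ≤ lam * (1 + τ) * I + 2 * (t * P) * b - 2 * (t * P) * Gu +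
      P * τ * C.m μ u u := by
    have h1 : P * ((1 + 2 * t) * I + 2 * t * b - 2 * t * Gu + τ * C.m μ u u) =
      lam * (1 + τ) * I + 2 * (t * P) * b - 2 * (t * P) * Gu + P * τ * C.m μ u u := by
      rw [← hP1]; ring
    linarith
  have hIb : lam * (1 + τ) * I - lam * C.m ν u u ≤ τ * Nu * (lam + 2 * lam * (1 + c1)) := by
    have h1 : lam * (1 + τ) * I ≤ lam * (1 + τ) * (C.m ν u u + τ * ((1 + c1) * Nu)) :=
      mul_le_mul_of_nonneg_left hI1 (by positivity)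
    have h2 : C.m ν u u ≤ Nu := by rw [hNu]; linarith
    have h3 : lam * τ * C.m ν u u ≤ lam * τ * Nu := mul_le_mul_of_nonneg_left h2 (by positivity)
    have h4 : lam * (1 + τ) * (τ * ((1 + c1) * Nu)) ≤ lam * 2 * (τ * ((1 + c1) * Nu)) := by
      have : 0 ≤ τ * ((1 + c1) * Nu) := by positivity
      refine mul_le_mul_of_nonneg_right ?_ this
      exact mul_le_mul_of_nonneg_left (by linarith) hlam.le
    have h5 : lam * (1 + τ) * (C.m ν u u + τ * ((1 + c1) * Nu)) =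
        lam * C.m ν u u + lam * τ * C.m ν u u + lam * (1 + τ) * (τ * ((1 + c1) * Nu)) := by ring
    have h6 : τ * Nu * (lam + 2 * lam * (1 + c1)) = lam * τ * Nu + lam * 2 * (τ * ((1 + c1) * Nu)) := by ring
    rw [h6]
    rw [h5] at h1
    linarith only [h1, h3, h4]
  have hPτ : P * τ * C.m μ u u ≤ τ * Nu * (2 * lam * c1) := by
    have h1 : P * τ * C.m μ u u ≤ (2 * lam) * τ * (c1 * Nu) :=
      mul_le_mul (mul_le_mul_of_nonneg_right hP2 hτ0.le) hpu hmμ0 (by positivity)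
    linarith
  have hP2D : (t * P) ^ 2 * C.D μ (h ε * u) (h ε * u) ≤ τ * Nu * (4 * lam ^ 2 * K3) := by
    have h1 : (t * P) ^ 2 ≤ τ * (4 * lam ^ 2) := by
      rw [mul_pow, ← hτ]
      refine mul_le_mul_of_nonneg_left ?_ hτ0.le
      have h3 := pow_le_pow_left₀ hP0.le hP2 2
      have h4 : (2 * lam) ^ 2 = 4 * lam ^ 2 := by ring
      rw [h4] at h3
      exact h3
    have h2 : (t * P) ^ 2 * C.D μ (h ε * u) (h ε * u) ≤ τ * (4 * lam ^ 2) * (K3 * Nu) :=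
      mul_le_mul h1 hDhu (C.D_nonneg μ _) (by positivity)
    have h3 : τ * (4 * lam ^ 2) * (K3 * Nu) = τ * Nu * (4 * lam ^ 2 * K3) := by ring
    rw [h3] at h2
    exact h2
  have hK5e : τ * Nu * K5 = τ * Nu * (lam + 2 * lam * (1 + c1)) + τ * Nu * (2 * lam * c1) +
      τ * Nu * (4 * lam ^ 2 * K3) := by rw [hK5]; ring
  have hG1 : 2 * (t * P) * Gu ≤ τ * Nu * K5 := by
    rw [hK5e]
    linarith only [hDmain, hQT, hIb, hPτ, hP2D]
  have hG2 : Gu ≤ 3 * K5 / (2 * lam) * t * Nu := by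
    have h1 : 2 * (t * (lam / 3)) * Gu ≤ τ * Nu * K5 := by
      refine le_trans ?_ hG1
      refine mul_le_mul_of_nonneg_right ?_ hGu0
      have := mul_le_mul_of_nonneg_left hP3 ht.le
      linarith
    rw [hτ] at h1
    have h2 : t * (2 * lam / 3 * Gu) ≤ t * (t * Nu * K5) := by linarith
    have h3 : 2 * lam / 3 * Gu ≤ t * Nu * K5 := le_of_mul_le_mul_left h2 ht
    have h4 : 3 * K5 / (2 * lam) * t * Nu = (t * Nu * K5) / (2 * lam / 3) := by field_simp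
    rw [h4, le_div_iff₀ (by positivity)]
    linarith
  have hQ1 : C.D μ u u - lam * C.m ν u u ≤ (K5 + 4 * lam * K4) * t * Nu := by
    have h1 : 2 * (t * P) * b ≤ 4 * lam * K4 * t * Nu := by
      have h2 : b ≤ K4 * Nu := (le_abs_self b).trans hbabs
      have h3 : 2 * (t * P) * b ≤ 2 * (t * P) * (K4 * Nu) := mul_le_mul_of_nonneg_left h2 (by positivity)
      have h4 : 2 * (t * P) * (K4 * Nu) ≤ 2 * (t * (2 * lam)) * (K4 * Nu) := by
        refine mul_le_mul_of_nonneg_right ?_ (by positivity)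
        have := mul_le_mul_of_nonneg_left hP2 ht.le
        linarith
      linarith
    have h2 : 0 ≤ 2 * (t * P) * Gu := by positivity
    have h3 : τ * Nu * (lam + 2 * lam * (1 + c1)) + τ * Nu * (2 * lam * c1) ≤ τ * Nu * K5 := by
      rw [hK5e]
      have : 0 ≤ τ * Nu * (4 * lam ^ 2 * K3) := by positivity
      linarith only [this]
    have h4 : τ * Nu * K5 ≤ t * Nu * K5 := by
      refine mul_le_mul_of_nonneg_right ?_ hK50
      exact mul_le_mul_of_nonneg_right hτt hNu0.le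
    have h5 : (K5 + 4 * lam * K4) * t * Nu = t * Nu * K5 + 4 * lam * K4 * t * Nu := by ring
    rw [h5]
    linarith only [hDmain, hIb, hPτ, h1, h2, h3, h4]
  -- normalisation
  have hs : 0 < Real.sqrt Nu := Real.sqrt_pos.mpr hNu0
  have hs2 : (Real.sqrt Nu)⁻¹ * (Real.sqrt Nu)⁻¹ = Nu⁻¹ := by
    rw [← mul_inv, Real.mul_self_sqrt hNu0.le]
  have hNi : 0 < Nu⁻¹ := by positivity
  have hscal1 : C.D μ ((Real.sqrt Nu)⁻¹ • u) ((Real.sqrt Nu)⁻¹ • u) = Nu⁻¹ * C.D μ u u := by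
    simp only [map_smul, LinearMap.smul_apply, smul_eq_mul]
    rw [← mul_assoc, hs2]
  have hscal2 : C.m ν ((Real.sqrt Nu)⁻¹ • u) ((Real.sqrt Nu)⁻¹ • u) = Nu⁻¹ * C.m ν u u := by
    simp only [map_smul, LinearMap.smul_apply, smul_eq_mul]
    rw [← mul_assoc, hs2]
  have hscal3 : ∫ x, (h ε * C.Γ ((Real.sqrt Nu)⁻¹ • u) ((Real.sqrt Nu)⁻¹ • u)).1 x ∂μ = Nu⁻¹ * Gu := by
    have h1 : h ε * C.Γ ((Real.sqrt Nu)⁻¹ • u) ((Real.sqrt Nu)⁻¹ • u) = Nu⁻¹ • (h ε * C.Γ u u) := by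
      simp only [map_smul, LinearMap.smul_apply]
      rw [smul_smul, hs2, mul_smul_comm]
    rw [h1, C.int_smul, hGu]
  refine ⟨ε, hε0, hεt, (Real.sqrt Nu)⁻¹ • u, fun i => ?_, ?_, ?_, ?_⟩
  · rw [map_smul, hlu, smul_zero]
  · rw [hscal1, hscal2, ← mul_add, ← hNu]
    exact inv_mul_cancel₀ hNu0.ne'
  · rw [hscal1, hscal2]
    have h1 : Nu⁻¹ * C.D μ u u - lam * (Nu⁻¹ * C.m ν u u) = Nu⁻¹ * (C.D μ u u - lam * C.m ν u u) := by ring
    rw [h1]
    have h2 := mul_le_mul_of_nonneg_left hQ1 hNi.le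
    have h3 : Nu⁻¹ * ((K5 + 4 * lam * K4) * t * Nu) = (K5 + 4 * lam * K4) * t := by field_simp
    rw [h3] at h2
    have h4 : 0 ≤ 3 * K5 / (2 * lam) * t := by positivity
    linarith
  · rw [hscal3]
    have h2 := mul_le_mul_of_nonneg_left hG2 hNi.le
    have h3 : Nu⁻¹ * (3 * K5 / (2 * lam) * t * Nu) = 3 * K5 / (2 * lam) * t := by field_simp
    rw [h3] at h2
    have h4 : 0 ≤ (K5 + 4 * lam * K4) * t := by positivity
    linarith

end Calc

end Pool.Agent.Helper89.Stek
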