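import Pool.Agent.Helper89.Stek.Chart
import Pool.Agent.Helper89.Stek.AbsMain

/-!
The calculus of smooth functions on a closed surface.
-/

set_option autoImplicit false

open scoped Manifold ContDiff ENNReal
open MeasureTheory Bundle Set

namespace Pool.Agent.Helper89.Stek

variable {M : Type*} [TopologicalSpace M] [ChartedSpace (ℝ × ℝ) M] [IsManifold 𝓘(ℝ, ℝ × ℝ) ∞ M]

section smooth

variable {φ : OpenPartialHomeomorph M (ℝ × ℝ)} (hφ : φ ∈ IsManifold.maximalAtlas 𝓘(ℝ, ℝ × ℝ) ∞ M)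

include hφ

omit [IsManifold 𝓘(ℝ, ℝ × ℝ) ∞ M] in
lemma comp_symm_contDiffOn {u : M → ℝ} (hu : ContMDiff 𝓘(ℝ, ℝ × ℝ) 𝓘(ℝ) ∞ u) :
    ContDiffOn ℝ ∞ (u ∘ φ.symm) φ.target := by
  rw [← contMDiffOn_iff_contDiffOn]
  exact hu.comp_contMDiffOn (contMDiffOn_symm_of_mem_maximalAtlas hφ)

omit [IsManifold 𝓘(ℝ, ℝ × ℝ) ∞ M] in
lemma pd_contDiffOn {u : M → ℝ} (hu : ContMDiff 𝓘(ℝ, ℝ × ℝ) 𝓘(ℝ) ∞ u) (i : Fin 2) :
    ContDiffOn ℝ ∞ (pd i (u ∘ φ.symm)) φ.target := by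
  have h1 := (comp_symm_contDiffOn hφ hu).fderiv_of_isOpen φ.open_target (m := ∞) (by simp)
  exact h1.clm_apply contDiffOn_const

lemma gradInner_symm_contDiffOn (g : Metric M) {u v : M → ℝ} (hu : ContMDiff 𝓘(ℝ, ℝ × ℝ) 𝓘(ℝ) ∞ u)
    (hv : ContMDiff 𝓘(ℝ, ℝ × ℝ) 𝓘(ℝ) ∞ v) :
    ContDiffOn ℝ ∞ (gradInner g u v ∘ φ.symm) φ.target := by
  have h0 := pd_contDiffOn hφ hu 0
  have h1 := pd_contDiffOn hφ hu 1
  have h2 := pd_contDiffOn hφ hv 0
  have h3 := pd_contDiffOn hφ hv 1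
  have h4 := (((gram_contDiffOn hφ g 1 1).mul (h0.mul h2)).sub
    ((gram_contDiffOn hφ g 0 1).mul ((h0.mul h3).add (h1.mul h2)))).add
    ((gram_contDiffOn hφ g 0 0).mul (h1.mul h3))
  refine (h4.div (det_contDiffOn hφ g) fun y hy => (gram_det_pos hφ g hy).ne').congr fun y hy => ?_
  have h5 := gradInner_chart hφ g hy (hu.mdifferentiable (by simp) (φ.symm y))
    (hv.mdifferentiable (by simp) (φ.symm y))
  have h6 := (gram_det_pos hφ g hy).ne'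
  exact (eq_div_iff h6).2 ((mul_comm _ _).trans h5)

end smooth

lemma gradInner_contMDiff (g : Metric M) {u v : M → ℝ} (hu : ContMDiff 𝓘(ℝ, ℝ × ℝ) 𝓘(ℝ) ∞ u)
    (hv : ContMDiff 𝓘(ℝ, ℝ × ℝ) 𝓘(ℝ) ∞ v) : ContMDiff 𝓘(ℝ, ℝ × ℝ) 𝓘(ℝ) ∞ (gradInner g u v) := by
  intro x
  have hφ : chartAt (ℝ × ℝ) x ∈ IsManifold.maximalAtlas 𝓘(ℝ, ℝ × ℝ) ∞ M := IsManifold.chart_mem_maximalAtlas x
  have h1 := gradInner_symm_contDiffOn hφ g hu hv
  rw [← contMDiffOn_iff_contDiffOn] at h1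
  have h2 := h1.comp (contMDiffOn_of_mem_maximalAtlas hφ) (fun z hz => (chartAt (ℝ × ℝ) x).map_source hz)
  have h3 : ContMDiffOn 𝓘(ℝ, ℝ × ℝ) 𝓘(ℝ) ∞ (gradInner g u v) (chartAt (ℝ × ℝ) x).source := by
    refine h2.congr fun z hz => ?_
    simp only [Function.comp_apply]
    rw [(chartAt (ℝ × ℝ) x).left_inv hz]
  exact h3.contMDiffAt ((chartAt (ℝ × ℝ) x).open_source.mem_nhds (mem_chart_source (ℝ × ℝ) x))

variable (M) in
/-- The algebra of smooth functions. -/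
def smoothAlg : Subalgebra ℝ (M → ℝ) where
  carrier := {u | ContMDiff 𝓘(ℝ, ℝ × ℝ) 𝓘(ℝ) ∞ u}
  mul_mem' := fun ha hb => ContMDiff.mul ha hb
  add_mem' := fun ha hb => ContMDiff.add ha hb
  algebraMap_mem' := fun _ => contMDiff_const

/-- the differential of a real function -/
noncomputable def dd (u : M → ℝ) (x : M) : TangentSpace 𝓘(ℝ, ℝ × ℝ) x →L[ℝ] ℝ := mfderiv 𝓘(ℝ, ℝ × ℝ) 𝓘(ℝ) u x

omit [IsManifold 𝓘(ℝ, ℝ × ℝ) ∞ M] in
lemma dd_add {u v : M → ℝ} {x : M} (hu : MDifferentiableAt 𝓘(ℝ, ℝ × ℝ) 𝓘(ℝ) u x)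
    (hv : MDifferentiableAt 𝓘(ℝ, ℝ × ℝ) 𝓘(ℝ) v x) (w : TangentSpace 𝓘(ℝ, ℝ × ℝ) x) :
    dd (u + v) x w = dd u x w + dd v x w := by
  have h := (hu.hasMFDerivAt.add hv.hasMFDerivAt).mfderiv
  exact congrArg (fun L => L w) h

omit [IsManifold 𝓘(ℝ, ℝ × ℝ) ∞ M] in
lemma dd_smul {u : M → ℝ} {x : M} (hu : MDifferentiableAt 𝓘(ℝ, ℝ × ℝ) 𝓘(ℝ) u x) (c : ℝ)
    (w : TangentSpace 𝓘(ℝ, ℝ × ℝ) x) : dd (c • u) x w = c * dd u x w := by
  have h := (hu.hasMFDerivAt.const_smul c).mfderiv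
  exact congrArg (fun L => L w) h

omit [IsManifold 𝓘(ℝ, ℝ × ℝ) ∞ M] in
lemma dd_mul {u v : M → ℝ} {x : M} (hu : MDifferentiableAt 𝓘(ℝ, ℝ × ℝ) 𝓘(ℝ) u x)
    (hv : MDifferentiableAt 𝓘(ℝ, ℝ × ℝ) 𝓘(ℝ) v x) (w : TangentSpace 𝓘(ℝ, ℝ × ℝ) x) :
    dd (u * v) x w = u x * dd v x w + v x * dd u x w := by
  have h := (hu.hasMFDerivAt.mul hv.hasMFDerivAt).mfderiv
  exact congrArg (fun L => L w) h

omit [IsManifold 𝓘(ℝ, ℝ × ℝ) ∞ M] in
lemma dd_comp {u : M → ℝ} {θ : ℝ → ℝ} {x : M} (hθ : DifferentiableAt ℝ θ (u x))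
    (hu : MDifferentiableAt 𝓘(ℝ, ℝ × ℝ) 𝓘(ℝ) u x) (w : TangentSpace 𝓘(ℝ, ℝ × ℝ) x) :
    dd (θ ∘ u) x w = deriv θ (u x) * dd u x w := by
  have h := (HasMFDerivAt.comp x hθ.hasFDerivAt.hasMFDerivAt hu.hasMFDerivAt).mfderiv
  have h2 := congrArg (fun L => L w) h
  refine Eq.trans (b := (fderiv ℝ θ (u x)) (dd u x w)) h2 ?_
  rw [← toSpanSingleton_deriv, ContinuousLinearMap.toSpanSingleton_apply, smul_eq_mul, mul_comm]

lemma grad_spec' (g : Metric M) (u : M → ℝ) (x : M) (v : TangentSpace 𝓘(ℝ, ℝ × ℝ) x) :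
    g.inner x (grad g u x) v = dd u x v := grad_spec g u x v

lemma inner_add (g : Metric M) (x : M) (a b v : TangentSpace 𝓘(ℝ, ℝ × ℝ) x) :
    g.inner x (a + b) v = g.inner x a v + g.inner x b v := by rw [map_add]; rfl

lemma inner_smul (g : Metric M) (x : M) (c : ℝ) (a v : TangentSpace 𝓘(ℝ, ℝ × ℝ) x) :
    g.inner x (c • a) v = c * g.inner x a v := by rw [map_smul]; rfl

lemma grad_add (g : Metric M) {u v : M → ℝ} {x : M} (hu : MDifferentiableAt 𝓘(ℝ, ℝ × ℝ) 𝓘(ℝ) u x)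
    (hv : MDifferentiableAt 𝓘(ℝ, ℝ × ℝ) 𝓘(ℝ) v x) : grad g (u + v) x = grad g u x + grad g v x := by
  refine inner_ext g fun w => ?_
  rw [grad_spec', inner_add, grad_spec', grad_spec', dd_add hu hv]

lemma grad_smul (g : Metric M) {u : M → ℝ} {x : M} (c : ℝ) (hu : MDifferentiableAt 𝓘(ℝ, ℝ × ℝ) 𝓘(ℝ) u x) :
    grad g (c • u) x = c • grad g u x := by
  refine inner_ext g fun w => ?_
  rw [grad_spec', inner_smul, grad_spec', dd_smul hu]

lemma grad_mul (g : Metric M) {u v : M → ℝ} {x : M} (hu : MDifferentiableAt 𝓘(ℝ, ℝ × ℝ) 𝓘(ℝ) u x)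
    (hv : MDifferentiableAt 𝓘(ℝ, ℝ × ℝ) 𝓘(ℝ) v x) :
    grad g (u * v) x = u x • grad g v x + v x • grad g u x := by
  refine inner_ext g fun w => ?_
  rw [grad_spec', inner_add, inner_smul, inner_smul, grad_spec', grad_spec', dd_mul hu hv]

lemma grad_comp (g : Metric M) {u : M → ℝ} {θ : ℝ → ℝ} {x : M} (hθ : DifferentiableAt ℝ θ (u x))
    (hu : MDifferentiableAt 𝓘(ℝ, ℝ × ℝ) 𝓘(ℝ) u x) :
    grad g (θ ∘ u) x = deriv θ (u x) • grad g u x := by
  refine inner_ext g fun w => ?_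
  rw [grad_spec', inner_smul, grad_spec', dd_comp hθ hu]

variable [CompactSpace M] [MeasurableSpace M] [BorelSpace M]

/-- The calculus of smooth functions on a closed surface. -/
noncomputable def surf (g : Metric M) : Calc M where
  S := smoothAlg M
  meas := fun u => u.2.continuous.measurable
  bdd := fun u => by
    obtain ⟨c, hc⟩ := (isCompact_range u.2.continuous).isBounded.exists_norm_le
    exact ⟨c, fun x => hc _ (mem_range_self x)⟩
  Γ := LinearMap.mk₂ ℝ (fun u v => ⟨gradInner g u.1 v.1, gradInner_contMDiff g u.2 v.2⟩)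
    (fun a b c => by
      ext x
      change g.inner x (grad g (a.1 + b.1) x) (grad g c.1 x) = g.inner x (grad g a.1 x) (grad g c.1 x)
        + g.inner x (grad g b.1 x) (grad g c.1 x)
      rw [grad_add g (a.2.mdifferentiable (by simp) x) (b.2.mdifferentiable (by simp) x), map_add]; rfl)
    (fun a b c => by
      ext x
      change g.inner x (grad g (a • b.1) x) (grad g c.1 x) = a * g.inner x (grad g b.1 x) (grad g c.1 x)
      rw [grad_smul g _ (b.2.mdifferentiable (by simp) x), map_smul]; rfl)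
    (fun a b c => by
      ext x
      change g.inner x (grad g a.1 x) (grad g (b.1 + c.1) x) = g.inner x (grad g a.1 x) (grad g b.1 x)
        + g.inner x (grad g a.1 x) (grad g c.1 x)
      rw [grad_add g (b.2.mdifferentiable (by simp) x) (c.2.mdifferentiable (by simp) x), map_add])
    (fun a b c => by
      ext x
      change g.inner x (grad g b.1 x) (grad g (a • c.1) x) = a * g.inner x (grad g b.1 x) (grad g c.1 x)
      rw [grad_smul g _ (c.2.mdifferentiable (by simp) x), map_smul]; rfl)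
  symm := fun u v => by
    ext x
    exact gradInner_symm g u.1 v.1 x
  nonneg := fun u x => gradInner_nonneg g u.1 x
  leib := fun u v w => by
    ext x
    change g.inner x (grad g (u.1 * v.1) x) (grad g w.1 x) =
      u.1 x * g.inner x (grad g v.1 x) (grad g w.1 x) + v.1 x * g.inner x (grad g u.1 x) (grad g w.1 x)
    rw [grad_mul g (u.2.mdifferentiable (by simp) x) (v.2.mdifferentiable (by simp) x), map_add, map_smul,
      map_smul]
    rfl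
  comp := fun θ hθ u => by
    refine ⟨⟨θ ∘ u.1, hθ.contMDiff.comp u.2⟩, fun x => rfl, fun v x => ?_⟩
    change g.inner x (grad g (θ ∘ u.1) x) (grad g v.1 x) =
      deriv θ (u.1 x) * g.inner x (grad g u.1 x) (grad g v.1 x)
    rw [grad_comp g (hθ.differentiable (by simp) _) (u.2.mdifferentiable (by simp) x), map_smul]
    rfl

end Pool.Agent.Helper89.Stek
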