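import Pool.Agent.Helper89.Stek.Main

/-!
Uniqueness of the length measure of the boundary of a smooth domain. Together with `exists_area`,
`area_unique` and `exists_length_frontier` this shows that the measures `areaMeasure g` and
`lengthMeasure g (frontier Ω)` of the definitions are well defined.
-/

set_option autoImplicit false

open scoped Manifold ContDiff ENNReal Topology
open MeasureTheory Bundle Set Filter

namespace Pool.Agent.Helper89.Stek

variable {M : Type*} [TopologicalSpace M] [ChartedSpace (ℝ × ℝ) M] [IsManifold 𝓘(ℝ, ℝ × ℝ) ∞ M]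
  [MeasurableSpace M] [BorelSpace M] [CompactSpace M] [T2Space M]

theorem length_unique {g : Metric M} {f : M → ℝ} (hf : ContMDiff 𝓘(ℝ, ℝ × ℝ) 𝓘(ℝ) ∞ f)
    (hd : ∀ z, f z = 0 → dd f z ≠ 0) {ν ν' : Measure M} (hν : IsLengthMeasure g {z | f z = 0} ν)
    (hν' : IsLengthMeasure g {z | f z = 0} ν') : ν = ν' := by
  have hloc : ∀ x : M, ∃ U : Set M, IsOpen U ∧ x ∈ U ∧ ν.restrict U = ν'.restrict U := by
    intro x
    by_cases hx : f x = 0
    · obtain ⟨φ, t0, δ, hfl, hxm⟩ := exists_flatAt hf (hd x hx) hx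
      refine ⟨_, hfl.isOpen_image, hxm, ?_⟩
      have key : ∀ κ : Measure M, IsLengthMeasure g {z | f z = 0} κ →
          κ.restrict (φ.symm '' obx t0 δ) = κ.restrict (crv φ '' Ioo (t0 - δ) (t0 + δ)) := by
        intro κ hκ
        refine Measure.restrict_congr_set ?_
        rw [← hfl.obx_inter]
        have h1 : ∀ᵐ z ∂κ, z ∈ {z | f z = 0} := hκ.1
        filter_upwards [h1] with z hz
        exact propext ⟨fun h => ⟨h, hz⟩, fun h => h.1⟩
      rw [key ν hν, key ν' hν', hfl.restrict_eq hν hf.continuous, hfl.restrict_eq hν' hf.continuous]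
    · refine ⟨{z | f z ≠ 0}, isOpen_ne_fun hf.continuous continuous_const, hx, ?_⟩
      have h1 : ν {z | f z ≠ 0} = 0 := hν.1
      have h2 : ν' {z | f z ≠ 0} = 0 := hν'.1
      rw [Measure.restrict_eq_zero.2 h1, Measure.restrict_eq_zero.2 h2]
  choose U hU hxU hUe using hloc
  obtain ⟨t, -, ht⟩ := isCompact_univ.elim_nhds_subcover U (fun x _ => (hU x).mem_nhds (hxU x))
  refine (Measure.ext_iff_of_iUnion_eq_univ (s := fun i : t => U i.1) ?_).2 fun i => hUe i.1
  refine univ_subset_iff.1 fun x hx => ?_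
  obtain ⟨i, hi, hxi⟩ := mem_iUnion₂.1 (ht hx)
  exact mem_iUnion.2 ⟨⟨i, hi⟩, hxi⟩

/-- The area measure exists and is unique. -/
theorem existsUnique_area [Nonempty M] (g : Metric M) : ∃! μ : Measure M, IsAreaMeasure g μ := by
  obtain ⟨μ, hμ⟩ := exists_area g
  exact ⟨μ, hμ, fun μ' hμ' => area_unique hμ' hμ⟩

/-- The length measure of the boundary of a smooth domain exists and is unique. -/
theorem existsUnique_length [ConnectedSpace M] (g : Metric M) {Ω : Set M} (hΩ : IsSmoothDomain Ω) :
    ∃! ν : Measure M, IsLengthMeasure g (frontier Ω) ν := by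
  obtain ⟨f, hf, _, hzero, hd⟩ := exists_defining hΩ
  have h1 : frontier Ω = {z | f z = 0} := by ext z; exact hzero z
  obtain ⟨ν, hν⟩ := exists_length_frontier g hΩ
  refine ⟨ν, hν, fun ν' hν' => ?_⟩
  rw [h1] at hν
  have hν'' : IsLengthMeasure g {z | f z = 0} ν' := by rw [← h1]; exact hν'
  exact length_unique hf hd hν'' hν

end Pool.Agent.Helper89.Stek
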